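import Pool.Agent.Lib.MP_2c6a66_lc.UX.Upper2

/-! The infimum over mixtures is attained. -/

namespace Pool.Agent.Lib.MP_2c6a66_lc.UX

open scoped NNReal Topology ENNReal BoundedContinuousFunction
open Finset Filter MeasureTheory
open UT (HasUT)

noncomputable section

/-- the space of values at the rationals -/
abbrev EE0 : Type := ℚ → unitInterval

/-- a law on values at the rationals with the required properties -/
def Law (c : ℝ) (ν : ProbabilityMeasure EE0) : Prop :=
  (∀ q q' : ℚ, 0 < q → q ≤ q' → ∫ e, max 0 ((e q : ℝ) - e q') ∂(ν : Measure EE0) ≤ 0) ∧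
  ∀ q q' : ℚ, 0 < q → 0 < q' →
    ∫ e, CC q (1 / q') (e q : ℝ) (e q' : ℝ) ∂(ν : Measure EE0) ≤ c

theorem law_of_mix {c : ℝ} (h : MixG c) : ∃ ν : ProbabilityMeasure EE0, Law c ν := by
  obtain ⟨Ω, _, μ, _, k, hmono, h01, hmeas, hcost⟩ := h
  let Φ : Ω → EE0 := fun ω q => ⟨k ω q, (h01 ω q).1, (h01 ω q).2⟩
  have hΦ : Measurable Φ := measurable_pi_lambda _ fun q => (hmeas q).subtype_mk
  have hP : IsProbabilityMeasure (μ.map Φ) := Measure.isProbabilityMeasure_map hΦ.aemeasurable
  have hev : ∀ q : ℚ, Continuous fun e : EE0 => (e q : ℝ) := fun q =>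
    continuous_subtype_val.comp (continuous_apply q)
  refine ⟨⟨μ.map Φ, hP⟩, fun q q' hq hqq => ?_, fun q q' hq hq' => ?_⟩
  · change ∫ e, max 0 ((e q : ℝ) - e q') ∂(μ.map Φ) ≤ 0
    rw [integral_map hΦ.aemeasurable]
    · have : ∀ ω, max 0 (((Φ ω) q : ℝ) - (Φ ω) q') = 0 := by
        intro ω
        refine max_eq_left ?_
        have := hmono ω q q' (by exact_mod_cast hq) (by exact_mod_cast hqq)
        change k ω q - k ω q' ≤ 0
        linarith
      simp only [this, integral_zero]
      exact le_rfl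
    · exact (continuous_const.max ((hev q).sub (hev q'))).aestronglyMeasurable
  · change ∫ e, CC q (1 / q') (e q : ℝ) (e q' : ℝ) ∂(μ.map Φ) ≤ c
    rw [integral_map hΦ.aemeasurable]
    · have := hcost q (1 / q') (by exact_mod_cast hq) (by
        have : (0 : ℝ) < q' := by exact_mod_cast hq'
        positivity)
      rw [one_div_one_div] at this
      exact this
    · have h1 := hev q
      have h2 := hev q'
      unfold CC
      refine Continuous.aestronglyMeasurable ?_
      fun_prop

theorem cont_CC (x y : ℝ) (q q' : ℚ) : Continuous fun e : EE0 => CC x y (e q : ℝ) (e q' : ℝ) := by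
  have h1 : Continuous fun e : EE0 => (e q : ℝ) := continuous_subtype_val.comp (continuous_apply q)
  have h2 : Continuous fun e : EE0 => (e q' : ℝ) :=
    continuous_subtype_val.comp (continuous_apply q')
  unfold CC
  fun_prop

/-- limits of laws -/
theorem law_limit {c : ℝ} (h : ∀ c' > c, ∃ ν, Law c' ν) : ∃ ν, Law c ν := by
  have hc : ∀ n : ℕ, c + 1 / ((n : ℝ) + 1) > c := fun n => by
    have : 0 < 1 / ((n : ℝ) + 1) := by positivity
    linarith
  choose ν hν using fun n : ℕ => h _ (hc n)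
  have hlim : Tendsto (fun n : ℕ => c + 1 / ((n : ℝ) + 1)) atTop (𝓝 c) := by
    have := tendsto_one_div_add_atTop_nhds_zero_nat.const_add c
    rwa [add_zero] at this
  let U : Ultrafilter ℕ := Ultrafilter.of atTop
  have hU : (U : Filter ℕ) ≤ atTop := Ultrafilter.of_le atTop
  obtain ⟨μ, hμ⟩ : ∃ μ : ProbabilityMeasure EE0, Tendsto ν U (𝓝 μ) := by
    have := (U.map ν).le_nhds_lim
    exact ⟨_, this⟩
  have key : ∀ f : EE0 → ℝ, Continuous f → Tendsto (fun n => ∫ e, f e ∂(ν n : Measure EE0)) U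
      (𝓝 (∫ e, f e ∂(μ : Measure EE0))) := by
    intro f hf
    have h1 := ProbabilityMeasure.tendsto_iff_forall_integral_tendsto.1 hμ
      (BoundedContinuousFunction.mkOfCompact ⟨f, hf⟩)
    exact h1
  refine ⟨μ, fun q q' hq hqq => ?_, fun q q' hq hq' => ?_⟩
  · refine le_of_tendsto (key (fun e => max 0 ((e q : ℝ) - e q')) ?_)
      (Eventually.of_forall fun n => (hν n).1 q q' hq hqq)
    have h1 : Continuous fun e : EE0 => (e q : ℝ) :=
      continuous_subtype_val.comp (continuous_apply q)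
    have h2 : Continuous fun e : EE0 => (e q' : ℝ) :=
      continuous_subtype_val.comp (continuous_apply q')
    exact continuous_const.max (h1.sub h2)
  · exact le_of_tendsto_of_tendsto (key _ (cont_CC _ _ q q')) (hlim.mono_left hU)
      (Eventually.of_forall fun n => (hν n).2 q q' hq hq')

/-- left limits -/
def kl (e : EE0) (t : ℝ) : ℝ := ⨆ q : ℚ, if 0 < q ∧ (q : ℝ) < t then (e q : ℝ) else 0

theorem kl_bdd (e : EE0) (t : ℝ) :
    BddAbove (Set.range fun q : ℚ => if 0 < q ∧ (q : ℝ) < t then (e q : ℝ) else 0) := by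
  refine ⟨1, ?_⟩
  rintro _ ⟨q, rfl⟩
  simp only
  split_ifs
  · exact (e q).2.2
  · exact zero_le_one

theorem kl_nonneg (e : EE0) (t : ℝ) : 0 ≤ kl e t := by
  refine le_trans ?_ (le_ciSup (kl_bdd e t) 0)
  simp

theorem kl_le (e : EE0) (t : ℝ) : kl e t ≤ 1 := by
  refine ciSup_le fun q => ?_
  split_ifs
  · exact (e q).2.2
  · exact zero_le_one

theorem kl_mono (e : EE0) {s t : ℝ} (h : s ≤ t) : kl e s ≤ kl e t := by
  refine ciSup_mono (kl_bdd e t) fun q => ?_
  by_cases h1 : 0 < q ∧ (q : ℝ) < s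
  · rw [if_pos h1, if_pos ⟨h1.1, h1.2.trans_le h⟩]
  · rw [if_neg h1]
    split_ifs
    · exact (e q).2.1
    · exact le_rfl

theorem kl_meas (t : ℝ) : Measurable fun e : EE0 => kl e t := by
  unfold kl
  refine Measurable.iSup fun q => ?_
  by_cases h : 0 < q ∧ (q : ℝ) < t
  · simp only [if_pos h]
    exact measurable_subtype_coe.comp (measurable_pi_apply q)
  · simp only [if_neg h]
    exact measurable_const

/-- at monotone values the left limit is a limit -/
theorem kl_lim {e : EE0} (he : ∀ q q' : ℚ, 0 < q → q ≤ q' → (e q : ℝ) ≤ e q') {t : ℝ}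
    {u : ℕ → ℚ} (hu0 : ∀ n, 0 < u n) (hut : ∀ n, (u n : ℝ) < t) (hu : Tendsto (fun n => (u n : ℝ))
      atTop (𝓝 t)) : Tendsto (fun n => (e (u n) : ℝ)) atTop (𝓝 (kl e t)) := by
  rw [tendsto_order]
  constructor
  · intro a ha
    obtain ⟨q, hq⟩ := exists_lt_of_lt_ciSup ha
    by_cases h : 0 < q ∧ (q : ℝ) < t
    · rw [if_pos h] at hq
      filter_upwards [hu.eventually_const_lt h.2] with n hn
      exact hq.trans_le (he q (u n) h.1 (by exact_mod_cast hn.le))
    · rw [if_neg h] at hq
      exact Eventually.of_forall fun n => hq.trans_le (e (u n)).2.1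
  · intro a ha
    refine Eventually.of_forall fun n => lt_of_le_of_lt ?_ ha
    have := le_ciSup (kl_bdd e t) (u n)
    simp only [if_pos (⟨hu0 n, hut n⟩ : 0 < u n ∧ (u n : ℝ) < t)] at this
    exact this

theorem exists_rat_seq {t : ℝ} (ht : 0 < t) : ∃ u : ℕ → ℚ, (∀ n, 0 < u n) ∧
    (∀ n, (u n : ℝ) < t) ∧ Tendsto (fun n => (u n : ℝ)) atTop (𝓝 t) := by
  have h : ∀ n : ℕ, max 0 (t - 1 / ((n : ℝ) + 1)) < t := fun n => by
    have : 0 < 1 / ((n : ℝ) + 1) := by positivity
    exact max_lt ht (by linarith)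
  choose u hu1 hu2 using fun n => exists_rat_btwn (h n)
  refine ⟨u, fun n => ?_, hu2, ?_⟩
  · have := (le_max_left _ _).trans_lt (hu1 n)
    exact_mod_cast this
  · have h1 : Tendsto (fun n : ℕ => t - 1 / ((n : ℝ) + 1)) atTop (𝓝 t) := by
      have := tendsto_one_div_add_atTop_nhds_zero_nat.const_sub t
      rwa [sub_zero] at this
    exact tendsto_of_tendsto_of_tendsto_of_le_of_le h1 tendsto_const_nhds
      (fun n => (le_max_right _ _).trans (hu1 n).le) (fun n => (hu2 n).le)

theorem CC_cont4 : Continuous fun p : ℝ × ℝ × ℝ × ℝ => CC p.1 p.2.1 p.2.2.1 p.2.2.2 := by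
  unfold CC; fun_prop

theorem mix_of_law {c : ℝ} {ν : ProbabilityMeasure EE0} (h : Law c ν) : MixG c := by
  obtain ⟨h1, h2⟩ := h
  -- monotone almost surely
  have hmono : ∀ᵐ e ∂(ν : Measure EE0), ∀ q q' : ℚ, 0 < q → q ≤ q' → (e q : ℝ) ≤ e q' := by
    rw [ae_all_iff]
    intro q
    rw [ae_all_iff]
    intro q'
    by_cases hq : 0 < q
    · by_cases hqq : q ≤ q'
      · have hc1 : Continuous fun e : EE0 => (e q : ℝ) :=
          continuous_subtype_val.comp (continuous_apply q)
        have hc2 : Continuous fun e : EE0 => (e q' : ℝ) :=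
          continuous_subtype_val.comp (continuous_apply q')
        have hint : Integrable (fun e : EE0 => max 0 ((e q : ℝ) - e q')) (ν : Measure EE0) := by
          refine bdd_integrable _ (continuous_const.max (hc1.sub hc2)).measurable (C := 1) ?_
          intro e
          rw [abs_of_nonneg (le_max_left _ _)]
          refine max_le zero_le_one ?_
          linarith [(e q).2.2, (e q').2.1]
        have h0 : ∫ e, max 0 ((e q : ℝ) - e q') ∂(ν : Measure EE0) = 0 :=
          le_antisymm (h1 q q' hq hqq) (integral_nonneg fun e => le_max_left _ _)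
        have hnn : 0 ≤ fun e : EE0 => max (0 : ℝ) ((e q : ℝ) - e q') := fun e => le_max_left _ _
        have h00 := (integral_eq_zero_iff_of_nonneg hnn hint).1 h0
        filter_upwards [h00] with e he _ _
        have : (e q : ℝ) - e q' ≤ 0 := (le_max_right _ _).trans (le_of_eq he)
        linarith
      · exact Eventually.of_forall fun e _ h => absurd h hqq
    · exact Eventually.of_forall fun e h => absurd h hq
  refine ⟨EE0, inferInstance, (ν : Measure EE0), inferInstance, kl,
    fun e x y _ hxy => kl_mono e hxy, fun e x => ⟨kl_nonneg e x, kl_le e x⟩, kl_meas,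
    fun x y hx hy => ?_⟩
  obtain ⟨u, hu0, hut, hu⟩ := exists_rat_seq hx
  obtain ⟨v, hv0, hvt, hv⟩ := exists_rat_seq (show 0 < 1 / y by positivity)
  have hvinv : Tendsto (fun n => 1 / (v n : ℝ)) atTop (𝓝 y) := by
    have := hv.inv₀ (by positivity)
    rw [one_div, inv_inv] at this
    simpa only [one_div] using this
  have hub : ∃ C, ∀ n, |(u n : ℝ)| ≤ C ∧ |1 / (v n : ℝ)| ≤ C := by
    obtain ⟨C1, hC1⟩ := hu.abs.bddAbove_range
    obtain ⟨C2, hC2⟩ := hvinv.abs.bddAbove_range
    exact ⟨max C1 C2, fun n => ⟨(hC1 ⟨n, rfl⟩).trans (le_max_left _ _),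
      (hC2 ⟨n, rfl⟩).trans (le_max_right _ _)⟩⟩
  obtain ⟨C, hC⟩ := hub
  have hlim : Tendsto (fun n => ∫ e, CC (u n) (1 / v n) (e (u n) : ℝ) (e (v n) : ℝ)
      ∂(ν : Measure EE0)) atTop (𝓝 (∫ e, CC x y (kl e x) (kl e (1 / y)) ∂(ν : Measure EE0))) := by
    refine tendsto_integral_of_dominated_convergence (fun _ => 4 * (1 + C + C))
      (fun n => (cont_CC _ _ _ _).aestronglyMeasurable) (integrable_const _) (fun n => ?_) ?_
    · refine Eventually.of_forall fun e => ?_
      rw [Real.norm_eq_abs]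
      have hu' : (0 : ℝ) < u n := by exact_mod_cast hu0 n
      have hv' : (0 : ℝ) < v n := by exact_mod_cast hv0 n
      refine (CC_abs hu'.le (by positivity) (e (u n)).2.1 (e (u n)).2.2 (e (v n)).2.1
        (e (v n)).2.2).trans ?_
      have a1 := (le_abs_self _).trans (hC n).1
      have a2 := (le_abs_self _).trans (hC n).2
      linarith
    · filter_upwards [hmono] with e he
      have l1 := kl_lim he hu0 hut hu
      have l2 := kl_lim he hv0 hvt hv
      exact (CC_cont4.tendsto (x, y, kl e x, kl e (1 / y))).comp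
        (hu.prodMk_nhds (hvinv.prodMk_nhds (l1.prodMk_nhds l2)))
  exact le_of_tendsto hlim (Eventually.of_forall fun n => h2 (u n) (v n) (hu0 n) (hv0 n))

/-- the set of values of mixtures is closed -/
theorem MixG_closed {c : ℝ} (h : ∀ c' > c, MixG c') : MixG c := by
  obtain ⟨ν, hν⟩ := law_limit fun c' hc' => law_of_mix (h c' hc')
  exact mix_of_law hν

theorem MixG_mono {c c' : ℝ} (h : MixG c) (hc : c ≤ c') : MixG c' := by
  obtain ⟨Ω, i, μ, j, k, h1, h2, h3, h4⟩ := h
  exact ⟨Ω, i, μ, j, k, h1, h2, h3, fun x y hx hy => (h4 x y hx hy).trans hc⟩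

end

end Pool.Agent.Lib.MP_2c6a66_lc.UX
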