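import Mathlib

/-! Dyadic block averages. -/

namespace Pool.Agent.Lib.MP_2c6a66_lc.UX

open Finset

noncomputable section

/-- block average -/
def Mb (f : ℕ → ℝ) (i b : ℕ) : ℝ := (1 / 2 ^ i) * ∑ l ∈ range (2 ^ i), f (b * 2 ^ i + l)

theorem Mb_succ (f : ℕ → ℝ) (i b : ℕ) :
    Mb f (i + 1) b = (Mb f i (2 * b) + Mb f i (2 * b + 1)) / 2 := by
  unfold Mb
  have h : 2 ^ (i + 1) = 2 ^ i + 2 ^ i := by ring
  rw [h, Finset.sum_range_add]
  have e1 : ∀ l, f (b * (2 ^ i + 2 ^ i) + l) = f (2 * b * 2 ^ i + l) := fun l => by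
    congr 1; ring
  have e2 : ∀ l, f (2 * b * 2 ^ i + (2 ^ i + l)) = f ((2 * b + 1) * 2 ^ i + l) :=
    fun l => by congr 1; ring
  simp only [e1, e2]
  have h2 : (2 : ℝ) ^ (i + 1) = 2 * 2 ^ i := by ring
  rw [h2]
  field_simp

theorem Mb_const (x : ℝ) (i b : ℕ) : Mb (fun _ => x) i b = x := by
  unfold Mb
  rw [Finset.sum_const, Finset.card_range, nsmul_eq_mul]
  push_cast
  field_simp

theorem Mb_mono {f g : ℕ → ℝ} (h : ∀ j, f j ≤ g j) (i b : ℕ) : Mb f i b ≤ Mb g i b :=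
  mul_le_mul_of_nonneg_left (Finset.sum_le_sum fun l _ => h _) (by positivity)

theorem Mb_nonneg {f : ℕ → ℝ} (h : ∀ j, 0 ≤ f j) (i b : ℕ) : 0 ≤ Mb f i b := by
  have := Mb_mono (f := fun _ => 0) h i b
  rwa [Mb_const] at this

theorem Mb_le {f : ℕ → ℝ} (h : ∀ j, f j ≤ 1) (i b : ℕ) : Mb f i b ≤ 1 := by
  have := Mb_mono (g := fun _ => 1) h i b
  rwa [Mb_const] at this

theorem Mb_one_sub (f : ℕ → ℝ) (i b : ℕ) : Mb (fun j => 1 - f j) i b = 1 - Mb f i b := by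
  have h1 := Mb_const 1 i b
  unfold Mb at *
  rw [Finset.sum_sub_distrib, mul_sub, h1]

theorem sum_double (g : ℕ → ℝ) (n : ℕ) :
    ∑ b ∈ range (2 * n), g b = ∑ b ∈ range n, (g (2 * b) + g (2 * b + 1)) := by
  induction n with
  | zero => simp
  | succ n ih =>
    rw [Finset.sum_range_succ, ← ih, show 2 * (n + 1) = 2 * n + 1 + 1 by ring,
      Finset.sum_range_succ, Finset.sum_range_succ]
    ring

/-- energy -/
def En (f : ℕ → ℝ) (i n : ℕ) : ℝ := (1 / n) * ∑ b ∈ range n, (Mb f i b) ^ 2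

/-- energy drop -/
def Dn (f : ℕ → ℝ) (i n : ℕ) : ℝ :=
  (1 / n) * ∑ b ∈ range n, (Mb f i (2 * b) - Mb f i (2 * b + 1)) ^ 2

theorem En_Dn (f : ℕ → ℝ) (i : ℕ) {n : ℕ} (hn : 0 < n) :
    Dn f i n = 4 * (En f i (2 * n) - En f (i + 1) n) := by
  have hn' : (0 : ℝ) < n := by exact_mod_cast hn
  unfold En Dn
  rw [sum_double]
  push_cast
  rw [Finset.mul_sum, Finset.mul_sum, Finset.mul_sum, ← Finset.sum_sub_distrib, Finset.mul_sum]
  refine Finset.sum_congr rfl fun b _ => ?_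
  rw [Mb_succ]
  field_simp
  ring

theorem En_nonneg (f : ℕ → ℝ) (i n : ℕ) : 0 ≤ En f i n :=
  mul_nonneg (by positivity) (Finset.sum_nonneg fun b _ => sq_nonneg _)

theorem Dn_nonneg (f : ℕ → ℝ) (i n : ℕ) : 0 ≤ Dn f i n :=
  mul_nonneg (by positivity) (Finset.sum_nonneg fun b _ => sq_nonneg _)

theorem En_le {f : ℕ → ℝ} (h0 : ∀ j, 0 ≤ f j) (h1 : ∀ j, f j ≤ 1) (i : ℕ) {n : ℕ}
    (hn : 0 < n) : En f i n ≤ 1 := by
  have hn' : (0 : ℝ) < n := by exact_mod_cast hn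
  unfold En
  have : ∑ b ∈ range n, (Mb f i b) ^ 2 ≤ ∑ _b ∈ range n, (1 : ℝ) :=
    Finset.sum_le_sum fun b _ => by
      have a := Mb_nonneg h0 i b
      have b' := Mb_le h1 i b
      nlinarith
  rw [Finset.sum_const, Finset.card_range, nsmul_eq_mul, mul_one] at this
  rw [one_div, inv_mul_le_iff₀ hn']
  linarith

/-- total energy drop -/
theorem Dn_total {f : ℕ → ℝ} (h0 : ∀ j, 0 ≤ f j) (h1 : ∀ j, f j ≤ 1) (I : ℕ) :
    ∑ i ∈ range I, Dn f i (2 ^ (I - 1 - i)) ≤ 4 := by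
  have e : ∀ i ∈ range I, Dn f i (2 ^ (I - 1 - i))
      = 4 * (En f i (2 ^ (I - i)) - En f (i + 1) (2 ^ (I - (i + 1)))) := by
    intro i hi
    have hi' := Finset.mem_range.1 hi
    rw [En_Dn f i (by positivity)]
    have h2 : 2 * 2 ^ (I - 1 - i) = 2 ^ (I - i) := by
      rw [← pow_succ']
      congr 1
      omega
    have h3 : I - 1 - i = I - (i + 1) := by omega
    rw [h2, h3]
  rw [Finset.sum_congr rfl e, ← Finset.mul_sum,
    Finset.sum_range_sub' (fun i => En f i (2 ^ (I - i)))]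
  have := En_le h0 h1 0 (n := 2 ^ (I - 0)) (by positivity)
  have := En_nonneg f I (2 ^ (I - I))
  linarith

/-- pigeonhole over the scales -/
theorem exists_scale {Θ : Type} [Fintype Θ] (w : Θ → ℝ) (hw : ∀ θ, 0 ≤ w θ) (f : Θ → ℕ → ℝ)
    (h0 : ∀ θ j, 0 ≤ f θ j) (h1 : ∀ θ j, f θ j ≤ 1) {I : ℕ} (hI : 0 < I) :
    ∃ i < I, ∑ θ, w θ * Dn (f θ) i (2 ^ (I - 1 - i)) ≤ 4 * (∑ θ, w θ) / I := by
  by_contra hcon
  push Not at hcon
  have hI' : (0 : ℝ) < I := by exact_mod_cast hI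
  have h2 : ∑ i ∈ range I, ∑ θ, w θ * Dn (f θ) i (2 ^ (I - 1 - i)) ≤ 4 * ∑ θ, w θ := by
    rw [Finset.sum_comm, Finset.mul_sum]
    refine Finset.sum_le_sum fun θ _ => ?_
    rw [← Finset.mul_sum]
    have := mul_le_mul_of_nonneg_left (Dn_total (h0 θ) (h1 θ) I) (hw θ)
    linarith
  have h3 : ∑ i ∈ range I, (4 * (∑ θ, w θ) / I) < ∑ i ∈ range I, ∑ θ, w θ
      * Dn (f θ) i (2 ^ (I - 1 - i)) :=
    Finset.sum_lt_sum_of_nonempty ⟨0, Finset.mem_range.2 hI⟩ fun i hi =>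
      hcon i (Finset.mem_range.1 hi)
  rw [Finset.sum_const, Finset.card_range, nsmul_eq_mul] at h3
  have h4 : (I : ℝ) * (4 * (∑ θ, w θ) / I) = 4 * ∑ θ, w θ := by field_simp
  linarith

/-- from second to first moments -/
theorem abs_moment {Z : Type} [Fintype Z] (w : Z → ℝ) (hw : ∀ z, 0 ≤ w z) (hw1 : ∑ z, w z = 1)
    (f : Z → ℕ → ℝ) (i : ℕ) {n : ℕ} (hn : 0 < n) {d : ℝ} (hd : 0 < d)
    (h : ∑ z, w z * Dn (f z) i n ≤ d ^ 2) :
    ∑ z, w z * ((1 / n) * ∑ b ∈ range n, |Mb (f z) i (2 * b + 1) - Mb (f z) i (2 * b)|)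
      ≤ d := by
  have hn' : (0 : ℝ) < n := by exact_mod_cast hn
  have h1 : ∀ z, (1 / (n : ℝ)) * ∑ b ∈ range n, |Mb (f z) i (2 * b + 1) - Mb (f z) i (2 * b)|
      ≤ d / 2 + Dn (f z) i n / (2 * d) := by
    intro z
    unfold Dn
    have h2 : ∑ b ∈ range n, |Mb (f z) i (2 * b + 1) - Mb (f z) i (2 * b)|
        ≤ ∑ b ∈ range n, (d / 2 + (Mb (f z) i (2 * b) - Mb (f z) i (2 * b + 1)) ^ 2 / (2 * d)) := by
      refine Finset.sum_le_sum fun b _ => ?_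
      set u := Mb (f z) i (2 * b + 1) - Mb (f z) i (2 * b) with hu
      have e : (Mb (f z) i (2 * b) - Mb (f z) i (2 * b + 1)) ^ 2 = |u| ^ 2 := by
        rw [sq_abs, hu]; ring
      rw [e]
      have h3 : 0 ≤ (d - |u|) ^ 2 := sq_nonneg _
      have h4 : d / 2 + |u| ^ 2 / (2 * d) - |u| = (d - |u|) ^ 2 / (2 * d) := by
        field_simp
        ring
      have h5 : 0 ≤ (d - |u|) ^ 2 / (2 * d) := by positivity
      linarith
    have h6 := mul_le_mul_of_nonneg_left h2 (show (0 : ℝ) ≤ 1 / n by positivity)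
    refine h6.trans (le_of_eq ?_)
    rw [Finset.sum_add_distrib, Finset.sum_const, Finset.card_range, nsmul_eq_mul,
      ← Finset.sum_div]
    field_simp
  have h7 : ∑ z, w z * ((1 / (n : ℝ)) * ∑ b ∈ range n,
      |Mb (f z) i (2 * b + 1) - Mb (f z) i (2 * b)|)
      ≤ ∑ z, w z * (d / 2 + Dn (f z) i n / (2 * d)) :=
    Finset.sum_le_sum fun z _ => mul_le_mul_of_nonneg_left (h1 z) (hw z)
  refine h7.trans ?_
  have e : ∑ z, w z * (d / 2 + Dn (f z) i n / (2 * d))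
      = d / 2 * ∑ z, w z + (∑ z, w z * Dn (f z) i n) / (2 * d) := by
    rw [Finset.mul_sum, Finset.sum_div, ← Finset.sum_add_distrib]
    exact Finset.sum_congr rfl fun z _ => by ring
  rw [e, hw1, mul_one]
  have h8 : (∑ z, w z * Dn (f z) i n) / (2 * d) ≤ d ^ 2 / (2 * d) :=
    div_le_div_of_nonneg_right h (by positivity)
  have h9 : d ^ 2 / (2 * d) = d / 2 := by field_simp
  linarith

end

end Pool.Agent.Lib.MP_2c6a66_lc.UX
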