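import Pool.Agent.Lib.MP_2c6a66_lc.LB.Local

/-! Cores: the view of a family of deterministic truthful mechanisms from two positions. -/

namespace Pool.Agent.Lib.MP_2c6a66_lc.UX

open scoped NNReal
open Finset Pool.Agent.Lib.MP_2c6a66_lc.LB

noncomputable section

/-- the two kinds of null jobs -/
def nul (b1 b2 : ℝ≥0) (e : Bool) : T := if e then (0, b1) else (b2, 0)

/-- A finite weighted family of pairs of allocation functions (for two positions `a`, `b` in an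
environment of other jobs). `P1 z s t` is the indicator that the job `s` at `a` goes to machine `0`
when `t` is at `b`, and `P2 z s t` is the indicator that the job `t` at `b` goes to machine `0`. -/
structure Core (D : Set T) (e : ℝ) (bm : ℝ≥0) where
  Z : Type
  [fin : Fintype Z]
  wt : Z → ℝ
  wt_nonneg : ∀ z, 0 ≤ wt z
  wt_sum : ∑ z, wt z ≤ 1
  P1 : Z → T → T → ℝ
  P2 : Z → T → T → ℝ
  P1_01 : ∀ z s t, P1 z s t = 0 ∨ P1 z s t = 1
  P2_01 : ∀ z s t, P2 z s t = 0 ∨ P2 z s t = 1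
  V : Z → T → T → ℝ
  Y : Z → T → T → ℝ
  hV : ∀ z (s1 s1' s2 t1 t1' t2 : ℝ≥0),
    V z (s1', s2) (t1', t2) + ((s1' : ℝ) - s1) * P1 z (s1', s2) (t1', t2)
      + ((t1' : ℝ) - t1) * P2 z (s1', s2) (t1', t2) ≤ V z (s1, s2) (t1, t2)
  hY : ∀ z (s1 s2 s2' t1 t2 t2' : ℝ≥0),
    Y z (s1, s2') (t1, t2') + ((s2' : ℝ) - s2) * (1 - P1 z (s1, s2') (t1, t2'))
      + ((t2' : ℝ) - t2) * (1 - P2 z (s1, s2') (t1, t2')) ≤ Y z (s1, s2) (t1, t2)
  b1 : Z → ℝ≥0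
  b2 : Z → ℝ≥0
  hb1 : ∀ z, b1 z ≤ bm
  hb2 : ∀ z, b2 z ≤ bm
  ea : Z → Bool
  eb : Z → Bool
  bad1 : ∀ s ∈ D, ∑ z, wt z * (1 - P2 z s (0, b1 z)) ≤ e
  bad2 : ∀ s ∈ D, ∑ z, wt z * P2 z s (b2 z, 0) ≤ e
  bad3 : ∀ t ∈ D, ∑ z, wt z * (1 - P1 z (0, b1 z) t) ≤ e
  bad4 : ∀ t ∈ D, ∑ z, wt z * P1 z (b2 z, 0) t ≤ e

namespace Core

attribute [instance] Core.fin

variable {D : Set T} {e : ℝ} {bm : ℝ≥0} (S : Core D e bm)

/-- the job at `a` alone -/
def Ga (z : S.Z) (s : T) : ℝ := S.P1 z s (nul (S.b1 z) (S.b2 z) (S.eb z))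

/-- the job at `b` alone -/
def Gb (z : S.Z) (t : T) : ℝ := S.P2 z (nul (S.b1 z) (S.b2 z) (S.ea z)) t

/-- exchange the two positions -/
def flip : Core D e bm where
  Z := S.Z
  wt := S.wt
  wt_nonneg := S.wt_nonneg
  wt_sum := S.wt_sum
  P1 := fun z s t => S.P2 z t s
  P2 := fun z s t => S.P1 z t s
  P1_01 := fun z s t => S.P2_01 z t s
  P2_01 := fun z s t => S.P1_01 z t s
  V := fun z s t => S.V z t s
  Y := fun z s t => S.Y z t s
  hV := fun z s1 s1' s2 t1 t1' t2 => by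
    have := S.hV z t1 t1' t2 s1 s1' s2
    linarith
  hY := fun z s1 s2 s2' t1 t2 t2' => by
    have := S.hY z t1 t2 t2' s1 s2 s2'
    linarith
  b1 := S.b1
  b2 := S.b2
  hb1 := S.hb1
  hb2 := S.hb2
  ea := S.eb
  eb := S.ea
  bad1 := S.bad3
  bad2 := S.bad4
  bad3 := S.bad1
  bad4 := S.bad2

/-! ### Pathwise consequences of truthfulness -/

theorem P1_nonneg (z : S.Z) (s t : T) : 0 ≤ S.P1 z s t := by
  rcases S.P1_01 z s t with h | h <;> rw [h]; exact zero_le_one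

theorem P1_le (z : S.Z) (s t : T) : S.P1 z s t ≤ 1 := by
  rcases S.P1_01 z s t with h | h <;> rw [h]; exact zero_le_one

theorem P2_nonneg (z : S.Z) (s t : T) : 0 ≤ S.P2 z s t := by
  rcases S.P2_01 z s t with h | h <;> rw [h]; exact zero_le_one

theorem P2_le (z : S.Z) (s t : T) : S.P2 z s t ≤ 1 := by
  rcases S.P2_01 z s t with h | h <;> rw [h]; exact zero_le_one

theorem wmon0 (z : S.Z) (s1 s1' s2 t1 t1' t2 : ℝ≥0) :
    ((s1' : ℝ) - s1) * (S.P1 z (s1', s2) (t1', t2) - S.P1 z (s1, s2) (t1, t2))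
      + ((t1' : ℝ) - t1) * (S.P2 z (s1', s2) (t1', t2) - S.P2 z (s1, s2) (t1, t2)) ≤ 0 := by
  have h1 := S.hV z s1 s1' s2 t1 t1' t2
  have h2 := S.hV z s1' s1 s2 t1' t1 t2
  linarith

theorem wmon1 (z : S.Z) (s1 s2 s2' t1 t2 t2' : ℝ≥0) :
    ((s2' : ℝ) - s2) * (S.P1 z (s1, s2) (t1, t2) - S.P1 z (s1, s2') (t1, t2'))
      + ((t2' : ℝ) - t2) * (S.P2 z (s1, s2) (t1, t2) - S.P2 z (s1, s2') (t1, t2')) ≤ 0 := by
  have h1 := S.hY z s1 s2 s2' t1 t2 t2'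
  have h2 := S.hY z s1 s2' s2 t1 t2' t2
  linarith

theorem P1_anti (z : S.Z) {s1 s1' : ℝ≥0} (h : s1 ≤ s1') (s2 : ℝ≥0) (t : T) :
    S.P1 z (s1', s2) t ≤ S.P1 z (s1, s2) t := by
  rcases h.eq_or_lt with rfl | h
  · exact le_rfl
  · have h1 := S.wmon0 z s1 s1' s2 t.1 t.1 t.2
    have h2 : (0 : ℝ) < (s1' : ℝ) - s1 := sub_pos.2 (by exact_mod_cast h)
    rw [sub_self, zero_mul, add_zero, Prod.mk.eta] at h1
    by_contra hc
    push Not at hc
    have := mul_pos h2 (sub_pos.2 hc)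
    linarith

theorem P1_mono (z : S.Z) (s1 : ℝ≥0) {s2 s2' : ℝ≥0} (h : s2 ≤ s2') (t : T) :
    S.P1 z (s1, s2) t ≤ S.P1 z (s1, s2') t := by
  rcases h.eq_or_lt with rfl | h
  · exact le_rfl
  · have h1 := S.wmon1 z s1 s2 s2' t.1 t.2 t.2
    have h2 : (0 : ℝ) < (s2' : ℝ) - s2 := sub_pos.2 (by exact_mod_cast h)
    rw [sub_self, zero_mul, add_zero, Prod.mk.eta] at h1
    by_contra hc
    push Not at hc
    have := mul_pos h2 (sub_pos.2 hc)
    linarith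

theorem Ga_anti (z : S.Z) {s1 s1' : ℝ≥0} (h : s1 ≤ s1') (s2 : ℝ≥0) :
    S.Ga z (s1', s2) ≤ S.Ga z (s1, s2) := S.P1_anti z h s2 _

theorem Ga_mono (z : S.Z) (s1 : ℝ≥0) {s2 s2' : ℝ≥0} (h : s2 ≤ s2') :
    S.Ga z (s1, s2) ≤ S.Ga z (s1, s2') := S.P1_mono z s1 h _

theorem Ga_nonneg (z : S.Z) (s : T) : 0 ≤ S.Ga z s := S.P1_nonneg z _ _

theorem Ga_le (z : S.Z) (s : T) : S.Ga z s ≤ 1 := S.P1_le z _ _

theorem Ga_01 (z : S.Z) (s : T) : S.Ga z s = 0 ∨ S.Ga z s = 1 := S.P1_01 z _ _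

/-- small change of the first time of the other job -/
theorem shift0 (z : S.Z) {h : ℝ≥0} {t1 t1' : ℝ≥0} (hh : |(t1' : ℝ) - t1| < h)
    (s1 s2 t2 : ℝ≥0) : S.P1 z (s1 + h, s2) (t1, t2) ≤ S.P1 z (s1, s2) (t1', t2) := by
  rcases S.P1_01 z (s1, s2) (t1', t2) with h0 | h0
  · rcases S.P1_01 z (s1 + h, s2) (t1, t2) with h1 | h1
    · rw [h0, h1]
    · exfalso
      have hw := S.wmon0 z s1 (s1 + h) s2 t1' t1 t2
      rw [h0, h1] at hw
      push_cast at hw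
      have hb := abs_lt.1 hh
      rcases S.P2_01 z (s1 + h, s2) (t1, t2) with a | a <;>
      rcases S.P2_01 z (s1, s2) (t1', t2) with b | b <;>
      rw [a, b] at hw <;> linarith [hb.1, hb.2, h.2]
  · rw [h0]; exact S.P1_le z _ _

/-- small change of the second time of the other job -/
theorem shift1 (z : S.Z) {h : ℝ≥0} {t2 t2' : ℝ≥0} (hh : |(t2' : ℝ) - t2| < h)
    (s1 s2 t1 : ℝ≥0) : S.P1 z (s1, s2) (t1, t2) ≤ S.P1 z (s1, s2 + h) (t1, t2') := by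
  rcases S.P1_01 z (s1, s2 + h) (t1, t2') with h0 | h0
  · rcases S.P1_01 z (s1, s2) (t1, t2) with h1 | h1
    · rw [h0, h1]
    · exfalso
      have hw := S.wmon1 z s1 s2 (s2 + h) t1 t2 t2'
      rw [h0, h1] at hw
      push_cast at hw
      have hb := abs_lt.1 hh
      rcases S.P2_01 z (s1, s2) (t1, t2) with a | a <;>
      rcases S.P2_01 z (s1, s2 + h) (t1, t2') with b | b <;>
      rw [a, b] at hw <;> linarith [hb.1, hb.2, h.2]
  · rw [h0]; exact S.P1_le z _ _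

theorem null1_up (z : S.Z) {h β : ℝ≥0} (hh : β < h) (s1 s2 u : ℝ≥0) :
    S.P1 z (s1, s2) (0, β) ≤ S.P1 z (s1, s2 + h) (0, u) + (1 - S.P2 z (s1, s2) (0, β)) := by
  have hh' : (β : ℝ) < h := by exact_mod_cast hh
  rcases S.P2_01 z (s1, s2) (0, β) with h2 | h2
  · rw [h2]; linarith [S.P1_le z (s1, s2) (0, β), S.P1_nonneg z (s1, s2 + h) (0, u)]
  · rcases S.P1_01 z (s1, s2) (0, β) with h1 | h1
    · rw [h1, h2]; linarith [S.P1_nonneg z (s1, s2 + h) (0, u)]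
    · rcases S.P1_01 z (s1, s2 + h) (0, u) with h0 | h0
      · exfalso
        have hw := S.wmon1 z s1 s2 (s2 + h) 0 β u
        rw [h0, h1, h2] at hw
        push_cast at hw
        rcases S.P2_01 z (s1, s2 + h) (0, u) with b | b <;> rw [b] at hw <;>
        nlinarith [β.2, u.2, h.2]
      · rw [h0, h1, h2]; norm_num

theorem null1_dn (z : S.Z) {h β : ℝ≥0} (hh : β < h) (s1 s2 u : ℝ≥0) :
    S.P1 z (s1, s2) (0, u) ≤ S.P1 z (s1, s2 + h) (0, β)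
      + (1 - S.P2 z (s1, s2 + h) (0, β)) := by
  have hh' : (β : ℝ) < h := by exact_mod_cast hh
  rcases S.P2_01 z (s1, s2 + h) (0, β) with h2 | h2
  · rw [h2]; linarith [S.P1_le z (s1, s2) (0, u), S.P1_nonneg z (s1, s2 + h) (0, β)]
  · rcases S.P1_01 z (s1, s2) (0, u) with h1 | h1
    · rw [h1, h2]; linarith [S.P1_nonneg z (s1, s2 + h) (0, β)]
    · rcases S.P1_01 z (s1, s2 + h) (0, β) with h0 | h0
      · exfalso
        have hw := S.wmon1 z s1 s2 (s2 + h) 0 u β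
        rw [h0, h1, h2] at hw
        push_cast at hw
        rcases S.P2_01 z (s1, s2) (0, u) with b | b <;> rw [b] at hw <;>
        nlinarith [β.2, u.2, h.2]
      · rw [h0, h1, h2]; norm_num

theorem null2_up (z : S.Z) {h β : ℝ≥0} (hh : β < h) (s1 s2 u : ℝ≥0) :
    S.P1 z (s1 + h, s2) (u, 0) ≤ S.P1 z (s1, s2) (β, 0) + S.P2 z (s1, s2) (β, 0) := by
  have hh' : (β : ℝ) < h := by exact_mod_cast hh
  rcases S.P2_01 z (s1, s2) (β, 0) with h2 | h2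
  · rcases S.P1_01 z (s1 + h, s2) (u, 0) with h1 | h1
    · rw [h1, h2]; linarith [S.P1_nonneg z (s1, s2) (β, 0)]
    · rcases S.P1_01 z (s1, s2) (β, 0) with h0 | h0
      · exfalso
        have hw := S.wmon0 z s1 (s1 + h) s2 β u 0
        rw [h0, h1, h2] at hw
        push_cast at hw
        rcases S.P2_01 z (s1 + h, s2) (u, 0) with b | b <;> rw [b] at hw <;>
        nlinarith [β.2, u.2, h.2]
      · rw [h0, h1, h2]; norm_num
  · rw [h2]; linarith [S.P1_le z (s1 + h, s2) (u, 0), S.P1_nonneg z (s1, s2) (β, 0)]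

theorem null2_dn (z : S.Z) {h β : ℝ≥0} (hh : β < h) (s1 s2 u : ℝ≥0) :
    S.P1 z (s1 + h, s2) (β, 0) ≤ S.P1 z (s1, s2) (u, 0) + S.P2 z (s1 + h, s2) (β, 0) := by
  have hh' : (β : ℝ) < h := by exact_mod_cast hh
  rcases S.P2_01 z (s1 + h, s2) (β, 0) with h2 | h2
  · rcases S.P1_01 z (s1 + h, s2) (β, 0) with h1 | h1
    · rw [h1, h2]; linarith [S.P1_nonneg z (s1, s2) (u, 0)]
    · rcases S.P1_01 z (s1, s2) (u, 0) with h0 | h0
      · exfalso
        have hw := S.wmon0 z s1 (s1 + h) s2 u β 0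
        rw [h0, h1, h2] at hw
        push_cast at hw
        rcases S.P2_01 z (s1, s2) (u, 0) with b | b <;> rw [b] at hw <;>
        nlinarith [β.2, u.2, h.2]
      · rw [h0, h1, h2]; norm_num
  · rw [h2]; linarith [S.P1_le z (s1 + h, s2) (β, 0), S.P1_nonneg z (s1, s2) (u, 0)]

/-- all null jobs of the environment are equivalent, up to a shift -/
theorem null_null (z : S.Z) {h : ℝ≥0} (hh : bm < h) (e1 e2 : Bool) (s1 s2 : ℝ≥0) :
    S.P1 z (s1 + h, s2) (nul (S.b1 z) (S.b2 z) e1)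
      ≤ S.P1 z (s1, s2 + h) (nul (S.b1 z) (S.b2 z) e2) := by
  have k1 : (S.b1 z : ℝ) < h := by exact_mod_cast (S.hb1 z).trans_lt hh
  have k2 : (S.b2 z : ℝ) < h := by exact_mod_cast (S.hb2 z).trans_lt hh
  have a1 : |((0 : ℝ≥0) : ℝ) - S.b1 z| < h := by
    rw [NNReal.coe_zero, zero_sub, abs_neg, abs_of_nonneg (NNReal.coe_nonneg _)]; exact k1
  have a1' : |(S.b1 z : ℝ) - ((0 : ℝ≥0) : ℝ)| < h := by rw [abs_sub_comm]; exact a1
  have a2 : |((0 : ℝ≥0) : ℝ) - S.b2 z| < h := by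
    rw [NNReal.coe_zero, zero_sub, abs_neg, abs_of_nonneg (NNReal.coe_nonneg _)]; exact k2
  have a2' : |(S.b2 z : ℝ) - ((0 : ℝ≥0) : ℝ)| < h := by rw [abs_sub_comm]; exact a2
  have m1 : ∀ t, S.P1 z (s1 + h, s2) t ≤ S.P1 z (s1, s2 + h) t := fun t =>
    (S.P1_anti z (le_self_add) s2 t).trans (S.P1_mono z s1 le_self_add t)
  cases e1 <;> cases e2
  · exact m1 _
  · exact (S.shift0 z a2 s1 s2 0).trans (S.shift1 z a1' s1 s2 0)
  · refine (S.shift1 z a1 (s1 + h) s2 0).trans (S.shift0 z a2' s1 (s2 + h) 0)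
  · exact m1 _

end Core

end

end Pool.Agent.Lib.MP_2c6a66_lc.UX
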