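import Mathlib

/-! The pair cost, finite mixtures, and mixtures. -/

namespace Pool.Agent.Lib.MP_2c6a66_lc.UX

open Finset MeasureTheory

noncomputable section

/-- the pair cost for the jobs `(1, x)` and `(y, 1)` -/
def gam (x y P Q : ℝ) : ℝ := P + P * Q * y + (1 - P) * x + (1 - P) * (1 - Q)

/-- expected makespan of the jobs `(1, x)` and `(y, 1)` if they go to machine 0 with independent
probabilities `a` and `b` -/
def CC (x y a b : ℝ) : ℝ :=
  (1 + y) * (a * b) + a * (1 - b) + max x y * ((1 - a) * b) + (1 + x) * ((1 - a) * (1 - b))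

theorem CC_ge {x y : ℝ} (h : y ≤ x) (a b : ℝ) : CC x y a b = gam x y a b := by
  unfold CC gam; rw [max_eq_left h]; ring

theorem CC_le {x y : ℝ} (h : x ≤ y) (a b : ℝ) : CC x y a b = gam y x (1 - b) (1 - a) := by
  unfold CC gam; rw [max_eq_right h]; ring

/-- a finite mixture of monotone functions on the half line -/
structure RM where
  Z : Type
  [fin : Fintype Z]
  w : Z → ℝ
  k : Z → ℝ → ℝ
  w0 : ∀ z, 0 ≤ w z
  w1 : ∑ z, w z = 1
  k0 : ∀ z x, 0 ≤ k z x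
  k1 : ∀ z x, k z x ≤ 1
  mono : ∀ z x y, 0 < x → x ≤ y → k z x ≤ k z y

attribute [instance] RM.fin

/-- a mixture with value at most `c` -/
def MixG (c : ℝ) : Prop :=
  ∃ (Ω : Type) (_ : MeasurableSpace Ω) (μ : Measure Ω) (_ : IsProbabilityMeasure μ)
    (k : Ω → ℝ → ℝ),
    (∀ ω x y, 0 < x → x ≤ y → k ω x ≤ k ω y) ∧ (∀ ω x, 0 ≤ k ω x ∧ k ω x ≤ 1) ∧
    (∀ x, Measurable fun ω => k ω x) ∧
    ∀ x y, 0 < x → 0 < y → ∫ ω, CC x y (k ω x) (k ω (1 / y)) ∂μ ≤ c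

end

end Pool.Agent.Lib.MP_2c6a66_lc.UX
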