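import Mathlib

/-! Packed lists of natural numbers. -/

namespace Pool.Agent.Lib.MP_2c6a66_lc.UX

open Finset

/-- digit in base `B` -/
def dig (B N n : ℕ) : ℕ := N / B ^ n % B

theorem dig_succ (B N n : ℕ) : dig B N (n + 1) = dig B (N / B) n := by
  unfold dig
  rw [pow_succ', Nat.div_div_eq_div_mul]

theorem digits_sum {B : ℕ} (W N : ℕ) (h : N < B ^ W) :
    N = ∑ n ∈ range W, dig B N n * B ^ n := by
  induction W generalizing N with
  | zero => simp at h; simp [h]
  | succ W ih =>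
    have h2 : N / B < B ^ W := by
      rcases Nat.eq_zero_or_pos B with h0 | h0
      · subst h0; simp at h
      · rw [Nat.div_lt_iff_lt_mul h0, ← pow_succ]; exact h
    rw [Finset.sum_range_succ']
    have h3 : ∑ n ∈ range W, dig B N (n + 1) * B ^ (n + 1) = B * (N / B) := by
      conv_rhs => rw [ih _ h2]
      rw [Finset.mul_sum]
      refine Finset.sum_congr rfl fun n _ => ?_
      rw [dig_succ]; ring
    rw [h3]
    unfold dig
    simp only [pow_zero, Nat.div_one, mul_one]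
    exact (Nat.div_add_mod N B).symm

theorem dig_sum {B : ℕ} (W : ℕ) (f : ℕ → ℕ) (hf : ∀ n < W, f n < B) {n : ℕ} (hn : n < W) :
    dig B (∑ k ∈ range W, f k * B ^ k) n = f n := by
  induction W generalizing f n with
  | zero => omega
  | succ W ih =>
    have h0 := hf 0 (by omega)
    have hB : 0 < B := by omega
    have e : ∑ k ∈ range (W + 1), f k * B ^ k
        = f 0 + B * ∑ k ∈ range W, f (k + 1) * B ^ k := by
      rw [Finset.sum_range_succ', Finset.mul_sum, pow_zero, mul_one, add_comm]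
      congr 1
      refine Finset.sum_congr rfl fun k _ => ?_
      ring
    rw [e]
    cases n with
    | zero =>
      unfold dig
      rw [pow_zero, Nat.div_one, Nat.add_mul_mod_self_left, Nat.mod_eq_of_lt h0]
    | succ n =>
      rw [dig_succ, Nat.add_mul_div_left _ _ hB, Nat.div_eq_of_lt h0, zero_add]
      exact ih (fun k => f (k + 1)) (fun k hk => hf _ (by omega)) (by omega)

theorem list_sum_lin {B W S K2 : ℕ} (l : List (ℕ × ℕ × ℕ))
    (hl : ∀ r ∈ l, (r.2.1 < B ^ W ∧ r.2.2 < B ^ W) ∧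
      ∀ m < W, dig B r.2.2 m = S - dig B r.2.1 (K2 - m)) {m : ℕ} (hm : m < W) :
    (l.map fun r => r.1 * (dig B r.2.1 m * r.2.1 + dig B r.2.2 m * r.2.2)).sum
      = ∑ n ∈ range W, (l.map fun r => r.1 * (dig B r.2.1 m * dig B r.2.1 n
        + (S - dig B r.2.1 (K2 - m)) * (S - dig B r.2.1 (K2 - n)))).sum * B ^ n := by
  induction l with
  | nil => simp
  | cons r l ih =>
    obtain ⟨⟨b1, b2⟩, b3⟩ := hl r (by simp)
    have e1 := digits_sum W _ b1
    have e2 := digits_sum W _ b2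
    rw [List.map_cons, List.sum_cons, ih fun r hr => hl r (by simp [hr])]
    simp only [List.map_cons, List.sum_cons, add_mul, Finset.sum_add_distrib]
    refine congrArg₂ (fun a b => a + b) ?_ rfl
    have e3 : dig B r.2.1 m * r.2.1 = ∑ n ∈ range W, dig B r.2.1 m * dig B r.2.1 n * B ^ n := by
      conv_lhs => rw [e1]
      rw [Finset.mul_sum]
      refine Finset.sum_congr rfl fun n _ => ?_
      rw [← e1]; ring
    have e4 : dig B r.2.2 m * r.2.2 = ∑ n ∈ range W, (S - dig B r.2.1 (K2 - m))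
        * (S - dig B r.2.1 (K2 - n)) * B ^ n := by
      rw [b3 m hm]
      conv_lhs => rw [e2]
      rw [Finset.mul_sum]
      refine Finset.sum_congr rfl fun n hn => ?_
      rw [b3 n (mem_range.1 hn)]; ring
    rw [e3, e4, ← Finset.sum_add_distrib, Finset.mul_sum]
    exact Finset.sum_congr rfl fun n _ => by ring

theorem moments_lt {B W S K2 WS : ℕ} (l : List (ℕ × ℕ × ℕ))
    (hl : ∀ r ∈ l, ∀ m < W, dig B r.2.1 m ≤ S) (hw : (l.map fun r => r.1).sum = WS)
    (hB : WS * (S * S + S * S) < B) {m n : ℕ} (hm : m < W) (hn : n < W) :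
    (l.map fun r => r.1 * (dig B r.2.1 m * dig B r.2.1 n
        + (S - dig B r.2.1 (K2 - m)) * (S - dig B r.2.1 (K2 - n)))).sum < B := by
  refine lt_of_le_of_lt ?_ hB
  rw [← hw, ← List.sum_map_mul_right]
  refine List.sum_le_sum fun r hr => ?_
  exact Nat.mul_le_mul_left _ (Nat.add_le_add (Nat.mul_le_mul (hl r hr m hm) (hl r hr n hn))
    (Nat.mul_le_mul (Nat.sub_le _ _) (Nat.sub_le _ _)))

theorem row_digit {B W S K2 WS : ℕ} (l : List (ℕ × ℕ × ℕ))
    (hl : ∀ r ∈ l, (r.2.1 < B ^ W ∧ r.2.2 < B ^ W) ∧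
      ∀ m < W, dig B r.2.1 m ≤ S ∧ dig B r.2.2 m = S - dig B r.2.1 (K2 - m))
    (hw : (l.map fun r => r.1).sum = WS) (hB : WS * (S * S + S * S) < B) {m n : ℕ} (hm : m < W)
    (hn : n < W) :
    (l.map fun r => r.1 * (dig B r.2.1 m * dig B r.2.1 n
        + (S - dig B r.2.1 (K2 - m)) * (S - dig B r.2.1 (K2 - n)))).sum
      = dig B (l.map fun r => r.1 * (dig B r.2.1 m * r.2.1 + dig B r.2.2 m * r.2.2)).sum n := by
  rw [list_sum_lin l (fun r hr => ⟨(hl r hr).1, fun m hm => ((hl r hr).2 m hm).2⟩) hm]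
  exact (dig_sum W (fun n => (l.map fun r => r.1 * (dig B r.2.1 m * dig B r.2.1 n
        + (S - dig B r.2.1 (K2 - m)) * (S - dig B r.2.1 (K2 - n)))).sum)
    (fun n hn => moments_lt l (fun r hr m hm => ((hl r hr).2 m hm).1) hw hB hm hn) hn).symm

end Pool.Agent.Lib.MP_2c6a66_lc.UX
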