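import Mathlib

/-! Expectations over finite product spaces. -/

namespace Pool.Agent.Lib.MP_2c6a66_lc.UX

open Finset

noncomputable section

variable {ι A : Type} [Fintype ι] [DecidableEq ι] [Fintype A]

/-- expectation over a product of weights -/
def Epi (ν : ι → A → ℝ) (F : (ι → A) → ℝ) : ℝ := ∑ x : ι → A, (∏ l, ν l (x l)) * F x

theorem prod_upd (ν : ι → A → ℝ) (x : ι → A) (j : ι) (a : A) :
    (∏ l, ν l (Function.update x j a l)) * ν j (x j) = (∏ l, ν l (x l)) * ν j a := by
  rw [← Finset.mul_prod_erase univ (fun l => ν l (Function.update x j a l)) (mem_univ j),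
    ← Finset.mul_prod_erase univ (fun l => ν l (x l)) (mem_univ j), Function.update_self]
  have : ∏ l ∈ univ.erase j, ν l (Function.update x j a l) = ∏ l ∈ univ.erase j, ν l (x l) :=
    Finset.prod_congr rfl fun l hl => by rw [Function.update_of_ne (Finset.ne_of_mem_erase hl)]
  rw [this]
  ring

theorem resample (ν : ι → A → ℝ) (j : ι) (hν : ∑ a, ν j a = 1) (F : (ι → A) → ℝ) :
    Epi ν F = Epi ν fun x => ∑ a, ν j a * F (Function.update x j a) := by
  have hinv : Function.Involutive
      (fun p : (ι → A) × A => (Function.update p.1 j p.2, p.1 j)) := by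
    rintro ⟨x, a⟩
    simp
  let e : Equiv.Perm ((ι → A) × A) := Function.Involutive.toPerm _ hinv
  have h1 := Equiv.sum_comp e (fun p : (ι → A) × A => (∏ l, ν l (p.1 l)) * ν j p.2 * F p.1)
  have h2 : ∑ p : (ι → A) × A, (∏ l, ν l (p.1 l)) * ν j p.2 * F p.1 = Epi ν F := by
    rw [Fintype.sum_prod_type]
    unfold Epi
    refine Finset.sum_congr rfl fun x _ => ?_
    have : ∀ a, (∏ l, ν l (x l)) * ν j a * F x = ((∏ l, ν l (x l)) * F x) * ν j a :=
      fun a => by ring
    simp only [this, ← Finset.mul_sum, hν, mul_one]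
  have h3 : ∑ p : (ι → A) × A, (∏ l, ν l ((e p).1 l)) * ν j (e p).2 * F (e p).1
      = Epi ν fun x => ∑ a, ν j a * F (Function.update x j a) := by
    rw [Fintype.sum_prod_type]
    unfold Epi
    refine Finset.sum_congr rfl fun x _ => ?_
    rw [Finset.mul_sum]
    refine Finset.sum_congr rfl fun a _ => ?_
    change (∏ l, ν l (Function.update x j a l)) * ν j (x j) * F (Function.update x j a) = _
    rw [prod_upd]
    ring
  rw [← h2, ← h3, h1]

theorem Epi_add (ν : ι → A → ℝ) (F G : (ι → A) → ℝ) :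
    Epi ν (fun x => F x + G x) = Epi ν F + Epi ν G := by
  simp only [Epi, mul_add, Finset.sum_add_distrib]

theorem Epi_sub (ν : ι → A → ℝ) (F G : (ι → A) → ℝ) :
    Epi ν (fun x => F x - G x) = Epi ν F - Epi ν G := by
  simp only [Epi, mul_sub, Finset.sum_sub_distrib]

theorem Epi_mul (ν : ι → A → ℝ) (c : ℝ) (F : (ι → A) → ℝ) :
    Epi ν (fun x => c * F x) = c * Epi ν F := by
  simp only [Epi, Finset.mul_sum]
  exact Finset.sum_congr rfl fun x _ => by ring

theorem Epi_sum {B : Type} (s : Finset B) (ν : ι → A → ℝ) (F : B → (ι → A) → ℝ) :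
    Epi ν (fun x => ∑ b ∈ s, F b x) = ∑ b ∈ s, Epi ν (F b) := by
  unfold Epi
  rw [Finset.sum_comm]
  exact Finset.sum_congr rfl fun x _ => Finset.mul_sum _ _ _

theorem Epi_const {ν : ι → A → ℝ} (hν : ∀ l, ∑ a, ν l a = 1) (c : ℝ) :
    Epi ν (fun _ => c) = c := by
  unfold Epi
  rw [← Finset.sum_mul]
  have : ∑ x : ι → A, ∏ l, ν l (x l) = 1 := by
    have h := Finset.prod_univ_sum (fun _ : ι => (univ : Finset A)) ν
    rw [Fintype.piFinset_univ] at h
    rw [← h]
    exact Finset.prod_eq_one fun l _ => hν l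
  rw [this, one_mul]

theorem prod_nn {ν : ι → A → ℝ} (h0 : ∀ l a, 0 ≤ ν l a) (x : ι → A) : 0 ≤ ∏ l, ν l (x l) :=
  Finset.prod_nonneg fun l _ => h0 l _

theorem Epi_mono {ν : ι → A → ℝ} (h0 : ∀ l a, 0 ≤ ν l a) {F G : (ι → A) → ℝ}
    (h : ∀ x, (∀ l, ν l (x l) ≠ 0) → F x ≤ G x) : Epi ν F ≤ Epi ν G := by
  refine Finset.sum_le_sum fun x _ => ?_
  by_cases hx : ∀ l, ν l (x l) ≠ 0
  · exact mul_le_mul_of_nonneg_left (h x hx) (prod_nn h0 x)
  · push Not at hx
    obtain ⟨l, hl⟩ := hx
    have : ∏ l, ν l (x l) = 0 := Finset.prod_eq_zero (mem_univ l) hl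
    rw [this, zero_mul, zero_mul]

theorem Epi_abs_le {ν : ι → A → ℝ} (h0 : ∀ l a, 0 ≤ ν l a) (hν : ∀ l, ∑ a, ν l a = 1)
    {F : (ι → A) → ℝ} {c : ℝ} (h : ∀ x, |F x| ≤ c) : |Epi ν F| ≤ c := by
  have h1 := Epi_mono h0 (F := F) (G := fun _ => c) fun x _ => (abs_le.1 (h x)).2
  have h2 := Epi_mono h0 (F := fun _ => -c) (G := F) fun x _ => (abs_le.1 (h x)).1
  rw [Epi_const hν] at h1 h2
  exact abs_le.2 ⟨h2, h1⟩

/-! ### Uniform weights -/

/-- uniform weights -/
def un (ι : Type) (N : ℕ) : ι → Fin N → ℝ := fun _ _ => 1 / N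

theorem un_nonneg (N : ℕ) (l : ι) (a : Fin N) : 0 ≤ un ι N l a := by
  unfold un; positivity

theorem un_sum {N : ℕ} (hN : 0 < N) (l : ι) : ∑ a, un ι N l a = 1 := by
  unfold un
  rw [Finset.sum_const, Finset.card_univ, Fintype.card_fin, nsmul_eq_mul]
  have : (0 : ℝ) < N := by exact_mod_cast hN
  field_simp

open Classical in
/-- most positions are injective -/
theorem noninj {N : ℕ} (hN : 0 < N) :
    Epi (un ι N) (fun x => if Function.Injective x then 0 else 1)
      ≤ (Fintype.card ι : ℝ) ^ 2 / N := by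
  have h1 : Epi (un ι N) (fun x => if Function.Injective x then 0 else 1)
      ≤ Epi (un ι N) (fun x => ∑ l : ι, ∑ l' : ι, if l ≠ l' ∧ x l = x l' then 1 else 0) := by
    refine Epi_mono (un_nonneg N) fun x _ => ?_
    have hnn : ∀ l l' : ι, (0 : ℝ) ≤ if l ≠ l' ∧ x l = x l' then 1 else 0 := fun l l' => by
      split_ifs <;> norm_num
    split_ifs with h
    · exact Finset.sum_nonneg fun l _ => Finset.sum_nonneg fun l' _ => hnn l l'
    · unfold Function.Injective at h
      push Not at h
      obtain ⟨l, l', he, hne⟩ := h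
      calc (1 : ℝ) = if l ≠ l' ∧ x l = x l' then 1 else 0 := by rw [if_pos ⟨hne, he⟩]
        _ ≤ ∑ l' : ι, if l ≠ l' ∧ x l = x l' then 1 else 0 :=
            Finset.single_le_sum (f := fun l' => if l ≠ l' ∧ x l = x l' then (1 : ℝ) else 0)
              (fun l' _ => hnn l l') (mem_univ l')
        _ ≤ _ := Finset.single_le_sum
            (f := fun l => ∑ l' : ι, if l ≠ l' ∧ x l = x l' then (1 : ℝ) else 0)
            (fun l _ => Finset.sum_nonneg fun l' _ => hnn l l') (mem_univ l)
  refine h1.trans ?_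
  rw [Epi_sum]
  have h2 : ∀ l : ι, Epi (un ι N) (fun x => ∑ l' : ι, if l ≠ l' ∧ x l = x l' then 1 else 0)
      ≤ ∑ _l' : ι, (1 : ℝ) / N := by
    intro l
    rw [Epi_sum]
    refine Finset.sum_le_sum fun l' _ => ?_
    by_cases hl : l = l'
    · have : (fun x : ι → Fin N => if l ≠ l' ∧ x l = x l' then (1 : ℝ) else 0)
          = fun _ => 0 := by
        funext x; simp [hl]
      rw [this, Epi_const (un_sum hN)]
      positivity
    · rw [resample (un ι N) l (un_sum hN l)]
      have : (fun x : ι → Fin N => ∑ a, un ι N l a *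
          (if l ≠ l' ∧ Function.update x l a l = Function.update x l a l' then (1 : ℝ) else 0))
          = fun _ => (1 : ℝ) / N := by
        funext x
        have e : ∀ a, un ι N l a * (if l ≠ l' ∧ Function.update x l a l
            = Function.update x l a l' then (1 : ℝ) else 0)
            = if a = x l' then (1 : ℝ) / N else 0 := by
          intro a
          rw [Function.update_self, Function.update_of_ne (fun h => hl h.symm)]
          by_cases ha : a = x l'
          · rw [if_pos ⟨hl, ha⟩, if_pos ha, mul_one]; rfl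
          · rw [if_neg (fun h => ha h.2), if_neg ha, mul_zero]
        simp only [e, Finset.sum_ite_eq', Finset.mem_univ, if_true]
      rw [this, Epi_const (un_sum hN)]
  refine (Finset.sum_le_sum fun l _ => h2 l).trans (le_of_eq ?_)
  simp only [Finset.sum_const, Finset.card_univ, nsmul_eq_mul]
  ring

/-- independence of two coordinates -/
theorem Epi_two {ν : ι → A → ℝ} (hν : ∀ l, ∑ a, ν l a = 1) {i j : ι} (hij : i ≠ j)
    (f g : A → ℝ) : Epi ν (fun x => f (x i) * g (x j))
      = (∑ a, ν i a * f a) * ∑ a, ν j a * g a := by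
  rw [resample ν i (hν i)]
  have e1 : (fun x : ι → A => ∑ a, ν i a * (f (Function.update x i a i)
      * g (Function.update x i a j))) = fun x => (∑ a, ν i a * f a) * g (x j) := by
    funext x
    rw [Finset.sum_mul]
    refine Finset.sum_congr rfl fun a _ => ?_
    rw [Function.update_self, Function.update_of_ne (fun h => hij h.symm)]
    ring
  rw [e1, Epi_mul, resample ν j (hν j)]
  have e2 : (fun x : ι → A => ∑ a, ν j a * g (Function.update x j a j))
      = fun _ => ∑ a, ν j a * g a := by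
    funext x
    simp only [Function.update_self]
  rw [e2, Epi_const hν]

theorem Epi_one {ν : ι → A → ℝ} (hν : ∀ l, ∑ a, ν l a = 1) (i : ι)
    (f : A → ℝ) : Epi ν (fun x => f (x i)) = ∑ a, ν i a * f a := by
  rw [resample ν i (hν i)]
  have e2 : (fun x : ι → A => ∑ a, ν i a * f (Function.update x i a i))
      = fun _ => ∑ a, ν i a * f a := by
    funext x
    simp only [Function.update_self]
  rw [e2, Epi_const hν]

end

end Pool.Agent.Lib.MP_2c6a66_lc.UX
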