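import Pool.Agent.Lib.MP_2c6a66_lc.UX.Core

/-! Weighted interactions on a grid: boundary terms and the two lattice inequalities. -/

namespace Pool.Agent.Lib.MP_2c6a66_lc.UX

open scoped NNReal Topology
open Finset Filter Pool.Agent.Lib.MP_2c6a66_lc.LB

noncomputable section

/-! ### Sums of total variation type -/

theorem sum_two (N : ℕ) {a : ℕ → ℝ} (ha : ∀ i, 0 ≤ a i) :
    ∑ i ∈ range N, a i ≤ a 0 + a 1 + ∑ i ∈ range N, a (i + 2) := by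
  have h1 : ∑ i ∈ range N, a i ≤ ∑ i ∈ range (N + 2), a i :=
    Finset.sum_le_sum_of_subset_of_nonneg (Finset.range_mono (by omega)) fun i _ _ => ha i
  rw [Finset.sum_range_succ', Finset.sum_range_succ'] at h1
  linarith

theorem tele4 (N : ℕ) {g : ℕ → ℝ} (g0 : ∀ i, 0 ≤ g i) (g1 : ∀ i, g i ≤ 1) :
    ∑ i ∈ range N, (g i - g (i + 4)) ≤ 4 := by
  have e : ∀ N, ∑ i ∈ range N, (g i - g (i + 4))
      = g 0 + g 1 + g 2 + g 3 - (g N + g (N + 1) + g (N + 2) + g (N + 3)) := by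
    intro N
    induction N with
    | zero => simp
    | succ N ih => rw [Finset.sum_range_succ, ih]; ring
  rw [e]
  linarith [g1 0, g1 1, g1 2, g1 3, g0 N, g0 (N + 1), g0 (N + 2), g0 (N + 3)]

theorem tele4' (N : ℕ) {g : ℕ → ℝ} (g0 : ∀ i, 0 ≤ g i) (g1 : ∀ i, g i ≤ 1) :
    ∑ i ∈ range N, (g (i + 4) - g i) ≤ 4 := by
  have := tele4 N (g := fun i => 1 - g i) (fun i => by linarith [g1 i]) (fun i => by linarith [g0 i])
  refine le_trans (le_of_eq (Finset.sum_congr rfl fun i _ => by ring)) this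

theorem tv (N : ℕ) {r1 r3 b : ℝ} (h1 : 0 ≤ r1) (h1' : r1 ≤ 1) (h3 : 0 ≤ r3) (h3' : r3 ≤ 1)
    {f D : ℕ → ℕ → ℝ} (f0 : ∀ i k, 0 ≤ f i k) (f1 : ∀ i k, f i k ≤ 1)
    (fa : ∀ i k, f (i + 1) k ≤ f i k) (fm : ∀ i k, f i k ≤ f i (k + 1))
    (hD : ∀ i k, |D i k| ≤ 1)
    (hD2 : ∀ i < N, ∀ k < N, |D (i + 2) (k + 2)| ≤ f i (k + 4) - f (i + 4) k + b) :
    ∑ i ∈ range N, ∑ k ∈ range N, r1 ^ i * r3 ^ k * |D i k|
      ≤ 6 * (∑ i ∈ range N, r1 ^ i) + 6 * (∑ k ∈ range N, r3 ^ k)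
        + b * ((∑ i ∈ range N, r1 ^ i) * ∑ k ∈ range N, r3 ^ k) := by
  have p1 : ∀ i, 0 ≤ r1 ^ i := fun i => pow_nonneg h1 i
  have p3 : ∀ i, 0 ≤ r3 ^ i := fun i => pow_nonneg h3 i
  have q1 : ∀ i, r1 ^ i ≤ 1 := fun i => pow_le_one₀ h1 h1'
  have q3 : ∀ i, r3 ^ i ≤ 1 := fun i => pow_le_one₀ h3 h3'
  have s1 : ∀ i, r1 ^ (i + 2) ≤ r1 ^ i := fun i => pow_le_pow_of_le_one h1 h1' (by omega)
  have s3 : ∀ i, r3 ^ (i + 2) ≤ r3 ^ i := fun i => pow_le_pow_of_le_one h3 h3' (by omega)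
  have row : ∀ i, ∑ k ∈ range N, r1 ^ i * r3 ^ k * |D i k| ≤ ∑ k ∈ range N, r3 ^ k := by
    intro i
    refine Finset.sum_le_sum fun k _ => ?_
    calc r1 ^ i * r3 ^ k * |D i k| ≤ 1 * r3 ^ k * 1 :=
          mul_le_mul (mul_le_mul_of_nonneg_right (q1 i) (p3 k)) (hD i k) (abs_nonneg _)
            (mul_nonneg zero_le_one (p3 k))
      _ = r3 ^ k := by ring
  have h2 := sum_two N (a := fun i => ∑ k ∈ range N, r1 ^ i * r3 ^ k * |D i k|)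
    (fun i => Finset.sum_nonneg fun k _ => mul_nonneg (mul_nonneg (p1 i) (p3 k)) (abs_nonneg _))
  have inner : ∀ i ∈ range N, ∑ k ∈ range N, r1 ^ (i + 2) * r3 ^ k * |D (i + 2) k|
      ≤ 2 * r1 ^ i + ∑ k ∈ range N, r1 ^ i * r3 ^ k
        * ((f i (k + 4) - f (i + 4) (k + 4)) + (f (i + 4) (k + 4) - f (i + 4) k) + b) := by
    intro i hi
    have h4 := sum_two N (a := fun k => r1 ^ (i + 2) * r3 ^ k * |D (i + 2) k|)
      (fun k => mul_nonneg (mul_nonneg (p1 _) (p3 k)) (abs_nonneg _))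
    refine h4.trans ?_
    have b0 : ∀ k, r1 ^ (i + 2) * r3 ^ k * |D (i + 2) k| ≤ r1 ^ i := by
      intro k
      calc r1 ^ (i + 2) * r3 ^ k * |D (i + 2) k| ≤ r1 ^ i * 1 * 1 :=
            mul_le_mul (mul_le_mul (s1 i) (q3 k) (p3 k) (p1 i)) (hD _ k) (abs_nonneg _)
              (mul_nonneg (p1 i) zero_le_one)
        _ = r1 ^ i := by ring
    have b1 : ∑ k ∈ range N, r1 ^ (i + 2) * r3 ^ (k + 2) * |D (i + 2) (k + 2)|
        ≤ ∑ k ∈ range N, r1 ^ i * r3 ^ k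
        * ((f i (k + 4) - f (i + 4) (k + 4)) + (f (i + 4) (k + 4) - f (i + 4) k) + b) := by
      refine Finset.sum_le_sum fun k hk => ?_
      have := hD2 i (Finset.mem_range.1 hi) k (Finset.mem_range.1 hk)
      refine mul_le_mul (mul_le_mul (s1 i) (s3 k) (p3 _) (p1 i)) (by linarith) (abs_nonneg _)
        (mul_nonneg (p1 i) (p3 k))
    have := b0 0
    have := b0 1
    linarith
  have h5 := Finset.sum_le_sum inner
  rw [Finset.sum_add_distrib, ← Finset.mul_sum] at h5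
  have main : ∑ i ∈ range N, ∑ k ∈ range N, r1 ^ i * r3 ^ k
        * ((f i (k + 4) - f (i + 4) (k + 4)) + (f (i + 4) (k + 4) - f (i + 4) k) + b)
      ≤ 4 * (∑ k ∈ range N, r3 ^ k) + 4 * (∑ i ∈ range N, r1 ^ i)
        + b * ((∑ i ∈ range N, r1 ^ i) * ∑ k ∈ range N, r3 ^ k) := by
    have e : ∀ i k, r1 ^ i * r3 ^ k
        * ((f i (k + 4) - f (i + 4) (k + 4)) + (f (i + 4) (k + 4) - f (i + 4) k) + b)
        = r1 ^ i * r3 ^ k * (f i (k + 4) - f (i + 4) (k + 4))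
          + r1 ^ i * r3 ^ k * (f (i + 4) (k + 4) - f (i + 4) k) + b * (r1 ^ i * r3 ^ k) :=
      fun i k => by ring
    simp only [e, Finset.sum_add_distrib]
    have fa4 : ∀ i k, f (i + 4) k ≤ f i k := fun i k =>
      (fa _ k).trans ((fa _ k).trans ((fa _ k).trans (fa _ k)))
    have fm4 : ∀ i k, f i k ≤ f i (k + 4) := fun i k =>
      (fm i _).trans ((fm i _).trans ((fm i _).trans (fm i _)))
    have m1 : ∑ i ∈ range N, ∑ k ∈ range N, r1 ^ i * r3 ^ k * (f i (k + 4) - f (i + 4) (k + 4))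
        ≤ 4 * (∑ k ∈ range N, r3 ^ k) := by
      rw [Finset.sum_comm, Finset.mul_sum]
      refine Finset.sum_le_sum fun k _ => ?_
      calc ∑ i ∈ range N, r1 ^ i * r3 ^ k * (f i (k + 4) - f (i + 4) (k + 4))
          ≤ ∑ i ∈ range N, r3 ^ k * (f i (k + 4) - f (i + 4) (k + 4)) := by
            refine Finset.sum_le_sum fun i _ => ?_
            refine mul_le_mul_of_nonneg_right ?_ (by linarith [fa4 i (k + 4)])
            calc r1 ^ i * r3 ^ k ≤ 1 * r3 ^ k := mul_le_mul_of_nonneg_right (q1 i) (p3 k)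
              _ = _ := one_mul _
        _ = r3 ^ k * ∑ i ∈ range N, (f i (k + 4) - f (i + 4) (k + 4)) := by
            rw [Finset.mul_sum]
        _ ≤ r3 ^ k * 4 := mul_le_mul_of_nonneg_left
            (tele4 N (g := fun i => f i (k + 4)) (fun i => f0 _ _) (fun i => f1 _ _)) (p3 k)
        _ = 4 * r3 ^ k := by ring
    have m2 : ∑ i ∈ range N, ∑ k ∈ range N, r1 ^ i * r3 ^ k * (f (i + 4) (k + 4) - f (i + 4) k)
        ≤ 4 * (∑ i ∈ range N, r1 ^ i) := by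
      rw [Finset.mul_sum]
      refine Finset.sum_le_sum fun i _ => ?_
      calc ∑ k ∈ range N, r1 ^ i * r3 ^ k * (f (i + 4) (k + 4) - f (i + 4) k)
          ≤ ∑ k ∈ range N, r1 ^ i * (f (i + 4) (k + 4) - f (i + 4) k) := by
            refine Finset.sum_le_sum fun k _ => ?_
            refine mul_le_mul_of_nonneg_right ?_ (by linarith [fm4 (i + 4) k])
            calc r1 ^ i * r3 ^ k ≤ r1 ^ i * 1 := mul_le_mul_of_nonneg_left (q3 k) (p1 i)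
              _ = _ := mul_one _
        _ = r1 ^ i * ∑ k ∈ range N, (f (i + 4) (k + 4) - f (i + 4) k) := by
            rw [Finset.mul_sum]
        _ ≤ r1 ^ i * 4 := mul_le_mul_of_nonneg_left
            (tele4' N (g := fun k => f (i + 4) k) (fun i => f0 _ _) (fun i => f1 _ _)) (p1 i)
        _ = 4 * r1 ^ i := by ring
    have m3 : ∑ i ∈ range N, ∑ k ∈ range N, b * (r1 ^ i * r3 ^ k)
        = b * ((∑ i ∈ range N, r1 ^ i) * ∑ k ∈ range N, r3 ^ k) := by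
      rw [Finset.sum_mul_sum, Finset.mul_sum]
      exact Finset.sum_congr rfl fun i _ => by rw [Finset.mul_sum]
    rw [m3]
    linarith
  have r0 := row 0
  have r1' := row 1
  linarith

/-! ### Perturbation of a lattice inequality -/

theorem perturb {h r1 r2 E : ℝ} (hh : 0 ≤ h) (h1 : 0 ≤ r1) (h1' : r1 ≤ 1) (h2 : 0 ≤ r2)
    (h2' : r2 ≤ 1) (N : ℕ) {F1 F2 : ℕ → ℕ → ℝ}
    (hyp : |(1 - r2) * r1 * ∑ i ∈ range N, ∑ j ∈ range N, r1 ^ i * r2 ^ j * (h * (F1 i j - F1 i 0))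
      - (1 - r1) * r2 * ∑ i ∈ range N, ∑ j ∈ range N, r1 ^ i * r2 ^ j * (h * (F2 i j - F2 0 j))|
      ≤ E) :
    |(1 - r2) * r1 * ∑ i ∈ range N, ∑ j ∈ range N, r1 ^ i * r2 ^ j * (h * F1 i j)
      - (1 - r1) * r2 * ∑ i ∈ range N, ∑ j ∈ range N, r1 ^ i * r2 ^ j * (h * F2 i j)|
      ≤ E + h * (∑ i ∈ range N, r1 ^ i * |F1 i 0|) + h * ∑ j ∈ range N, r2 ^ j * |F2 0 j| := by
  have e1 : ∑ i ∈ range N, ∑ j ∈ range N, r1 ^ i * r2 ^ j * (h * (F1 i j - F1 i 0))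
      = ∑ i ∈ range N, ∑ j ∈ range N, r1 ^ i * r2 ^ j * (h * F1 i j)
        - h * ((∑ j ∈ range N, r2 ^ j) * ∑ i ∈ range N, r1 ^ i * F1 i 0) := by
    rw [mul_comm (∑ j ∈ range N, r2 ^ j), Finset.sum_mul_sum, Finset.mul_sum,
      ← Finset.sum_sub_distrib]
    refine Finset.sum_congr rfl fun i _ => ?_
    rw [Finset.mul_sum, ← Finset.sum_sub_distrib]
    exact Finset.sum_congr rfl fun j _ => by ring
  have e2 : ∑ i ∈ range N, ∑ j ∈ range N, r1 ^ i * r2 ^ j * (h * (F2 i j - F2 0 j))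
      = ∑ i ∈ range N, ∑ j ∈ range N, r1 ^ i * r2 ^ j * (h * F2 i j)
        - h * ((∑ i ∈ range N, r1 ^ i) * ∑ j ∈ range N, r2 ^ j * F2 0 j) := by
    rw [Finset.sum_mul_sum, Finset.mul_sum, ← Finset.sum_sub_distrib]
    refine Finset.sum_congr rfl fun i _ => ?_
    rw [Finset.mul_sum, ← Finset.sum_sub_distrib]
    exact Finset.sum_congr rfl fun j _ => by ring
  rw [e1, e2] at hyp
  have g1 := LB.geom_le h1 N
  have g2 := LB.geom_le h2 N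
  have G1 := geom_nonneg h1 N
  have G2 := geom_nonneg h2 N
  have u1 : 0 ≤ 1 - r1 := by linarith
  have u2 : 0 ≤ 1 - r2 := by linarith
  have a1 : |∑ i ∈ range N, r1 ^ i * F1 i 0| ≤ ∑ i ∈ range N, r1 ^ i * |F1 i 0| :=
    (Finset.abs_sum_le_sum_abs _ _).trans (le_of_eq (Finset.sum_congr rfl fun i _ => by
      rw [abs_mul, abs_of_nonneg (pow_nonneg h1 i)]))
  have a2 : |∑ j ∈ range N, r2 ^ j * F2 0 j| ≤ ∑ j ∈ range N, r2 ^ j * |F2 0 j| :=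
    (Finset.abs_sum_le_sum_abs _ _).trans (le_of_eq (Finset.sum_congr rfl fun i _ => by
      rw [abs_mul, abs_of_nonneg (pow_nonneg h2 i)]))
  set X1 := ∑ i ∈ range N, r1 ^ i * F1 i 0
  set X2 := ∑ j ∈ range N, r2 ^ j * F2 0 j
  set Y1 := ∑ i ∈ range N, r1 ^ i * |F1 i 0|
  set Y2 := ∑ j ∈ range N, r2 ^ j * |F2 0 j|
  have Y1n : 0 ≤ Y1 := (abs_nonneg _).trans a1
  have Y2n : 0 ≤ Y2 := (abs_nonneg _).trans a2
  have k1 : |(1 - r2) * r1 * (h * ((∑ j ∈ range N, r2 ^ j) * X1))| ≤ h * Y1 := by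
    have : (1 - r2) * r1 * (h * ((∑ j ∈ range N, r2 ^ j) * X1))
        = (h * ((1 - r2) * ∑ j ∈ range N, r2 ^ j) * r1) * X1 := by ring
    rw [this, abs_mul, abs_of_nonneg (mul_nonneg (mul_nonneg hh (mul_nonneg u2 G2)) h1)]
    refine mul_le_mul ?_ a1 (abs_nonneg _) hh
    calc h * ((1 - r2) * ∑ j ∈ range N, r2 ^ j) * r1 ≤ h * 1 * 1 :=
          mul_le_mul (mul_le_mul_of_nonneg_left g2 hh) h1' h1 (by linarith)
      _ = h := by ring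
  have k2 : |(1 - r1) * r2 * (h * ((∑ i ∈ range N, r1 ^ i) * X2))| ≤ h * Y2 := by
    have : (1 - r1) * r2 * (h * ((∑ i ∈ range N, r1 ^ i) * X2))
        = (h * ((1 - r1) * ∑ i ∈ range N, r1 ^ i) * r2) * X2 := by ring
    rw [this, abs_mul, abs_of_nonneg (mul_nonneg (mul_nonneg hh (mul_nonneg u1 G1)) h2)]
    refine mul_le_mul ?_ a2 (abs_nonneg _) hh
    calc h * ((1 - r1) * ∑ i ∈ range N, r1 ^ i) * r2 ≤ h * 1 * 1 :=
          mul_le_mul (mul_le_mul_of_nonneg_left g1 hh) h2' h2 (by linarith)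
      _ = h := by ring
  have hyp' := abs_le.1 hyp
  have k1' := abs_le.1 k1
  have k2' := abs_le.1 k2
  refine abs_le.2 ⟨?_, ?_⟩ <;> nlinarith [hyp'.1, hyp'.2, k1'.1, k1'.2, k2'.1, k2'.2]

/-! ### Weighted interactions -/

variable {D : Set T} {e : ℝ} {bm : ℝ≥0} (S : Core D e bm) (φ : S.Z → ℝ) (h : ℝ≥0)

/-- weighted expectation -/
def EE (A : S.Z → ℝ) : ℝ := ∑ z, S.wt z * (φ z * A z)

theorem EE_sub (A B : S.Z → ℝ) : EE S φ (fun z => A z - B z) = EE S φ A - EE S φ B := by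
  simp only [EE, mul_sub, Finset.sum_sub_distrib]

theorem EE_add (A B : S.Z → ℝ) : EE S φ (fun z => A z + B z) = EE S φ A + EE S φ B := by
  simp only [EE, mul_add, Finset.sum_add_distrib]

theorem EE_smul (a : ℝ) (A : S.Z → ℝ) : EE S φ (fun z => a * A z) = a * EE S φ A := by
  simp only [EE, Finset.mul_sum]
  exact Finset.sum_congr rfl fun z _ => by ring

variable {φ}

theorem EE_mono (h0 : ∀ z, 0 ≤ φ z) {A B : S.Z → ℝ} (hAB : ∀ z, A z ≤ B z) :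
    EE S φ A ≤ EE S φ B :=
  Finset.sum_le_sum fun z _ => mul_le_mul_of_nonneg_left
    (mul_le_mul_of_nonneg_left (hAB z) (h0 z)) (S.wt_nonneg z)

theorem EE_nonneg (h0 : ∀ z, 0 ≤ φ z) {A : S.Z → ℝ} (hA : ∀ z, 0 ≤ A z) : 0 ≤ EE S φ A :=
  Finset.sum_nonneg fun z _ => mul_nonneg (S.wt_nonneg z) (mul_nonneg (h0 z) (hA z))

theorem EE_le_sum (h1 : ∀ z, φ z ≤ 1) {A : S.Z → ℝ} (hA : ∀ z, 0 ≤ A z) :
    EE S φ A ≤ ∑ z, S.wt z * A z :=
  Finset.sum_le_sum fun z _ => mul_le_mul_of_nonneg_left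
    (by have := mul_le_mul_of_nonneg_right (h1 z) (hA z); linarith) (S.wt_nonneg z)

theorem EE_le_one (h1 : ∀ z, φ z ≤ 1) {A : S.Z → ℝ} (hA : ∀ z, 0 ≤ A z)
    (hA1 : ∀ z, A z ≤ 1) : EE S φ A ≤ 1 := by
  refine (EE_le_sum S h1 hA).trans ?_
  calc ∑ z, S.wt z * A z ≤ ∑ z, S.wt z * 1 :=
        Finset.sum_le_sum fun z _ => mul_le_mul_of_nonneg_left (hA1 z) (S.wt_nonneg z)
    _ ≤ 1 := by simp only [mul_one]; exact S.wt_sum

theorem EE_abs (h0 : ∀ z, 0 ≤ φ z) (h1 : ∀ z, φ z ≤ 1) {A : S.Z → ℝ} (hA : ∀ z, |A z| ≤ 1) :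
    |EE S φ A| ≤ 1 := by
  have h2 : EE S φ A ≤ EE S φ (fun _ => 1) := EE_mono S h0 fun z => (abs_le.1 (hA z)).2
  have h3 : EE S φ (fun _ => (-1) * (1 : ℝ)) ≤ EE S φ A :=
    EE_mono S h0 fun z => by rw [mul_one]; exact (abs_le.1 (hA z)).1
  rw [EE_smul] at h3
  have h4 := EE_le_one S h1 (A := fun _ => 1) (fun _ => zero_le_one) (fun _ => le_rfl)
  exact abs_le.2 ⟨by linarith, by linarith⟩

variable (φ)

/-- weighted interaction, first position -/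
def F1 (i j k l : ℕ) : ℝ :=
  EE S φ fun z => S.P1 z (gj h i k) (gj h j l) - S.Ga z (gj h i k)

/-- weighted interaction, second position -/
def F2 (i j k l : ℕ) : ℝ :=
  EE S φ fun z => S.P2 z (gj h i k) (gj h j l) - S.Gb z (gj h j l)

theorem F2_eq_flip (i j k l : ℕ) : F2 S φ h i j k l = F1 S.flip φ h j i l k := rfl

theorem F1_eq_flip (i j k l : ℕ) : F1 S φ h i j k l = F2 S.flip φ h j i l k := rfl

/-- weighted marginal -/
def ff (i k : ℕ) : ℝ := EE S φ fun z => S.Ga z (gj h i k)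

variable {φ}

theorem abs_F1 (h0 : ∀ z, 0 ≤ φ z) (h1 : ∀ z, φ z ≤ 1) (i j k l : ℕ) :
    |F1 S φ h i j k l| ≤ 1 := by
  refine EE_abs S h0 h1 fun z => ?_
  have a := S.P1_nonneg z (gj h i k) (gj h j l)
  have b := S.P1_le z (gj h i k) (gj h j l)
  have c := S.Ga_nonneg z (gj h i k)
  have d := S.Ga_le z (gj h i k)
  exact abs_le.2 ⟨by linarith, by linarith⟩

theorem abs_F2 (h0 : ∀ z, 0 ≤ φ z) (h1 : ∀ z, φ z ≤ 1) (i j k l : ℕ) :
    |F2 S φ h i j k l| ≤ 1 := by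
  rw [F2_eq_flip]; exact abs_F1 S.flip h h0 h1 _ _ _ _

theorem gj1 (i k : ℕ) : gj h (i + 1) k = ((i : ℝ≥0) * h + h, (k : ℝ≥0) * h) := by
  unfold gj; rw [Nat.cast_add, Nat.cast_one, add_mul, one_mul]

theorem gj2 (i k : ℕ) : gj h i (k + 1) = ((i : ℝ≥0) * h, (k : ℝ≥0) * h + h) := by
  unfold gj; rw [Nat.cast_add, Nat.cast_one, add_mul, one_mul]

theorem Ga_gj1 (z : S.Z) (i k : ℕ) : S.Ga z (gj h (i + 1) k) ≤ S.Ga z (gj h i k) := by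
  rw [gj1]; exact S.Ga_anti z le_self_add _

theorem Ga_gj2 (z : S.Z) (i k : ℕ) : S.Ga z (gj h i k) ≤ S.Ga z (gj h i (k + 1)) := by
  rw [gj2]; exact S.Ga_mono z _ le_self_add

theorem P1_gj1 (z : S.Z) (i k : ℕ) (t : T) : S.P1 z (gj h (i + 1) k) t ≤ S.P1 z (gj h i k) t := by
  rw [gj1]; exact S.P1_anti z le_self_add _ _

theorem P1_gj2 (z : S.Z) (i k : ℕ) (t : T) : S.P1 z (gj h i k) t ≤ S.P1 z (gj h i (k + 1)) t := by
  rw [gj2]; exact S.P1_mono z _ le_self_add _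

theorem nn (hh : bm < h) (z : S.Z) (e1 e2 : Bool) (i k : ℕ) :
    S.P1 z (gj h (i + 1) k) (nul (S.b1 z) (S.b2 z) e1)
      ≤ S.P1 z (gj h i (k + 1)) (nul (S.b1 z) (S.b2 z) e2) := by
  rw [gj1, gj2]; exact S.null_null z hh e1 e2 _ _

theorem b1_lt (hh : bm < h) (z : S.Z) : S.b1 z < h := (S.hb1 z).trans_lt hh

theorem b2_lt (hh : bm < h) (z : S.Z) : S.b2 z < h := (S.hb2 z).trans_lt hh

theorem upA (hh : bm < h) (z : S.Z) (i k l : ℕ) :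
    S.P1 z (gj h (i + 2) (k + 2)) (gj h 0 l) ≤ S.Ga z (gj h i (k + 4))
      + (1 - S.P2 z (gj h (i + 2) (k + 3)) (0, S.b1 z)) := by
  have e0 : gj h 0 l = (0, (l : ℝ≥0) * h) := by simp [gj]
  have h1 : S.P1 z (gj h (i + 2) (k + 2)) (gj h 0 l)
      ≤ S.P1 z (gj h (i + 2) (k + 3)) (0, S.b1 z)
        + (1 - S.P2 z (gj h (i + 2) (k + 3)) (0, S.b1 z)) := by
    rw [e0, gj2 h (i + 2) (k + 2)]
    exact S.null1_dn z (b1_lt S h hh z) _ _ _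
  have h2 := nn S h hh z true (S.eb z) (i + 1) (k + 3)
  have h3 := Ga_gj1 S h z i (k + 4)
  have h4 : nul (S.b1 z) (S.b2 z) true = (0, S.b1 z) := rfl
  rw [h4] at h2
  have h5 : S.Ga z (gj h (i + 1) (k + 4))
    = S.P1 z (gj h (i + 1) (k + 3 + 1)) (nul (S.b1 z) (S.b2 z) (S.eb z)) := rfl
  rw [← h5] at h2
  linarith

theorem dnA (hh : bm < h) (z : S.Z) (i k l : ℕ) :
    S.Ga z (gj h (i + 4) k) ≤ S.P1 z (gj h (i + 2) (k + 2)) (gj h 0 l)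
      + (1 - S.P2 z (gj h (i + 3) (k + 1)) (0, S.b1 z)) := by
  have e0 : gj h 0 l = (0, (l : ℝ≥0) * h) := by simp [gj]
  have h1 : S.P1 z (gj h (i + 3) (k + 1)) (0, S.b1 z)
      ≤ S.P1 z (gj h (i + 3) (k + 2)) (gj h 0 l)
        + (1 - S.P2 z (gj h (i + 3) (k + 1)) (0, S.b1 z)) := by
    rw [e0, gj2 h (i + 3) (k + 1)]
    exact S.null1_up z (b1_lt S h hh z) _ _ _
  have h2 := nn S h hh z (S.eb z) true (i + 3) k
  have h3 := P1_gj1 S h z (i + 2) (k + 2) (gj h 0 l)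
  have h4 : nul (S.b1 z) (S.b2 z) true = (0, S.b1 z) := rfl
  rw [h4] at h2
  have h5 : S.Ga z (gj h (i + 4) k)
    = S.P1 z (gj h (i + 3 + 1) k) (nul (S.b1 z) (S.b2 z) (S.eb z)) := rfl
  rw [h5]
  linarith

theorem upB (hh : bm < h) (z : S.Z) (i k j : ℕ) :
    S.P1 z (gj h (i + 2) (k + 2)) (gj h j 0) ≤ S.Ga z (gj h i (k + 4))
      + S.P2 z (gj h (i + 1) (k + 2)) (S.b2 z, 0) := by
  have e0 : gj h j 0 = ((j : ℝ≥0) * h, 0) := by simp [gj]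
  have h1 : S.P1 z (gj h (i + 2) (k + 2)) (gj h j 0)
      ≤ S.P1 z (gj h (i + 1) (k + 2)) (S.b2 z, 0)
        + S.P2 z (gj h (i + 1) (k + 2)) (S.b2 z, 0) := by
    rw [e0, gj1 h (i + 1) (k + 2)]
    exact S.null2_up z (b2_lt S h hh z) _ _ _
  have h2 := nn S h hh z false (S.eb z) i (k + 2)
  have h3 := Ga_gj2 S h z i (k + 3)
  have h4 : nul (S.b1 z) (S.b2 z) false = (S.b2 z, 0) := rfl
  rw [h4] at h2
  have h5 : S.Ga z (gj h i (k + 3))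
    = S.P1 z (gj h i (k + 2 + 1)) (nul (S.b1 z) (S.b2 z) (S.eb z)) := rfl
  rw [← h5] at h2
  linarith

theorem dnB (hh : bm < h) (z : S.Z) (i k j : ℕ) :
    S.Ga z (gj h (i + 4) k) ≤ S.P1 z (gj h (i + 2) (k + 2)) (gj h j 0)
      + S.P2 z (gj h (i + 3) (k + 1)) (S.b2 z, 0) := by
  have e0 : gj h j 0 = ((j : ℝ≥0) * h, 0) := by simp [gj]
  have h1 : S.P1 z (gj h (i + 3) (k + 1)) (S.b2 z, 0)
      ≤ S.P1 z (gj h (i + 2) (k + 1)) (gj h j 0)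
        + S.P2 z (gj h (i + 3) (k + 1)) (S.b2 z, 0) := by
    rw [e0, gj1 h (i + 2) (k + 1)]
    exact S.null2_dn z (b2_lt S h hh z) _ _ _
  have h2 := nn S h hh z (S.eb z) false (i + 3) k
  have h3 := P1_gj2 S h z (i + 2) (k + 1) (gj h j 0)
  have h4 : nul (S.b1 z) (S.b2 z) false = (S.b2 z, 0) := rfl
  rw [h4] at h2
  have h5 : S.Ga z (gj h (i + 4) k)
    = S.P1 z (gj h (i + 3 + 1) k) (nul (S.b1 z) (S.b2 z) (S.eb z)) := rfl
  rw [h5]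
  linarith

/-- the grid is contained in the set of admissible jobs -/
def HasGrid (D : Set T) (h : ℝ≥0) (N : ℕ) : Prop := ∀ i k, i ≤ N + 4 → k ≤ N + 4 → gj h i k ∈ D

theorem sq_bound (h0 : ∀ z, 0 ≤ φ z) (h1 : ∀ z, φ z ≤ 1) {x g lo hi q1 q2 : S.Z → ℝ} {b : ℝ}
    (hx : ∀ z, x z ≤ hi z + q1 z) (hx' : ∀ z, lo z ≤ x z + q2 z) (hg : ∀ z, lo z ≤ g z)
    (hg' : ∀ z, g z ≤ hi z) (n1 : ∀ z, 0 ≤ q1 z) (n2 : ∀ z, 0 ≤ q2 z)
    (s1 : ∑ z, S.wt z * q1 z ≤ b) (s2 : ∑ z, S.wt z * q2 z ≤ b) :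
    |EE S φ fun z => x z - g z| ≤ EE S φ hi - EE S φ lo + 2 * b := by
  have u1 := (EE_le_sum S h1 n1).trans s1
  have u2 := (EE_le_sum S h1 n2).trans s2
  have k1 : EE S φ (fun z => x z - g z) ≤ EE S φ hi - EE S φ lo + EE S φ q1 := by
    rw [← EE_sub, ← EE_add]
    exact EE_mono S h0 fun z => by linarith [hx z, hg z]
  have k2 : EE S φ (fun z => g z - x z) ≤ EE S φ hi - EE S φ lo + EE S φ q2 := by
    rw [← EE_sub, ← EE_add]
    exact EE_mono S h0 fun z => by linarith [hx' z, hg' z]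
  have k3 : EE S φ (fun z => g z - x z) = - EE S φ (fun z => x z - g z) := by
    rw [EE_sub, EE_sub]; ring
  have m1 := EE_nonneg S h0 n1
  have m2 := EE_nonneg S h0 n2
  rw [k3] at k2
  exact abs_le.2 ⟨by linarith, by linarith⟩

theorem Ga_mid (z : S.Z) (i k : ℕ) : S.Ga z (gj h (i + 4) k) ≤ S.Ga z (gj h (i + 2) (k + 2))
    ∧ S.Ga z (gj h (i + 2) (k + 2)) ≤ S.Ga z (gj h i (k + 4)) := by
  constructor
  · calc S.Ga z (gj h (i + 4) k) ≤ S.Ga z (gj h (i + 3) k) := Ga_gj1 S h z _ _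
      _ ≤ S.Ga z (gj h (i + 2) k) := Ga_gj1 S h z _ _
      _ ≤ S.Ga z (gj h (i + 2) (k + 1)) := Ga_gj2 S h z _ _
      _ ≤ _ := Ga_gj2 S h z _ _
  · calc S.Ga z (gj h (i + 2) (k + 2)) ≤ S.Ga z (gj h (i + 1) (k + 2)) := Ga_gj1 S h z _ _
      _ ≤ S.Ga z (gj h i (k + 2)) := Ga_gj1 S h z _ _
      _ ≤ S.Ga z (gj h i (k + 3)) := Ga_gj2 S h z _ _
      _ ≤ _ := Ga_gj2 S h z _ _

theorem bdA (he : 0 ≤ e) (hh : bm < h) (h0 : ∀ z, 0 ≤ φ z) (h1 : ∀ z, φ z ≤ 1) {N : ℕ}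
    (hD : HasGrid D h N) {i k : ℕ} (hi : i < N) (hk : k < N) (l : ℕ) :
    |F1 S φ h (i + 2) 0 (k + 2) l| ≤ ff S φ h i (k + 4) - ff S φ h (i + 4) k
      + 2 * e := by
  refine sq_bound S h0 h1 (fun z => upA S h hh z i k l) (fun z => dnA S h hh z i k l)
    (fun z => (Ga_mid S h z i k).1) (fun z => (Ga_mid S h z i k).2)
    (fun z => by linarith [S.P2_le z (gj h (i + 2) (k + 3)) (0, S.b1 z)])
    (fun z => by linarith [S.P2_le z (gj h (i + 3) (k + 1)) (0, S.b1 z)]) ?_ ?_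
  · exact S.bad1 _ (hD _ _ (by omega) (by omega))
  · exact S.bad1 _ (hD _ _ (by omega) (by omega))

theorem bdB (he : 0 ≤ e) (hh : bm < h) (h0 : ∀ z, 0 ≤ φ z) (h1 : ∀ z, φ z ≤ 1) {N : ℕ}
    (hD : HasGrid D h N) {i k : ℕ} (hi : i < N) (hk : k < N) (j : ℕ) :
    |F1 S φ h (i + 2) j (k + 2) 0| ≤ ff S φ h i (k + 4) - ff S φ h (i + 4) k
      + 2 * e := by
  refine sq_bound S h0 h1 (fun z => upB S h hh z i k j) (fun z => dnB S h hh z i k j)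
    (fun z => (Ga_mid S h z i k).1) (fun z => (Ga_mid S h z i k).2)
    (fun z => S.P2_nonneg z _ _) (fun z => S.P2_nonneg z _ _) ?_ ?_
  · exact S.bad2 _ (hD _ _ (by omega) (by omega))
  · exact S.bad2 _ (hD _ _ (by omega) (by omega))

/-- the boundary error -/
def bN (e : ℝ) : ℝ := 2 * e

theorem tvF {N : ℕ} (h0 : ∀ z, 0 ≤ φ z) (h1 : ∀ z, φ z ≤ 1) {r1 r3 : ℝ} (hr1 : 0 ≤ r1)
    (hr1' : r1 ≤ 1) (hr3 : 0 ≤ r3) (hr3' : r3 ≤ 1) {D' : ℕ → ℕ → ℝ} (hD1 : ∀ i k, |D' i k| ≤ 1)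
    (hD2 : ∀ i < N, ∀ k < N, |D' (i + 2) (k + 2)| ≤ ff S φ h i (k + 4) - ff S φ h (i + 4) k
      + bN e) :
    ∑ i ∈ range N, ∑ k ∈ range N, r1 ^ i * r3 ^ k * |D' i k|
      ≤ 6 * (∑ i ∈ range N, r1 ^ i) + 6 * (∑ k ∈ range N, r3 ^ k)
        + bN e * ((∑ i ∈ range N, r1 ^ i) * ∑ k ∈ range N, r3 ^ k) :=
  tv N hr1 hr1' hr3 hr3' (f := ff S φ h)
    (fun i k => EE_nonneg S h0 fun z => S.Ga_nonneg z _)
    (fun i k => EE_le_one S h1 (fun z => S.Ga_nonneg z _) fun z => S.Ga_le z _)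
    (fun i k => EE_mono S h0 fun z => Ga_gj1 S h z _ _)
    (fun i k => EE_mono S h0 fun z => Ga_gj2 S h z _ _) hD1 hD2

/-! ### The lattices -/

theorem latA' (h0 : ∀ z, 0 ≤ φ z) (h1 : ∀ z, φ z ≤ 1) (k l : ℕ) :
    Lat h (fun i j => EE S φ fun z => S.V z (gj h i k) (gj h j l))
      (fun i j => EE S φ fun z => S.P1 z (gj h i k) (gj h j l))
      (fun i j => EE S φ fun z => S.P2 z (gj h i k) (gj h j l))
      (fun i => EE S φ fun z => S.P1 z (gj h i k) (gj h 0 l))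
      (fun j => EE S φ fun z => S.P2 z (gj h 0 k) (gj h j l)) := by
  have e1 : ∀ i : ℕ, (((i : ℝ≥0) * h + h : ℝ≥0) : ℝ) - (((i : ℝ≥0) * h : ℝ≥0) : ℝ) = h := by
    intro i; push_cast; ring
  have e2 : ∀ i : ℕ, (((i : ℝ≥0) * h : ℝ≥0) : ℝ) - (((i : ℝ≥0) * h + h : ℝ≥0) : ℝ) = -h := by
    intro i; push_cast; ring
  refine ⟨fun i j => EE_nonneg S h0 fun z => S.P1_nonneg z _ _,
    fun i j => EE_le_one S h1 (fun z => S.P1_nonneg z _ _) fun z => S.P1_le z _ _,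
    fun i j => EE_nonneg S h0 fun z => S.P2_nonneg z _ _,
    fun i j => EE_le_one S h1 (fun z => S.P2_nonneg z _ _) fun z => S.P2_le z _ _,
    ?_, ?_, ?_, ?_, fun i => rfl, fun j => rfl⟩
  · intro i j
    rw [← EE_smul, ← EE_add]
    refine EE_mono S h0 fun z => ?_
    have := S.hV z ((i : ℝ≥0) * h) ((i : ℝ≥0) * h + h) ((k : ℝ≥0) * h) ((j : ℝ≥0) * h)
      ((j : ℝ≥0) * h) ((l : ℝ≥0) * h)
    rw [e1, sub_self, zero_mul, add_zero, ← gj1] at this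
    exact this
  · intro i j
    rw [← EE_smul, ← EE_sub]
    refine EE_mono S h0 fun z => ?_
    have := S.hV z ((i : ℝ≥0) * h + h) ((i : ℝ≥0) * h) ((k : ℝ≥0) * h) ((j : ℝ≥0) * h)
      ((j : ℝ≥0) * h) ((l : ℝ≥0) * h)
    rw [e2, sub_self, zero_mul, add_zero, ← gj1] at this
    change S.V z (gj h i k) (gj h j l) + -(h : ℝ) * S.P1 z (gj h i k) (gj h j l)
      ≤ S.V z (gj h (i + 1) k) (gj h j l) at this
    linarith
  · intro i j
    rw [← EE_smul, ← EE_add]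
    refine EE_mono S h0 fun z => ?_
    have := S.hV z ((i : ℝ≥0) * h) ((i : ℝ≥0) * h) ((k : ℝ≥0) * h) ((j : ℝ≥0) * h)
      ((j : ℝ≥0) * h + h) ((l : ℝ≥0) * h)
    rw [e1, sub_self, zero_mul, add_zero, ← gj1] at this
    exact this
  · intro i j
    rw [← EE_smul, ← EE_sub]
    refine EE_mono S h0 fun z => ?_
    have := S.hV z ((i : ℝ≥0) * h) ((i : ℝ≥0) * h) ((k : ℝ≥0) * h) ((j : ℝ≥0) * h + h)
      ((j : ℝ≥0) * h) ((l : ℝ≥0) * h)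
    rw [e2, sub_self, zero_mul, add_zero, ← gj1] at this
    change S.V z (gj h i k) (gj h j l) + -(h : ℝ) * S.P2 z (gj h i k) (gj h j l)
      ≤ S.V z (gj h i k) (gj h (j + 1) l) at this
    linarith

theorem latB' (h0 : ∀ z, 0 ≤ φ z) (h1 : ∀ z, φ z ≤ 1) (i j : ℕ) :
    Lat h (fun k l => EE S φ fun z => S.Y z (gj h i k) (gj h j l))
      (fun k l => EE S φ fun z => 1 - S.P1 z (gj h i k) (gj h j l))
      (fun k l => EE S φ fun z => 1 - S.P2 z (gj h i k) (gj h j l))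
      (fun k => EE S φ fun z => 1 - S.P1 z (gj h i k) (gj h j 0))
      (fun l => EE S φ fun z => 1 - S.P2 z (gj h i 0) (gj h j l)) := by
  have e1 : ∀ i : ℕ, (((i : ℝ≥0) * h + h : ℝ≥0) : ℝ) - (((i : ℝ≥0) * h : ℝ≥0) : ℝ) = h := by
    intro i; push_cast; ring
  have e2 : ∀ i : ℕ, (((i : ℝ≥0) * h : ℝ≥0) : ℝ) - (((i : ℝ≥0) * h + h : ℝ≥0) : ℝ) = -h := by
    intro i; push_cast; ring
  have n1 : ∀ z s t, 0 ≤ 1 - S.P1 z s t := fun z s t => by linarith [S.P1_le z s t]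
  have n1' : ∀ z s t, 1 - S.P1 z s t ≤ 1 := fun z s t => by linarith [S.P1_nonneg z s t]
  have n2 : ∀ z s t, 0 ≤ 1 - S.P2 z s t := fun z s t => by linarith [S.P2_le z s t]
  have n2' : ∀ z s t, 1 - S.P2 z s t ≤ 1 := fun z s t => by linarith [S.P2_nonneg z s t]
  refine ⟨fun k l => EE_nonneg S h0 fun z => n1 z _ _,
    fun k l => EE_le_one S h1 (fun z => n1 z _ _) fun z => n1' z _ _,
    fun k l => EE_nonneg S h0 fun z => n2 z _ _,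
    fun k l => EE_le_one S h1 (fun z => n2 z _ _) fun z => n2' z _ _,
    ?_, ?_, ?_, ?_, fun k => rfl, fun l => rfl⟩
  · intro k l
    rw [← EE_smul, ← EE_add]
    refine EE_mono S h0 fun z => ?_
    have := S.hY z ((i : ℝ≥0) * h) ((k : ℝ≥0) * h) ((k : ℝ≥0) * h + h) ((j : ℝ≥0) * h)
      ((l : ℝ≥0) * h) ((l : ℝ≥0) * h)
    rw [e1, sub_self, zero_mul, add_zero, ← gj2] at this
    exact this
  · intro k l
    rw [← EE_smul, ← EE_sub]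
    refine EE_mono S h0 fun z => ?_
    have := S.hY z ((i : ℝ≥0) * h) ((k : ℝ≥0) * h + h) ((k : ℝ≥0) * h) ((j : ℝ≥0) * h)
      ((l : ℝ≥0) * h) ((l : ℝ≥0) * h)
    rw [e2, sub_self, zero_mul, add_zero, ← gj2] at this
    change S.Y z (gj h i k) (gj h j l) + -(h : ℝ) * (1 - S.P1 z (gj h i k) (gj h j l))
      ≤ S.Y z (gj h i (k + 1)) (gj h j l) at this
    linarith
  · intro k l
    rw [← EE_smul, ← EE_add]
    refine EE_mono S h0 fun z => ?_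
    have := S.hY z ((i : ℝ≥0) * h) ((k : ℝ≥0) * h) ((k : ℝ≥0) * h) ((j : ℝ≥0) * h)
      ((l : ℝ≥0) * h) ((l : ℝ≥0) * h + h)
    rw [e1, sub_self, zero_mul, add_zero, ← gj2] at this
    exact this
  · intro k l
    rw [← EE_smul, ← EE_sub]
    refine EE_mono S h0 fun z => ?_
    have := S.hY z ((i : ℝ≥0) * h) ((k : ℝ≥0) * h) ((k : ℝ≥0) * h) ((j : ℝ≥0) * h)
      ((l : ℝ≥0) * h + h) ((l : ℝ≥0) * h)
    rw [e2, sub_self, zero_mul, add_zero, ← gj2] at this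
    change S.Y z (gj h i k) (gj h j l) + -(h : ℝ) * (1 - S.P2 z (gj h i k) (gj h j l))
      ≤ S.Y z (gj h i k) (gj h j (l + 1)) at this
    linarith

theorem rowA (h0 : ∀ z, 0 ≤ φ z) (h1 : ∀ z, φ z ≤ 1) {r1 r2 : ℝ} (hr1 : 0 ≤ r1) (hr1' : r1 ≤ 1)
    (hr2 : 0 ≤ r2) (hr2' : r2 ≤ 1) (N k l : ℕ) :
    |(1 - r2) * r1 * ∑ i ∈ range N, ∑ j ∈ range N, r1 ^ i * r2 ^ j * (h * F1 S φ h i j k l)
      - (1 - r1) * r2 * ∑ i ∈ range N, ∑ j ∈ range N, r1 ^ i * r2 ^ j * (h * F2 S φ h i j k l)|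
      ≤ (4 * h + h * (N + 1) * (r1 ^ N + r2 ^ N))
        + h * (∑ i ∈ range N, r1 ^ i * |F1 S φ h i 0 k l|)
        + h * ∑ j ∈ range N, r2 ^ j * |F2 S φ h 0 j k l| := by
  refine perturb (NNReal.coe_nonneg h) hr1 hr1' hr2 hr2' N (F1 := fun i j => F1 S φ h i j k l)
    (F2 := fun i j => F2 S φ h i j k l) ?_
  have key := (latA' S h h0 h1 k l).main (NNReal.coe_nonneg h) hr1 hr1' hr2 hr2' N
  refine le_trans (le_of_eq ?_) key
  have a1 : ∀ i j, F1 S φ h i j k l - F1 S φ h i 0 k l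
      = (EE S φ fun z => S.P1 z (gj h i k) (gj h j l))
        - EE S φ fun z => S.P1 z (gj h i k) (gj h 0 l) := by
    intro i j; simp only [F1, EE_sub]; ring
  have a2 : ∀ i j, F2 S φ h i j k l - F2 S φ h 0 j k l
      = (EE S φ fun z => S.P2 z (gj h i k) (gj h j l))
        - EE S φ fun z => S.P2 z (gj h 0 k) (gj h j l) := by
    intro i j; simp only [F2, EE_sub]; ring
  simp only [a1, a2]

theorem rowB (h0 : ∀ z, 0 ≤ φ z) (h1 : ∀ z, φ z ≤ 1) {r3 r4 : ℝ} (hr3 : 0 ≤ r3) (hr3' : r3 ≤ 1)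
    (hr4 : 0 ≤ r4) (hr4' : r4 ≤ 1) (N i j : ℕ) :
    |(1 - r4) * r3 * ∑ k ∈ range N, ∑ l ∈ range N, r3 ^ k * r4 ^ l * (h * F1 S φ h i j k l)
      - (1 - r3) * r4 * ∑ k ∈ range N, ∑ l ∈ range N, r3 ^ k * r4 ^ l * (h * F2 S φ h i j k l)|
      ≤ (4 * h + h * (N + 1) * (r3 ^ N + r4 ^ N))
        + h * (∑ k ∈ range N, r3 ^ k * |F1 S φ h i j k 0|)
        + h * ∑ l ∈ range N, r4 ^ l * |F2 S φ h i j 0 l| := by
  refine perturb (NNReal.coe_nonneg h) hr3 hr3' hr4 hr4' N (F1 := fun k l => F1 S φ h i j k l)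
    (F2 := fun k l => F2 S φ h i j k l) ?_
  have key := (latB' S h h0 h1 i j).main (NNReal.coe_nonneg h) hr3 hr3' hr4 hr4' N
  rw [← abs_neg] at key
  refine le_trans (le_of_eq ?_) key
  congr 1
  have a1 : ∀ k l, F1 S φ h i j k l - F1 S φ h i j k 0
      = -((EE S φ fun z => 1 - S.P1 z (gj h i k) (gj h j l))
        - EE S φ fun z => 1 - S.P1 z (gj h i k) (gj h j 0)) := by
    intro k l; simp only [F1, EE_sub]; ring
  have a2 : ∀ k l, F2 S φ h i j k l - F2 S φ h i j 0 l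
      = -((EE S φ fun z => 1 - S.P2 z (gj h i k) (gj h j l))
        - EE S φ fun z => 1 - S.P2 z (gj h i 0) (gj h j l)) := by
    intro k l; simp only [F2, EE_sub]; ring
  simp only [a1, a2]
  have b : ∀ G : ℕ → ℕ → ℝ, ∑ k ∈ range N, ∑ l ∈ range N, r3 ^ k * r4 ^ l * ((h : ℝ) * -G k l)
      = -∑ k ∈ range N, ∑ l ∈ range N, r3 ^ k * r4 ^ l * ((h : ℝ) * G k l) := by
    intro G
    rw [← Finset.sum_neg_distrib]
    refine Finset.sum_congr rfl fun k _ => ?_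
    rw [← Finset.sum_neg_distrib]
    exact Finset.sum_congr rfl fun l _ => by ring
  rw [b, b]
  change _ = -((1 - r4) * r3 * ∑ k ∈ range N, ∑ l ∈ range N, r3 ^ k * r4 ^ l * ((h : ℝ) *
      ((EE S φ fun z => 1 - S.P1 z (gj h i k) (gj h j l))
        - EE S φ fun z => 1 - S.P1 z (gj h i k) (gj h j 0)))
      - (1 - r3) * r4 * ∑ k ∈ range N, ∑ l ∈ range N, r3 ^ k * r4 ^ l * ((h : ℝ) *
      ((EE S φ fun z => 1 - S.P2 z (gj h i k) (gj h j l))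
        - EE S φ fun z => 1 - S.P2 z (gj h i 0) (gj h j l))))
  ring

/-- outer summation -/
theorem outer' {r3 r4 : ℝ} (h3 : 0 ≤ r3) (h4 : 0 ≤ r4) (N : ℕ) {G B : ℕ → ℕ → ℝ}
    (hG : ∀ k l, |G k l| ≤ B k l) :
    |∑ k ∈ range N, ∑ l ∈ range N, (r3 ^ k * r4 ^ l) * G k l|
      ≤ ∑ k ∈ range N, ∑ l ∈ range N, (r3 ^ k * r4 ^ l) * B k l := by
  refine (Finset.abs_sum_le_sum_abs _ _).trans (Finset.sum_le_sum fun k _ => ?_)
  refine (Finset.abs_sum_le_sum_abs _ _).trans (Finset.sum_le_sum fun l _ => ?_)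
  have : 0 ≤ r3 ^ k * r4 ^ l := by positivity
  rw [abs_mul, abs_of_nonneg this]
  exact mul_le_mul_of_nonneg_left (hG k l) this

theorem gridA' (he : 0 ≤ e) (hh : bm < h) (h0 : ∀ z, 0 ≤ φ z) (h1 : ∀ z, φ z ≤ 1)
    {r1 r2 r3 r4 : ℝ} (hr1 : 0 ≤ r1) (hr1' : r1 ≤ 1) (hr2 : 0 ≤ r2) (hr2' : r2 ≤ 1)
    (hr3 : 0 ≤ r3) (hr3' : r3 ≤ 1) (hr4 : 0 ≤ r4) (hr4' : r4 ≤ 1) (N : ℕ)
    (hD : HasGrid D h N) :
    |(h : ℝ) * ((1 - r2) * r1 * S4 r1 r2 r3 r4 N (F1 S φ h)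
      - (1 - r1) * r2 * S4 r1 r2 r3 r4 N (F2 S φ h))|
      ≤ (4 * h + h * (N + 1) * (r1 ^ N + r2 ^ N))
        * ((∑ k ∈ range N, r3 ^ k) * ∑ l ∈ range N, r4 ^ l)
        + h * ((∑ l ∈ range N, r4 ^ l) * (6 * (∑ i ∈ range N, r1 ^ i)
          + 6 * (∑ k ∈ range N, r3 ^ k)
          + bN e * ((∑ i ∈ range N, r1 ^ i) * ∑ k ∈ range N, r3 ^ k)))
        + h * ((∑ k ∈ range N, r3 ^ k) * (6 * (∑ j ∈ range N, r2 ^ j)
          + 6 * (∑ l ∈ range N, r4 ^ l)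
          + bN e * ((∑ j ∈ range N, r2 ^ j) * ∑ l ∈ range N, r4 ^ l))) := by
  have key := outer' hr3 hr4 N (G := fun k l =>
    (1 - r2) * r1 * (∑ i ∈ range N, ∑ j ∈ range N, r1 ^ i * r2 ^ j * (h * F1 S φ h i j k l))
      - (1 - r1) * r2 * ∑ i ∈ range N, ∑ j ∈ range N, r1 ^ i * r2 ^ j * (h * F2 S φ h i j k l))
    (fun k l => rowA S h h0 h1 hr1 hr1' hr2 hr2' N k l)
  have lhs : (h : ℝ) * ((1 - r2) * r1 * S4 r1 r2 r3 r4 N (F1 S φ h)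
      - (1 - r1) * r2 * S4 r1 r2 r3 r4 N (F2 S φ h))
      = ∑ k ∈ range N, ∑ l ∈ range N, (r3 ^ k * r4 ^ l) *
      ((1 - r2) * r1 * (∑ i ∈ range N, ∑ j ∈ range N, r1 ^ i * r2 ^ j * (h * F1 S φ h i j k l))
      - (1 - r1) * r2 * ∑ i ∈ range N, ∑ j ∈ range N,
        r1 ^ i * r2 ^ j * (h * F2 S φ h i j k l)) := by
    simp only [pull N (fun i j => r1 ^ i * r2 ^ j)]
    simp only [← mul_assoc]
    rw [S4_swap, S4_swap]
    have := lin2 N (fun k l => r3 ^ k * r4 ^ l)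
      (fun k l => ∑ i ∈ range N, ∑ j ∈ range N, (r1 ^ i * r2 ^ j) * F1 S φ h i j k l)
      (fun k l => ∑ i ∈ range N, ∑ j ∈ range N, (r1 ^ i * r2 ^ j) * F2 S φ h i j k l)
      ((1 - r2) * r1 * h) ((1 - r1) * r2 * h)
    rw [this]
    ring
  rw [lhs]
  refine key.trans ?_
  have split : ∀ k l, (r3 ^ k * r4 ^ l) * ((4 * h + h * (N + 1) * (r1 ^ N + r2 ^ N))
        + h * (∑ i ∈ range N, r1 ^ i * |F1 S φ h i 0 k l|)
        + h * ∑ j ∈ range N, r2 ^ j * |F2 S φ h 0 j k l|)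
      = (4 * h + h * (N + 1) * (r1 ^ N + r2 ^ N)) * (r3 ^ k * r4 ^ l)
        + h * (r4 ^ l * ∑ i ∈ range N, r1 ^ i * r3 ^ k * |F1 S φ h i 0 k l|)
        + h * (r3 ^ k * ∑ j ∈ range N, r2 ^ j * r4 ^ l * |F2 S φ h 0 j k l|) := by
    intro k l
    have a1 : ∑ i ∈ range N, r1 ^ i * r3 ^ k * |F1 S φ h i 0 k l|
        = r3 ^ k * ∑ i ∈ range N, r1 ^ i * |F1 S φ h i 0 k l| := by
      rw [Finset.mul_sum]; exact Finset.sum_congr rfl fun i _ => by ring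
    have a2 : ∑ j ∈ range N, r2 ^ j * r4 ^ l * |F2 S φ h 0 j k l|
        = r4 ^ l * ∑ j ∈ range N, r2 ^ j * |F2 S φ h 0 j k l| := by
      rw [Finset.mul_sum]; exact Finset.sum_congr rfl fun i _ => by ring
    rw [a1, a2]; ring
  simp only [split, Finset.sum_add_distrib]
  have t0 : ∑ k ∈ range N, ∑ l ∈ range N,
      (4 * (h : ℝ) + h * (N + 1) * (r1 ^ N + r2 ^ N)) * (r3 ^ k * r4 ^ l)
      = (4 * h + h * (N + 1) * (r1 ^ N + r2 ^ N))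
        * ((∑ k ∈ range N, r3 ^ k) * ∑ l ∈ range N, r4 ^ l) := by
    rw [Finset.sum_mul_sum, Finset.mul_sum]
    exact Finset.sum_congr rfl fun k _ => by rw [Finset.mul_sum]
  have t1 : ∑ k ∈ range N, ∑ l ∈ range N,
      (h : ℝ) * (r4 ^ l * ∑ i ∈ range N, r1 ^ i * r3 ^ k * |F1 S φ h i 0 k l|)
      ≤ h * ((∑ l ∈ range N, r4 ^ l) * (6 * (∑ i ∈ range N, r1 ^ i)
          + 6 * (∑ k ∈ range N, r3 ^ k)
          + bN e * ((∑ i ∈ range N, r1 ^ i) * ∑ k ∈ range N, r3 ^ k))) := by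
    rw [Finset.sum_comm, Finset.sum_mul, Finset.mul_sum]
    refine Finset.sum_le_sum fun l _ => ?_
    rw [← Finset.mul_sum, ← Finset.mul_sum]
    refine mul_le_mul_of_nonneg_left ?_ (NNReal.coe_nonneg h)
    refine mul_le_mul_of_nonneg_left ?_ (pow_nonneg hr4 l)
    rw [Finset.sum_comm]
    exact tvF S h h0 h1 hr1 hr1' hr3 hr3' (D' := fun i k => F1 S φ h i 0 k l)
      (fun i k => abs_F1 S h h0 h1 _ _ _ _) (fun i hi k hk => bdA S h he hh h0 h1 hD hi hk l)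
  have t2 : ∑ k ∈ range N, ∑ l ∈ range N,
      (h : ℝ) * (r3 ^ k * ∑ j ∈ range N, r2 ^ j * r4 ^ l * |F2 S φ h 0 j k l|)
      ≤ h * ((∑ k ∈ range N, r3 ^ k) * (6 * (∑ j ∈ range N, r2 ^ j)
          + 6 * (∑ l ∈ range N, r4 ^ l)
          + bN e * ((∑ j ∈ range N, r2 ^ j) * ∑ l ∈ range N, r4 ^ l))) := by
    rw [Finset.sum_mul, Finset.mul_sum]
    refine Finset.sum_le_sum fun k _ => ?_
    rw [← Finset.mul_sum, ← Finset.mul_sum]
    refine mul_le_mul_of_nonneg_left ?_ (NNReal.coe_nonneg h)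
    refine mul_le_mul_of_nonneg_left ?_ (pow_nonneg hr3 k)
    rw [Finset.sum_comm]
    exact tvF S.flip h h0 h1 hr2 hr2' hr4 hr4' (D' := fun j l => F2 S φ h 0 j k l)
      (fun i k => abs_F2 S h h0 h1 _ _ _ _)
      (fun j hj l hl => bdA S.flip h he hh h0 h1 hD hj hl k)
  rw [t0]
  linarith

theorem gridB' (he : 0 ≤ e) (hh : bm < h) (h0 : ∀ z, 0 ≤ φ z) (h1 : ∀ z, φ z ≤ 1)
    {r1 r2 r3 r4 : ℝ} (hr1 : 0 ≤ r1) (hr1' : r1 ≤ 1) (hr2 : 0 ≤ r2) (hr2' : r2 ≤ 1)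
    (hr3 : 0 ≤ r3) (hr3' : r3 ≤ 1) (hr4 : 0 ≤ r4) (hr4' : r4 ≤ 1) (N : ℕ)
    (hD : HasGrid D h N) :
    |(h : ℝ) * ((1 - r4) * r3 * S4 r1 r2 r3 r4 N (F1 S φ h)
      - (1 - r3) * r4 * S4 r1 r2 r3 r4 N (F2 S φ h))|
      ≤ (4 * h + h * (N + 1) * (r3 ^ N + r4 ^ N))
        * ((∑ i ∈ range N, r1 ^ i) * ∑ j ∈ range N, r2 ^ j)
        + h * ((∑ j ∈ range N, r2 ^ j) * (6 * (∑ i ∈ range N, r1 ^ i)
          + 6 * (∑ k ∈ range N, r3 ^ k)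
          + bN e * ((∑ i ∈ range N, r1 ^ i) * ∑ k ∈ range N, r3 ^ k)))
        + h * ((∑ i ∈ range N, r1 ^ i) * (6 * (∑ j ∈ range N, r2 ^ j)
          + 6 * (∑ l ∈ range N, r4 ^ l)
          + bN e * ((∑ j ∈ range N, r2 ^ j) * ∑ l ∈ range N, r4 ^ l))) := by
  have key := outer' hr1 hr2 N (G := fun i j =>
    (1 - r4) * r3 * (∑ k ∈ range N, ∑ l ∈ range N, r3 ^ k * r4 ^ l * (h * F1 S φ h i j k l))
      - (1 - r3) * r4 * ∑ k ∈ range N, ∑ l ∈ range N, r3 ^ k * r4 ^ l * (h * F2 S φ h i j k l))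
    (fun i j => rowB S h h0 h1 hr3 hr3' hr4 hr4' N i j)
  have lhs : (h : ℝ) * ((1 - r4) * r3 * S4 r1 r2 r3 r4 N (F1 S φ h)
      - (1 - r3) * r4 * S4 r1 r2 r3 r4 N (F2 S φ h))
      = ∑ i ∈ range N, ∑ j ∈ range N, (r1 ^ i * r2 ^ j) *
      ((1 - r4) * r3 * (∑ k ∈ range N, ∑ l ∈ range N, r3 ^ k * r4 ^ l * (h * F1 S φ h i j k l))
      - (1 - r3) * r4 * ∑ k ∈ range N, ∑ l ∈ range N,
        r3 ^ k * r4 ^ l * (h * F2 S φ h i j k l)) := by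
    simp only [pull N (fun k l => r3 ^ k * r4 ^ l)]
    simp only [← mul_assoc]
    rw [S4_eq, S4_eq]
    have := lin2 N (fun i j => r1 ^ i * r2 ^ j)
      (fun i j => ∑ k ∈ range N, ∑ l ∈ range N, (r3 ^ k * r4 ^ l) * F1 S φ h i j k l)
      (fun i j => ∑ k ∈ range N, ∑ l ∈ range N, (r3 ^ k * r4 ^ l) * F2 S φ h i j k l)
      ((1 - r4) * r3 * h) ((1 - r3) * r4 * h)
    rw [this]
    ring
  rw [lhs]
  refine key.trans ?_
  have split : ∀ i j, (r1 ^ i * r2 ^ j) * ((4 * h + h * (N + 1) * (r3 ^ N + r4 ^ N))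
        + h * (∑ k ∈ range N, r3 ^ k * |F1 S φ h i j k 0|)
        + h * ∑ l ∈ range N, r4 ^ l * |F2 S φ h i j 0 l|)
      = (4 * h + h * (N + 1) * (r3 ^ N + r4 ^ N)) * (r1 ^ i * r2 ^ j)
        + h * (r2 ^ j * ∑ k ∈ range N, r1 ^ i * r3 ^ k * |F1 S φ h i j k 0|)
        + h * (r1 ^ i * ∑ l ∈ range N, r2 ^ j * r4 ^ l * |F2 S φ h i j 0 l|) := by
    intro i j
    have a1 : ∑ k ∈ range N, r1 ^ i * r3 ^ k * |F1 S φ h i j k 0|
        = r1 ^ i * ∑ k ∈ range N, r3 ^ k * |F1 S φ h i j k 0| := by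
      rw [Finset.mul_sum]; exact Finset.sum_congr rfl fun i _ => by ring
    have a2 : ∑ l ∈ range N, r2 ^ j * r4 ^ l * |F2 S φ h i j 0 l|
        = r2 ^ j * ∑ l ∈ range N, r4 ^ l * |F2 S φ h i j 0 l| := by
      rw [Finset.mul_sum]; exact Finset.sum_congr rfl fun i _ => by ring
    rw [a1, a2]; ring
  simp only [split, Finset.sum_add_distrib]
  have t0 : ∑ i ∈ range N, ∑ j ∈ range N,
      (4 * (h : ℝ) + h * (N + 1) * (r3 ^ N + r4 ^ N)) * (r1 ^ i * r2 ^ j)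
      = (4 * h + h * (N + 1) * (r3 ^ N + r4 ^ N))
        * ((∑ i ∈ range N, r1 ^ i) * ∑ j ∈ range N, r2 ^ j) := by
    rw [Finset.sum_mul_sum, Finset.mul_sum]
    exact Finset.sum_congr rfl fun k _ => by rw [Finset.mul_sum]
  have t1 : ∑ i ∈ range N, ∑ j ∈ range N,
      (h : ℝ) * (r2 ^ j * ∑ k ∈ range N, r1 ^ i * r3 ^ k * |F1 S φ h i j k 0|)
      ≤ h * ((∑ j ∈ range N, r2 ^ j) * (6 * (∑ i ∈ range N, r1 ^ i)
          + 6 * (∑ k ∈ range N, r3 ^ k)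
          + bN e * ((∑ i ∈ range N, r1 ^ i) * ∑ k ∈ range N, r3 ^ k))) := by
    rw [Finset.sum_comm, Finset.sum_mul, Finset.mul_sum]
    refine Finset.sum_le_sum fun j _ => ?_
    rw [← Finset.mul_sum, ← Finset.mul_sum]
    refine mul_le_mul_of_nonneg_left ?_ (NNReal.coe_nonneg h)
    refine mul_le_mul_of_nonneg_left ?_ (pow_nonneg hr2 j)
    exact tvF S h h0 h1 hr1 hr1' hr3 hr3' (D' := fun i k => F1 S φ h i j k 0)
      (fun i k => abs_F1 S h h0 h1 _ _ _ _) (fun i hi k hk => bdB S h he hh h0 h1 hD hi hk j)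
  have t2 : ∑ i ∈ range N, ∑ j ∈ range N,
      (h : ℝ) * (r1 ^ i * ∑ l ∈ range N, r2 ^ j * r4 ^ l * |F2 S φ h i j 0 l|)
      ≤ h * ((∑ i ∈ range N, r1 ^ i) * (6 * (∑ j ∈ range N, r2 ^ j)
          + 6 * (∑ l ∈ range N, r4 ^ l)
          + bN e * ((∑ j ∈ range N, r2 ^ j) * ∑ l ∈ range N, r4 ^ l))) := by
    rw [Finset.sum_mul, Finset.mul_sum]
    refine Finset.sum_le_sum fun i _ => ?_
    rw [← Finset.mul_sum, ← Finset.mul_sum]
    refine mul_le_mul_of_nonneg_left ?_ (NNReal.coe_nonneg h)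
    refine mul_le_mul_of_nonneg_left ?_ (pow_nonneg hr1 i)
    exact tvF S.flip h h0 h1 hr2 hr2' hr4 hr4' (D' := fun j l => F2 S φ h i j 0 l)
      (fun i k => abs_F2 S h h0 h1 _ _ _ _)
      (fun j hj l hl => bdB S.flip h he hh h0 h1 hD hj hl i)
  rw [t0]
  linarith

end

end Pool.Agent.Lib.MP_2c6a66_lc.UX
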