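import Mathlib

/-! Piecewise linear functions in a multiplicative coordinate. -/

namespace Pool.Agent.Lib.MP_2c6a66_lc.UX

open Finset

noncomputable section

/-- piecewise linear interpolation -/
def lp (g : ℤ → ℝ) (s : ℝ) : ℝ := (1 - Int.fract s) * g ⌊s⌋ + Int.fract s * g (⌊s⌋ + 1)

theorem lp_cell (g : ℤ → ℝ) {s : ℝ} {i : ℤ} (h1 : (i : ℝ) ≤ s) (h2 : s ≤ i + 1) :
    lp g s = (1 - (s - i)) * g i + (s - i) * g (i + 1) := by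
  unfold lp
  rcases h2.eq_or_lt with h | h
  · have hf : ⌊s⌋ = i + 1 := by
      rw [h]
      have : (i : ℝ) + 1 = ((i + 1 : ℤ) : ℝ) := by push_cast; ring
      rw [this, Int.floor_intCast]
    have hfr : Int.fract s = 0 := by
      rw [Int.fract, hf, h]; push_cast; ring
    rw [hf, hfr, h]
    ring
  · have hf : ⌊s⌋ = i := Int.floor_eq_iff.2 ⟨h1, h⟩
    rw [Int.fract, hf]

theorem lp_mono {g : ℤ → ℝ} (hg : Monotone g) : Monotone (lp g) := by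
  intro s t hst
  have hf : ⌊s⌋ ≤ ⌊t⌋ := Int.floor_le_floor hst
  have f0 := Int.fract_nonneg s
  have f1 := (Int.fract_lt_one s).le
  have e0 := Int.fract_nonneg t
  have e1 := (Int.fract_lt_one t).le
  have hs := hg (show ⌊s⌋ ≤ ⌊s⌋ + 1 by omega)
  have ht := hg (show ⌊t⌋ ≤ ⌊t⌋ + 1 by omega)
  rcases hf.eq_or_lt with h | h
  · unfold lp
    have hfr : Int.fract s ≤ Int.fract t := by
      unfold Int.fract
      rw [h]; linarith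
    rw [h] at hs ⊢
    nlinarith
  · have h1 : lp g s ≤ g (⌊s⌋ + 1) := by unfold lp; nlinarith
    have h2 : g ⌊t⌋ ≤ lp g t := by unfold lp; nlinarith
    exact h1.trans ((hg (by omega)).trans h2)

theorem lp_nonneg {g : ℤ → ℝ} (hg : ∀ i, 0 ≤ g i) (s : ℝ) : 0 ≤ lp g s := by
  unfold lp
  exact add_nonneg (mul_nonneg (by linarith [(Int.fract_lt_one s)]) (hg _))
    (mul_nonneg (Int.fract_nonneg s) (hg _))

theorem lp_le {g : ℤ → ℝ} (hg : ∀ i, g i ≤ 1) (s : ℝ) : lp g s ≤ 1 := by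
  unfold lp
  have f0 := Int.fract_nonneg s
  have f1 := (Int.fract_lt_one s).le
  nlinarith [hg ⌊s⌋, hg (⌊s⌋ + 1), mul_le_mul_of_nonneg_left (hg ⌊s⌋) (sub_nonneg.2 f1),
    mul_le_mul_of_nonneg_left (hg (⌊s⌋ + 1)) f0]

/-- the coordinate -/
def sg (h t : ℝ) : ℝ := if 1 ≤ t then (t - 1) / h else -((1 / t - 1) / h)

theorem sg_mono {h : ℝ} (hh : 0 < h) {x y : ℝ} (hx : 0 < x) (hxy : x ≤ y) : sg h x ≤ sg h y := by
  unfold sg
  split_ifs with h1 h2 h2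
  · exact div_le_div_of_nonneg_right (by linarith) hh.le
  · linarith
  · have h3 : 1 ≤ 1 / x := by rw [le_div_iff₀ hx]; linarith
    have h4 : 0 ≤ (1 / x - 1) / h := div_nonneg (by linarith) hh.le
    have h5 : 0 ≤ (y - 1) / h := div_nonneg (by linarith) hh.le
    linarith
  · have h3 : 1 / y ≤ 1 / x := one_div_le_one_div_of_le hx hxy
    have h4 : (1 / y - 1) / h ≤ (1 / x - 1) / h := div_le_div_of_nonneg_right (by linarith) hh.le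
    linarith

theorem sg_inv {h : ℝ} {x : ℝ} (hx : 0 < x) : sg h (1 / x) = -sg h x := by
  unfold sg
  rcases lt_trichotomy x 1 with h1 | h1 | h1
  · have h2 : 1 ≤ 1 / x := by rw [le_div_iff₀ hx]; linarith
    rw [if_pos h2, if_neg (not_le.2 h1), neg_neg]
  · subst h1; norm_num
  · have h2 : ¬ 1 ≤ 1 / x := by
      rw [not_le, div_lt_iff₀ hx]; linarith
    rw [if_neg h2, if_pos h1.le, one_div_one_div]

/-- Bernstein form -/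
def wsum (f : ℕ → ℕ → ℕ → ℕ → ℝ) (φ ψ : ℝ) : ℝ :=
  (1 - φ) * (1 - φ) * ((1 - ψ) * (1 - ψ)) * f 0 0 0 0
  + (1 - φ) * (1 - φ) * ((1 - ψ) * ψ) * (f 0 0 0 1 + f 0 0 1 0)
  + (1 - φ) * (1 - φ) * (ψ * ψ) * f 0 0 1 1
  + (1 - φ) * φ * ((1 - ψ) * (1 - ψ)) * (f 0 1 0 0 + f 1 0 0 0)
  + (1 - φ) * φ * ((1 - ψ) * ψ) * (f 0 1 0 1 + f 0 1 1 0 + f 1 0 0 1 + f 1 0 1 0)
  + (1 - φ) * φ * (ψ * ψ) * (f 0 1 1 1 + f 1 0 1 1)
  + φ * φ * ((1 - ψ) * (1 - ψ)) * f 1 1 0 0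
  + φ * φ * ((1 - ψ) * ψ) * (f 1 1 0 1 + f 1 1 1 0)
  + φ * φ * (ψ * ψ) * f 1 1 1 1

theorem wsum_nonpos {f : ℕ → ℕ → ℕ → ℕ → ℝ} {φ ψ : ℝ} (h0 : 0 ≤ φ) (h1 : φ ≤ 1) (g0 : 0 ≤ ψ)
    (g1 : ψ ≤ 1) (h : ∀ p1 < 2, ∀ p2 < 2, ∀ r1 < 2, ∀ r2 < 2,
      f p1 p2 r1 r2 + f p2 p1 r1 r2 + f p1 p2 r2 r1 + f p2 p1 r2 r1 ≤ 0) : wsum f φ ψ ≤ 0 := by
  have a0 := sub_nonneg.2 h1
  have b0 := sub_nonneg.2 g1
  have k : ∀ w x : ℝ, 0 ≤ w → x ≤ 0 → w * x ≤ 0 := fun w x hw hx =>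
    mul_nonpos_of_nonneg_of_nonpos hw hx
  have c1 := h 0 (by norm_num) 0 (by norm_num) 0 (by norm_num) 0 (by norm_num)
  have c2 := h 0 (by norm_num) 0 (by norm_num) 0 (by norm_num) 1 (by norm_num)
  have c3 := h 0 (by norm_num) 0 (by norm_num) 1 (by norm_num) 1 (by norm_num)
  have c4 := h 0 (by norm_num) 1 (by norm_num) 0 (by norm_num) 0 (by norm_num)
  have c5 := h 0 (by norm_num) 1 (by norm_num) 0 (by norm_num) 1 (by norm_num)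
  have c6 := h 0 (by norm_num) 1 (by norm_num) 1 (by norm_num) 1 (by norm_num)
  have c7 := h 1 (by norm_num) 1 (by norm_num) 0 (by norm_num) 0 (by norm_num)
  have c8 := h 1 (by norm_num) 1 (by norm_num) 0 (by norm_num) 1 (by norm_num)
  have c9 := h 1 (by norm_num) 1 (by norm_num) 1 (by norm_num) 1 (by norm_num)
  have d1 := k ((1 - φ) * (1 - φ) * ((1 - ψ) * (1 - ψ))) (f 0 0 0 0) (by positivity) (by linarith)
  have d2 := k ((1 - φ) * (1 - φ) * ((1 - ψ) * ψ)) (f 0 0 0 1 + f 0 0 1 0) (by positivity)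
    (by linarith)
  have d3 := k ((1 - φ) * (1 - φ) * (ψ * ψ)) (f 0 0 1 1) (by positivity) (by linarith)
  have d4 := k ((1 - φ) * φ * ((1 - ψ) * (1 - ψ))) (f 0 1 0 0 + f 1 0 0 0) (by positivity)
    (by linarith)
  have d5 := k ((1 - φ) * φ * ((1 - ψ) * ψ)) (f 0 1 0 1 + f 0 1 1 0 + f 1 0 0 1 + f 1 0 1 0)
    (by positivity) (by linarith)
  have d6 := k ((1 - φ) * φ * (ψ * ψ)) (f 0 1 1 1 + f 1 0 1 1) (by positivity) (by linarith)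
  have d7 := k (φ * φ * ((1 - ψ) * (1 - ψ))) (f 1 1 0 0) (by positivity) (by linarith)
  have d8 := k (φ * φ * ((1 - ψ) * ψ)) (f 1 1 0 1 + f 1 1 1 0) (by positivity) (by linarith)
  have d9 := k (φ * φ * (ψ * ψ)) (f 1 1 1 1) (by positivity) (by linarith)
  unfold wsum
  linarith

/-- interpolation of two values -/
def l2 (a : ℕ → ℝ) (φ : ℝ) : ℝ := (1 - φ) * a 0 + φ * a 1

/-- interpolation of four values -/
def l4 (q : ℕ → ℕ → ℝ) (φ ψ : ℝ) : ℝ := (1 - φ) * ((1 - ψ) * q 0 0 + ψ * q 0 1)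
  + φ * ((1 - ψ) * q 1 0 + ψ * q 1 1)

theorem caseA (X T a b : ℕ → ℝ) (q : ℕ → ℕ → ℝ) (c φ ψ : ℝ) :
    wsum (fun p1 p2 r1 r2 => T r1 * (1 + X p1) - T r1 * X p1 * a p2 - T r1 * b r2
      + (T r1 + 1) * q p2 r2 - c * T r1) φ ψ
    = l2 T ψ * (1 + l2 X φ) - l2 T ψ * l2 X φ * l2 a φ - l2 T ψ * l2 b ψ
      + (l2 T ψ + 1) * l4 q φ ψ - c * l2 T ψ := by
  unfold wsum l2 l4; ring

theorem caseB (X T a b : ℕ → ℝ) (q : ℕ → ℕ → ℝ) (c φ ψ : ℝ) :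
    wsum (fun p1 p2 r1 r2 => (1 + X p1) - X p1 * a p2 - b r2 + (1 + T r1) * q p2 r2 - c) φ ψ
    = (1 + l2 X φ) - l2 X φ * l2 a φ - l2 b ψ + (1 + l2 T ψ) * l4 q φ ψ - c := by
  unfold wsum l2 l4; ring

theorem caseC (X T a b : ℕ → ℝ) (q : ℕ → ℕ → ℝ) (c φ ψ : ℝ) :
    wsum (fun p1 p2 r1 r2 => T r1 * (1 + X p1) - T r1 * a p2 - X p1 * T r1 * b r2
      + X p1 * (T r1 + 1) * q p2 r2 - c * (X p1 * T r1)) φ ψ
    = l2 T ψ * (1 + l2 X φ) - l2 T ψ * l2 a φ - l2 X φ * l2 T ψ * l2 b ψ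
      + l2 X φ * (l2 T ψ + 1) * l4 q φ ψ - c * (l2 X φ * l2 T ψ) := by
  unfold wsum l2 l4; ring

end

end Pool.Agent.Lib.MP_2c6a66_lc.UX
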