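import Pool.Agent.Lib.MP_2c6a66_lc.UX.Grid

/-! Along a sequence of systems the weighted interactions tend to zero in the weak sense. -/

namespace Pool.Agent.Lib.MP_2c6a66_lc.UX

open scoped NNReal Topology
open Finset Filter Pool.Agent.Lib.MP_2c6a66_lc.LB

noncomputable section

theorem est' {h Ga Gb Gc Gd qa qb qc qd N t1 t2 b X : ℝ} (hh : 0 ≤ h) (hN : 0 ≤ N)
    (h1 : 0 ≤ t1) (h2 : 0 ≤ t2) (hb : 0 ≤ b) (ga : 0 ≤ Ga) (gb : 0 ≤ Gb) (gc : 0 ≤ Gc)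
    (gd : 0 ≤ Gd) (ha' : h * Ga ≤ qa) (hb' : h * Gb ≤ qb) (hc' : h * Gc ≤ qc)
    (hd' : h * Gd ≤ qd)
    (hX : |h * X| ≤ (4 * h + h * (N + 1) * (t1 + t2)) * (Gc * Gd)
      + h * (Gd * (6 * Ga + 6 * Gc + b * (Ga * Gc)))
      + h * (Gc * (6 * Gb + 6 * Gd + b * (Gb * Gd)))) :
    |h ^ 2 * (h * X)| ≤ h * (4 + (N + 1) * t1 + (N + 1) * t2) * (qc * qd)
      + (h * (6 * (qd * qa) + 6 * (qd * qc)) + b * (qd * (qa * qc)))
      + (h * (6 * (qc * qb) + 6 * (qc * qd)) + b * (qc * (qb * qd))) := by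
  rw [abs_mul, abs_of_nonneg (by positivity)]
  have na : 0 ≤ h * Ga := mul_nonneg hh ga
  have nb : 0 ≤ h * Gb := mul_nonneg hh gb
  have nc : 0 ≤ h * Gc := mul_nonneg hh gc
  have nd : 0 ≤ h * Gd := mul_nonneg hh gd
  have ma : 0 ≤ qa := na.trans ha'
  have mb : 0 ≤ qb := nb.trans hb'
  have mc : 0 ≤ qc := nc.trans hc'
  have md : 0 ≤ qd := nd.trans hd'
  have e : h ^ 2 * ((4 * h + h * (N + 1) * (t1 + t2)) * (Gc * Gd)
      + h * (Gd * (6 * Ga + 6 * Gc + b * (Ga * Gc)))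
      + h * (Gc * (6 * Gb + 6 * Gd + b * (Gb * Gd))))
      = h * (4 + (N + 1) * t1 + (N + 1) * t2) * ((h * Gc) * (h * Gd))
      + (h * (6 * ((h * Gd) * (h * Ga)) + 6 * ((h * Gd) * (h * Gc)))
        + b * ((h * Gd) * ((h * Ga) * (h * Gc))))
      + (h * (6 * ((h * Gc) * (h * Gb)) + 6 * ((h * Gc) * (h * Gd)))
        + b * ((h * Gc) * ((h * Gb) * (h * Gd)))) := by ring
  refine (mul_le_mul_of_nonneg_left hX (by positivity)).trans ?_
  rw [e]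
  have cd : (h * Gc) * (h * Gd) ≤ qc * qd := mul_le_mul hc' hd' nd mc
  have da : (h * Gd) * (h * Ga) ≤ qd * qa := mul_le_mul hd' ha' na md
  have dc : (h * Gd) * (h * Gc) ≤ qd * qc := mul_le_mul hd' hc' nc md
  have cb : (h * Gc) * (h * Gb) ≤ qc * qb := mul_le_mul hc' hb' nb mc
  have ac : (h * Ga) * (h * Gc) ≤ qa * qc := mul_le_mul ha' hc' nc ma
  have bd : (h * Gb) * (h * Gd) ≤ qb * qd := mul_le_mul hb' hd' nd mb
  have dac : (h * Gd) * ((h * Ga) * (h * Gc)) ≤ qd * (qa * qc) :=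
    mul_le_mul hd' ac (mul_nonneg na nc) md
  have cbd : (h * Gc) * ((h * Gb) * (h * Gd)) ≤ qc * (qb * qd) :=
    mul_le_mul hc' bd (mul_nonneg nb nd) mc
  have f1 := mul_le_mul_of_nonneg_left cd
    (show 0 ≤ h * (4 + (N + 1) * t1 + (N + 1) * t2) by positivity)
  have f2 := mul_le_mul_of_nonneg_left (show 6 * ((h * Gd) * (h * Ga))
    + 6 * ((h * Gd) * (h * Gc)) ≤ 6 * (qd * qa) + 6 * (qd * qc) by linarith) hh
  have f3 := mul_le_mul_of_nonneg_left dac hb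
  have f4 := mul_le_mul_of_nonneg_left (show 6 * ((h * Gc) * (h * Gb))
    + 6 * ((h * Gc) * (h * Gd)) ≤ 6 * (qc * qb) + 6 * (qc * qd) by linarith) hh
  have f5 := mul_le_mul_of_nonneg_left cbd hb
  linarith

theorem tendsto_est {ωa ωb ωc ωd ω1 ω2 : ℝ} (ha : 0 < ωa) (hb : 0 < ωb) (hc : 0 < ωc)
    (hd : 0 < ωd) (h1 : 0 < ω1) (h2 : 0 < ω2) {b : ℕ → ℝ} (hb0 : Tendsto b atTop (𝓝 0)) :
    Tendsto (fun n => (hh n : ℝ) * (4 + ((NN n : ℝ) + 1) * rr ω1 n ^ NN n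
        + ((NN n : ℝ) + 1) * rr ω2 n ^ NN n) * (hh n / (1 - rr ωc n) * (hh n / (1 - rr ωd n)))
      + ((hh n : ℝ) * (6 * (hh n / (1 - rr ωd n) * (hh n / (1 - rr ωa n)))
        + 6 * (hh n / (1 - rr ωd n) * (hh n / (1 - rr ωc n))))
        + b n * (hh n / (1 - rr ωd n) * (hh n / (1 - rr ωa n) * (hh n / (1 - rr ωc n)))))
      + ((hh n : ℝ) * (6 * (hh n / (1 - rr ωc n) * (hh n / (1 - rr ωb n)))
        + 6 * (hh n / (1 - rr ωc n) * (hh n / (1 - rr ωd n))))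
        + b n * (hh n / (1 - rr ωc n) * (hh n / (1 - rr ωb n) * (hh n / (1 - rr ωd n))))))
      atTop (𝓝 0) := by
  have ta := tendsto_slope_inv ha
  have tb := tendsto_slope_inv hb
  have tc := tendsto_slope_inv hc
  have td := tendsto_slope_inv hd
  have t0 := tendsto_hh
  have p1 := tendsto_bound h1 h2 hc hd
  have p2 := (t0.mul (((td.mul ta).const_mul 6).add ((td.mul tc).const_mul 6))).add
    (hb0.mul (td.mul (ta.mul tc)))
  have p3 := (t0.mul (((tc.mul tb).const_mul 6).add ((tc.mul td).const_mul 6))).add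
    (hb0.mul (tc.mul (tb.mul td)))
  have := (p1.add p2).add p3
  simpa using this

/-- the index of a step -/
def idx (h : ℝ≥0) : ℕ := ⌊1 / (h : ℝ)⌋₊ - 1

theorem idx_hh (m : ℕ) : idx (hh m) = m := by
  unfold idx
  rw [hh_coe, one_div_one_div]
  have : ((m : ℝ) + 1) = ((m + 1 : ℕ) : ℝ) := by push_cast; ring
  rw [this, Nat.floor_natCast]
  rfl

variable {D : ℕ → Set T} {e : ℕ → ℝ} {bm : ℕ → ℝ≥0}

/-- admissible sequences of systems -/
structure Good (S : ∀ m, Core (D m) (e m) (bm m)) : Prop where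
  grid : ∀ m, HasGrid (D m) (hh m) (NN m)
  he : ∀ m, 0 ≤ e m
  hb : ∀ m, bm m < hh m
  lim : Tendsto (fun m => bN (e m)) atTop (𝓝 0)

theorem Good.flip {S : ∀ m, Core (D m) (e m) (bm m)} (hS : Good S) :
    Good (fun m => (S m).flip) := ⟨hS.grid, hS.he, hS.hb, hS.lim⟩

theorem bN_nonneg {e : ℝ} (he : 0 ≤ e) : 0 ≤ bN e := by
  unfold bN
  positivity

variable (S : ∀ m, Core (D m) (e m) (bm m)) (φ : ∀ m, (S m).Z → ℝ)

/-- first interaction, as a function of the step -/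
def FF1 (h : ℝ≥0) (i j k l : ℕ) : ℝ := F1 (S (idx h)) (φ (idx h)) (hh (idx h)) i j k l

/-- second interaction, as a function of the step -/
def FF2 (h : ℝ≥0) (i j k l : ℕ) : ℝ := F2 (S (idx h)) (φ (idx h)) (hh (idx h)) i j k l

theorem FF1_hh (n : ℕ) : FF1 S φ (hh n) = F1 (S n) (φ n) (hh n) := by
  funext i j k l
  unfold FF1
  rw [idx_hh]

theorem FF2_hh (n : ℕ) : FF2 S φ (hh n) = F2 (S n) (φ n) (hh n) := by
  funext i j k l
  unfold FF2
  rw [idx_hh]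

variable {S φ}

theorem tendsto_Q' (hS : Good S) (h0 : ∀ m z, 0 ≤ φ m z) (h1 : ∀ m z, φ m z ≤ 1)
    {ω1 ω2 ω3 ω4 : ℝ} (p1 : 0 < ω1) (p2 : 0 < ω2) (p3 : 0 < ω3)
    (p4 : 0 < ω4) (hres : ω2 * ω3 - ω1 * ω4 ≠ 0) :
    Tendsto (QQ ω1 ω2 ω3 ω4 (FF1 S φ)) atTop (𝓝 0)
      ∧ Tendsto (QQ ω1 ω2 ω3 ω4 (FF2 S φ)) atTop (𝓝 0) := by
  set Q1 := QQ ω1 ω2 ω3 ω4 (FF1 S φ) with hQ1
  set Q2 := QQ ω1 ω2 ω3 ω4 (FF2 S φ) with hQ2
  let A : ℕ → ℝ := fun n => (1 - rr ω2 n) / hh n * rr ω1 n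
  let B : ℕ → ℝ := fun n => (1 - rr ω1 n) / hh n * rr ω2 n
  let C : ℕ → ℝ := fun n => (1 - rr ω4 n) / hh n * rr ω3 n
  let E : ℕ → ℝ := fun n => (1 - rr ω3 n) / hh n * rr ω4 n
  have hA : Tendsto A atTop (𝓝 ω2) := by
    have := (tendsto_slope ω2).mul (tendsto_rr ω1); rwa [mul_one] at this
  have hB : Tendsto B atTop (𝓝 ω1) := by
    have := (tendsto_slope ω1).mul (tendsto_rr ω2); rwa [mul_one] at this
  have hC : Tendsto C atTop (𝓝 ω4) := by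
    have := (tendsto_slope ω4).mul (tendsto_rr ω3); rwa [mul_one] at this
  have hE : Tendsto E atTop (𝓝 ω3) := by
    have := (tendsto_slope ω3).mul (tendsto_rr ω4); rwa [mul_one] at this
  have hAB : Tendsto (fun n => A n * Q1 n - B n * Q2 n) atTop (𝓝 0) := by
    refine squeeze_zero_norm (fun n => ?_) (tendsto_est p1 p2 p3 p4 p1 p2 hS.lim)
    have hn := hh_pos n
    have e : A n * Q1 n - B n * Q2 n = (hh n : ℝ) ^ 2 * ((hh n : ℝ) *
        ((1 - rr ω2 n) * rr ω1 n * S4 (rr ω1 n) (rr ω2 n) (rr ω3 n) (rr ω4 n) (NN n)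
          (F1 (S n) (φ n) (hh n))
        - (1 - rr ω1 n) * rr ω2 n
          * S4 (rr ω1 n) (rr ω2 n) (rr ω3 n) (rr ω4 n) (NN n) (F2 (S n) (φ n) (hh n)))) := by
      simp only [A, B, hQ1, hQ2, QQ, FF1_hh, FF2_hh]
      field_simp
    rw [Real.norm_eq_abs, e]
    exact est' hn.le (Nat.cast_nonneg _) (pow_nonneg (rr_pos ω1 n).le _)
      (pow_nonneg (rr_pos ω2 n).le _) (bN_nonneg (hS.he n))
      (geom_nonneg (rr_pos ω1 n).le _) (geom_nonneg (rr_pos ω2 n).le _)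
      (geom_nonneg (rr_pos ω3 n).le _) (geom_nonneg (rr_pos ω4 n).le _)
      (hG_le p1 n _) (hG_le p2 n _) (hG_le p3 n _) (hG_le p4 n _)
      (gridA' (S n) (hh n) (hS.he n) (hS.hb n) (h0 n) (h1 n) (rr_pos ω1 n).le (rr_le p1.le n)
        (rr_pos ω2 n).le (rr_le p2.le n) (rr_pos ω3 n).le (rr_le p3.le n) (rr_pos ω4 n).le
        (rr_le p4.le n) (NN n) (hS.grid n))
  have hCE : Tendsto (fun n => C n * Q1 n - E n * Q2 n) atTop (𝓝 0) := by
    refine squeeze_zero_norm (fun n => ?_) (tendsto_est p3 p4 p1 p2 p3 p4 hS.lim)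
    have hn := hh_pos n
    have e : C n * Q1 n - E n * Q2 n = (hh n : ℝ) ^ 2 * ((hh n : ℝ) *
        ((1 - rr ω4 n) * rr ω3 n * S4 (rr ω1 n) (rr ω2 n) (rr ω3 n) (rr ω4 n) (NN n)
          (F1 (S n) (φ n) (hh n))
        - (1 - rr ω3 n) * rr ω4 n
          * S4 (rr ω1 n) (rr ω2 n) (rr ω3 n) (rr ω4 n) (NN n) (F2 (S n) (φ n) (hh n)))) := by
      simp only [C, E, hQ1, hQ2, QQ, FF1_hh, FF2_hh]
      field_simp
    rw [Real.norm_eq_abs, e]
    refine est' hn.le (Nat.cast_nonneg (NN n)) (pow_nonneg (rr_pos ω3 n).le (NN n))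
      (pow_nonneg (rr_pos ω4 n).le (NN n)) (bN_nonneg (hS.he n))
      (geom_nonneg (rr_pos ω3 n).le (NN n)) (geom_nonneg (rr_pos ω4 n).le (NN n))
      (geom_nonneg (rr_pos ω1 n).le (NN n)) (geom_nonneg (rr_pos ω2 n).le (NN n))
      (hG_le p3 n (NN n)) (hG_le p4 n (NN n)) (hG_le p1 n (NN n)) (hG_le p2 n (NN n)) ?_
    refine (gridB' (S n) (hh n) (hS.he n) (hS.hb n) (h0 n) (h1 n) (rr_pos ω1 n).le
        (rr_le p1.le n) (rr_pos ω2 n).le (rr_le p2.le n) (rr_pos ω3 n).le (rr_le p3.le n)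
        (rr_pos ω4 n).le (rr_le p4.le n) (NN n) (hS.grid n)).trans (le_of_eq ?_)
    ring
  have hdet : Tendsto (fun n => A n * E n - B n * C n) atTop (𝓝 (ω2 * ω3 - ω1 * ω4)) :=
    (hA.mul hE).sub (hB.mul hC)
  have hinv := hdet.inv₀ hres
  have hne : ∀ᶠ n in atTop, A n * E n - B n * C n ≠ 0 := hdet.eventually_ne hres
  constructor
  · have h5 := ((hE.mul hAB).sub (hB.mul hCE)).mul hinv
    simp only [mul_zero, sub_zero, zero_mul] at h5
    refine h5.congr' ?_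
    filter_upwards [hne] with n hn
    have : E n * (A n * Q1 n - B n * Q2 n) - B n * (C n * Q1 n - E n * Q2 n)
        = Q1 n * (A n * E n - B n * C n) := by ring
    rw [this, mul_inv_cancel_right₀ hn]
  · have h5 := ((hC.mul hAB).sub (hA.mul hCE)).mul hinv
    simp only [mul_zero, sub_zero, zero_mul] at h5
    refine h5.congr' ?_
    filter_upwards [hne] with n hn
    have : C n * (A n * Q1 n - B n * Q2 n) - A n * (C n * Q1 n - E n * Q2 n)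
        = Q2 n * (A n * E n - B n * C n) := by ring
    rw [this, mul_inv_cancel_right₀ hn]

theorem tendsto_FF1 (hS : Good S) (h0 : ∀ m z, 0 ≤ φ m z) (h1 : ∀ m z, φ m z ≤ 1)
    (ψ : C(Fin 4 → unitInterval, ℝ)) :
    Tendsto (fun n => LL (FF1 S φ) n ψ) atTop (𝓝 0) := by
  refine tendsto_LL (fun h i j k l => UX.abs_F1 _ _ (h0 _) (h1 _) _ _ _ _) (fun m => ?_) ψ
  simp only [LL_mon]
  exact (tendsto_Q' hS h0 h1 (mul_pos (om_pos _) (by positivity))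
    (mul_pos (om_pos _) (by positivity)) (mul_pos (om_pos _) (by positivity))
    (mul_pos (om_pos _) (by positivity)) (no_resonance m)).1

theorem tendsto_FF2 (hS : Good S) (h0 : ∀ m z, 0 ≤ φ m z) (h1 : ∀ m z, φ m z ≤ 1)
    (ψ : C(Fin 4 → unitInterval, ℝ)) :
    Tendsto (fun n => LL (FF2 S φ) n ψ) atTop (𝓝 0) := by
  refine tendsto_LL (fun h i j k l => UX.abs_F2 _ _ (h0 _) (h1 _) _ _ _ _) (fun m => ?_) ψ
  simp only [LL_mon]
  exact (tendsto_Q' hS h0 h1 (mul_pos (om_pos _) (by positivity))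
    (mul_pos (om_pos _) (by positivity)) (mul_pos (om_pos _) (by positivity))
    (mul_pos (om_pos _) (by positivity)) (no_resonance m)).2

end

end Pool.Agent.Lib.MP_2c6a66_lc.UX
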