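import Pool.Agent.Lib.MP_2c6a66_lc.UX.Digits

/-! Linear algebra for the numerical lower bound. -/

namespace Pool.Agent.Lib.MP_2c6a66_lc.UX

open Finset

/-- cost of a pair of thresholds, multiplied by `E` -/
def costN (E X Y : ℕ) (p q : Bool) : ℕ :=
  if p then (if q then E + Y else E) else (if q then max X Y else E + X)

/-- matrix of costs -/
def Mt (E : ℕ) (x y : ℕ × ℕ × ℕ → ℕ) (l : List (ℕ × ℕ × ℕ)) (i j : ℕ) : ℕ :=
  (l.map fun r => r.2.2 * costN E (x r) (y r) (decide (i < r.1)) (decide (j < r.2.1))).sum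

/-- constant part -/
def constC (E : ℕ) (x : ℕ × ℕ × ℕ → ℕ) (l : List (ℕ × ℕ × ℕ)) : ℕ :=
  (l.map fun r => r.2.2 * (E + x r)).sum

/-- linear part -/
def linA (E : ℕ) (x y : ℕ × ℕ × ℕ → ℕ) (l : List (ℕ × ℕ × ℕ)) (i : ℕ) : ℤ :=
  (l.map fun r => (r.2.2 : ℤ) * ((if i < r.1 then (x r : ℤ) else 0)
    + (if i < r.2.1 then (E : ℤ) + x r - (max (x r) (y r) : ℕ) else 0))).sum

/-- quadratic part -/
def quadS (E : ℕ) (x y : ℕ × ℕ × ℕ → ℕ) (l : List (ℕ × ℕ × ℕ)) (i j : ℕ) : ℕ :=
  (l.map fun r => r.2.2 * (E + min (x r) (y r)) * ((if i < r.1 ∧ j < r.2.1 then 1 else 0)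
    + (if i < r.2.1 ∧ j < r.1 then 1 else 0))).sum

/-- geometric sum -/
def geo (B b : ℕ) : ℕ := (B ^ b - 1) / (B - 1)

theorem geo_eq {B : ℕ} (hB : 2 ≤ B) (b : ℕ) : geo B b = ∑ k ∈ range b, B ^ k :=
  (Nat.geomSum_eq hB b).symm

/-- packed rows of the quadratic part -/
def packS (B E : ℕ) (x y : ℕ × ℕ × ℕ → ℕ) (l : List (ℕ × ℕ × ℕ)) (i : ℕ) : ℕ :=
  (l.map fun r => r.2.2 * (E + min (x r) (y r)) * ((if i < r.1 then geo B r.2.1 else 0)
    + (if i < r.2.1 then geo B r.1 else 0))).sum

/-- bound for the digits -/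
def boundS (E : ℕ) (x y : ℕ × ℕ × ℕ → ℕ) (l : List (ℕ × ℕ × ℕ)) : ℕ :=
  (l.map fun r => r.2.2 * (E + min (x r) (y r)) * 2).sum

theorem costN_int (E X Y : ℕ) (p q : Bool) : (costN E X Y p q : ℤ) = (E : ℤ) + X
    - (if p then (X : ℤ) else 0) - (if q then (E : ℤ) + X - (max X Y : ℕ) else 0)
    + (if p ∧ q then (E : ℤ) + (min X Y : ℕ) else 0) := by
  have h : ((min X Y : ℕ) : ℤ) + (max X Y : ℕ) = X + Y := by
    exact_mod_cast min_add_max X Y
  unfold costN
  cases p <;> cases q
  · simp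
  · simp
  · simp
  · simp; push_cast at h; linarith

theorem Mt_sym (E : ℕ) (x y : ℕ × ℕ × ℕ → ℕ) (l : List (ℕ × ℕ × ℕ)) (i j : ℕ) :
    (Mt E x y l i j : ℤ) + Mt E x y l j i
      = 2 * constC E x l - linA E x y l i - linA E x y l j + quadS E x y l i j := by
  induction l with
  | nil => simp [Mt, constC, linA, quadS]
  | cons r l ih =>
    have e1 : (Mt E x y (r :: l) i j : ℤ) = r.2.2 * costN E (x r) (y r) (decide (i < r.1))
        (decide (j < r.2.1)) + Mt E x y l i j := by unfold Mt; simp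
    have e2 : (Mt E x y (r :: l) j i : ℤ) = r.2.2 * costN E (x r) (y r) (decide (j < r.1))
        (decide (i < r.2.1)) + Mt E x y l j i := by unfold Mt; simp
    have e3 : (constC E x (r :: l) : ℤ) = r.2.2 * (E + x r) + constC E x l := by
      unfold constC; simp
    have e4 : ∀ i, linA E x y (r :: l) i = (r.2.2 : ℤ) * ((if i < r.1 then (x r : ℤ) else 0)
        + (if i < r.2.1 then (E : ℤ) + x r - (max (x r) (y r) : ℕ) else 0))
        + linA E x y l i := by intro i; unfold linA; simp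
    have e5 : (quadS E x y (r :: l) i j : ℤ) = r.2.2 * (E + (min (x r) (y r) : ℕ))
        * ((if i < r.1 ∧ j < r.2.1 then 1 else 0) + (if i < r.2.1 ∧ j < r.1 then 1 else 0))
        + quadS E x y l i j := by
      unfold quadS
      rw [List.map_cons, List.sum_cons]
      push_cast
      ring
    rw [e1, e2, e3, e4, e4, e5, costN_int, costN_int]
    have : (Mt E x y l i j : ℤ) = 2 * constC E x l - linA E x y l i - linA E x y l j
        + quadS E x y l i j - Mt E x y l j i := by linarith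
    rw [this]
    by_cases h1 : i < r.1 <;> by_cases h2 : j < r.2.1 <;> by_cases h3 : j < r.1 <;>
      by_cases h4 : i < r.2.1 <;> simp only [h1, h2, h3, h4, decide_true, decide_false, if_true,
        if_false, and_true, and_false, Bool.false_eq_true] <;> ring

theorem quad_lt {E B : ℕ} {x y : ℕ × ℕ × ℕ → ℕ} {l : List (ℕ × ℕ × ℕ)}
    (hB : boundS E x y l < B) (i j : ℕ) : quadS E x y l i j < B := by
  refine lt_of_le_of_lt ?_ hB
  unfold quadS boundS
  refine List.sum_le_sum fun r _ => Nat.mul_le_mul_left _ ?_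
  split_ifs <;> simp

theorem packS_eq {B E n : ℕ} (hB2 : 2 ≤ B) (x y : ℕ × ℕ × ℕ → ℕ) (l : List (ℕ × ℕ × ℕ))
    (hl : ∀ r ∈ l, r.1 ≤ n ∧ r.2.1 ≤ n) (i : ℕ) :
    packS B E x y l i = ∑ j ∈ range n, quadS E x y l i j * B ^ j := by
  have hg : ∀ b ≤ n, geo B b = ∑ j ∈ range n, (if j < b then 1 else 0) * B ^ j := by
    intro b hb
    rw [geo_eq hB2]
    have : range b = (range n).filter fun j => j < b := by
      ext j; simp only [mem_range, mem_filter]; omega
    rw [this, Finset.sum_filter]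
    exact Finset.sum_congr rfl fun j _ => by split_ifs <;> simp
  induction l with
  | nil => simp [packS, quadS]
  | cons r l ih =>
    obtain ⟨h1, h2⟩ := hl r (by simp)
    have e1 : packS B E x y (r :: l) i = r.2.2 * (E + min (x r) (y r))
        * ((if i < r.1 then geo B r.2.1 else 0) + (if i < r.2.1 then geo B r.1 else 0))
        + packS B E x y l i := by unfold packS; simp
    have e2 : ∀ j, quadS E x y (r :: l) i j = r.2.2 * (E + min (x r) (y r))
        * ((if i < r.1 ∧ j < r.2.1 then 1 else 0) + (if i < r.2.1 ∧ j < r.1 then 1 else 0))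
        + quadS E x y l i j := by intro j; unfold quadS; simp
    rw [e1, ih fun r hr => hl r (by simp [hr])]
    simp only [e2, add_mul, Finset.sum_add_distrib]
    refine congrArg₂ (fun a b => a + b) ?_ rfl
    rw [mul_add]
    have e3 : ∀ (a b : ℕ), b ≤ n → (if i < a then geo B b else 0)
        = ∑ j ∈ range n, (if i < a ∧ j < b then 1 else 0) * B ^ j := by
      intro a b hb
      by_cases ha : i < a
      · rw [if_pos ha, hg b hb]
        exact Finset.sum_congr rfl fun j _ => by simp [ha]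
      · rw [if_neg ha]; simp [ha]
    rw [e3 _ _ h2, e3 _ _ h1, Finset.mul_sum, Finset.mul_sum, ← Finset.sum_add_distrib]
    exact Finset.sum_congr rfl fun j _ => by ring

theorem quad_dig {B E n : ℕ} (hB2 : 2 ≤ B) {x y : ℕ × ℕ × ℕ → ℕ} {l : List (ℕ × ℕ × ℕ)}
    (hl : ∀ r ∈ l, r.1 ≤ n ∧ r.2.1 ≤ n) (hB : boundS E x y l < B) (i : ℕ) {j : ℕ} (hj : j < n) :
    quadS E x y l i j = dig B (packS B E x y l i) j := by
  rw [packS_eq hB2 x y l hl i]
  exact (dig_sum n (fun j => quadS E x y l i j) (fun j _ => quad_lt hB i j) hj).symm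

theorem sum_lt_pow {B : ℕ} (n : ℕ) (f : ℕ → ℕ) (hf : ∀ j < n, f j < B) :
    ∑ j ∈ range n, f j * B ^ j < B ^ n := by
  induction n with
  | zero => simp
  | succ n ih =>
    have h1 := ih fun j hj => hf j (by omega)
    have h2 := hf n (by omega)
    rw [Finset.sum_range_succ, pow_succ]
    have h3 : (f n + 1) * B ^ n ≤ B * B ^ n := Nat.mul_le_mul_right _ h2
    have h4 : (f n + 1) * B ^ n = f n * B ^ n + B ^ n := by ring
    have h5 : B * B ^ n = B ^ n * B := by ring
    omega

/-- all rows of the quadratic part in one number, rows in base `N` -/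
def packAll (B N E : ℕ) (x y : ℕ × ℕ × ℕ → ℕ) (l : List (ℕ × ℕ × ℕ)) : ℕ :=
  (l.map fun r => r.2.2 * (E + min (x r) (y r)) * (geo N r.1 * geo B r.2.1
    + geo N r.2.1 * geo B r.1)).sum

theorem geo_if {B n b : ℕ} (hB : 2 ≤ B) (hb : b ≤ n) (g : ℕ) :
    ∑ j ∈ range n, (if j < b then g else 0) * B ^ j = geo B b * g := by
  rw [geo_eq hB]
  have : range b = (range n).filter fun j => j < b := by
    ext j; simp only [mem_range, mem_filter]; omega
  rw [this, Finset.sum_filter, Finset.sum_mul]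
  exact Finset.sum_congr rfl fun j _ => by split_ifs <;> simp [mul_comm]

theorem packAll_eq {B N E n : ℕ} (hN : 2 ≤ N) (x y : ℕ × ℕ × ℕ → ℕ)
    (l : List (ℕ × ℕ × ℕ)) (hl : ∀ r ∈ l, r.1 ≤ n ∧ r.2.1 ≤ n) :
    packAll B N E x y l = ∑ i ∈ range n, packS B E x y l i * N ^ i := by
  induction l with
  | nil => simp [packAll, packS]
  | cons r l ih =>
    obtain ⟨h1, h2⟩ := hl r (by simp)
    have e1 : packAll B N E x y (r :: l) = r.2.2 * (E + min (x r) (y r))
        * (geo N r.1 * geo B r.2.1 + geo N r.2.1 * geo B r.1) + packAll B N E x y l := by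
      unfold packAll; simp
    have e2 : ∀ i, packS B E x y (r :: l) i = r.2.2 * (E + min (x r) (y r))
        * ((if i < r.1 then geo B r.2.1 else 0) + (if i < r.2.1 then geo B r.1 else 0))
        + packS B E x y l i := by intro i; unfold packS; simp
    rw [e1, ih fun r hr => hl r (by simp [hr])]
    simp only [e2, add_mul, Finset.sum_add_distrib]
    refine congrArg₂ (fun a b => a + b) ?_ rfl
    rw [← geo_if hN h1, ← geo_if hN h2, mul_add, Finset.mul_sum, Finset.mul_sum,
      ← Finset.sum_add_distrib]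
    exact Finset.sum_congr rfl fun j _ => by ring

theorem quad_dig2 {B E n SA : ℕ} (hB2 : 2 ≤ B) (hn : n ≠ 0) {x y : ℕ × ℕ × ℕ → ℕ}
    {l : List (ℕ × ℕ × ℕ)} (hl : ∀ r ∈ l, r.1 ≤ n ∧ r.2.1 ≤ n) (hB : boundS E x y l < B)
    (hS : packAll B (B ^ n) E x y l = SA) {i j : ℕ} (hi : i < n) (hj : j < n) :
    quadS E x y l i j = dig B (dig (B ^ n) SA i) j := by
  have hN : 2 ≤ B ^ n := hB2.trans (Nat.le_self_pow hn B)
  have h1 : packS B E x y l i = dig (B ^ n) SA i := by
    rw [← hS, packAll_eq hN x y l hl]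
    refine (dig_sum n (fun i => packS B E x y l i) (fun i _ => ?_) hi).symm
    rw [packS_eq hB2 x y l hl i]
    exact sum_lt_pow n _ fun j _ => quad_lt hB i j
  rw [quad_dig hB2 hl hB i hj, h1]

/-- packed positive part of the linear part -/
def packA (B E : ℕ) (x y : ℕ × ℕ × ℕ → ℕ) (l : List (ℕ × ℕ × ℕ)) : ℕ :=
  (l.map fun r => r.2.2 * (geo B r.1 * x r + geo B r.2.1 * (E + min (x r) (y r)))).sum

/-- packed negative part of the linear part -/
def packB (B : ℕ) (y : ℕ × ℕ × ℕ → ℕ) (l : List (ℕ × ℕ × ℕ)) : ℕ :=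
  (l.map fun r => r.2.2 * (geo B r.2.1 * y r)).sum

/-- bound for the digits -/
def boundA (E : ℕ) (x y : ℕ × ℕ × ℕ → ℕ) (l : List (ℕ × ℕ × ℕ)) : ℕ :=
  (l.map fun r => r.2.2 * (x r + (E + min (x r) (y r)))).sum

/-- bound for the digits -/
def boundB (y : ℕ × ℕ × ℕ → ℕ) (l : List (ℕ × ℕ × ℕ)) : ℕ :=
  (l.map fun r => r.2.2 * y r).sum

theorem packA_dig {B E n PA : ℕ} (hB2 : 2 ≤ B) {x y : ℕ × ℕ × ℕ → ℕ}
    {l : List (ℕ × ℕ × ℕ)} (hl : ∀ r ∈ l, r.1 ≤ n ∧ r.2.1 ≤ n) (hB : boundA E x y l < B)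
    (hS : packA B E x y l = PA) {i : ℕ} (hi : i < n) :
    (l.map fun r => r.2.2 * ((if i < r.1 then x r else 0)
      + (if i < r.2.1 then E + min (x r) (y r) else 0))).sum = dig B PA i := by
  have key : packA B E x y l = ∑ i ∈ range n, (l.map fun r => r.2.2 * ((if i < r.1 then x r else 0)
      + (if i < r.2.1 then E + min (x r) (y r) else 0))).sum * B ^ i := by
    clear hB hS
    induction l with
    | nil => simp [packA]
    | cons r l ih =>
      obtain ⟨h1, h2⟩ := hl r (by simp)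
      have e1 : packA B E x y (r :: l) = r.2.2 * (geo B r.1 * x r
          + geo B r.2.1 * (E + min (x r) (y r))) + packA B E x y l := by unfold packA; simp
      rw [e1, ih fun r hr => hl r (by simp [hr])]
      simp only [List.map_cons, List.sum_cons, add_mul, Finset.sum_add_distrib]
      refine congrArg₂ (fun a b => a + b) ?_ rfl
      rw [← geo_if hB2 h1, ← geo_if hB2 h2, ← Finset.sum_add_distrib, Finset.mul_sum]
      exact Finset.sum_congr rfl fun j _ => by ring
  rw [← hS, key]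
  refine (dig_sum n (fun i => (l.map fun r => r.2.2 * ((if i < r.1 then x r else 0)
      + (if i < r.2.1 then E + min (x r) (y r) else 0))).sum) (fun i _ => ?_) hi).symm
  refine lt_of_le_of_lt ?_ hB
  unfold boundA
  refine List.sum_le_sum fun r _ => Nat.mul_le_mul_left _ (Nat.add_le_add ?_ ?_)
  · split_ifs
    · exact le_rfl
    · exact Nat.zero_le _
  · split_ifs
    · exact le_rfl
    · exact Nat.zero_le _

theorem packB_dig {B n PB : ℕ} (hB2 : 2 ≤ B) {y : ℕ × ℕ × ℕ → ℕ}
    {l : List (ℕ × ℕ × ℕ)} (hl : ∀ r ∈ l, r.1 ≤ n ∧ r.2.1 ≤ n) (hB : boundB y l < B)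
    (hS : packB B y l = PB) {i : ℕ} (hi : i < n) :
    (l.map fun r => r.2.2 * (if i < r.2.1 then y r else 0)).sum = dig B PB i := by
  have key : packB B y l = ∑ i ∈ range n, (l.map fun r => r.2.2
      * (if i < r.2.1 then y r else 0)).sum * B ^ i := by
    clear hB hS
    induction l with
    | nil => simp [packB]
    | cons r l ih =>
      obtain ⟨h1, h2⟩ := hl r (by simp)
      have e1 : packB B y (r :: l) = r.2.2 * (geo B r.2.1 * y r) + packB B y l := by
        unfold packB; simp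
      rw [e1, ih fun r hr => hl r (by simp [hr])]
      simp only [List.map_cons, List.sum_cons, add_mul, Finset.sum_add_distrib]
      refine congrArg₂ (fun a b => a + b) ?_ rfl
      rw [← geo_if hB2 h2, Finset.mul_sum]
      exact Finset.sum_congr rfl fun j _ => by ring
  rw [← hS, key]
  refine (dig_sum n (fun i => (l.map fun r => r.2.2 * (if i < r.2.1 then y r else 0)).sum)
    (fun i _ => ?_) hi).symm
  refine lt_of_le_of_lt ?_ hB
  unfold boundB
  refine List.sum_le_sum fun r _ => Nat.mul_le_mul_left _ ?_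
  split_ifs
  · exact le_rfl
  · exact Nat.zero_le _

theorem linA_dig {B E n PA PB : ℕ} (hB2 : 2 ≤ B) {x y : ℕ × ℕ × ℕ → ℕ}
    {l : List (ℕ × ℕ × ℕ)} (hl : ∀ r ∈ l, r.1 ≤ n ∧ r.2.1 ≤ n) (h1 : boundA E x y l < B)
    (h2 : boundB y l < B) (h3 : packA B E x y l = PA) (h4 : packB B y l = PB) {i : ℕ}
    (hi : i < n) : linA E x y l i = (dig B PA i : ℤ) - dig B PB i := by
  rw [← packA_dig hB2 hl h1 h3 hi, ← packB_dig hB2 hl h2 h4 hi]
  clear h1 h2 h3 h4 hl
  induction l with
  | nil => simp [linA]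
  | cons r l ih =>
    have e4 : linA E x y (r :: l) i = (r.2.2 : ℤ) * ((if i < r.1 then (x r : ℤ) else 0)
        + (if i < r.2.1 then (E : ℤ) + x r - (max (x r) (y r) : ℕ) else 0))
        + linA E x y l i := by unfold linA; simp
    have h : ((min (x r) (y r) : ℕ) : ℤ) + (max (x r) (y r) : ℕ) = x r + y r := by
      exact_mod_cast min_add_max (x r) (y r)
    rw [e4, ih]
    simp only [List.map_cons, List.sum_cons]
    by_cases a1 : i < r.1 <;> by_cases a2 : i < r.2.1 <;> simp only [a1, a2, if_true, if_false] <;>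
      push_cast at h ⊢
    · have : (max (x r : ℤ) (y r)) = x r + y r - min (x r : ℤ) (y r) := by linarith
      rw [this]; ring
    · ring
    · have : (max (x r : ℤ) (y r)) = x r + y r - min (x r : ℤ) (y r) := by linarith
      rw [this]; ring
    · ring

theorem zip_sum (a b : List ℤ) (n : ℕ) (ha : a.length ≤ n) :
    (List.zipWith (fun s t => s * t) a b).sum = ∑ q ∈ range n, a.getD q 0 * b.getD q 0 := by
  induction a generalizing b n with
  | nil => simp
  | cons s a ih =>
    cases b with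
    | nil => simp
    | cons t b =>
      cases n with
      | zero => simp at ha
      | succ n =>
        rw [Finset.sum_range_succ']
        simp only [List.zipWith_cons_cons, List.sum_cons, List.getD_cons_succ,
          List.getD_cons_zero]
        rw [ih b n (by simpa using ha)]
        ring

end Pool.Agent.Lib.MP_2c6a66_lc.UX
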