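import Pool.Agent.Lib.MP_2c6a66_lc.UX.LowData
import Pool.Agent.Lib.MP_2c6a66_lc.UX.LowLin

/-! Integer checks for the numerical lower bound. -/

namespace Pool.Agent.Lib.MP_2c6a66_lc.UX

/-- lower approximations of the nodes, multiplied by `100000000` -/
def Xn (m : ℕ) : ℕ :=
  if 34 ≤ m then 100000000 * (160 + 3 * (m - 34)) / 160 else 100000000 * 160 / (160 + 3 * (34 - m))

/-- first node of a row -/
def xr (r : ℕ × ℕ × ℕ) : ℕ := Xn r.1

/-- inverse of the second node of a row -/
def yr (r : ℕ × ℕ × ℕ) : ℕ := Xn (68 - r.2.1)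

theorem rows_check : (rowsL.map fun r => r.2.2).sum = 100000000 ∧
    ∀ r ∈ rowsL, 1 ≤ r.1 ∧ r.1 ≤ 67 ∧ 1 ≤ r.2.1 ∧ r.2.1 ≤ 67 := by
  decide +kernel

theorem bound_check : boundS 100000000 xr yr rowsL < 72057594037927936 ∧
    boundA 100000000 xr yr rowsL < 72057594037927936 ∧ boundB yr rowsL < 72057594037927936 := by
  decide +kernel

theorem PA_store : packA 72057594037927936 100000000 xr yr rowsL = PA := by
  decide +kernel

theorem PB_store : packB 72057594037927936 yr rowsL = PB := by
  decide +kernel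

theorem SA_store : packAll 72057594037927936 (72057594037927936 ^ 68) 100000000 xr yr rowsL = SA := by
  decide +kernel

theorem C_store : constC 100000000 xr rowsL = Cc := by
  decide +kernel

/-- inner products of rows -/
def dotL (i j : ℕ) : ℤ := (List.zipWith (fun a b => a * b) (Lm.getD i []) (Lm.getD j [])).sum

theorem L_check : ∀ i < 68, (Lm.getD i []).length ≤ 68 := by
  decide +kernel

/-- the linear part -/
def Adig (i : ℕ) : ℤ := (dig 72057594037927936 PA i : ℤ) - dig 72057594037927936 PB i

theorem cert_low : ∀ i < 68, ∀ j < i + 1,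
    (31549400000000000 + 2 * dotL i j : ℤ)
      ≤ 2 * (Cc : ℤ) - Adig i - Adig j + (dig 72057594037927936 (dig (72057594037927936 ^ 68) SA i) j : ℤ) := by
  decide +kernel

end Pool.Agent.Lib.MP_2c6a66_lc.UX
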