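import Pool.Agent.Lib.MP_2c6a66_lc.UX.Upper2
import Pool.Agent.Lib.MP_2c6a66_lc.UX.LowDefs

/-! Numerical lower bound for the value of mixtures. -/

namespace Pool.Agent.Lib.MP_2c6a66_lc.UX

open Finset MeasureTheory

noncomputable section

/-- a quadratic form with a decomposition certificate -/
theorem dnn {n : ℕ} (e : ℕ → ℝ) (he : ∀ i, 0 ≤ e i) (hs : ∑ i ∈ range n, e i = 1)
    (M L : ℕ → ℕ → ℝ) (V : ℝ) (h : ∀ i < n, ∀ j < n,
      2 * V + 2 * ∑ q ∈ range n, L i q * L j q ≤ M i j + M j i) :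
    V ≤ ∑ i ∈ range n, ∑ j ∈ range n, e i * e j * M i j := by
  have h1 : ∑ i ∈ range n, ∑ j ∈ range n, e i * e j * M i j
      = ∑ i ∈ range n, ∑ j ∈ range n, e i * e j * M j i := by
    rw [Finset.sum_comm]
    exact Finset.sum_congr rfl fun i _ => Finset.sum_congr rfl fun j _ => by ring
  have h2 : ∑ i ∈ range n, ∑ j ∈ range n, e i * e j * (2 * V + 2 * ∑ q ∈ range n, L i q * L j q)
      ≤ ∑ i ∈ range n, ∑ j ∈ range n, e i * e j * (M i j + M j i) :=
    Finset.sum_le_sum fun i hi => Finset.sum_le_sum fun j hj =>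
      mul_le_mul_of_nonneg_left (h i (mem_range.1 hi) j (mem_range.1 hj))
        (mul_nonneg (he i) (he j))
  have h3 : ∑ i ∈ range n, ∑ j ∈ range n, e i * e j * (M i j + M j i)
      = 2 * ∑ i ∈ range n, ∑ j ∈ range n, e i * e j * M i j := by
    have : ∑ i ∈ range n, ∑ j ∈ range n, e i * e j * (M i j + M j i)
        = ∑ i ∈ range n, ∑ j ∈ range n, e i * e j * M i j
          + ∑ i ∈ range n, ∑ j ∈ range n, e i * e j * M j i := by
      simp only [mul_add, Finset.sum_add_distrib]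
    rw [this, ← h1]
    ring
  have h4 : ∑ i ∈ range n, ∑ j ∈ range n, e i * e j * (2 * V + 2 * ∑ q ∈ range n, L i q * L j q)
      = 2 * V + 2 * ∑ q ∈ range n, (∑ i ∈ range n, e i * L i q) ^ 2 := by
    have a1 : ∀ i j, e i * e j * (2 * V + 2 * ∑ q ∈ range n, L i q * L j q)
        = 2 * V * (e i * e j) + 2 * ∑ q ∈ range n, (e i * L i q) * (e j * L j q) := by
      intro i j
      rw [mul_add, Finset.mul_sum, Finset.mul_sum, Finset.mul_sum]
      congr 1
      · ring
      · exact Finset.sum_congr rfl fun q _ => by ring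
    simp only [a1, Finset.sum_add_distrib]
    congr 1
    · have : ∀ i, ∑ j ∈ range n, 2 * V * (e i * e j) = 2 * V * e i := by
        intro i
        rw [← Finset.mul_sum, ← Finset.mul_sum, hs]
        ring
      simp only [this]
      rw [← Finset.mul_sum, hs, mul_one]
    · have a2 : ∑ i ∈ range n, ∑ j ∈ range n, 2 * ∑ q ∈ range n, (e i * L i q) * (e j * L j q)
          = 2 * ∑ i ∈ range n, ∑ j ∈ range n, ∑ q ∈ range n, (e i * L i q) * (e j * L j q) := by
        simp only [Finset.mul_sum]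
      rw [a2]
      congr 1
      have a3 : ∀ i, ∑ j ∈ range n, ∑ q ∈ range n, (e i * L i q) * (e j * L j q)
          = ∑ q ∈ range n, (e i * L i q) * ∑ j ∈ range n, e j * L j q := by
        intro i
        rw [Finset.sum_comm]
        exact Finset.sum_congr rfl fun q _ => by rw [Finset.mul_sum]
      simp only [a3]
      rw [Finset.sum_comm]
      refine Finset.sum_congr rfl fun q _ => ?_
      rw [← Finset.sum_mul]
      ring
  have h5 : 0 ≤ ∑ q ∈ range n, (∑ i ∈ range n, e i * L i q) ^ 2 :=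
    Finset.sum_nonneg fun q _ => sq_nonneg _
  linarith

/-- cost of a pair of threshold positions -/
def costR (x y : ℝ) (p q : Bool) : ℝ :=
  if p then (if q then 1 + y else 1) else (if q then max x y else 1 + x)

/-- the pair cost in terms of increments -/
theorem CC_exp {n : ℕ} (e : ℕ → ℝ) (hs : ∑ i ∈ range n, e i = 1) {a b : ℕ} (ha : a ≤ n)
    (hb : b ≤ n) (x y : ℝ) :
    CC x y (∑ i ∈ range a, e i) (∑ j ∈ range b, e j)
      = ∑ i ∈ range n, ∑ j ∈ range n, e i * e j * costR x y (decide (i < a)) (decide (j < b)) := by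
  have ind : ∀ a, a ≤ n → ∑ i ∈ range a, e i = ∑ i ∈ range n, e i * (if i < a then 1 else 0) := by
    intro a ha
    have : ∑ i ∈ range n, e i * (if i < a then (1 : ℝ) else 0)
        = ∑ i ∈ (range n).filter (fun i => i < a), e i := by
      rw [Finset.sum_filter]
      exact Finset.sum_congr rfl fun i _ => by split_ifs <;> simp
    rw [this]
    congr 1
    ext i
    simp only [mem_range, mem_filter]
    omega
  have ind' : ∀ a, a ≤ n → 1 - ∑ i ∈ range a, e i
      = ∑ i ∈ range n, e i * (1 - (if i < a then 1 else 0)) := by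
    intro a ha
    have h1 : 1 - ∑ i ∈ range a, e i
        = ∑ i ∈ range n, e i - ∑ i ∈ range n, e i * (if i < a then 1 else 0) := by
      rw [hs, ind a ha]
    rw [h1, ← Finset.sum_sub_distrib]
    exact Finset.sum_congr rfl fun i _ => by ring
  have e1 : CC x y (∑ i ∈ range a, e i) (∑ j ∈ range b, e j)
      = (1 + y) * ((∑ i ∈ range a, e i) * (∑ j ∈ range b, e j))
        + (∑ i ∈ range a, e i) * (1 - ∑ j ∈ range b, e j)
        + max x y * ((1 - ∑ i ∈ range a, e i) * (∑ j ∈ range b, e j))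
        + (1 + x) * ((1 - ∑ i ∈ range a, e i) * (1 - ∑ j ∈ range b, e j)) := rfl
  rw [e1, ind' a ha, ind' b hb, ind a ha, ind b hb, Finset.sum_mul_sum, Finset.sum_mul_sum,
    Finset.sum_mul_sum, Finset.sum_mul_sum]
  simp only [Finset.mul_sum, ← Finset.sum_add_distrib]
  refine Finset.sum_congr rfl fun i _ => Finset.sum_congr rfl fun j _ => ?_
  unfold costR
  by_cases h1 : i < a <;> by_cases h2 : j < b <;> simp [h1, h2] <;> ring

/-! ### Data -/

/-- the nodes -/
def Tn (m : ℕ) : ℝ := if 34 ≤ m then 1 + 3 * ((m : ℝ) - 34) / 160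
  else 1 / (1 + 3 * (34 - (m : ℝ)) / 160)

/-- entry of the square root -/
def Le (i q : ℕ) : ℤ := (Lm.getD i []).getD q 0

theorem dot_eq {i j : ℕ} (hi : i < 68) : dotL i j = ∑ q ∈ range 68, Le i q * Le j q := by
  unfold dotL Le
  exact zip_sum _ _ _ (L_check i hi)

theorem cert_int {i j : ℕ} (hi : i < 68) (hj : j < i + 1) :
    (31549400000000000 + 2 * ∑ q ∈ range 68, Le i q * Le j q : ℤ)
      ≤ (Mt 100000000 xr yr rowsL i j : ℤ) + (Mt 100000000 xr yr rowsL j i : ℤ) := by
  have h := cert_low i hi j hj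
  have hl : ∀ r ∈ rowsL, r.1 ≤ 68 ∧ r.2.1 ≤ 68 := fun r hr => by
    obtain ⟨a1, a2, b1, b2⟩ := rows_check.2 r hr
    exact ⟨by omega, by omega⟩
  obtain ⟨c1, c2, c3⟩ := bound_check
  have hB2 : 2 ≤ 72057594037927936 := by norm_num
  rw [dot_eq hi] at h
  rw [Mt_sym, linA_dig hB2 hl c2 c3 PA_store PB_store hi,
    linA_dig hB2 hl c2 c3 PA_store PB_store (show j < 68 by omega), C_store,
    quad_dig2 hB2 (by norm_num) hl c1 SA_store hi (show j < 68 by omega)]
  exact h

theorem cert_all {i j : ℕ} (hi : i < 68) (hj : j < 68) :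
    (31549400000000000 + 2 * ∑ q ∈ range 68, Le i q * Le j q : ℤ)
      ≤ (Mt 100000000 xr yr rowsL i j : ℤ) + (Mt 100000000 xr yr rowsL j i : ℤ) := by
  rcases le_total j i with h | h
  · exact cert_int hi (by omega)
  · have := cert_int hj (show i < j + 1 by omega)
    have e : ∑ q ∈ range 68, Le i q * Le j q = ∑ q ∈ range 68, Le j q * Le i q :=
      Finset.sum_congr rfl fun q _ => mul_comm _ _
    rw [e]
    linarith

theorem Xn_le (m : ℕ) (_hm : 1 ≤ m) : (Xn m : ℝ) / 100000000 ≤ Tn m := by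
  unfold Xn Tn
  split_ifs with h
  · have h1 : (100000000 * (160 + 3 * (m - 34)) / 160 : ℕ) * 160 ≤ 100000000 * (160 + 3 * (m - 34)) :=
      Nat.div_mul_le_self _ _
    have h2 : ((100000000 * (160 + 3 * (m - 34)) / 160 : ℕ) : ℝ) * 160
        ≤ 100000000 * (160 + 3 * ((m : ℝ) - 34)) := by
      have : (((100000000 * (160 + 3 * (m - 34)) / 160 : ℕ) * 160 : ℕ) : ℝ)
          ≤ ((100000000 * (160 + 3 * (m - 34)) : ℕ) : ℝ) := by
        exact_mod_cast h1
      rw [Nat.cast_mul, Nat.cast_mul, Nat.cast_add, Nat.cast_mul, Nat.cast_sub h] at this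
      push_cast at this ⊢
      exact this
    rw [div_le_iff₀ (by norm_num)]
    linarith
  · have h' : m < 34 := not_le.1 h
    have h1 : (100000000 * 160 / (160 + 3 * (34 - m)) : ℕ) * (160 + 3 * (34 - m)) ≤ 100000000 * 160 :=
      Nat.div_mul_le_self _ _
    have h2 : ((100000000 * 160 / (160 + 3 * (34 - m)) : ℕ) : ℝ)
        * (160 + 3 * (34 - (m : ℝ))) ≤ 100000000 * 160 := by
      have : (((100000000 * 160 / (160 + 3 * (34 - m)) : ℕ) * (160 + 3 * (34 - m)) : ℕ) : ℝ)
          ≤ ((100000000 * 160 : ℕ) : ℝ) := by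
        exact_mod_cast h1
      rw [Nat.cast_mul, Nat.cast_add, Nat.cast_mul, Nat.cast_sub h'.le] at this
      push_cast at this ⊢
      linarith
    have hm' : (m : ℝ) < 34 := by exact_mod_cast h'
    have h3 : (0 : ℝ) < 1 + 3 * (34 - (m : ℝ)) / 160 := by
      have : 0 < 34 - (m : ℝ) := by linarith
      positivity
    rw [div_le_div_iff₀ (by norm_num) h3]
    linarith

theorem Tn_pos {m : ℕ} (hm : m ≤ 68) : 0 < Tn m := by
  unfold Tn
  split_ifs with h
  · have : (34 : ℝ) ≤ m := by exact_mod_cast h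
    have : 0 ≤ (m : ℝ) - 34 := by linarith
    positivity
  · have h' : m < 34 := not_le.1 h
    have : (m : ℝ) < 34 := by exact_mod_cast h'
    have : 0 < 34 - (m : ℝ) := by linarith
    positivity

theorem Tn_inv {m : ℕ} (h1 : 1 ≤ m) (hm : m ≤ 67) : 1 / Tn (68 - m) = Tn m := by
  unfold Tn
  have hc : ((68 - m : ℕ) : ℝ) = 68 - (m : ℝ) := by
    rw [Nat.cast_sub (by omega)]; norm_num
  rcases lt_trichotomy m 34 with h | h | h
  · rw [if_pos (by omega), if_neg (by omega), hc]
    congr 1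
    ring
  · subst h
    norm_num
  · rw [if_neg (by omega), if_pos (by omega), hc, one_div_one_div]
    ring

theorem Tn_mono {a b : ℕ} (ha : 1 ≤ a) (hab : a ≤ b) (hb : b ≤ 67) : Tn a ≤ Tn b := by
  have hab' : (a : ℝ) ≤ b := by exact_mod_cast hab
  unfold Tn
  split_ifs with h1 h2 h2
  · linarith
  · omega
  · have h1' : (a : ℝ) < 34 := by exact_mod_cast not_le.1 h1
    have h2' : (34 : ℝ) ≤ b := by exact_mod_cast h2
    have h3 : (0 : ℝ) < 1 + 3 * (34 - (a : ℝ)) / 160 := by
      have : 0 < 34 - (a : ℝ) := by linarith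
      positivity
    rw [div_le_iff₀ h3]
    nlinarith
  · have h1' : (a : ℝ) < 34 := by exact_mod_cast not_le.1 h1
    have h2' : (b : ℝ) < 34 := by exact_mod_cast not_le.1 h2
    refine one_div_le_one_div_of_le ?_ (by linarith)
    have : 0 < 34 - (b : ℝ) := by linarith
    positivity

theorem costR_mono {x y x' y' : ℝ} (hx : x' ≤ x) (hy : y' ≤ y) (p q : Bool) :
    costR x' y' p q ≤ costR x y p q := by
  unfold costR
  split_ifs
  · linarith
  · exact le_rfl
  · exact max_le_max hx hy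
  · linarith

theorem costN_eq (X Y : ℕ) (p q : Bool) :
    (costN 100000000 X Y p q : ℝ) = 100000000 * costR ((X : ℝ) / 100000000) ((Y : ℝ) / 100000000) p q := by
  unfold costN costR
  split_ifs
  · push_cast; ring
  · push_cast; ring
  · rw [Nat.cast_max, mul_max_of_nonneg _ _ (by norm_num : (0 : ℝ) ≤ 100000000),
      mul_div_cancel₀ _ (by norm_num : (100000000 : ℝ) ≠ 0),
      mul_div_cancel₀ _ (by norm_num : (100000000 : ℝ) ≠ 0)]
  · push_cast; ring

/-- the pathwise inequality -/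
theorem path_lower (κ : ℕ → ℝ) (h0 : κ 0 = 0) (h16 : κ 68 = 1) (hm : Monotone κ) :
    157747 / 100000 * 100000000 ≤ (rowsL.map fun r => (r.2.2 : ℝ)
      * CC (Tn r.1) (Tn (68 - r.2.1)) (κ r.1) (κ r.2.1)).sum := by
  set e : ℕ → ℝ := fun i => κ (i + 1) - κ i with he
  have hsum : ∀ a, ∑ i ∈ range a, e i = κ a := by
    intro a
    rw [he, Finset.sum_range_sub, h0, sub_zero]
  have he0 : ∀ i, 0 ≤ e i := fun i => sub_nonneg.2 (hm (Nat.le_succ i))
  have hs : ∑ i ∈ range 68, e i = 1 := by rw [hsum, h16]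
  have key := dnn e he0 hs (fun i j => (Mt 100000000 xr yr rowsL i j : ℝ)) (fun i q => (Le i q : ℝ)) (31549400000000000 / 2) (by
    intro i hi j hj
    have h := cert_all hi hj
    have h' : ((31549400000000000 + 2 * ∑ q ∈ range 68, Le i q * Le j q : ℤ) : ℝ)
        ≤ (((Mt 100000000 xr yr rowsL i j : ℤ) + (Mt 100000000 xr yr rowsL j i : ℤ) : ℤ) : ℝ) := by
      exact_mod_cast h
    push_cast at h'
    linarith)
  have hrow : ∀ r ∈ rowsL, ∑ i ∈ range 68, ∑ j ∈ range 68, e i * e j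
      * costR ((Xn r.1 : ℝ) / 100000000) ((Xn (68 - r.2.1) : ℝ) / 100000000)
        (decide (i < r.1)) (decide (j < r.2.1))
      ≤ CC (Tn r.1) (Tn (68 - r.2.1)) (κ r.1) (κ r.2.1) := by
    intro r hr
    obtain ⟨a1, a2, b1, b2⟩ := rows_check.2 r hr
    have := CC_exp e hs (show r.1 ≤ 68 by omega) (show r.2.1 ≤ 68 by omega) (Tn r.1)
      (Tn (68 - r.2.1))
    rw [hsum, hsum] at this
    rw [this]
    refine Finset.sum_le_sum fun i _ => Finset.sum_le_sum fun j _ => ?_
    exact mul_le_mul_of_nonneg_left (costR_mono (Xn_le _ a1) (Xn_le _ (by omega)) _ _)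
      (mul_nonneg (he0 i) (he0 j))
  have hM : ∀ i j, (Mt 100000000 xr yr rowsL i j : ℝ) = 100000000 * (rowsL.map fun r => (r.2.2 : ℝ)
      * costR ((Xn r.1 : ℝ) / 100000000) ((Xn (68 - r.2.1) : ℝ) / 100000000)
        (decide (i < r.1)) (decide (j < r.2.1))).sum := by
    intro i j
    unfold Mt xr yr
    rw [Nat.cast_list_sum, List.map_map, ← List.sum_map_mul_left]
    congr 1
    refine List.map_congr_left fun r _ => ?_
    simp only [Function.comp]
    rw [Nat.cast_mul, costN_eq]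
    ring
  have hswap : ∑ i ∈ range 68, ∑ j ∈ range 68, e i * e j * (Mt 100000000 xr yr rowsL i j : ℝ)
      = 100000000 * (rowsL.map fun r => (r.2.2 : ℝ) * ∑ i ∈ range 68, ∑ j ∈ range 68, e i * e j
      * costR ((Xn r.1 : ℝ) / 100000000) ((Xn (68 - r.2.1) : ℝ) / 100000000)
        (decide (i < r.1)) (decide (j < r.2.1))).sum := by
    simp only [hM]
    generalize rowsL = l
    induction l with
    | nil => simp
    | cons r l ih =>
      simp only [List.map_cons, List.sum_cons, mul_add, Finset.sum_add_distrib]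
      rw [ih]
      congr 1
      simp only [Finset.mul_sum]
      refine Finset.sum_congr rfl fun i _ => Finset.sum_congr rfl fun j _ => ?_
      ring
  rw [hswap] at key
  have hle : (rowsL.map fun r => (r.2.2 : ℝ) * ∑ i ∈ range 68, ∑ j ∈ range 68, e i * e j
      * costR ((Xn r.1 : ℝ) / 100000000) ((Xn (68 - r.2.1) : ℝ) / 100000000)
        (decide (i < r.1)) (decide (j < r.2.1))).sum
      ≤ (rowsL.map fun r => (r.2.2 : ℝ)
      * CC (Tn r.1) (Tn (68 - r.2.1)) (κ r.1) (κ r.2.1)).sum := by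
    refine List.sum_le_sum fun r hr => ?_
    exact mul_le_mul_of_nonneg_left (hrow r hr) (Nat.cast_nonneg _)
  linarith

/-- **The lower bound.** -/
theorem mix_lower {c : ℝ} (h : MixG c) : 157747 / 100000 ≤ c := by
  obtain ⟨Ω, _, μ, _, k, hmono, h01, hmeas, hcost⟩ := h
  have k0 : ∀ ω x, 0 ≤ k ω x := fun ω x => (h01 ω x).1
  have k1 : ∀ ω x, k ω x ≤ 1 := fun ω x => (h01 ω x).2
  have hint : ∀ r ∈ rowsL, Integrable (fun ω => (r.2.2 : ℝ)
      * CC (Tn r.1) (Tn (68 - r.2.1)) (k ω (Tn r.1)) (k ω (Tn r.2.1))) μ := by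
    intro r hr
    obtain ⟨a1, a2, b1, b2⟩ := rows_check.2 r hr
    exact (bdd_integrable μ (CC_meas (hmeas _) (hmeas _) _ _)
      (C := 4 * (1 + Tn r.1 + Tn (68 - r.2.1))) fun ω => CC_abs (Tn_pos (by omega)).le
        (Tn_pos (by omega)).le (k0 _ _) (k1 _ _) (k0 _ _) (k1 _ _)).const_mul _
  have hrow : ∀ r ∈ rowsL, ∫ ω, (r.2.2 : ℝ)
      * CC (Tn r.1) (Tn (68 - r.2.1)) (k ω (Tn r.1)) (k ω (Tn r.2.1)) ∂μ ≤ (r.2.2 : ℝ) * c := by
    intro r hr
    obtain ⟨a1, a2, b1, b2⟩ := rows_check.2 r hr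
    rw [integral_const_mul]
    refine mul_le_mul_of_nonneg_left ?_ (Nat.cast_nonneg _)
    have := hcost (Tn r.1) (Tn (68 - r.2.1)) (Tn_pos (by omega)) (Tn_pos (by omega))
    rw [Tn_inv b1 b2] at this
    exact this
  have hgen : ∀ l : List (ℕ × ℕ × ℕ), (∀ r ∈ l, Integrable (fun ω => (r.2.2 : ℝ)
      * CC (Tn r.1) (Tn (68 - r.2.1)) (k ω (Tn r.1)) (k ω (Tn r.2.1))) μ) →
      (∀ r ∈ l, ∫ ω, (r.2.2 : ℝ) * CC (Tn r.1) (Tn (68 - r.2.1)) (k ω (Tn r.1)) (k ω (Tn r.2.1)) ∂μ
        ≤ (r.2.2 : ℝ) * c) →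
      Integrable (fun ω => (l.map fun r => (r.2.2 : ℝ) * CC (Tn r.1) (Tn (68 - r.2.1))
        (k ω (Tn r.1)) (k ω (Tn r.2.1))).sum) μ ∧
      ∫ ω, (l.map fun r => (r.2.2 : ℝ) * CC (Tn r.1) (Tn (68 - r.2.1))
        (k ω (Tn r.1)) (k ω (Tn r.2.1))).sum ∂μ ≤ (l.map fun r => (r.2.2 : ℝ)).sum * c := by
    intro l
    induction l with
    | nil => intro _ _; simp
    | cons r l ih =>
      intro h1 h2
      obtain ⟨i1, i2⟩ := ih (fun r' hr' => h1 r' (List.mem_cons_of_mem _ hr'))
        (fun r' hr' => h2 r' (List.mem_cons_of_mem _ hr'))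
      have j1 := h1 r List.mem_cons_self
      have j2 := h2 r List.mem_cons_self
      simp only [List.map_cons, List.sum_cons]
      refine ⟨j1.add i1, ?_⟩
      rw [integral_add j1 i1]
      linarith
  obtain ⟨g1, g2⟩ := hgen rowsL hint hrow
  have hsum : (rowsL.map fun r => (r.2.2 : ℝ)).sum = 100000000 := by
    have := rows_check.1
    have h2 : (((rowsL.map fun r => r.2.2).sum : ℕ) : ℝ) = ((100000000 : ℕ) : ℝ) := by rw [this]
    rw [Nat.cast_list_sum, List.map_map] at h2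
    push_cast at h2
    exact h2
  rw [hsum] at g2
  have hpath : ∀ ω, (157747 / 100000 * 100000000 : ℝ) ≤ (rowsL.map fun r => (r.2.2 : ℝ)
      * CC (Tn r.1) (Tn (68 - r.2.1)) (k ω (Tn r.1)) (k ω (Tn r.2.1))).sum := by
    intro ω
    let κ : ℕ → ℝ := fun m => if m = 0 then 0 else if m ≤ 67 then k ω (Tn m) else 1
    have hκ : ∀ r ∈ rowsL, κ r.1 = k ω (Tn r.1) ∧ κ r.2.1 = k ω (Tn r.2.1) := by
      intro r hr
      obtain ⟨a1, a2, b1, b2⟩ := rows_check.2 r hr
      constructor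
      · simp only [κ]; rw [if_neg (by omega), if_pos a2]
      · simp only [κ]; rw [if_neg (by omega), if_pos b2]
    have := path_lower κ (by simp [κ]) (by simp [κ]) (by
      intro a b hab
      simp only [κ]
      split_ifs with c1 c2 c3 c4 c5 c6
      · exact le_rfl
      · exact k0 _ _
      · exact zero_le_one
      · omega
      · exact hmono ω _ _ (Tn_pos (by omega)) (Tn_mono (by omega) hab (by omega))
      · exact k1 _ _
      · omega
      · omega
      · exact le_rfl)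
    have e : (rowsL.map fun r => (r.2.2 : ℝ) * CC (Tn r.1) (Tn (68 - r.2.1)) (κ r.1) (κ r.2.1))
        = rowsL.map fun r => (r.2.2 : ℝ) * CC (Tn r.1) (Tn (68 - r.2.1))
          (k ω (Tn r.1)) (k ω (Tn r.2.1)) :=
      List.map_congr_left fun r hr => by rw [(hκ r hr).1, (hκ r hr).2]
    rw [e] at this
    exact this
  have hfin := integral_mono (integrable_const (μ := μ) (157747 / 100000 * 100000000 : ℝ)) g1 hpath
  rw [integral_const] at hfin
  simp only [probReal_univ, smul_eq_mul, one_mul] at hfin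
  linarith

end

end Pool.Agent.Lib.MP_2c6a66_lc.UX
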