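import Pool.Agent.Lib.MP_2c6a66_lc.UX.Unif
import Pool.Agent.Lib.MP_2c6a66_lc.UX.Epi
import Pool.Agent.Lib.MP_2c6a66_lc.UT.Base
import Pool.Agent.Lib.MP_2c6a66_lc.UT.Mix

/-! Profiles with several real jobs, and the cores which they define. -/

namespace Pool.Agent.Lib.MP_2c6a66_lc.UX

open scoped NNReal Topology
open Finset Filter Pool.Agent.Lib.MP_2c6a66_lc.LB
open UT (Prof mks DT HasUT ind ind_01 ind_nonneg ind_le pr pr_nonneg mks_pr U0 U1 dt0 dt1
  single0 single1 single_sum two_sum two_le flip_sum mis mis_nonneg finite_family c_nonneg)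

noncomputable section

variable {ι : Type} [Fintype ι] [DecidableEq ι] {N : ℕ}

/-- null jobs -/
def tp (β : ℝ≥0) (τ : Fin N → Bool) : Fin N → T := fun k => nul β β (τ k)

open Classical in
/-- The profile with the real jobs `o l` at the positions `pos l`; the other jobs are null. -/
def pf (β : ℝ≥0) (τ : Fin N → Bool) (pos : ι → Fin N) (o : ι → Option T) : Fin N → T :=
  fun k => if h : ∃ l, pos l = k ∧ (o l).isSome then (o h.choose).getD (0, 0)
    else nul β β (τ k)

theorem pf_some {β : ℝ≥0} {τ : Fin N → Bool} {pos : ι → Fin N} (hp : Function.Injective pos)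
    {o : ι → Option T} {l : ι} {s : T} (h : o l = some s) : pf β τ pos o (pos l) = s := by
  have hex : ∃ l', pos l' = pos l ∧ (o l').isSome := ⟨l, rfl, by rw [h]; rfl⟩
  unfold pf
  rw [dif_pos hex]
  have : hex.choose = l := hp hex.choose_spec.1
  rw [this, h]
  rfl

theorem pf_none {β : ℝ≥0} {τ : Fin N → Bool} {pos : ι → Fin N} (hp : Function.Injective pos)
    {o : ι → Option T} {l : ι} (h : o l = none) :
    pf β τ pos o (pos l) = nul β β (τ (pos l)) := by
  have hex : ¬ ∃ l', pos l' = pos l ∧ (o l').isSome := by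
    rintro ⟨l', h1, h2⟩
    rw [hp h1, h] at h2
    exact absurd h2 (by simp)
  unfold pf
  rw [dif_neg hex]

theorem pf_out {β : ℝ≥0} {τ : Fin N → Bool} {pos : ι → Fin N}
    {o : ι → Option T} {k : Fin N} (h : ∀ l, (o l).isSome → pos l ≠ k) :
    pf β τ pos o k = nul β β (τ k) := by
  have hex : ¬ ∃ l', pos l' = k ∧ (o l').isSome := by
    rintro ⟨l', h1, h2⟩
    exact h l' h2 h1
  unfold pf
  rw [dif_neg hex]

/-- two option families which agree except at one index -/
theorem pf_congr {β : ℝ≥0} {τ τ' : Fin N → Bool} {pos : ι → Fin N}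
    (hp : Function.Injective pos) {o o' : ι → Option T} {k : Fin N}
    (h : ∀ l, pos l = k → o l = o' l) (hτ : τ k = τ' k) :
    pf β τ pos o k = pf β τ' pos o' k := by
  by_cases hk : ∃ l, pos l = k
  · obtain ⟨l, rfl⟩ := hk
    have := h l rfl
    cases ho : o l with
    | none => rw [pf_none hp ho, pf_none hp (this ▸ ho), hτ]
    | some s => rw [pf_some hp ho, pf_some hp (this ▸ ho)]
  · push Not at hk
    rw [pf_out fun l _ => hk l, pf_out fun l _ => hk l, hτ]

/-- moving the position of an absent job does not change the profile -/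
theorem pf_move (β : ℝ≥0) (τ : Fin N → Bool) (pos : ι → Fin N) {o : ι → Option T} {j : ι}
    (hj : o j = none) (p : Fin N) : pf β τ (Function.update pos j p) o = pf β τ pos o := by
  funext k
  have e : (fun l => Function.update pos j p l = k ∧ (o l).isSome = true)
      = fun l => pos l = k ∧ (o l).isSome = true := by
    funext l
    by_cases hl : l = j
    · subst hl; simp [hj]
    · rw [Function.update_of_ne hl]
  unfold pf
  by_cases hex : ∃ l, pos l = k ∧ (o l).isSome
  · have hex' : ∃ l, Function.update pos j p l = k ∧ (o l).isSome := by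
      obtain ⟨l, hl⟩ := hex
      exact ⟨l, by rw [show (Function.update pos j p l = k ∧ (o l).isSome = true)
        = (pos l = k ∧ (o l).isSome = true) from congrFun e l]; exact hl⟩
    rw [dif_pos hex, dif_pos hex']
    congr 2
    simp only [e]
  · have hex' : ¬ ∃ l, Function.update pos j p l = k ∧ (o l).isSome := by
      rintro ⟨l, hl⟩
      apply hex
      exact ⟨l, by rw [show (pos l = k ∧ (o l).isSome = true)
        = (Function.update pos j p l = k ∧ (o l).isSome = true) from (congrFun e l).symm]; exact hl⟩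
    rw [dif_neg hex, dif_neg hex']

/-- only one real job -/
theorem pf_single (β : ℝ≥0) (τ : Fin N → Bool) (pos : ι → Fin N) {o : ι → Option T} {i : ι}
    {s : T} (hi : o i = some s) (ho : ∀ l, l ≠ i → o l = none) :
    pf β τ pos o = Function.update (tp β τ) (pos i) s := by
  funext k
  by_cases hk : k = pos i
  · subst hk
    have hex : ∃ l', pos l' = pos i ∧ (o l').isSome := ⟨i, rfl, by rw [hi]; rfl⟩
    rw [Function.update_self]
    unfold pf
    rw [dif_pos hex]
    have : hex.choose = i := by
      by_contra hne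
      have h2 := hex.choose_spec.2
      rw [ho _ hne] at h2
      exact absurd h2 (by simp)
    rw [this, hi]
    rfl
  · rw [Function.update_of_ne hk]
    refine pf_out fun l hl => ?_
    by_cases hli : l = i
    · subst hli; exact fun h => hk h.symm
    · rw [ho l hli] at hl; exact absurd hl (by simp)

/-- finite families of mechanisms, with the cost bound on the relevant profiles -/
structure Fam (ι : Type) [Fintype ι] [DecidableEq ι] (N : ℕ) (c : ℝ) (β : ℝ≥0)
    (D : Finset T) where
  R : Type
  [fin : Fintype R]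
  w : R → ℝ
  X : R → Prof N → Fin N → Fin 2
  pay : R → Prof N → Fin 2 → ℝ
  w0 : ∀ r, 0 ≤ w r
  w1 : ∑ r, w r = 1
  dt : ∀ r, DT (X r) (pay r)
  cost : ∀ (τ : Fin N → Bool) (pos : ι → Fin N) (o : ι → Option T),
    (∀ l, ∀ s ∈ o l, s ∈ D) → ∀ σ : Fin N → Fin 2,
    ∑ r, w r * mks (pr (pf β τ pos o)) (X r (pr (pf β τ pos o)))
      ≤ c * mks (pr (pf β τ pos o)) σ

attribute [instance] Fam.fin

theorem exists_fam {c : ℝ} (h : HasUT N c) (β : ℝ≥0) (D : Finset T) :
    Nonempty (Fam ι N c β D) := by
  classical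
  let B : Finset (Prof N) :=
    (univ : Finset ((Fin N → Bool) × (ι → Fin N) × (ι → Option D))).image
      (fun x => pr (pf β x.1 x.2.1 (fun l => (x.2.2 l).map Subtype.val)))
  obtain ⟨R, _, w, X, pay, h0, h1, h2, h3⟩ := finite_family h B (by
    intro b hb i k
    obtain ⟨x, -, rfl⟩ := Finset.mem_image.1 hb
    exact pr_nonneg _ _ _)
  refine ⟨⟨R, w, X, pay, h0, h1, h2, fun τ pos o ho σ => h3 _ ?_ σ⟩⟩
  refine Finset.mem_image.2 ⟨(τ, pos, fun l => (o l).pmap (fun s hs => (⟨s, hs⟩ : D))
    (fun s hs => ho l s hs)), Finset.mem_univ _, ?_⟩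
  congr 1
  have : (fun l => ((o l).pmap (fun s hs => (⟨s, hs⟩ : D)) (fun s hs => ho l s hs)).map
      Subtype.val) = o := by
    funext l
    have key : ∀ (x : Option T) (hx : ∀ s ∈ x, s ∈ D),
        (x.pmap (fun s hs => (⟨s, hs⟩ : D)) hx).map Subtype.val = x := by
      intro x hx
      cases x <;> rfl
    exact key _ _
  simp only [this]

/-! ### Misplaced null jobs -/

theorem bad_key (β : ℝ≥0) (f : Fin N → T) (τ : Fin N → Bool) (A : Fin N → Prop)
    [DecidablePred A] (hA : ∀ k, A k → f k = nul β β (τ k)) (e : Bool) (σ : Fin N → Fin 2) :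
    β * ∑ k, (if A k ∧ τ k = e then mis e (σ k) else 0) ≤ mks (pr f) σ := by
  rw [mks_pr, Finset.mul_sum]
  cases e
  · refine le_max_of_le_left (Finset.sum_le_sum fun k _ => ?_)
    split_ifs with h
    · rw [hA k h.1]
      simp only [nul, h.2, mis, Bool.false_eq_true, if_false]
      rw [mul_comm]
    · rw [mul_zero]
      exact mul_nonneg (ind_nonneg _) (NNReal.coe_nonneg _)
  · refine le_max_of_le_right (Finset.sum_le_sum fun k _ => ?_)
    split_ifs with h
    · rw [hA k h.1]
      simp only [nul, h.2, mis, if_true]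
      rw [mul_comm]
    · rw [mul_zero]
      exact mul_nonneg (by linarith [ind_le (σ k)]) (NNReal.coe_nonneg _)

open Classical in
/-- the assignment which puts null jobs on their free machine and real jobs on machine 0 -/
def sgo (τ : Fin N → Bool) (pos : ι → Fin N) (o : ι → Option T) : Fin N → Fin 2 :=
  fun k => if ∃ l, pos l = k ∧ (o l).isSome then 0 else if τ k then 0 else 1

/-- crude bound of the optimum by the total size -/
theorem opt_crude (β : ℝ≥0) (τ : Fin N → Bool) (pos : ι → Fin N) (o : ι → Option T) {W : ℝ}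
    (hW0 : 0 ≤ W) (hW : ∀ l, ∀ s ∈ o l, (s.1 : ℝ) ≤ W) :
    mks (pr (pf β τ pos o)) (sgo τ pos o) ≤ Fintype.card ι * W := by
  classical
  rw [mks_pr]
  refine max_le ?_ ?_
  · calc ∑ k, ind (sgo τ pos o k) * ((pf β τ pos o k).1 : ℝ)
        ≤ ∑ k : Fin N, ∑ l : ι, (if pos l = k then W else 0) := by
          refine Finset.sum_le_sum fun k _ => ?_
          have hnn : ∀ l : ι, (0 : ℝ) ≤ if pos l = k then W else 0 := fun l => by
            split_ifs <;> simp [hW0]
          by_cases hex : ∃ l, pos l = k ∧ (o l).isSome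
          · have h1 : pf β τ pos o k = (o hex.choose).getD (0, 0) := by
              unfold pf; rw [dif_pos hex]
            obtain ⟨s, hs⟩ := Option.isSome_iff_exists.1 hex.choose_spec.2
            have h2 : ((pf β τ pos o k).1 : ℝ) ≤ W := by
              rw [h1, hs]; exact hW _ s hs
            have h3 : ind (sgo τ pos o k) * ((pf β τ pos o k).1 : ℝ) ≤ W := by
              have := mul_le_mul (ind_le (sgo τ pos o k)) h2 (NNReal.coe_nonneg _) zero_le_one
              linarith
            refine h3.trans ?_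
            have h4 := Finset.single_le_sum (f := fun l => if pos l = k then W else 0)
              (fun l _ => hnn l) (mem_univ hex.choose)
            simp only [hex.choose_spec.1, if_true] at h4
            exact h4
          · have h1 : pf β τ pos o k = nul β β (τ k) := by
              unfold pf; rw [dif_neg hex]
            rw [h1]
            have h2 : ind (sgo τ pos o k) * ((nul β β (τ k)).1 : ℝ) = 0 := by
              unfold sgo ind nul
              rw [if_neg hex]
              by_cases hτ : τ k = true <;> simp [hτ]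
            rw [h2]
            exact Finset.sum_nonneg fun l _ => hnn l
      _ = Fintype.card ι * W := by
          rw [Finset.sum_comm]
          simp only [Finset.sum_ite_eq, Finset.mem_univ, if_true, Finset.sum_const,
            Finset.card_univ, nsmul_eq_mul]
  · calc ∑ k, (1 - ind (sgo τ pos o k)) * ((pf β τ pos o k).2 : ℝ) = ∑ _k : Fin N, (0 : ℝ) := by
          refine Finset.sum_congr rfl fun k _ => ?_
          by_cases hex : ∃ l, pos l = k ∧ (o l).isSome
          · have : sgo τ pos o k = 0 := by unfold sgo; rw [if_pos hex]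
            rw [this]; simp [ind]
          · have h1 : pf β τ pos o k = nul β β (τ k) := by
              unfold pf; rw [dif_neg hex]
            rw [h1]
            unfold sgo ind nul
            rw [if_neg hex]
            by_cases hτ : τ k = true <;> simp [hτ]
      _ ≤ Fintype.card ι * W := by
          rw [Finset.sum_const_zero]; positivity

end

end Pool.Agent.Lib.MP_2c6a66_lc.UX

/-! The core of a pair of jobs, in the presence of other real jobs. -/

namespace Pool.Agent.Lib.MP_2c6a66_lc.UX

open scoped NNReal Topology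
open Finset Filter Pool.Agent.Lib.MP_2c6a66_lc.LB
open UT (Prof mks DT HasUT ind ind_01 ind_nonneg ind_le pr pr_nonneg mks_pr U0 U1 dt0 dt1
  single0 single1 single_sum two_sum two_le flip_sum mis mis_nonneg finite_family c_nonneg)

noncomputable section

variable {ι : Type} [Fintype ι] [DecidableEq ι] {N : ℕ}
variable {c : ℝ} {β : ℝ≥0} {D : Finset T}

/-- the sample space -/
abbrev Zs (S : Fam ι N c β D) : Type := S.R × (Fin N → Bool) × (ι → Fin N)

open Classical in
/-- weights: mechanism, environment, positions (injective ones only) -/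
def wtz (S : Fam ι N c β D) (z : Zs S) : ℝ :=
  if Function.Injective z.2.2 then S.w z.1 * (1 / 2 ^ N * ∏ l, un ι N l (z.2.2 l)) else 0

theorem wtz_nonneg (S : Fam ι N c β D) (z : Zs S) : 0 ≤ wtz S z := by
  unfold wtz
  split_ifs
  · exact mul_nonneg (S.w0 _) (mul_nonneg (by positivity) (prod_nn (un_nonneg N) _))
  · exact le_rfl

/-- expectation -/
def Ez (S : Fam ι N c β D) (F : Zs S → ℝ) : ℝ := ∑ z, wtz S z * F z

open Classical in
theorem Ez_eq (S : Fam ι N c β D) (F : Zs S → ℝ) : Ez S F = 1 / 2 ^ N * ∑ τ,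
    Epi (un ι N) fun pos => if Function.Injective pos then ∑ r, S.w r * F (r, τ, pos) else 0 := by
  unfold Ez Epi
  rw [Fintype.sum_prod_type]
  simp only [Fintype.sum_prod_type]
  rw [Finset.sum_comm, Finset.mul_sum]
  refine Finset.sum_congr rfl fun τ _ => ?_
  rw [Finset.sum_comm, Finset.mul_sum]
  refine Finset.sum_congr rfl fun pos _ => ?_
  unfold wtz
  simp only
  split_ifs with h
  · rw [Finset.mul_sum, Finset.mul_sum]
    exact Finset.sum_congr rfl fun r _ => by ring
  · simp

theorem Ez_mono (S : Fam ι N c β D) {F G : Zs S → ℝ}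
    (h : ∀ z : Zs S, Function.Injective z.2.2 → F z ≤ G z) : Ez S F ≤ Ez S G := by
  refine Finset.sum_le_sum fun z _ => ?_
  by_cases hz : Function.Injective z.2.2
  · exact mul_le_mul_of_nonneg_left (h z hz) (wtz_nonneg S z)
  · have : wtz S z = 0 := by unfold wtz; rw [if_neg hz]
    rw [this, zero_mul, zero_mul]

theorem Ez_congr (S : Fam ι N c β D) {F G : Zs S → ℝ}
    (h : ∀ z : Zs S, Function.Injective z.2.2 → F z = G z) : Ez S F = Ez S G :=
  le_antisymm (Ez_mono S fun z hz => (h z hz).le) (Ez_mono S fun z hz => (h z hz).ge)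

theorem Ez_add (S : Fam ι N c β D) (F G : Zs S → ℝ) :
    Ez S (fun z => F z + G z) = Ez S F + Ez S G := by
  simp only [Ez, mul_add, Finset.sum_add_distrib]

theorem Ez_sub (S : Fam ι N c β D) (F G : Zs S → ℝ) :
    Ez S (fun z => F z - G z) = Ez S F - Ez S G := by
  simp only [Ez, mul_sub, Finset.sum_sub_distrib]

theorem Ez_mul (S : Fam ι N c β D) (a : ℝ) (F : Zs S → ℝ) :
    Ez S (fun z => a * F z) = a * Ez S F := by
  simp only [Ez, Finset.mul_sum]
  exact Finset.sum_congr rfl fun x _ => by ring

theorem Ez_sum {B : Type} (s : Finset B) (S : Fam ι N c β D) (F : B → Zs S → ℝ) :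
    Ez S (fun x => ∑ b ∈ s, F b x) = ∑ b ∈ s, Ez S (F b) := by
  unfold Ez
  rw [Finset.sum_comm]
  exact Finset.sum_congr rfl fun x _ => Finset.mul_sum _ _ _

theorem sum_bool (x : ℝ) : 1 / 2 ^ N * ∑ _τ : Fin N → Bool, x = x := by
  rw [Finset.sum_const, Finset.card_univ, Fintype.card_fun, Fintype.card_bool, Fintype.card_fin,
    nsmul_eq_mul]
  push_cast
  field_simp

open Classical in
theorem Ez_const (S : Fam ι N c β D) (x : ℝ) : Ez S (fun _ => x)
    = x * Epi (un ι N) (fun pos => if Function.Injective pos then 1 else 0) := by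
  rw [Ez_eq]
  have : ∀ pos : ι → Fin N, (if Function.Injective pos then ∑ r, S.w r * x else 0)
      = x * (if Function.Injective pos then 1 else 0) := by
    intro pos
    rw [← Finset.sum_mul, S.w1, one_mul]
    split_ifs <;> ring
  simp only [this, Epi_mul]
  exact sum_bool _

theorem Ez_one_le (S : Fam ι N c β D) (hN : 0 < N) : Ez S (fun _ => 1) ≤ 1 := by
  classical
  rw [Ez_const, one_mul]
  have := Epi_mono (un_nonneg (ι := ι) N) (F := fun pos => if Function.Injective pos then 1 else 0)
    (G := fun _ => 1) fun x _ => by split_ifs <;> norm_num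
  rwa [Epi_const (un_sum hN)] at this

theorem Ez_le_const (S : Fam ι N c β D) (hN : 0 < N) {F : Zs S → ℝ} {x : ℝ} (hx : 0 ≤ x)
    (h : ∀ z : Zs S, Function.Injective z.2.2 → F z ≤ x) : Ez S F ≤ x := by
  have h1 := Ez_mono S (F := F) (G := fun _ => x * 1) fun z hz => by rw [mul_one]; exact h z hz
  rw [Ez_mul] at h1
  have := mul_le_mul_of_nonneg_left (Ez_one_le S hN) hx
  linarith

open Classical in
/-- indicator that job `i` goes to machine 0 -/
def ai (S : Fam ι N c β D) (z : Zs S) (o : ι → Option T) (i : ι) : ℝ :=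
  if Function.Injective z.2.2 then ind (S.X z.1 (pr (pf β z.2.1 z.2.2 o)) (z.2.2 i)) else 0

theorem ai_inj (S : Fam ι N c β D) {z : Zs S} (hz : Function.Injective z.2.2)
    (o : ι → Option T) (i : ι) :
    ai S z o i = ind (S.X z.1 (pr (pf β z.2.1 z.2.2 o)) (z.2.2 i)) := by
  unfold ai; rw [if_pos hz]

theorem ai_01 (S : Fam ι N c β D) (z : Zs S) (o : ι → Option T) (i : ι) :
    ai S z o i = 0 ∨ ai S z o i = 1 := by
  unfold ai
  split_ifs
  · exact ind_01 _
  · left; rfl

theorem pf_nul {τ : Fin N → Bool} {pos : ι → Fin N} (hp : Function.Injective pos)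
    {o : ι → Option T} {j : ι} (hj : o j = none) {e : Bool} (he : τ (pos j) = e) :
    pf β τ pos (Function.update o j (some (nul β β e))) = pf β τ pos o := by
  funext k
  by_cases hk : k = pos j
  · rw [hk, pf_some hp (Function.update_self _ _ _), pf_none hp hj, he]
  · refine pf_congr hp (fun l hl => ?_) rfl
    have : l ≠ j := fun h => hk (by rw [← hl, h])
    rw [Function.update_of_ne this]

/-- the mean number of misplaced null jobs -/
theorem bad_sum (S : Fam ι N c β D) (hN : 0 < N) (hc : 0 ≤ c) (hβ : 0 < β) {W : ℝ}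
    (hW0 : 0 ≤ W) (hW : ∀ s ∈ D, (s.1 : ℝ) ≤ W) {o : ι → Option T} {j : ι} (hj : o j = none)
    (ho : ∀ l, ∀ s ∈ o l, s ∈ D) (e : Bool) :
    Ez S (fun z => mis e (S.X z.1 (pr (pf β z.2.1 z.2.2
      (Function.update o j (some (nul β β e))))) (z.2.2 j)))
      ≤ 2 * c * (Fintype.card ι * W) / (β * N) := by
  classical
  have hβ' : (0 : ℝ) < β := by exact_mod_cast hβ
  have hN' : (0 : ℝ) < N := by exact_mod_cast hN
  rw [Ez_eq]
  set G : (Fin N → Bool) → (ι → Fin N) → Fin N → ℝ := fun τ pos p =>
    if (∀ l, (o l).isSome → pos l ≠ p) ∧ τ p = e then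
      ∑ r, S.w r * mis e (S.X r (pr (pf β τ pos o)) p) else 0 with hG
  have hG0 : ∀ τ pos p, 0 ≤ G τ pos p := by
    intro τ pos p
    rw [hG]
    simp only
    split_ifs
    · exact Finset.sum_nonneg fun r _ => mul_nonneg (S.w0 r) (mis_nonneg _ _)
    · exact le_rfl
  -- Step 1: flip
  have step1 : ∑ τ : Fin N → Bool, Epi (un ι N) (fun pos => if Function.Injective pos then
      ∑ r, S.w r * mis e (S.X r (pr (pf β τ pos
        (Function.update o j (some (nul β β e))))) (pos j)) else 0)
      ≤ ∑ τ : Fin N → Bool, Epi (un ι N) (fun pos => 2 * G τ pos (pos j)) := by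
    unfold Epi
    refine le_trans (le_of_eq Finset.sum_comm) (le_trans ?_ (le_of_eq Finset.sum_comm))
    refine Finset.sum_le_sum fun pos _ => ?_
    rw [← Finset.mul_sum, ← Finset.mul_sum]
    refine mul_le_mul_of_nonneg_left ?_ (prod_nn (un_nonneg N) _)
    by_cases hp : Function.Injective pos
    · simp only [if_pos hp]
      rw [flip_sum (pos j) e, ← Finset.mul_sum]
      · refine mul_le_mul_of_nonneg_left (Finset.sum_le_sum fun τ _ => ?_) (by norm_num)
        rw [hG]
        simp only
        by_cases hτ : τ (pos j) = e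
        · have hcond : (∀ l, (o l).isSome → pos l ≠ pos j) ∧ τ (pos j) = e := by
            refine ⟨fun l hl h => ?_, hτ⟩
            rw [hp h, hj] at hl
            exact absurd hl (by simp)
          rw [if_pos hτ, if_pos hcond, pf_nul hp hj hτ]
        · rw [if_neg hτ]
          split_ifs
          · exact Finset.sum_nonneg fun r _ => mul_nonneg (S.w0 r) (mis_nonneg _ _)
          · exact le_rfl
      · intro τ x
        refine Finset.sum_congr rfl fun r _ => ?_
        have : pf β (Function.update τ (pos j) x) pos (Function.update o j (some (nul β β e)))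
            = pf β τ pos (Function.update o j (some (nul β β e))) := by
          funext k
          by_cases hk : k = pos j
          · rw [hk, pf_some hp (Function.update_self _ _ _),
              pf_some hp (Function.update_self _ _ _)]
          · exact pf_congr hp (fun l _ => rfl) (Function.update_of_ne hk _ _)
        rw [this]
    · simp only [if_neg hp]
      rw [Finset.sum_const_zero]
      exact Finset.sum_nonneg fun τ _ => mul_nonneg (by norm_num) (hG0 _ _ _)
  -- Step 2: resample the position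
  have step2 : ∀ τ : Fin N → Bool, Epi (un ι N) (fun pos => 2 * G τ pos (pos j))
      ≤ 2 * (c * (Fintype.card ι * W) / β / N) := by
    intro τ
    rw [Epi_mul, resample (un ι N) j (un_sum hN j)]
    refine mul_le_mul_of_nonneg_left ?_ (by norm_num)
    have h3 : ∀ pos : ι → Fin N, ∑ a, un ι N j a * G τ (Function.update pos j a)
        (Function.update pos j a j) ≤ c * (Fintype.card ι * W) / β / N := by
      intro pos
      have e1 : ∀ a, un ι N j a * G τ (Function.update pos j a) (Function.update pos j a j)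
          = (1 / N) * G τ pos a := by
        intro a
        rw [Function.update_self]
        unfold un
        congr 1
        rw [hG]
        simp only
        rw [pf_move β τ pos hj a]
        have : (∀ l, (o l).isSome → Function.update pos j a l ≠ a)
            ↔ (∀ l, (o l).isSome → pos l ≠ a) := by
          constructor
          · intro h l hl
            have hlj : l ≠ j := by rintro rfl; rw [hj] at hl; exact absurd hl (by simp)
            have := h l hl
            rwa [Function.update_of_ne hlj] at this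
          · intro h l hl
            have hlj : l ≠ j := by rintro rfl; rw [hj] at hl; exact absurd hl (by simp)
            rw [Function.update_of_ne hlj]
            exact h l hl
        simp only [this]
      simp only [e1, ← Finset.mul_sum]
      have h4 : ∑ p, G τ pos p ≤ c * (Fintype.card ι * W) / β := by
        rw [le_div_iff₀ hβ']
        have e2 : ∑ p, G τ pos p = ∑ r, S.w r * ∑ p,
            (if (∀ l, (o l).isSome → pos l ≠ p) ∧ τ p = e then
              mis e (S.X r (pr (pf β τ pos o)) p) else 0) := by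
          simp only [hG, Finset.mul_sum]
          rw [Finset.sum_comm]
          refine Finset.sum_congr rfl fun p _ => ?_
          split_ifs <;> simp
        rw [e2, Finset.sum_mul]
        calc ∑ r, S.w r * (∑ p, (if (∀ l, (o l).isSome → pos l ≠ p) ∧ τ p = e then
              mis e (S.X r (pr (pf β τ pos o)) p) else 0)) * β
            ≤ ∑ r, S.w r * mks (pr (pf β τ pos o)) (S.X r (pr (pf β τ pos o))) := by
              refine Finset.sum_le_sum fun r _ => ?_
              rw [mul_assoc]
              refine mul_le_mul_of_nonneg_left ?_ (S.w0 r)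
              rw [mul_comm]
              exact bad_key β _ τ (fun p => ∀ l, (o l).isSome → pos l ≠ p)
                (fun k hk => pf_out hk) e _
          _ ≤ c * mks (pr (pf β τ pos o)) (sgo τ pos o) := S.cost τ pos o ho _
          _ ≤ c * (Fintype.card ι * W) := mul_le_mul_of_nonneg_left
              (opt_crude β τ pos o hW0 fun l s hs => hW s (ho l s hs)) hc
      calc 1 / (N : ℝ) * ∑ p, G τ pos p ≤ 1 / N * (c * (Fintype.card ι * W) / β) :=
            mul_le_mul_of_nonneg_left h4 (by positivity)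
        _ = _ := by ring
    have h5 := Epi_mono (un_nonneg (ι := ι) N) (F := fun pos => ∑ a, un ι N j a
      * G τ (Function.update pos j a) (Function.update pos j a j))
      (G := fun _ => c * (Fintype.card ι * W) / β / N) fun pos _ => h3 pos
    rwa [Epi_const (un_sum hN)] at h5
  calc 1 / 2 ^ N * ∑ τ : Fin N → Bool, Epi (un ι N) (fun pos => if Function.Injective pos then
      ∑ r, S.w r * mis e (S.X r (pr (pf β τ pos
        (Function.update o j (some (nul β β e))))) (pos j)) else 0)
      ≤ 1 / 2 ^ N * ∑ _τ : Fin N → Bool, 2 * (c * (Fintype.card ι * W) / β / N) := by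
        refine mul_le_mul_of_nonneg_left (step1.trans (Finset.sum_le_sum fun τ _ => step2 τ)) ?_
        positivity
    _ = _ := by rw [sum_bool]; field_simp

/-- the core of the pair `i`, `j`, with the rest of the jobs fixed -/
def mcore (S : Fam ι N c β D) (hN : 0 < N) (hc : 0 ≤ c) (hβ : 0 < β) {W e : ℝ}
    (hW0 : 0 ≤ W) (hW : ∀ s ∈ D, (s.1 : ℝ) ≤ W)
    (he : 2 * c * (Fintype.card ι * W) / (β * N) ≤ e) {i j : ι} (hij : i ≠ j)
    (rest : ι → Option T) (hrest : ∀ l, ∀ s ∈ rest l, s ∈ D) : Core (↑D) e β where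
  Z := Zs S
  wt := wtz S
  wt_nonneg := wtz_nonneg S
  wt_sum := by
    have := Ez_one_le S hN
    simpa [Ez] using this
  P1 := fun z s t => ai S z (Function.update (Function.update rest i (some s)) j (some t)) i
  P2 := fun z s t => ai S z (Function.update (Function.update rest i (some s)) j (some t)) j
  P1_01 := fun z s t => ai_01 S z _ i
  P2_01 := fun z s t => ai_01 S z _ j
  V := fun z s t => by
    classical
    exact if Function.Injective z.2.2 then U0 (S.X z.1) (S.pay z.1) (pf β z.2.1 z.2.2
      (Function.update (Function.update rest i (some s)) j (some t))) else 0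
  Y := fun z s t => by
    classical
    exact if Function.Injective z.2.2 then U1 (S.X z.1) (S.pay z.1) (pf β z.2.1 z.2.2
      (Function.update (Function.update rest i (some s)) j (some t))) else -((s.2 : ℝ) + t.2)
  hV := fun z s1 s1' s2 t1 t1' t2 => by
    by_cases hz : Function.Injective z.2.2
    · simp only [ai, if_pos hz]
      have hi : ∀ s t : T, Function.update (Function.update rest i (some s)) j (some t) i
          = some s := fun s t => by
        rw [Function.update_of_ne hij, Function.update_self]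
      have hj : ∀ s t : T, Function.update (Function.update rest i (some s)) j (some t) j
          = some t := fun s t => Function.update_self _ _ _
      have ho : ∀ (s t s' t' : T) (k : Fin N), k ≠ z.2.2 i → k ≠ z.2.2 j →
          pf β z.2.1 z.2.2 (Function.update (Function.update rest i (some s)) j (some t)) k
          = pf β z.2.1 z.2.2 (Function.update (Function.update rest i (some s')) j
            (some t')) k := by
        intro s t s' t' k hki hkj
        refine pf_congr hz (fun l hl => ?_) rfl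
        have h1 : l ≠ i := fun h => hki (by rw [← hl, h])
        have h2 : l ≠ j := fun h => hkj (by rw [← hl, h])
        rw [Function.update_of_ne h2, Function.update_of_ne h1, Function.update_of_ne h2,
          Function.update_of_ne h1]
      have hne : z.2.2 i ≠ z.2.2 j := fun h => hij (hz h)
      have h := dt0 (S.dt z.1)
        (pf β z.2.1 z.2.2 (Function.update (Function.update rest i (some (s1, s2))) j
          (some (t1, t2))))
        (pf β z.2.1 z.2.2 (Function.update (Function.update rest i (some (s1', s2))) j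
          (some (t1', t2))))
        (fun k => by
          by_cases hki : k = z.2.2 i
          · rw [hki, pf_some hz (hi _ _), pf_some hz (hi _ _)]
          · by_cases hkj : k = z.2.2 j
            · rw [hkj, pf_some hz (hj _ _), pf_some hz (hj _ _)]
            · rw [ho _ _ (s1', s2) (t1', t2) k hki hkj])
      rw [two_sum hne _ (fun k hki hkj => by rw [ho _ _ (s1, s2) (t1, t2) k hki hkj]; simp)] at h
      simp only [pf_some hz (hi _ _), pf_some hz (hj _ _)] at h
      linarith
    · simp [ai, if_neg hz]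
  hY := fun z s1 s2 s2' t1 t2 t2' => by
    by_cases hz : Function.Injective z.2.2
    · simp only [ai, if_pos hz]
      have hi : ∀ s t : T, Function.update (Function.update rest i (some s)) j (some t) i
          = some s := fun s t => by
        rw [Function.update_of_ne hij, Function.update_self]
      have hj : ∀ s t : T, Function.update (Function.update rest i (some s)) j (some t) j
          = some t := fun s t => Function.update_self _ _ _
      have ho : ∀ (s t s' t' : T) (k : Fin N), k ≠ z.2.2 i → k ≠ z.2.2 j →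
          pf β z.2.1 z.2.2 (Function.update (Function.update rest i (some s)) j (some t)) k
          = pf β z.2.1 z.2.2 (Function.update (Function.update rest i (some s')) j
            (some t')) k := by
        intro s t s' t' k hki hkj
        refine pf_congr hz (fun l hl => ?_) rfl
        have h1 : l ≠ i := fun h => hki (by rw [← hl, h])
        have h2 : l ≠ j := fun h => hkj (by rw [← hl, h])
        rw [Function.update_of_ne h2, Function.update_of_ne h1, Function.update_of_ne h2,
          Function.update_of_ne h1]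
      have hne : z.2.2 i ≠ z.2.2 j := fun h => hij (hz h)
      have h := dt1 (S.dt z.1)
        (pf β z.2.1 z.2.2 (Function.update (Function.update rest i (some (s1, s2))) j
          (some (t1, t2))))
        (pf β z.2.1 z.2.2 (Function.update (Function.update rest i (some (s1, s2'))) j
          (some (t1, t2'))))
        (fun k => by
          by_cases hki : k = z.2.2 i
          · rw [hki, pf_some hz (hi _ _), pf_some hz (hi _ _)]
          · by_cases hkj : k = z.2.2 j
            · rw [hkj, pf_some hz (hj _ _), pf_some hz (hj _ _)]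
            · rw [ho _ _ (s1, s2') (t1, t2') k hki hkj])
      rw [two_sum hne _ (fun k hki hkj => by rw [ho _ _ (s1, s2) (t1, t2) k hki hkj]; simp)] at h
      simp only [pf_some hz (hi _ _), pf_some hz (hj _ _)] at h
      linarith
    · simp only [ai, if_neg hz]
      linarith
  b1 := fun _ => β
  b2 := fun _ => β
  hb1 := fun _ => le_rfl
  hb2 := fun _ => le_rfl
  ea := fun z => z.2.1 (z.2.2 i)
  eb := fun z => z.2.1 (z.2.2 j)
  bad1 := fun s hs => by
    have h := bad_sum S hN hc hβ hW0 hW
      (o := Function.update (Function.update rest i (some s)) j none) (j := j)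
      (Function.update_self _ _ _) (fun l u hu => by
        by_cases hlj : l = j
        · subst hlj; rw [Function.update_self] at hu; exact absurd hu (by simp)
        · rw [Function.update_of_ne hlj] at hu
          by_cases hli : l = i
          · subst hli; rw [Function.update_self] at hu
            have : s = u := by simpa using hu
            rw [← this]; exact Finset.mem_coe.1 hs
          · rw [Function.update_of_ne hli] at hu
            exact hrest l u hu) true
    refine le_trans ?_ (h.trans he)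
    refine Ez_mono S fun z hz => ?_
    rw [Function.update_idem, ai_inj S hz]
    exact le_rfl
  bad2 := fun s hs => by
    have h := bad_sum S hN hc hβ hW0 hW
      (o := Function.update (Function.update rest i (some s)) j none) (j := j)
      (Function.update_self _ _ _) (fun l u hu => by
        by_cases hlj : l = j
        · subst hlj; rw [Function.update_self] at hu; exact absurd hu (by simp)
        · rw [Function.update_of_ne hlj] at hu
          by_cases hli : l = i
          · subst hli; rw [Function.update_self] at hu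
            have : s = u := by simpa using hu
            rw [← this]; exact Finset.mem_coe.1 hs
          · rw [Function.update_of_ne hli] at hu
            exact hrest l u hu) false
    refine le_trans ?_ (h.trans he)
    refine Ez_mono S fun z hz => ?_
    rw [Function.update_idem, ai_inj S hz]
    exact le_rfl
  bad3 := fun t ht => by
    have h := bad_sum S hN hc hβ hW0 hW
      (o := Function.update (Function.update rest j (some t)) i none) (j := i)
      (Function.update_self _ _ _) (fun l u hu => by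
        by_cases hli : l = i
        · subst hli; rw [Function.update_self] at hu; exact absurd hu (by simp)
        · rw [Function.update_of_ne hli] at hu
          by_cases hlj : l = j
          · subst hlj; rw [Function.update_self] at hu
            have : t = u := by simpa using hu
            rw [← this]; exact Finset.mem_coe.1 ht
          · rw [Function.update_of_ne hlj] at hu
            exact hrest l u hu) true
    refine le_trans ?_ (h.trans he)
    refine Ez_mono S fun z hz => ?_
    rw [Function.update_idem, ai_inj S hz, Function.update_comm hij]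
    exact le_rfl
  bad4 := fun t ht => by
    have h := bad_sum S hN hc hβ hW0 hW
      (o := Function.update (Function.update rest j (some t)) i none) (j := i)
      (Function.update_self _ _ _) (fun l u hu => by
        by_cases hli : l = i
        · subst hli; rw [Function.update_self] at hu; exact absurd hu (by simp)
        · rw [Function.update_of_ne hli] at hu
          by_cases hlj : l = j
          · subst hlj; rw [Function.update_self] at hu
            have : t = u := by simpa using hu
            rw [← this]; exact Finset.mem_coe.1 ht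
          · rw [Function.update_of_ne hlj] at hu
            exact hrest l u hu) false
    refine le_trans ?_ (h.trans he)
    refine Ez_mono S fun z hz => ?_
    rw [Function.update_idem, ai_inj S hz, Function.update_comm hij]
    exact le_rfl

theorem mcore_Ga (S : Fam ι N c β D) (hN : 0 < N) (hc : 0 ≤ c) (hβ : 0 < β) {W e : ℝ}
    (hW0 : 0 ≤ W) (hW : ∀ s ∈ D, (s.1 : ℝ) ≤ W)
    (he : 2 * c * (Fintype.card ι * W) / (β * N) ≤ e) {i j : ι} (hij : i ≠ j)
    (rest : ι → Option T) (hrest : ∀ l, ∀ s ∈ rest l, s ∈ D) (z : Zs S) (s : T) :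
    (mcore S hN hc hβ hW0 hW he hij rest hrest).Ga z s
      = ai S z (Function.update (Function.update rest i (some s)) j none) i := by
  change ai S z (Function.update (Function.update rest i (some s)) j
    (some (nul β β (z.2.1 (z.2.2 j))))) i = _
  by_cases hz : Function.Injective z.2.2
  · rw [ai_inj S hz, ai_inj S hz]
    have h := pf_nul (β := β) (τ := z.2.1) hz
      (o := Function.update (Function.update rest i (some s)) j none) (j := j)
      (Function.update_self _ _ _) rfl
    rw [Function.update_idem] at h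
    rw [h]
  · simp [ai, if_neg hz]

end

end Pool.Agent.Lib.MP_2c6a66_lc.UX

/-! The cost inequality with one large and several small jobs. -/

namespace Pool.Agent.Lib.MP_2c6a66_lc.UX

open scoped NNReal Topology
open Finset Filter Pool.Agent.Lib.MP_2c6a66_lc.LB
open UT (Prof mks DT HasUT ind ind_01 ind_nonneg ind_le pr pr_nonneg mks_pr U0 U1 dt0 dt1
  single0 single1 single_sum two_sum two_le flip_sum mis mis_nonneg finite_family c_nonneg
  path_abs)

noncomputable section

variable {ι : Type} [Fintype ι] [DecidableEq ι] {N : ℕ}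
variable {c : ℝ} {β : ℝ≥0} {D : Finset T}

/-- the jobs of `A` are present, with types given by grid indices -/
def oA (n : ℕ) (a : ι → Gd n) (A : Finset ι) : ι → Option T :=
  fun l => if l ∈ A then some (vl n (a l)) else none

theorem oA_mem {n : ℕ} (hg : HasGrid (↑D : Set T) (hh n) (NN n)) (a : ι → Gd n)
    (A : Finset ι) (l : ι) (s : T) (hs : s ∈ oA n a A l) : s ∈ D := by
  unfold oA at hs
  split_ifs at hs with h
  · have : vl n (a l) = s := by simpa using hs
    rw [← this]
    have h1 := (a l).1.2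
    have h2 := (a l).2.2
    exact Finset.mem_coe.1 (hg _ _ (by omega) (by omega))
  · exact absurd hs (by simp)

theorem Ez_abs (S : Fam ι N c β D) (hN : 0 < N) {F : Zs S → ℝ}
    (h : ∀ z : Zs S, |F z| ≤ 1) : |Ez S F| ≤ 1 := by
  have h1 := Ez_le_const S hN (F := F) zero_le_one fun z _ => (abs_le.1 (h z)).2
  have h2 := Ez_le_const S hN (F := fun z => -F z) zero_le_one fun z _ => by
    linarith [(abs_le.1 (h z)).1]
  have h3 : Ez S (fun z => -F z) = -Ez S F := by
    have := Ez_mul S (-1) F
    simpa using this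
  rw [h3] at h2
  exact abs_le.2 ⟨by linarith, h1⟩

/-- pair interactions vanish on average -/
theorem tele (S : Fam ι N c β D) (hN : 0 < N) (hc : 0 ≤ c) (hβ : 0 < β) {W : ℝ}
    (hW0 : 0 ≤ W) (hW : ∀ s ∈ D, (s.1 : ℝ) ≤ W) {n : ℕ} {δ : ℝ}
    (hg : HasGrid (↑D : Set T) (hh n) (NN n)) (hβn : β < hh n)
    (he : 2 * c * (Fintype.card ι * W) / (β * N) ≤ δ) {st : ι → T} {q : ℝ≥0}
    (hms : ∀ l, ms (st l) q n ≠ 0) {ε : ℝ}
    (hu : ∀ i j, i ≠ j → ∀ p : Pack n δ, |∑ a : Gd n, ∑ b : Gd n,
      nu (st i) q n a * nu (st j) q n b * F1 p.C p.φ (hh n) a.1 b.1 a.2 b.2| ≤ ε)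
    (φ : Zs S → ℝ) (h0 : ∀ z, 0 ≤ φ z) (h1 : ∀ z, φ z ≤ 1) (i : ι) (A : Finset ι)
    (hi : i ∉ A) :
    |Epi (fun l => nu (st l) q n) (fun a => Ez S fun z =>
      φ z * (ai S z (oA n a (insert i A)) i - ai S z (oA n a {i}) i))| ≤ A.card * ε := by
  have hν : ∀ l, ∑ a, nu (st l) q n a = 1 := fun l => nu_sum (hms l)
  have hν0 : ∀ l a, 0 ≤ nu (st l) q n a := fun l a => nu_nonneg _ _ _ _
  induction A using Finset.induction with
  | empty =>
    have : (fun a : ι → Gd n => Ez S fun z =>
        φ z * (ai S z (oA n a (insert i ∅)) i - ai S z (oA n a {i}) i)) = fun _ => 0 := by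
      funext a
      have : ∀ z : Zs S, φ z * (ai S z (oA n a (insert i ∅)) i - ai S z (oA n a {i}) i)
          = 0 := by
        intro z
        rw [insert_empty_eq, sub_self, mul_zero]
      simp only [this]
      simp [Ez]
    rw [this, Epi_const hν]
    simp
  | insert j A hj ih =>
    have hiA : i ∉ A := fun h => hi (Finset.mem_insert_of_mem h)
    have hij : i ≠ j := fun h => hi (by rw [h]; exact Finset.mem_insert_self _ _)
    have ih' := ih hiA
    have split : (fun a : ι → Gd n => Ez S fun z =>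
        φ z * (ai S z (oA n a (insert i (insert j A))) i - ai S z (oA n a {i}) i))
        = fun a => (Ez S fun z => φ z * (ai S z (oA n a (insert i (insert j A))) i
            - ai S z (oA n a (insert i A)) i))
          + Ez S fun z => φ z * (ai S z (oA n a (insert i A)) i - ai S z (oA n a {i}) i) := by
      funext a
      rw [← Ez_add]
      congr 1
      funext z
      ring
    rw [split, Epi_add]
    have main : |Epi (fun l => nu (st l) q n) (fun a => Ez S fun z => φ z
        * (ai S z (oA n a (insert i (insert j A))) i - ai S z (oA n a (insert i A)) i))|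
        ≤ ε := by
      rw [resample (fun l => nu (st l) q n) i (hν i),
        resample (fun l => nu (st l) q n) j (hν j)]
      refine Epi_abs_le hν0 hν fun a => ?_
      have hrest : ∀ l, ∀ s ∈ oA n a A l, s ∈ D := oA_mem hg a A
      have key : ∀ y x : Gd n, (Ez S fun z => φ z
          * (ai S z (oA n (Function.update (Function.update a j y) i x)
              (insert i (insert j A))) i
            - ai S z (oA n (Function.update (Function.update a j y) i x) (insert i A)) i))
          = F1 (mcore S hN hc hβ hW0 hW he hij (oA n a A) hrest) φ (hh n)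
            x.1 y.1 x.2 y.2 := by
        intro y x
        have e1 : oA n (Function.update (Function.update a j y) i x) (insert i (insert j A))
            = Function.update (Function.update (oA n a A) i (some (vl n x))) j
              (some (vl n y)) := by
          funext l
          by_cases hlj : l = j
          · subst hlj
            rw [Function.update_self]
            unfold oA
            rw [if_pos (Finset.mem_insert_of_mem (Finset.mem_insert_self _ _)),
              Function.update_of_ne (fun h => hij h.symm), Function.update_self]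
          · rw [Function.update_of_ne hlj]
            by_cases hli : l = i
            · subst hli
              rw [Function.update_self]
              unfold oA
              rw [if_pos (Finset.mem_insert_self _ _), Function.update_self]
            · rw [Function.update_of_ne hli]
              unfold oA
              rw [Function.update_of_ne hli, Function.update_of_ne hlj]
              simp [hli, hlj]
        have e2 : oA n (Function.update (Function.update a j y) i x) (insert i A)
            = Function.update (Function.update (oA n a A) i (some (vl n x))) j none := by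
          funext l
          by_cases hlj : l = j
          · subst hlj
            rw [Function.update_self]
            unfold oA
            have : l ∉ insert i A := by
              rw [Finset.mem_insert, not_or]
              exact ⟨fun h => hij h.symm, hj⟩
            rw [if_neg this]
          · rw [Function.update_of_ne hlj]
            by_cases hli : l = i
            · subst hli
              rw [Function.update_self]
              unfold oA
              rw [if_pos (Finset.mem_insert_self _ _), Function.update_self]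
            · rw [Function.update_of_ne hli]
              unfold oA
              rw [Function.update_of_ne hli, Function.update_of_ne hlj]
              simp [hli]
        unfold F1 EE
        change ∑ z, wtz S z * _ = ∑ z, wtz S z * _
        refine Finset.sum_congr rfl fun z _ => ?_
        have hGa := mcore_Ga S hN hc hβ hW0 hW he hij (oA n a A) hrest z (vl n x)
        change _ = wtz S z * (φ z * (ai S z (Function.update (Function.update (oA n a A) i
          (some (vl n x))) j (some (vl n y))) i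
          - (mcore S hN hc hβ hW0 hW he hij (oA n a A) hrest).Ga z (vl n x)))
        rw [hGa, e1, e2]
      have e3 : ∑ y, nu (st j) q n y * ∑ x, nu (st i) q n x * (Ez S fun z => φ z
          * (ai S z (oA n (Function.update (Function.update a j y) i x)
              (insert i (insert j A))) i
            - ai S z (oA n (Function.update (Function.update a j y) i x) (insert i A)) i))
          = ∑ x : Gd n, ∑ y : Gd n, nu (st i) q n x * nu (st j) q n y
            * F1 (mcore S hN hc hβ hW0 hW he hij (oA n a A) hrest) φ (hh n)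
            x.1 y.1 x.2 y.2 := by
        rw [Finset.sum_comm]
        refine Finset.sum_congr rfl fun y _ => ?_
        rw [Finset.mul_sum]
        refine Finset.sum_congr rfl fun x _ => ?_
        rw [key y x]
        ring
      rw [e3]
      have hδ0 : 0 ≤ δ := le_trans (div_nonneg (mul_nonneg (mul_nonneg zero_le_two hc)
        (mul_nonneg (Nat.cast_nonneg _) hW0))
        (mul_nonneg (NNReal.coe_nonneg _) (Nat.cast_nonneg _))) he
      exact hu i j hij ⟨_, _, _, mcore S hN hc hβ hW0 hW he hij (oA n a A) hrest, hg,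
        hδ0, le_rfl, hβn, φ, h0, h1⟩
    rw [Finset.card_insert_of_notMem hj]
    push_cast
    have h3 := abs_add_le (Epi (fun l => nu (st l) q n) (fun a => Ez S fun z => φ z
        * (ai S z (oA n a (insert i (insert j A))) i - ai S z (oA n a (insert i A)) i)))
      (Epi (fun l => nu (st l) q n) (fun a => Ez S fun z =>
        φ z * (ai S z (oA n a (insert i A)) i - ai S z (oA n a {i}) i)))
    linarith

end

end Pool.Agent.Lib.MP_2c6a66_lc.UX

/-! The cost inequality with one large and several small jobs. -/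

namespace Pool.Agent.Lib.MP_2c6a66_lc.UX

open scoped NNReal Topology
open Finset Filter Pool.Agent.Lib.MP_2c6a66_lc.LB
open UT (Prof mks DT HasUT ind ind_01 ind_nonneg ind_le pr pr_nonneg mks_pr U0 U1 dt0 dt1
  single0 single1 single_sum two_sum two_le flip_sum mis mis_nonneg finite_family c_nonneg
  path_abs)

noncomputable section

variable {ι : Type} [Fintype ι] [DecidableEq ι] {N : ℕ}
variable {c : ℝ} {β : ℝ≥0} {D : Finset T}

/-- indicator for the job `s` alone at position `p` -/
def gp (S : Fam ι N c β D) (r : S.R) (τ : Fin N → Bool) (p : Fin N) (s : T) : ℝ :=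
  ind (S.X r (pr (Function.update (tp β τ) p s)) p)

theorem gp_01 (S : Fam ι N c β D) (r : S.R) (τ : Fin N → Bool) (p : Fin N) (s : T) :
    gp S r τ p s = 0 ∨ gp S r τ p s = 1 := ind_01 _

theorem gp_nonneg (S : Fam ι N c β D) (r : S.R) (τ : Fin N → Bool) (p : Fin N) (s : T) :
    0 ≤ gp S r τ p s := ind_nonneg _

theorem gp_le (S : Fam ι N c β D) (r : S.R) (τ : Fin N → Bool) (p : Fin N) (s : T) :
    gp S r τ p s ≤ 1 := ind_le _

theorem gp_mono (S : Fam ι N c β D) (r : S.R) (τ : Fin N → Bool) (p : Fin N) {s s' : T}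
    (h1 : s.1 ≤ s'.1) (h2 : s'.2 ≤ s.2) : gp S r τ p s' ≤ gp S r τ p s := by
  have a := single0 (S.dt r) (tp β τ) p h1 s'.2
  have b := single1 (S.dt r) (tp β τ) p s.1 h2
  exact a.trans b

open Classical in
/-- the same for the real job `i` -/
def Gi (S : Fam ι N c β D) (z : Zs S) (i : ι) (s : T) : ℝ :=
  if Function.Injective z.2.2 then gp S z.1 z.2.1 (z.2.2 i) s else 0

theorem Gi_01 (S : Fam ι N c β D) (z : Zs S) (i : ι) (s : T) :
    Gi S z i s = 0 ∨ Gi S z i s = 1 := by
  unfold Gi
  split_ifs
  · exact gp_01 _ _ _ _ _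
  · left; rfl

theorem Gi_nonneg (S : Fam ι N c β D) (z : Zs S) (i : ι) (s : T) : 0 ≤ Gi S z i s := by
  rcases Gi_01 S z i s with h | h <;> rw [h]; exact zero_le_one

theorem Gi_le (S : Fam ι N c β D) (z : Zs S) (i : ι) (s : T) : Gi S z i s ≤ 1 := by
  rcases Gi_01 S z i s with h | h <;> rw [h]; exact zero_le_one

theorem Gi_mono (S : Fam ι N c β D) (z : Zs S) (i : ι) {s s' : T}
    (h1 : s.1 ≤ s'.1) (h2 : s'.2 ≤ s.2) : Gi S z i s' ≤ Gi S z i s := by
  unfold Gi
  split_ifs
  · exact gp_mono S _ _ _ h1 h2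
  · exact le_rfl

theorem ai_single (S : Fam ι N c β D) (z : Zs S) (i : ι) (n : ℕ) (a : ι → Gd n) :
    ai S z (oA n a {i}) i = Gi S z i (vl n (a i)) := by
  unfold ai Gi gp
  split_ifs with h
  · rw [pf_single β z.2.1 z.2.2 (i := i) (s := vl n (a i))]
    · unfold oA; rw [if_pos (Finset.mem_singleton_self i)]
    · intro l hl
      unfold oA; rw [if_neg (fun h => hl (Finset.mem_singleton.1 h))]
  · rfl

/-- mean gap -/
def vi (S : Fam ι N c β D) (i : ι) (q : ℝ≥0) (s : T) : ℝ :=
  Ez S fun z => Gi S z i s - Gi S z i (q * s.1, s.2 / q)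

theorem loc (S : Fam ι N c β D) (hN : 0 < N) (hc : 0 ≤ c) (hβ : 0 < β) {W : ℝ}
    (hW0 : 0 ≤ W) (hW : ∀ s ∈ D, (s.1 : ℝ) ≤ W) {n : ℕ} {δ : ℝ}
    (hg : HasGrid (↑D : Set T) (hh n) (NN n)) (hβn : β < hh n)
    (he : 2 * c * (Fintype.card ι * W) / (β * N) ≤ δ) {st : ι → T} {q : ℝ≥0} (hq : 1 < q)
    (hms : ∀ l, ms (st l) q n ≠ 0) {ε : ℝ}
    (hu : ∀ i j, i ≠ j → ∀ p : Pack n δ, |∑ a : Gd n, ∑ b : Gd n,
      nu (st i) q n a * nu (st j) q n b * F1 p.C p.φ (hh n) a.1 b.1 a.2 b.2| ≤ ε)
    (i : ι) (A : Finset ι) (hi : i ∉ A) :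
    Epi (fun l => nu (st l) q n) (fun a => Ez S fun z =>
      |ai S z (oA n a (insert i A)) i - Gi S z i (st i)|)
      ≤ 2 * (A.card * ε) + vi S i q (st i) := by
  have hν : ∀ l, ∑ a, nu (st l) q n a = 1 := fun l => nu_sum (hms l)
  have hν0 : ∀ l a, 0 ≤ nu (st l) q n a := fun l a => nu_nonneg _ _ _ _
  have t1 := tele S hN hc hβ hW0 hW hg hβn he hms hu (fun z => 1 - Gi S z i (st i))
    (fun z => by linarith [Gi_le S z i (st i)]) (fun z => by linarith [Gi_nonneg S z i (st i)])
    i A hi
  have t2 := tele S hN hc hβ hW0 hW hg hβn he hms hu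
    (fun z => Gi S z i (q * (st i).1, (st i).2 / q))
    (fun z => Gi_nonneg S z i _) (fun z => Gi_le S z i _)
    i A hi
  have key : Epi (fun l => nu (st l) q n) (fun a => Ez S fun z =>
      |ai S z (oA n a (insert i A)) i - Gi S z i (st i)|)
      ≤ Epi (fun l => nu (st l) q n) (fun a =>
        (Ez S fun z => (1 - Gi S z i (st i)) * (ai S z (oA n a (insert i A)) i
          - ai S z (oA n a {i}) i))
        - (Ez S fun z => Gi S z i (q * (st i).1, (st i).2 / q)
          * (ai S z (oA n a (insert i A)) i - ai S z (oA n a {i}) i))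
        + vi S i q (st i)) := by
    refine Epi_mono hν0 fun a ha => ?_
    unfold vi
    rw [← Ez_sub, ← Ez_add]
    refine Ez_mono S fun z hz => ?_
    rw [ai_single]
    obtain ⟨⟨b1, b2⟩, b3, b4⟩ := nu_ne (ha i)
    have b1' : (st i).1 ≤ (vl n (a i)).1 := by
      have := b1.le; exact_mod_cast this
    have b2' : (vl n (a i)).1 ≤ q * (st i).1 := by
      have := b2.le; exact_mod_cast this
    have b3' : (st i).2 / q ≤ (vl n (a i)).2 := by
      have := b3.le
      rw [← NNReal.coe_div] at this
      exact_mod_cast this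
    have b4' : (vl n (a i)).2 ≤ (st i).2 := by
      have := b4.le; exact_mod_cast this
    exact path_abs (ai_01 S z _ i) (Gi_01 S z i _) (Gi_01 S z i _) (Gi_01 S z i _)
      (Gi_mono S z i b2' b3') (Gi_mono S z i b1' b4')
  refine key.trans ?_
  have e : (fun a : ι → Gd n =>
        (Ez S fun z => (1 - Gi S z i (st i)) * (ai S z (oA n a (insert i A)) i
          - ai S z (oA n a {i}) i))
        - (Ez S fun z => Gi S z i (q * (st i).1, (st i).2 / q)
          * (ai S z (oA n a (insert i A)) i - ai S z (oA n a {i}) i))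
        + vi S i q (st i))
      = fun a => ((fun a => (Ez S fun z => (1 - Gi S z i (st i))
          * (ai S z (oA n a (insert i A)) i - ai S z (oA n a {i}) i))
        - (Ez S fun z => Gi S z i (q * (st i).1, (st i).2 / q)
          * (ai S z (oA n a (insert i A)) i - ai S z (oA n a {i}) i))) a)
        + (fun _ => vi S i q (st i)) a := rfl
  rw [e, Epi_add, Epi_sub, Epi_const hν]
  have a1 := (abs_le.1 t1).2
  have a2 := (abs_le.1 t2).1
  linarith

/-! ### The cost of a pair -/

/-- bilinear cost of a pair -/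
def Gam (s u : T) (P Q : ℝ) : ℝ := P * (s.1 + u.1 * Q) + (1 - P) * (s.2 + u.2 * (1 - Q))

/-- Lipschitz constant -/
def LC (s u : T) : ℝ := s.1 + s.2 + u.1 + u.2

theorem LC_nonneg (s u : T) : 0 ≤ LC s u := by
  unfold LC
  have := s.1.2; have := s.2.2; have := u.1.2; have := u.2.2
  positivity

theorem Gam_lip (s u : T) {P P' Q Q' : ℝ} (hP : 0 ≤ P) (hP1 : P ≤ 1) (hQ' : 0 ≤ Q')
    (hQ1' : Q' ≤ 1) : |Gam s u P Q - Gam s u P' Q'| ≤ LC s u * (|P - P'| + |Q - Q'|) := by
  have e : Gam s u P Q - Gam s u P' Q'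
      = (P - P') * ((s.1 + u.1 * Q') - (s.2 + u.2 * (1 - Q')))
        + (Q - Q') * (P * u.1 - (1 - P) * u.2) := by
    unfold Gam; ring
  have hs1 : (0 : ℝ) ≤ s.1 := s.1.2
  have hs2 : (0 : ℝ) ≤ s.2 := s.2.2
  have hu1 : (0 : ℝ) ≤ u.1 := u.1.2
  have hu2 : (0 : ℝ) ≤ u.2 := u.2.2
  have b1 : |(s.1 + u.1 * Q') - (s.2 + u.2 * (1 - Q'))| ≤ LC s u := by
    unfold LC
    rw [abs_le]
    constructor
    · nlinarith [mul_nonneg hu1 hQ', mul_nonneg hu2 hQ']
    · nlinarith [mul_le_mul_of_nonneg_left hQ1' hu1, mul_nonneg hu2 (sub_nonneg.2 hQ1')]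
  have b2 : |P * u.1 - (1 - P) * u.2| ≤ LC s u := by
    unfold LC
    rw [abs_le]
    constructor
    · nlinarith [mul_nonneg hP hu1, mul_nonneg hP hu2]
    · nlinarith [mul_le_mul_of_nonneg_right hP1 hu1, mul_nonneg (sub_nonneg.2 hP1) hu2]
  rw [e]
  refine (abs_add_le _ _).trans ?_
  rw [abs_mul, abs_mul, mul_add, mul_comm (LC s u), mul_comm (LC s u)]
  exact add_le_add (mul_le_mul_of_nonneg_left b1 (abs_nonneg _))
    (mul_le_mul_of_nonneg_left b2 (abs_nonneg _))

theorem Gam_nonneg (s u : T) {P Q : ℝ} (hP : 0 ≤ P) (hP1 : P ≤ 1) (hQ : 0 ≤ Q)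
    (hQ1 : Q ≤ 1) : 0 ≤ Gam s u P Q := by
  unfold Gam
  have hs1 : (0 : ℝ) ≤ s.1 := s.1.2
  have hs2 : (0 : ℝ) ≤ s.2 := s.2.2
  have hu1 : (0 : ℝ) ≤ u.1 := u.1.2
  have hu2 : (0 : ℝ) ≤ u.2 := u.2.2
  exact add_nonneg (mul_nonneg hP (add_nonneg hs1 (mul_nonneg hu1 hQ)))
    (mul_nonneg (sub_nonneg.2 hP1) (add_nonneg hs2 (mul_nonneg hu2 (sub_nonneg.2 hQ1))))

theorem Gam_le (s u : T) {P Q : ℝ} (hP : 0 ≤ P) (hP1 : P ≤ 1) (hQ : 0 ≤ Q)
    (hQ1 : Q ≤ 1) : Gam s u P Q ≤ LC s u := by
  unfold Gam LC
  have hs1 : (0 : ℝ) ≤ s.1 := s.1.2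
  have hs2 : (0 : ℝ) ≤ s.2 := s.2.2
  have hu1 : (0 : ℝ) ≤ u.1 := u.1.2
  have hu2 : (0 : ℝ) ≤ u.2 := u.2.2
  have a1 : P * (s.1 + u.1 * Q) ≤ s.1 + u.1 := by
    have := mul_le_mul hP1 (show (s.1 : ℝ) + u.1 * Q ≤ s.1 + u.1 by
      nlinarith [mul_le_mul_of_nonneg_left hQ1 hu1]) (by positivity) zero_le_one
    linarith
  have a2 : (1 - P) * (s.2 + u.2 * (1 - Q)) ≤ s.2 + u.2 := by
    have := mul_le_mul (show 1 - P ≤ 1 by linarith) (show (s.2 : ℝ) + u.2 * (1 - Q) ≤ s.2 + u.2 by
      nlinarith [mul_nonneg hu2 hQ]) (add_nonneg hs2 (mul_nonneg hu2 (sub_nonneg.2 hQ1)))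
      zero_le_one
    linarith
  linarith

open Classical in
/-- the reference assignment: job `i0` on machine 0, the other real jobs on machine 1 -/
def sgm (τ : Fin N → Bool) (pos : ι → Fin N) (i0 : ι) (Sm : Finset ι) : Fin N → Fin 2 :=
  fun k => if k = pos i0 then 0 else if ∃ l ∈ Sm, pos l = k then 1
    else if τ k then 0 else 1

/-- sums over the profile are sums over the real jobs, if null jobs contribute nothing -/
theorem pf_sum (β : ℝ≥0) (τ : Fin N → Bool) {pos : ι → Fin N} (hp : Function.Injective pos)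
    {n : ℕ} (a : ι → Gd n) (A : Finset ι) (f : Fin N → T → ℝ)
    (hf : ∀ k, (∀ l ∈ A, pos l ≠ k) → f k (nul β β (τ k)) = 0) :
    ∑ k, f k (pf β τ pos (oA n a A) k) = ∑ l ∈ A, f (pos l) (vl n (a l)) := by
  classical
  have h1 : ∑ k, f k (pf β τ pos (oA n a A) k)
      = ∑ k ∈ A.image pos, f k (pf β τ pos (oA n a A) k) := by
    symm
    refine Finset.sum_subset (Finset.subset_univ _) fun k _ hk => ?_
    have hk' : ∀ l ∈ A, pos l ≠ k := fun l hl h => hk (Finset.mem_image.2 ⟨l, hl, h⟩)
    rw [pf_out (fun l hl => ?_)]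
    · exact hf k hk'
    · refine hk' l ?_
      unfold oA at hl
      by_contra hn
      rw [if_neg hn] at hl
      exact absurd hl (by simp)
  rw [h1, Finset.sum_image fun x _ y _ h => hp h]
  refine Finset.sum_congr rfl fun l hl => ?_
  rw [pf_some hp (show oA n a A l = some (vl n (a l)) by unfold oA; rw [if_pos hl])]

/-- upper bound for the optimum -/
theorem opt_sgm (β : ℝ≥0) (τ : Fin N → Bool) {pos : ι → Fin N} (hp : Function.Injective pos)
    {n : ℕ} (a : ι → Gd n) {i0 : ι} {Sm : Finset ι} (hi0 : i0 ∉ Sm) {M : ℝ}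
    (h1 : ((vl n (a i0)).1 : ℝ) ≤ M) (h2 : ∑ l ∈ Sm, ((vl n (a l)).2 : ℝ) ≤ M) :
    mks (pr (pf β τ pos (oA n a (insert i0 Sm)))) (sgm τ pos i0 Sm) ≤ M := by
  classical
  have hs0 : sgm τ pos i0 Sm (pos i0) = 0 := by unfold sgm; rw [if_pos rfl]
  have hs1 : ∀ l ∈ Sm, sgm τ pos i0 Sm (pos l) = 1 := by
    intro l hl
    unfold sgm
    rw [if_neg (fun h => hi0 (by rw [← hp h]; exact hl)), if_pos ⟨l, hl, rfl⟩]
  have hs2 : ∀ k, (∀ l ∈ insert i0 Sm, pos l ≠ k) →
      sgm τ pos i0 Sm k = if τ k then 0 else 1 := by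
    intro k hk
    unfold sgm
    rw [if_neg (fun h => hk i0 (Finset.mem_insert_self _ _) h.symm), if_neg]
    rintro ⟨l, hl, h⟩
    exact hk l (Finset.mem_insert_of_mem hl) h
  rw [mks_pr]
  refine max_le ?_ ?_
  · rw [pf_sum β τ hp a (insert i0 Sm) (fun k s => ind (sgm τ pos i0 Sm k) * (s.1 : ℝ))]
    · rw [Finset.sum_insert hi0, hs0]
      have : ∑ l ∈ Sm, ind (sgm τ pos i0 Sm (pos l)) * ((vl n (a l)).1 : ℝ) = 0 := by
        refine Finset.sum_eq_zero fun l hl => ?_
        rw [hs1 l hl]
        simp [ind]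
      rw [this, add_zero]
      simpa [ind] using h1
    · intro k hk
      simp only [hs2 k hk]
      by_cases hτ : τ k = true <;> simp [hτ, ind, nul]
  · rw [pf_sum β τ hp a (insert i0 Sm) (fun k s => (1 - ind (sgm τ pos i0 Sm k)) * (s.2 : ℝ))]
    · rw [Finset.sum_insert hi0, hs0]
      have : ∑ l ∈ Sm, (1 - ind (sgm τ pos i0 Sm (pos l))) * ((vl n (a l)).2 : ℝ)
          = ∑ l ∈ Sm, ((vl n (a l)).2 : ℝ) := by
        refine Finset.sum_congr rfl fun l hl => ?_
        rw [hs1 l hl]
        simp [ind]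
      rw [this]
      simpa [ind] using h2
    · intro k hk
      simp only [hs2 k hk]
      by_cases hτ : τ k = true <;> simp [hτ, ind, nul]

/-- lower bound for the loads -/
theorem load_lower (β : ℝ≥0) (τ : Fin N → Bool) {pos : ι → Fin N} (hp : Function.Injective pos)
    (o : ι → Option T) (g : Fin N → ℝ) (hg : ∀ k, 0 ≤ g k) (f : T → ℝ) (hf : ∀ s, 0 ≤ f s)
    (A : Finset ι) :
    ∑ l ∈ A, g (pos l) * f (pf β τ pos o (pos l)) ≤ ∑ k, g k * f (pf β τ pos o k) := by
  classical
  rw [← Finset.sum_image (f := fun k => g k * f (pf β τ pos o k)) fun x _ y _ h => hp h]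
  exact Finset.sum_le_sum_of_subset_of_nonneg (Finset.subset_univ _) fun k _ _ =>
    mul_nonneg (hg k) (hf _)

theorem mks_lower (S : Fam ι N c β D) (z : Zs S) (hz : Function.Injective z.2.2) {n : ℕ}
    (a : ι → Gd n) {i0 : ι} {Sm : Finset ι} (hi0 : i0 ∉ Sm) (hm : Sm.Nonempty) {s t : T}
    {q : ℝ≥0} (hq : 1 < q)
    (h1 : s.1 ≤ (vl n (a i0)).1) (h2 : s.2 / q ≤ (vl n (a i0)).2)
    (h3 : ∀ l ∈ Sm, t.1 ≤ (vl n (a l)).1) (h4 : ∀ l ∈ Sm, t.2 / q ≤ (vl n (a l)).2) :
    ∑ l ∈ Sm, Gam s (Sm.card * t.1, Sm.card * t.2) (ai S z (oA n a (insert i0 Sm)) i0)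
      (ai S z (oA n a (insert i0 Sm)) l)
      ≤ Sm.card * (q * mks (pr (pf β z.2.1 z.2.2 (oA n a (insert i0 Sm))))
        (S.X z.1 (pr (pf β z.2.1 z.2.2 (oA n a (insert i0 Sm)))))) := by
  classical
  set o := oA n a (insert i0 Sm) with ho
  set σ := S.X z.1 (pr (pf β z.2.1 z.2.2 o)) with hσ
  set P := ai S z o i0 with hP
  have hqr : (1 : ℝ) < q := by exact_mod_cast hq
  have hq0 : (0 : ℝ) < q := by linarith
  have hm0 : (0 : ℝ) < Sm.card := by exact_mod_cast hm.card_pos
  have hai : ∀ l, ai S z o l = ind (σ (z.2.2 l)) := fun l => ai_inj S hz o l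
  have hpf : ∀ l ∈ insert i0 Sm, pf β z.2.1 z.2.2 o (z.2.2 l) = vl n (a l) := fun l hl =>
    pf_some hz (show oA n a (insert i0 Sm) l = some (vl n (a l)) by unfold oA; rw [if_pos hl])
  have hP01 : P = 0 ∨ P = 1 := ai_01 S z o i0
  have hQ01 : ∀ l, ai S z o l = 0 ∨ ai S z o l = 1 := fun l => ai_01 S z o l
  -- the two loads
  have L0 := load_lower β z.2.1 hz o (fun k => ind (σ k)) (fun k => ind_nonneg _)
    (fun s => (s.1 : ℝ)) (fun s => s.1.2) (insert i0 Sm)
  have L1 := load_lower β z.2.1 hz o (fun k => 1 - ind (σ k))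
    (fun k => by linarith [ind_le (σ k)])
    (fun s => (s.2 : ℝ)) (fun s => s.2.2) (insert i0 Sm)
  rw [Finset.sum_insert hi0] at L0 L1
  set X0 := ∑ k, ind (σ k) * ((pf β z.2.1 z.2.2 o k).1 : ℝ) with hX0
  set X1 := ∑ k, (1 - ind (σ k)) * ((pf β z.2.1 z.2.2 o k).2 : ℝ) with hX1
  have M0 : P * s.1 + ∑ l ∈ Sm, ai S z o l * t.1 ≤ X0 := by
    refine le_trans (add_le_add ?_ (Finset.sum_le_sum fun l hl => ?_)) L0
    · rw [hP, hai, hpf i0 (Finset.mem_insert_self _ _)]
      exact mul_le_mul_of_nonneg_left (by exact_mod_cast h1) (ind_nonneg _)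
    · rw [hai, hpf l (Finset.mem_insert_of_mem hl)]
      exact mul_le_mul_of_nonneg_left (by exact_mod_cast h3 l hl) (ind_nonneg _)
  have M1 : (1 - P) * s.2 + ∑ l ∈ Sm, (1 - ai S z o l) * t.2 ≤ q * X1 := by
    have e : (1 - P) * ((s.2 : ℝ) / q) + ∑ l ∈ Sm, (1 - ai S z o l) * ((t.2 : ℝ) / q) ≤ X1 := by
      refine le_trans (add_le_add ?_ (Finset.sum_le_sum fun l hl => ?_)) L1
      · rw [hP, hai, hpf i0 (Finset.mem_insert_self _ _)]
        refine mul_le_mul_of_nonneg_left ?_ (by linarith [ind_le (σ (z.2.2 i0))])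
        rw [← NNReal.coe_div]
        exact_mod_cast h2
      · rw [hai, hpf l (Finset.mem_insert_of_mem hl)]
        refine mul_le_mul_of_nonneg_left ?_ (by linarith [ind_le (σ (z.2.2 l))])
        rw [← NNReal.coe_div]
        exact_mod_cast h4 l hl
    have e2 := mul_le_mul_of_nonneg_left e hq0.le
    have e3 : (q : ℝ) * ((1 - P) * ((s.2 : ℝ) / q) + ∑ l ∈ Sm, (1 - ai S z o l) * ((t.2 : ℝ) / q))
        = (1 - P) * s.2 + ∑ l ∈ Sm, (1 - ai S z o l) * t.2 := by
      rw [mul_add, Finset.mul_sum]
      congr 1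
      · field_simp
      · refine Finset.sum_congr rfl fun l _ => ?_
        field_simp
    rw [e3] at e2
    exact e2
  have hX0' : 0 ≤ X0 := Finset.sum_nonneg fun k _ => mul_nonneg (ind_nonneg _) (NNReal.coe_nonneg _)
  -- sum of Gam
  have hG : ∑ l ∈ Sm, Gam s (Sm.card * t.1, Sm.card * t.2) P (ai S z o l)
      = Sm.card * (P * (s.1 + ∑ l ∈ Sm, ai S z o l * t.1)
        + (1 - P) * (s.2 + ∑ l ∈ Sm, (1 - ai S z o l) * t.2)) := by
    unfold Gam
    push_cast
    have : ∀ l, P * ((s.1 : ℝ) + (Sm.card : ℝ) * t.1 * ai S z o l)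
        + (1 - P) * ((s.2 : ℝ) + (Sm.card : ℝ) * t.2 * (1 - ai S z o l))
        = (P * s.1 + (1 - P) * s.2) + Sm.card * (P * (ai S z o l * t.1)
          + (1 - P) * ((1 - ai S z o l) * t.2)) := fun l => by ring
    simp only [this]
    rw [Finset.sum_add_distrib, Finset.sum_const, nsmul_eq_mul, ← Finset.mul_sum,
      Finset.sum_add_distrib, ← Finset.mul_sum, ← Finset.mul_sum]
    ring
  rw [hG]
  refine mul_le_mul_of_nonneg_left ?_ hm0.le
  rw [mks_pr]
  change _ ≤ q * max X0 X1
  rcases hP01 with h0 | h0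
  · rw [h0] at M1 ⊢
    have : q * X1 ≤ q * max X0 X1 := mul_le_mul_of_nonneg_left (le_max_right _ _) hq0.le
    linarith
  · rw [h0] at M0 ⊢
    have h5 : X0 ≤ q * X0 := by nlinarith
    have : q * X0 ≤ q * max X0 X1 := mul_le_mul_of_nonneg_left (le_max_left _ _) hq0.le
    linarith

end

end Pool.Agent.Lib.MP_2c6a66_lc.UX

/-! From the inequality with several jobs to an inequality for kernels. -/

namespace Pool.Agent.Lib.MP_2c6a66_lc.UX

open scoped NNReal Topology
open Finset Filter Pool.Agent.Lib.MP_2c6a66_lc.LB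
open UT (Prof mks DT HasUT ind ind_01 ind_nonneg ind_le pr pr_nonneg mks_pr U0 U1 dt0 dt1
  single0 single1 single_sum two_sum two_le flip_sum mis mis_nonneg finite_family c_nonneg
  path_abs)

noncomputable section

variable {ι : Type} [Fintype ι] [DecidableEq ι] {N : ℕ}
variable {c : ℝ} {β : ℝ≥0} {D : Finset T}

/-- the averaged cost bound -/
theorem cost_Ez (S : Fam ι N c β D) (hN : 0 < N) (hc : 0 ≤ c) {n : ℕ}
    (hg : HasGrid (↑D : Set T) (hh n) (NN n)) (a : ι → Gd n) {i0 : ι} {Sm : Finset ι}
    (hi0 : i0 ∉ Sm) (hm : Sm.Nonempty) {s t : T} {q : ℝ≥0} (hq : 1 < q)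
    (h1 : s.1 ≤ (vl n (a i0)).1) (h2 : s.2 / q ≤ (vl n (a i0)).2)
    (h3 : ∀ l ∈ Sm, t.1 ≤ (vl n (a l)).1) (h4 : ∀ l ∈ Sm, t.2 / q ≤ (vl n (a l)).2)
    (h5 : (vl n (a i0)).1 ≤ q * s.1) (h6 : ∀ l ∈ Sm, (vl n (a l)).2 ≤ t.2) :
    Ez S (fun z => (1 / (Sm.card : ℝ)) * ∑ l ∈ Sm, Gam s (Sm.card * t.1, Sm.card * t.2)
      (ai S z (oA n a (insert i0 Sm)) i0) (ai S z (oA n a (insert i0 Sm)) l))
      ≤ c * q ^ 2 * max s.1 (Sm.card * t.2) := by
  classical
  have hqr : (1 : ℝ) < q := by exact_mod_cast hq
  have hq0 : (0 : ℝ) < q := by linarith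
  have hm0 : (0 : ℝ) < Sm.card := by exact_mod_cast hm.card_pos
  set M : ℝ := max s.1 (Sm.card * t.2) with hM
  have hM0 : 0 ≤ M := le_max_of_le_left s.1.2
  set o := oA n a (insert i0 Sm) with ho
  -- pathwise bound
  have hpath : Ez S (fun z => (1 / (Sm.card : ℝ)) * ∑ l ∈ Sm,
      Gam s (Sm.card * t.1, Sm.card * t.2) (ai S z o i0) (ai S z o l))
      ≤ Ez S (fun z => q * mks (pr (pf β z.2.1 z.2.2 o)) (S.X z.1 (pr (pf β z.2.1 z.2.2 o)))) := by
    refine Ez_mono S fun z hz => ?_
    have := mks_lower S z hz a hi0 hm hq h1 h2 h3 h4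
    rw [one_div, inv_mul_le_iff₀ hm0]
    exact this
  refine hpath.trans ?_
  rw [Ez_eq]
  have hinner : ∀ (τ : Fin N → Bool) (pos : ι → Fin N), (if Function.Injective pos then
      ∑ r, S.w r * ((fun z : Zs S => q * mks (pr (pf β z.2.1 z.2.2 o))
        (S.X z.1 (pr (pf β z.2.1 z.2.2 o)))) (r, τ, pos)) else 0) ≤ c * q ^ 2 * M := by
    intro τ pos
    split_ifs with hp
    · simp only
      have e : ∑ r, S.w r * (q * mks (pr (pf β τ pos o)) (S.X r (pr (pf β τ pos o))))
          = q * ∑ r, S.w r * mks (pr (pf β τ pos o)) (S.X r (pr (pf β τ pos o))) := by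
        rw [Finset.mul_sum]
        exact Finset.sum_congr rfl fun r _ => by ring
      rw [e]
      have k1 := S.cost τ pos o (oA_mem hg a _) (sgm τ pos i0 Sm)
      have k2 : mks (pr (pf β τ pos o)) (sgm τ pos i0 Sm) ≤ q * M := by
        refine opt_sgm β τ hp a hi0 ?_ ?_
        · have : ((vl n (a i0)).1 : ℝ) ≤ q * s.1 := by exact_mod_cast h5
          refine this.trans (mul_le_mul_of_nonneg_left (le_max_left _ _) hq0.le)
        · have : ∑ l ∈ Sm, ((vl n (a l)).2 : ℝ) ≤ ∑ _l ∈ Sm, (t.2 : ℝ) :=
            Finset.sum_le_sum fun l hl => by exact_mod_cast h6 l hl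
          rw [Finset.sum_const, nsmul_eq_mul] at this
          have h7 : (Sm.card : ℝ) * t.2 ≤ M := le_max_right _ _
          have h8 : M ≤ q * M := by nlinarith
          linarith
      have k3 := mul_le_mul_of_nonneg_left k2 hc
      have k4 := mul_le_mul_of_nonneg_left (k1.trans k3) hq0.le
      calc _ ≤ _ := k4
        _ = _ := by ring
    · positivity
  calc 1 / 2 ^ N * ∑ τ : Fin N → Bool, Epi (un ι N) (fun pos => if Function.Injective pos then
      ∑ r, S.w r * ((fun z : Zs S => q * mks (pr (pf β z.2.1 z.2.2 o))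
        (S.X z.1 (pr (pf β z.2.1 z.2.2 o)))) (r, τ, pos)) else 0)
      ≤ 1 / 2 ^ N * ∑ _τ : Fin N → Bool, c * q ^ 2 * M := by
        refine mul_le_mul_of_nonneg_left (Finset.sum_le_sum fun τ _ => ?_) (by positivity)
        have := Epi_mono (un_nonneg (ι := ι) N) (G := fun _ => c * q ^ 2 * M)
          fun pos _ => hinner τ pos
        rwa [Epi_const (un_sum hN)] at this
    _ = _ := sum_bool _

/-- the inequality in terms of `Gi` -/
theorem pair_Gi (S : Fam ι N c β D) (hN : 0 < N) (hc : 0 ≤ c) (hβ : 0 < β) {W : ℝ}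
    (hW0 : 0 ≤ W) (hW : ∀ s ∈ D, (s.1 : ℝ) ≤ W) {n : ℕ} {δ : ℝ}
    (hg : HasGrid (↑D : Set T) (hh n) (NN n)) (hβn : β < hh n)
    (he : 2 * c * (Fintype.card ι * W) / (β * N) ≤ δ) {i0 : ι} {Sm : Finset ι}
    (hi0 : i0 ∉ Sm) (hm : Sm.Nonempty) {s t : T} {q : ℝ≥0} (hq : 1 < q)
    (hms : ms s q n ≠ 0) (hmt : ms t q n ≠ 0) {ε : ℝ}
    (hu1 : ∀ p : Pack n δ, |∑ a : Gd n, ∑ b : Gd n,
      nu s q n a * nu t q n b * F1 p.C p.φ (hh n) a.1 b.1 a.2 b.2| ≤ ε)
    (hu2 : ∀ p : Pack n δ, |∑ a : Gd n, ∑ b : Gd n,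
      nu t q n a * nu s q n b * F1 p.C p.φ (hh n) a.1 b.1 a.2 b.2| ≤ ε)
    (hu3 : ∀ p : Pack n δ, |∑ a : Gd n, ∑ b : Gd n,
      nu t q n a * nu t q n b * F1 p.C p.φ (hh n) a.1 b.1 a.2 b.2| ≤ ε)
    (hu4 : ∀ p : Pack n δ, |∑ a : Gd n, ∑ b : Gd n,
      nu s q n a * nu s q n b * F1 p.C p.φ (hh n) a.1 b.1 a.2 b.2| ≤ ε) :
    (1 / (Sm.card : ℝ)) * ∑ l ∈ Sm, (Ez S (fun z => Gam s (Sm.card * t.1, Sm.card * t.2)
      (Gi S z i0 s) (Gi S z l t)))
      ≤ c * q ^ 2 * max s.1 (Sm.card * t.2)
        + LC s (Sm.card * t.1, Sm.card * t.2) * (4 * (Sm.card * ε) + vi S i0 q s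
          + (1 / (Sm.card : ℝ)) * ∑ l ∈ Sm, vi S l q t) := by
  classical
  set u : T := (Sm.card * t.1, Sm.card * t.2) with hu
  set C := LC s u with hC
  have hC0 : 0 ≤ C := LC_nonneg s u
  have hm0 : (0 : ℝ) < Sm.card := by exact_mod_cast hm.card_pos
  let st : ι → T := fun l => if l = i0 then s else t
  have hst0 : st i0 = s := by simp [st]
  have hst1 : ∀ l ∈ Sm, st l = t := fun l hl => by
    simp only [st]; rw [if_neg (fun h => hi0 (by rw [← h]; exact hl))]
  have hmst : ∀ l, ms (st l) q n ≠ 0 := by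
    intro l
    simp only [st]
    split_ifs
    · exact hms
    · exact hmt
  have hust : ∀ i j, i ≠ j → ∀ p : Pack n δ, |∑ a : Gd n, ∑ b : Gd n,
      nu (st i) q n a * nu (st j) q n b * F1 p.C p.φ (hh n) a.1 b.1 a.2 b.2| ≤ ε := by
    intro i j _ p
    simp only [st]
    split_ifs
    · exact hu4 p
    · exact hu1 p
    · exact hu2 p
    · exact hu3 p
  have hν : ∀ l, ∑ a, nu (st l) q n a = 1 := fun l => nu_sum (hmst l)
  have hν0 : ∀ l a, 0 ≤ nu (st l) q n a := fun l a => nu_nonneg _ _ _ _
  -- the averaged cost bound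
  have step1 : Epi (fun l => nu (st l) q n) (fun a => Ez S (fun z => (1 / (Sm.card : ℝ))
      * ∑ l ∈ Sm, Gam s u (ai S z (oA n a (insert i0 Sm)) i0)
        (ai S z (oA n a (insert i0 Sm)) l))) ≤ c * q ^ 2 * max s.1 (Sm.card * t.2) := by
    have := Epi_mono hν0 (F := fun a => Ez S (fun z => (1 / (Sm.card : ℝ))
      * ∑ l ∈ Sm, Gam s u (ai S z (oA n a (insert i0 Sm)) i0)
        (ai S z (oA n a (insert i0 Sm)) l)))
      (G := fun _ => c * q ^ 2 * max s.1 (Sm.card * t.2)) fun a ha => by
        have bs := nu_ne (ha i0)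
        rw [hst0] at bs
        have bt : ∀ l ∈ Sm, _ := fun l hl => by
          have := nu_ne (ha l)
          rw [hst1 l hl] at this
          exact this
        refine cost_Ez S hN hc hg a hi0 hm hq ?_ ?_ ?_ ?_ ?_ ?_
        · have := bs.1.1.le; exact_mod_cast this
        · have := bs.2.1.le
          rw [← NNReal.coe_div] at this
          exact_mod_cast this
        · intro l hl; have := (bt l hl).1.1.le; exact_mod_cast this
        · intro l hl
          have := (bt l hl).2.1.le
          rw [← NNReal.coe_div] at this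
          exact_mod_cast this
        · have := bs.1.2.le; exact_mod_cast this
        · intro l hl; have := (bt l hl).2.2.le; exact_mod_cast this
    rwa [Epi_const hν] at this
  -- localisation
  have hl0 := loc S hN hc hβ hW0 hW hg hβn he hq hmst hust i0 Sm hi0
  rw [hst0] at hl0
  have hls : ∀ l ∈ Sm, Epi (fun l => nu (st l) q n) (fun a => Ez S fun z =>
      |ai S z (oA n a (insert i0 Sm)) l - Gi S z l t|) ≤ 2 * (Sm.card * ε) + vi S l q t := by
    intro l hl
    have hA : insert l (insert i0 (Sm.erase l)) = insert i0 Sm := by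
      rw [Finset.insert_comm, Finset.insert_erase hl]
    have hlA : l ∉ insert i0 (Sm.erase l) := by
      rw [Finset.mem_insert, not_or]
      exact ⟨fun h => hi0 (by rw [← h]; exact hl), Finset.notMem_erase _ _⟩
    have hcard : (insert i0 (Sm.erase l)).card = Sm.card := by
      rw [Finset.card_insert_of_notMem (fun h => hi0 (Finset.mem_of_mem_erase h)),
        Finset.card_erase_of_mem hl]
      have := hm.card_pos
      omega
    have h := loc S hN hc hβ hW0 hW hg hβn he hq hmst hust l (insert i0 (Sm.erase l)) hlA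
    rw [hA, hcard, hst1 l hl] at h
    exact h
  -- comparison
  have step2 : (1 / (Sm.card : ℝ)) * ∑ l ∈ Sm, (Ez S (fun z => Gam s u
      (Gi S z i0 s) (Gi S z l t)))
      ≤ Epi (fun l => nu (st l) q n) (fun a => Ez S (fun z => (1 / (Sm.card : ℝ))
      * ∑ l ∈ Sm, Gam s u (ai S z (oA n a (insert i0 Sm)) i0)
        (ai S z (oA n a (insert i0 Sm)) l))
        + C * ((Ez S fun z => |ai S z (oA n a (insert i0 Sm)) i0 - Gi S z i0 s|)
          + (1 / (Sm.card : ℝ)) * ∑ l ∈ Sm, (Ez S fun z =>
            |ai S z (oA n a (insert i0 Sm)) l - Gi S z l t|))) := by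
    have h := Epi_mono hν0 (F := fun _ => (1 / (Sm.card : ℝ)) * ∑ l ∈ Sm,
      (Ez S (fun z => Gam s u (Gi S z i0 s) (Gi S z l t))))
      (G := fun a => Ez S (fun z => (1 / (Sm.card : ℝ))
      * ∑ l ∈ Sm, Gam s u (ai S z (oA n a (insert i0 Sm)) i0)
        (ai S z (oA n a (insert i0 Sm)) l))
        + C * ((Ez S fun z => |ai S z (oA n a (insert i0 Sm)) i0 - Gi S z i0 s|)
          + (1 / (Sm.card : ℝ)) * ∑ l ∈ Sm, (Ez S fun z =>
            |ai S z (oA n a (insert i0 Sm)) l - Gi S z l t|))) fun a _ => by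
        rw [← Ez_sum, ← Ez_sum, ← Ez_mul, ← Ez_mul, ← Ez_add, ← Ez_mul, ← Ez_add]
        refine Ez_mono S fun z _ => ?_
        have k1 : ∑ l ∈ Sm, Gam s u (Gi S z i0 s) (Gi S z l t)
            ≤ ∑ l ∈ Sm, (Gam s u (ai S z (oA n a (insert i0 Sm)) i0)
              (ai S z (oA n a (insert i0 Sm)) l)
              + C * (|ai S z (oA n a (insert i0 Sm)) i0 - Gi S z i0 s|
                + |ai S z (oA n a (insert i0 Sm)) l - Gi S z l t|)) := by
          refine Finset.sum_le_sum fun l _ => ?_
          have h01 : ∀ x : ℝ, x = 0 ∨ x = 1 → 0 ≤ x ∧ x ≤ 1 := by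
            intro x hx; rcases hx with h | h <;> rw [h] <;> norm_num
          have := Gam_lip s u (h01 _ (ai_01 S z (oA n a (insert i0 Sm)) i0)).1
            (h01 _ (ai_01 S z (oA n a (insert i0 Sm)) i0)).2
            (Gi_nonneg S z l t) (Gi_le S z l t) (P' := Gi S z i0 s)
            (Q := ai S z (oA n a (insert i0 Sm)) l)
          have := (abs_le.1 this).1
          linarith
        have k2 := mul_le_mul_of_nonneg_left k1 (show (0 : ℝ) ≤ 1 / Sm.card by positivity)
        refine k2.trans (le_of_eq ?_)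
        rw [Finset.sum_add_distrib, ← Finset.mul_sum, Finset.sum_add_distrib, Finset.sum_const,
          nsmul_eq_mul]
        field_simp
    rwa [Epi_const hν] at h
  have e3 : Epi (fun l => nu (st l) q n) (fun a => Ez S (fun z => (1 / (Sm.card : ℝ))
      * ∑ l ∈ Sm, Gam s u (ai S z (oA n a (insert i0 Sm)) i0)
        (ai S z (oA n a (insert i0 Sm)) l))
        + C * ((Ez S fun z => |ai S z (oA n a (insert i0 Sm)) i0 - Gi S z i0 s|)
          + (1 / (Sm.card : ℝ)) * ∑ l ∈ Sm, (Ez S fun z =>
            |ai S z (oA n a (insert i0 Sm)) l - Gi S z l t|)))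
      = Epi (fun l => nu (st l) q n) (fun a => Ez S (fun z => (1 / (Sm.card : ℝ))
      * ∑ l ∈ Sm, Gam s u (ai S z (oA n a (insert i0 Sm)) i0)
        (ai S z (oA n a (insert i0 Sm)) l)))
        + C * (Epi (fun l => nu (st l) q n) (fun a =>
            Ez S fun z => |ai S z (oA n a (insert i0 Sm)) i0 - Gi S z i0 s|)
          + (1 / (Sm.card : ℝ)) * ∑ l ∈ Sm, Epi (fun l => nu (st l) q n) (fun a => Ez S fun z =>
            |ai S z (oA n a (insert i0 Sm)) l - Gi S z l t|)) := by
    rw [Epi_add (fun l => nu (st l) q n), Epi_mul, Epi_add (fun l => nu (st l) q n), Epi_mul,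
      Epi_sum]
  rw [e3] at step2
  have h9 : ∑ l ∈ Sm, Epi (fun l => nu (st l) q n) (fun a => Ez S fun z =>
            |ai S z (oA n a (insert i0 Sm)) l - Gi S z l t|)
      ≤ ∑ l ∈ Sm, (2 * (Sm.card * ε) + vi S l q t) := Finset.sum_le_sum hls
  rw [Finset.sum_add_distrib, Finset.sum_const, nsmul_eq_mul] at h9
  have h10 := mul_le_mul_of_nonneg_left h9 (show (0 : ℝ) ≤ 1 / Sm.card by positivity)
  have h11 : 1 / (Sm.card : ℝ) * (Sm.card * (2 * (Sm.card * ε)) + ∑ l ∈ Sm, vi S l q t)
      = 2 * (Sm.card * ε) + 1 / (Sm.card : ℝ) * ∑ l ∈ Sm, vi S l q t := by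
    field_simp
  rw [h11] at h10
  have h12 := mul_le_mul_of_nonneg_left (add_le_add hl0 h10) hC0
  calc _ ≤ _ := step2
    _ ≤ _ := add_le_add step1 h12
    _ = _ := by ring

/-! ### Kernels -/

/-- the kernel: average over the positions -/
def Kr (S : Fam ι N c β D) (x : S.R × (Fin N → Bool)) (s : T) : ℝ :=
  ∑ p, (1 / (N : ℝ)) * gp S x.1 x.2 p s

/-- weights -/
def wr (S : Fam ι N c β D) (x : S.R × (Fin N → Bool)) : ℝ := S.w x.1 * (1 / 2 ^ N)

theorem wr_nonneg (S : Fam ι N c β D) (x : S.R × (Fin N → Bool)) : 0 ≤ wr S x :=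
  mul_nonneg (S.w0 _) (by positivity)

theorem wr_sum (S : Fam ι N c β D) : ∑ x, wr S x = 1 := by
  unfold wr
  rw [Fintype.sum_prod_type]
  have e : ∀ r, ∑ τ : Fin N → Bool, S.w (r, τ).1 * (1 / 2 ^ N) = S.w r := by
    intro r
    have := sum_bool (N := N) 1
    simp only
    rw [← Finset.mul_sum]
    rw [Finset.sum_const, nsmul_eq_mul] at this ⊢
    have h2 : (Finset.card (univ : Finset (Fin N → Bool)) : ℝ) * (1 / 2 ^ N) = 1 := by linarith
    rw [h2, mul_one]
  simp only [e]
  exact S.w1

theorem Kr_nonneg (S : Fam ι N c β D) (x : S.R × (Fin N → Bool)) (s : T) : 0 ≤ Kr S x s :=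
  Finset.sum_nonneg fun p _ => mul_nonneg (by positivity) (gp_nonneg _ _ _ _ _)

theorem Kr_le (S : Fam ι N c β D) (hN : 0 < N) (x : S.R × (Fin N → Bool)) (s : T) :
    Kr S x s ≤ 1 := by
  have h : Kr S x s ≤ ∑ _p : Fin N, (1 / (N : ℝ)) * 1 :=
    Finset.sum_le_sum fun p _ => mul_le_mul_of_nonneg_left (gp_le _ _ _ _ _) (by positivity)
  refine h.trans (le_of_eq ?_)
  rw [Finset.sum_const, Finset.card_univ, Fintype.card_fin, nsmul_eq_mul]
  have : (0 : ℝ) < N := by exact_mod_cast hN
  field_simp

theorem Kr_mono (S : Fam ι N c β D) (x : S.R × (Fin N → Bool)) {s s' : T}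
    (h1 : s.1 ≤ s'.1) (h2 : s'.2 ≤ s.2) : Kr S x s' ≤ Kr S x s :=
  Finset.sum_le_sum fun p _ => mul_le_mul_of_nonneg_left (gp_mono _ _ _ _ h1 h2) (by positivity)

/-- expectation over mechanism and environment -/
def Er (S : Fam ι N c β D) (F : S.R × (Fin N → Bool) → ℝ) : ℝ := ∑ x, wr S x * F x

open Classical in
theorem Ez_Er (S : Fam ι N c β D) (F : Zs S → ℝ) : Ez S F = Er S fun x =>
    Epi (un ι N) fun pos => if Function.Injective pos then F (x.1, x.2, pos) else 0 := by
  unfold Ez Er Epi
  rw [Fintype.sum_prod_type, Fintype.sum_prod_type]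
  refine Finset.sum_congr rfl fun r _ => ?_
  rw [Fintype.sum_prod_type]
  refine Finset.sum_congr rfl fun τ _ => ?_
  rw [Finset.mul_sum]
  refine Finset.sum_congr rfl fun pos _ => ?_
  unfold wtz wr
  simp only
  split_ifs with h
  · ring
  · simp

theorem Er_mono (S : Fam ι N c β D) {F G : S.R × (Fin N → Bool) → ℝ}
    (h : ∀ x, F x ≤ G x) : Er S F ≤ Er S G :=
  Finset.sum_le_sum fun x _ => mul_le_mul_of_nonneg_left (h x) (wr_nonneg S x)

theorem Er_add (S : Fam ι N c β D) (F G : S.R × (Fin N → Bool) → ℝ) :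
    Er S (fun z => F z + G z) = Er S F + Er S G := by
  simp only [Er, mul_add, Finset.sum_add_distrib]

theorem Er_const (S : Fam ι N c β D) (a : ℝ) : Er S (fun _ => a) = a := by
  unfold Er
  rw [← Finset.sum_mul, wr_sum, one_mul]

/-- the mean gap of the kernel dominates -/
theorem vi_le (S : Fam ι N c β D) (hN : 0 < N) (i : ι) {q : ℝ≥0} (hq : 1 < q) (s : T) :
    vi S i q s ≤ Er S fun x => Kr S x s - Kr S x (q * s.1, s.2 / q) := by
  classical
  unfold vi
  rw [Ez_Er]
  refine Er_mono S fun x => ?_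
  have hle : ∀ p, gp S x.1 x.2 p (q * s.1, s.2 / q) ≤ gp S x.1 x.2 p s := fun p =>
    gp_mono S _ _ _ (le_mul_of_one_le_left' hq.le) (div_le_self zero_le hq.le)
  have h1 := Epi_mono (un_nonneg (ι := ι) N) (F := fun pos => if Function.Injective pos then
      Gi S (x.1, x.2, pos) i s - Gi S (x.1, x.2, pos) i (q * s.1, s.2 / q) else 0)
      (G := fun pos => gp S x.1 x.2 (pos i) s - gp S x.1 x.2 (pos i) (q * s.1, s.2 / q))
      fun pos _ => by
        split_ifs with h
        · unfold Gi; simp only; rw [if_pos h, if_pos h]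
        · linarith [hle (pos i)]
  refine h1.trans (le_of_eq ?_)
  rw [Epi_one (un_sum hN) i (fun p => gp S x.1 x.2 p s - gp S x.1 x.2 p (q * s.1, s.2 / q))]
  unfold Kr un
  rw [← Finset.sum_sub_distrib]
  exact Finset.sum_congr rfl fun p _ => by ring

/-- independence of the positions -/
theorem Gam_Er (S : Fam ι N c β D) (hN : 0 < N) {i j : ι} (hij : i ≠ j) (s t u : T) :
    (Er S fun x => Gam s u (Kr S x s) (Kr S x t))
      ≤ (Ez S fun z => Gam s u (Gi S z i s) (Gi S z j t))
        + LC s u * ((Fintype.card ι : ℝ) ^ 2 / N) := by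
  classical
  rw [Ez_Er]
  have hC0 := LC_nonneg s u
  have e1 : ∀ x : S.R × (Fin N → Bool), Gam s u (Kr S x s) (Kr S x t)
      = Epi (un ι N) (fun pos => Gam s u (gp S x.1 x.2 (pos i) s) (gp S x.1 x.2 (pos j) t)) := by
    intro x
    have k0 : ∀ P Q : ℝ, Gam s u P Q = (s.2 + u.2 : ℝ) + (s.1 - s.2 - u.2 : ℝ) * P
        + (-(u.2 : ℝ)) * Q + (u.1 + u.2 : ℝ) * (P * Q) := by
      intro P Q; unfold Gam; ring
    simp only [k0]
    rw [Epi_add, Epi_add, Epi_add, Epi_const (un_sum hN), Epi_mul, Epi_mul, Epi_mul,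
      Epi_one (un_sum hN) i (fun p => gp S x.1 x.2 p s),
      Epi_one (un_sum hN) j (fun p => gp S x.1 x.2 p t),
      Epi_two (un_sum hN) hij (fun p => gp S x.1 x.2 p s) (fun p => gp S x.1 x.2 p t)]
    rfl
  simp only [e1]
  rw [← Er_const S (LC s u * ((Fintype.card ι : ℝ) ^ 2 / N)), ← Er_add]
  refine Er_mono S fun x => ?_
  have h1 := Epi_mono (un_nonneg (ι := ι) N)
    (F := fun pos => Gam s u (gp S x.1 x.2 (pos i) s) (gp S x.1 x.2 (pos j) t))
    (G := fun pos => (if Function.Injective pos then
      Gam s u (Gi S (x.1, x.2, pos) i s) (Gi S (x.1, x.2, pos) j t) else 0)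
      + LC s u * (if Function.Injective pos then 0 else 1)) fun pos _ => by
        split_ifs with h
        · unfold Gi; simp only; rw [if_pos h, if_pos h]; linarith
        · have := Gam_le s u (gp_nonneg S x.1 x.2 (pos i) s) (gp_le S x.1 x.2 (pos i) s)
            (gp_nonneg S x.1 x.2 (pos j) t) (gp_le S x.1 x.2 (pos j) t)
          linarith
  refine h1.trans ?_
  rw [Epi_add, Epi_mul]
  exact add_le_add le_rfl (mul_le_mul_of_nonneg_left (noninj hN) hC0)

/-- **The kernel inequality.** -/
theorem kernel_ineq (S : Fam ι N c β D) (hN : 0 < N) (hc : 0 ≤ c) (hβ : 0 < β) {W : ℝ}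
    (hW0 : 0 ≤ W) (hW : ∀ s ∈ D, (s.1 : ℝ) ≤ W) {n : ℕ} {δ : ℝ}
    (hg : HasGrid (↑D : Set T) (hh n) (NN n)) (hβn : β < hh n)
    (he : 2 * c * (Fintype.card ι * W) / (β * N) ≤ δ) {i0 : ι} {Sm : Finset ι}
    (hi0 : i0 ∉ Sm) (hm : Sm.Nonempty) {s t : T} {q : ℝ≥0} (hq : 1 < q)
    (hms : ms s q n ≠ 0) (hmt : ms t q n ≠ 0) {ε : ℝ}
    (hu1 : ∀ p : Pack n δ, |∑ a : Gd n, ∑ b : Gd n,
      nu s q n a * nu t q n b * F1 p.C p.φ (hh n) a.1 b.1 a.2 b.2| ≤ ε)
    (hu2 : ∀ p : Pack n δ, |∑ a : Gd n, ∑ b : Gd n,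
      nu t q n a * nu s q n b * F1 p.C p.φ (hh n) a.1 b.1 a.2 b.2| ≤ ε)
    (hu3 : ∀ p : Pack n δ, |∑ a : Gd n, ∑ b : Gd n,
      nu t q n a * nu t q n b * F1 p.C p.φ (hh n) a.1 b.1 a.2 b.2| ≤ ε)
    (hu4 : ∀ p : Pack n δ, |∑ a : Gd n, ∑ b : Gd n,
      nu s q n a * nu s q n b * F1 p.C p.φ (hh n) a.1 b.1 a.2 b.2| ≤ ε) :
    (Er S fun x => Gam s (Sm.card * t.1, Sm.card * t.2) (Kr S x s) (Kr S x t))
      ≤ c * q ^ 2 * max s.1 (Sm.card * t.2)
        + LC s (Sm.card * t.1, Sm.card * t.2) * (4 * (Sm.card * ε)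
          + (Fintype.card ι : ℝ) ^ 2 / N
          + (Er S fun x => Kr S x s - Kr S x (q * s.1, s.2 / q))
          + (Er S fun x => Kr S x t - Kr S x (q * t.1, t.2 / q))) := by
  classical
  have hC0 := LC_nonneg s (Sm.card * t.1, Sm.card * t.2)
  have hm0 : (0 : ℝ) < Sm.card := by exact_mod_cast hm.card_pos
  have h1 := pair_Gi S hN hc hβ hW0 hW hg hβn he hi0 hm hq hms hmt hu1 hu2 hu3 hu4
  have h2 : ∀ l ∈ Sm, (Er S fun x => Gam s (Sm.card * t.1, Sm.card * t.2) (Kr S x s)
      (Kr S x t)) ≤ (Ez S fun z => Gam s (Sm.card * t.1, Sm.card * t.2)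
        (Gi S z i0 s) (Gi S z l t)) + LC s (Sm.card * t.1, Sm.card * t.2)
          * ((Fintype.card ι : ℝ) ^ 2 / N) := fun l hl =>
    Gam_Er S hN (fun h => hi0 (by rw [h]; exact hl)) s t _
  have h3 := Finset.sum_le_sum h2
  rw [Finset.sum_const, nsmul_eq_mul, Finset.sum_add_distrib, Finset.sum_const,
    nsmul_eq_mul] at h3
  have h4 := mul_le_mul_of_nonneg_left h3 (show (0 : ℝ) ≤ 1 / Sm.card by positivity)
  rw [← mul_assoc, one_div_mul_cancel hm0.ne', one_mul, mul_add, ← mul_assoc (1 / (Sm.card : ℝ))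
    (Sm.card : ℝ), one_div_mul_cancel hm0.ne', one_mul] at h4
  have h5 : ∑ l ∈ Sm, vi S l q t ≤ Sm.card * (Er S fun x => Kr S x t
      - Kr S x (q * t.1, t.2 / q)) := by
    have := Finset.sum_le_sum fun l (_ : l ∈ Sm) => vi_le S hN l hq t
    rwa [Finset.sum_const, nsmul_eq_mul] at this
  have h6 := mul_le_mul_of_nonneg_left h5 (show (0 : ℝ) ≤ 1 / Sm.card by positivity)
  rw [← mul_assoc, one_div_mul_cancel hm0.ne', one_mul] at h6
  have h7 := vi_le S hN i0 hq s
  have h8 : 4 * (Sm.card * ε) + vi S i0 q s + (1 / (Sm.card : ℝ)) * ∑ l ∈ Sm, vi S l q t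
      ≤ 4 * (Sm.card * ε) + (Er S fun x => Kr S x s - Kr S x (q * s.1, s.2 / q))
        + (Er S fun x => Kr S x t - Kr S x (q * t.1, t.2 / q)) := by linarith
  have h9 := mul_le_mul_of_nonneg_left h8 hC0
  calc _ ≤ _ := h4
    _ ≤ _ := add_le_add h1 le_rfl
    _ ≤ _ := add_le_add (add_le_add le_rfl h9) le_rfl
    _ = _ := by ring

end

end Pool.Agent.Lib.MP_2c6a66_lc.UX
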