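import Pool.Agent.Lib.MP_2c6a66_lc.UX.MMain
import Pool.Agent.Lib.MP_2c6a66_lc.UX.Defs
import Pool.Agent.Lib.MP_2c6a66_lc.UX.Blocks

/-! Exchange of the machines, and the finite mixtures of kernels. -/

namespace Pool.Agent.Lib.MP_2c6a66_lc.UX

open scoped NNReal Topology
open Finset Filter Pool.Agent.Lib.MP_2c6a66_lc.LB
open UT (Prof mks DT HasUT ind ind_01 ind_nonneg ind_le pr pr_nonneg mks_pr U0 U1 dt0 dt1
  single0 single1 single_sum two_sum two_le flip_sum mis mis_nonneg finite_family c_nonneg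
  path_abs)

noncomputable section

variable {ι : Type} [Fintype ι] [DecidableEq ι] {N : ℕ}
variable {c : ℝ} {β : ℝ≥0} {D : Finset T}

/-- exchange the machines -/
def rv (b : Prof N) : Prof N := fun i k => b (Fin.rev i) k

theorem rv_update (b : Prof N) (i : Fin 2) (r : Fin N → ℝ) :
    rv (Function.update b i r) = Function.update (rv b) (Fin.rev i) r := by
  funext j k
  unfold rv
  by_cases h : j = Fin.rev i
  · subst h
    rw [Fin.rev_rev, Function.update_self, Function.update_self]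
  · rw [Function.update_of_ne h, Function.update_of_ne]
    intro h'
    exact h (by rw [← h', Fin.rev_rev])

theorem rev_eq (i j : Fin 2) : Fin.rev i = j ↔ i = Fin.rev j := by
  constructor
  · rintro rfl; rw [Fin.rev_rev]
  · rintro rfl; rw [Fin.rev_rev]

theorem mks_rv (b : Prof N) (σ : Fin N → Fin 2) : mks (rv b) (fun k => Fin.rev (σ k))
    = mks b σ := by
  unfold mks rv
  simp only [rev_eq]
  have h0 : Fin.rev (0 : Fin 2) = 1 := rfl
  have h1 : Fin.rev (1 : Fin 2) = 0 := rfl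
  rw [h0, h1, max_comm]

theorem rv_pr (f : Fin N → T) : rv (pr f) = pr (fun k => (f k).swap) := by
  funext i k
  unfold rv pr
  fin_cases i <;> simp

theorem nul_swap (β : ℝ≥0) (e : Bool) : (nul β β e).swap = nul β β (!e) := by
  cases e <;> rfl

theorem pf_swap (β : ℝ≥0) (τ : Fin N → Bool) (pos : ι → Fin N) (o : ι → Option T) :
    (fun k => (pf β τ pos o k).swap)
      = pf β (fun k => !(τ k)) pos (fun l => (o l).map Prod.swap) := by
  funext k
  have e : (fun l => pos l = k ∧ ((o l).map Prod.swap).isSome = true)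
      = fun l => pos l = k ∧ (o l).isSome = true := by
    funext l
    simp
  unfold pf
  by_cases hex : ∃ l, pos l = k ∧ (o l).isSome
  · have hex' : ∃ l, pos l = k ∧ ((o l).map Prod.swap).isSome := by
      obtain ⟨l, hl⟩ := hex
      exact ⟨l, by simpa using hl⟩
    rw [dif_pos hex, dif_pos hex']
    have hch : hex'.choose = hex.choose := by
      congr 1
    rw [hch]
    obtain ⟨s, hs⟩ := Option.isSome_iff_exists.1 hex.choose_spec.2
    simp only [hs]
    rfl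
  · have hex' : ¬ ∃ l, pos l = k ∧ ((o l).map Prod.swap).isSome := by
      rintro ⟨l, hl⟩
      exact hex ⟨l, by simpa using hl⟩
    rw [dif_neg hex, dif_neg hex', nul_swap]

theorem upd_swap (β : ℝ≥0) (τ : Fin N → Bool) (p : Fin N) (s : T) :
    (fun k => (Function.update (tp β τ) p s k).swap)
      = Function.update (tp β (fun k => !(τ k))) p s.swap := by
  funext k
  by_cases h : k = p
  · subst h; simp
  · rw [Function.update_of_ne h, Function.update_of_ne h]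
    exact nul_swap β (τ k)

theorem ind_rev (x : Fin 2) : ind (Fin.rev x) = 1 - ind x := by
  unfold ind
  fin_cases x <;> simp

/-- the family with exchanged machines -/
def Fam.swap (S : Fam ι N c β D) {D' : Finset T} (hD : ∀ s ∈ D', s.swap ∈ D) :
    Fam ι N c β D' where
  R := S.R
  w := S.w
  X := fun r b k => Fin.rev (S.X r (rv b) k)
  pay := fun r b i => S.pay r (rv b) (Fin.rev i)
  w0 := S.w0
  w1 := S.w1
  dt := fun r b hb i x hx => by
    have h := S.dt r (rv b) (fun i k => hb _ k) (Fin.rev i) x hx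
    rw [← rv_update] at h
    have e : ∀ b' : Prof N, (∑ k with Fin.rev (S.X r (rv b') k) = i, b i k)
        = ∑ k with S.X r (rv b') k = Fin.rev i, rv b (Fin.rev i) k := by
      intro b'
      simp only [rev_eq]
      unfold rv
      rw [Fin.rev_rev]
    simp only [e]
    exact h
  cost := fun τ pos o ho σ => by
    have h := S.cost (fun k => !(τ k)) pos (fun l => (o l).map Prod.swap) (by
      intro l s hs
      obtain ⟨s', hs', rfl⟩ := Option.map_eq_some_iff.1 hs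
      exact hD s' (ho l s' hs')) (fun k => Fin.rev (σ k))
    rw [← pf_swap, ← rv_pr, mks_rv] at h
    refine le_trans (le_of_eq (Finset.sum_congr rfl fun r _ => ?_)) h
    congr 1
    have := mks_rv (pr (pf β τ pos o)) (fun k => Fin.rev (S.X r (rv (pr (pf β τ pos o))) k))
    simp only [Fin.rev_rev] at this
    exact this.symm

theorem gp_swap (S : Fam ι N c β D) {D' : Finset T} (hD : ∀ s ∈ D', s.swap ∈ D) (r : S.R)
    (τ : Fin N → Bool) (p : Fin N) (s : T) :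
    gp (S.swap hD) r τ p s = 1 - gp S r (fun k => !(τ k)) p s.swap := by
  unfold gp
  change ind (Fin.rev (S.X r (rv (pr (Function.update (tp β τ) p s))) p)) = _
  rw [ind_rev, rv_pr, upd_swap]

theorem Kr_swap (S : Fam ι N c β D) (hN : 0 < N) {D' : Finset T} (hD : ∀ s ∈ D', s.swap ∈ D)
    (r : S.R) (τ : Fin N → Bool) (s : T) :
    Kr (S.swap hD) (r, τ) s = 1 - Kr S (r, fun k => !(τ k)) s.swap := by
  unfold Kr
  simp only
  have e : ∀ p, 1 / (N : ℝ) * gp (S.swap hD) r τ p s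
      = 1 / (N : ℝ) - 1 / (N : ℝ) * gp S r (fun k => !(τ k)) p s.swap := by
    intro p
    rw [gp_swap]; ring
  simp only [e]
  rw [Finset.sum_sub_distrib, Finset.sum_const, Finset.card_univ, Fintype.card_fin, nsmul_eq_mul]
  have : (0 : ℝ) < N := by exact_mod_cast hN
  congr 1
  field_simp

/-- negation of the environments -/
def ng (N : ℕ) : Equiv.Perm (Fin N → Bool) :=
  Function.Involutive.toPerm (fun τ k => !(τ k)) (fun τ => by funext k; simp)

theorem Er_swap (S : Fam ι N c β D) {D' : Finset T} (hD : ∀ s ∈ D', s.swap ∈ D)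
    (F : S.R × (Fin N → Bool) → ℝ) :
    (Er (S.swap hD) fun x => F (x.1, fun k => !(x.2 k))) = Er S F := by
  unfold Er
  rw [Fintype.sum_prod_type, Fintype.sum_prod_type]
  refine Finset.sum_congr rfl fun r _ => ?_
  exact Equiv.sum_comp (ng N) (fun τ => wr S (r, τ) * F (r, τ))

/-! ### Stage 1 -/

/-- the grid -/
def Dg (n : ℕ) : Finset T :=
  ((range (NN n + 5)) ×ˢ (range (NN n + 5))).image fun p => gj (hh n) p.1 p.2

theorem Dg_grid (n : ℕ) : HasGrid (↑(Dg n) : Set T) (hh n) (NN n) := by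
  intro i k hi hk
  refine Finset.mem_coe.2 (Finset.mem_image.2 ⟨(i, k), ?_, rfl⟩)
  rw [Finset.mem_product]
  exact ⟨Finset.mem_range.2 (by simp only; omega), Finset.mem_range.2 (by simp only; omega)⟩

theorem Dg_swap (n : ℕ) : ∀ s ∈ Dg n, s.swap ∈ Dg n := by
  intro s hs
  obtain ⟨p, hp, rfl⟩ := Finset.mem_image.1 hs
  rw [Finset.mem_product] at hp
  refine Finset.mem_image.2 ⟨(p.2, p.1), ?_, rfl⟩
  rw [Finset.mem_product]
  exact ⟨hp.2, hp.1⟩

theorem Dg_bd (n : ℕ) : ∀ s ∈ Dg n, (s.1 : ℝ) ≤ (NN n + 5 : ℕ) * hh n := by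
  intro s hs
  obtain ⟨p, hp, rfl⟩ := Finset.mem_image.1 hs
  rw [Finset.mem_product, Finset.mem_range, Finset.mem_range] at hp
  have e : ((gj (hh n) p.1 p.2).1 : ℝ) = (p.1 : ℕ) * hh n := by simp [gj]
  rw [e]
  refine mul_le_mul_of_nonneg_right ?_ (NNReal.coe_nonneg _)
  exact_mod_cast hp.1.le

/-- a finite mixture of kernels -/
structure Mixt where
  Z : Type
  [fin : Fintype Z]
  w : Z → ℝ
  K : Z → T → ℝ
  w0 : ∀ z, 0 ≤ w z
  w1 : ∑ z, w z = 1
  K0 : ∀ z s, 0 ≤ K z s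
  K1 : ∀ z s, K z s ≤ 1
  mono : ∀ z (s s' : T), s.1 ≤ s'.1 → s'.2 ≤ s.2 → K z s' ≤ K z s

attribute [instance] Mixt.fin

/-- expectation -/
def Mixt.E (A : Mixt) (F : A.Z → ℝ) : ℝ := ∑ z, A.w z * F z

/-- the mixture of a family -/
def Fam.toMixt (S : Fam ι N c β D) (hN : 0 < N) : Mixt where
  Z := S.R × (Fin N → Bool)
  w := wr S
  K := Kr S
  w0 := wr_nonneg S
  w1 := wr_sum S
  K0 := Kr_nonneg S
  K1 := Kr_le S hN
  mono := fun z _ _ h1 h2 => Kr_mono S z h1 h2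

/-- the multiple of a job -/
def mu (m : ℕ) (t : T) : T := (m * t.1, m * t.2)

theorem stage1 {c : ℝ} (hc : 0 ≤ c) (h : ∀ n, HasUT n c) (L : Finset (T × T × ℕ))
    (hL : ∀ x ∈ L, 0 < x.1.1 ∧ 0 < x.1.2 ∧ 0 < x.2.1.1 ∧ 0 < x.2.1.2 ∧ 1 ≤ x.2.2)
    {q : ℝ≥0} (hq : 1 < q) {ε : ℝ} (hε : 0 < ε) :
    ∃ A : Mixt, ∀ x ∈ L,
      (A.E fun z => Gam x.1 (mu x.2.2 x.2.1) (A.K z x.1) (A.K z x.2.1))
        ≤ c * q ^ 2 * max x.1.1 (x.2.2 * x.2.1.2)
          + LC x.1 (mu x.2.2 x.2.1) * (ε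
            + (A.E fun z => A.K z x.1 - A.K z (q * x.1.1, x.1.2 / q))
            + (A.E fun z => A.K z x.2.1 - A.K z (q * x.2.1.1, x.2.1.2 / q))) ∧
      (A.E fun z => Gam x.1 (mu x.2.2 x.2.1) (1 - A.K z x.1.swap) (1 - A.K z x.2.1.swap))
        ≤ c * q ^ 2 * max x.1.1 (x.2.2 * x.2.1.2)
          + LC x.1 (mu x.2.2 x.2.1) * (ε
            + (A.E fun z => A.K z (x.1.2 / q, q * x.1.1) - A.K z x.1.swap)
            + (A.E fun z => A.K z (x.2.1.2 / q, q * x.2.1.1) - A.K z x.2.1.swap)) := by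
  classical
  set M := L.sup (fun x => x.2.2) with hM
  have hmM : ∀ x ∈ L, x.2.2 ≤ M := fun x hx => Finset.le_sup (f := fun x => x.2.2) hx
  have hδ : Tendsto (fun n : ℕ => 1 / ((n : ℝ) + 1)) atTop (𝓝 0) :=
    tendsto_one_div_add_atTop_nhds_zero_nat
  have hδ0 : ∀ n : ℕ, (0 : ℝ) ≤ 1 / ((n : ℝ) + 1) := fun n => by positivity
  -- choose ε1
  set ε1 : ℝ := ε / (4 * M + 1) with hε1
  have hε1p : 0 < ε1 := by positivity
  have hev : ∀ᶠ n in atTop, ∀ x ∈ L, ms x.1 q n ≠ 0 ∧ ms x.2.1 q n ≠ 0 ∧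
      (∀ p : Pack n (1 / ((n : ℝ) + 1)), |∑ a : Gd n, ∑ b : Gd n,
        nu x.1 q n a * nu x.2.1 q n b * F1 p.C p.φ (hh n) a.1 b.1 a.2 b.2| ≤ ε1) ∧
      (∀ p : Pack n (1 / ((n : ℝ) + 1)), |∑ a : Gd n, ∑ b : Gd n,
        nu x.2.1 q n a * nu x.1 q n b * F1 p.C p.φ (hh n) a.1 b.1 a.2 b.2| ≤ ε1) ∧
      (∀ p : Pack n (1 / ((n : ℝ) + 1)), |∑ a : Gd n, ∑ b : Gd n,
        nu x.2.1 q n a * nu x.2.1 q n b * F1 p.C p.φ (hh n) a.1 b.1 a.2 b.2| ≤ ε1) ∧
      (∀ p : Pack n (1 / ((n : ℝ) + 1)), |∑ a : Gd n, ∑ b : Gd n,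
        nu x.1 q n a * nu x.1 q n b * F1 p.C p.φ (hh n) a.1 b.1 a.2 b.2| ≤ ε1) := by
    rw [Filter.eventually_all_finset]
    intro x hx
    obtain ⟨s1, s2, t1, t2, -⟩ := hL x hx
    obtain ⟨l1, hl1, e1⟩ := ms_pos s1 s2 hq
    obtain ⟨l2, hl2, e2⟩ := ms_pos t1 t2 hq
    filter_upwards [e1, e2, unif2 s1 s2 t1 t2 hq hδ hδ0 hε1p, unif2 t1 t2 s1 s2 hq hδ hδ0 hε1p,
      unif2 t1 t2 t1 t2 hq hδ hδ0 hε1p, unif2 s1 s2 s1 s2 hq hδ hδ0 hε1p]
      with n a1 a2 a3 a4 a5 a6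
    exact ⟨(lt_of_lt_of_le hl1 a1).ne', (lt_of_lt_of_le hl2 a2).ne', a3, a4, a5, a6⟩
  obtain ⟨n, hn⟩ := hev.exists
  set β : ℝ≥0 := hh n / 2 with hβ
  have hhp : 0 < hh n := by have := hh_pos n; exact_mod_cast this
  have hβ0 : 0 < β := half_pos hhp
  have hβn : β < hh n := half_lt_self hhp
  set W : ℝ := (NN n + 5 : ℕ) * hh n with hW
  have hW0 : 0 ≤ W := by positivity
  -- choose N
  have hβr : (0 : ℝ) < β := by exact_mod_cast hβ0
  have hN1 : ∀ᶠ N : ℕ in atTop, 2 * c * (Fintype.card (Fin (M + 1)) * W) / (β * N)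
      ≤ 1 / ((n : ℝ) + 1) := by
    have ht : Tendsto (fun N : ℕ => 2 * c * (Fintype.card (Fin (M + 1)) * W) / (β * N)) atTop
        (𝓝 0) :=
      Tendsto.const_div_atTop ((tendsto_natCast_atTop_atTop (R := ℝ)).const_mul_atTop hβr) _
    exact (ht.eventually_lt_const (show (0 : ℝ) < 1 / ((n : ℝ) + 1) by positivity)).mono
      fun _ h => h.le
  have hN2 : ∀ᶠ N : ℕ in atTop, (Fintype.card (Fin (M + 1)) : ℝ) ^ 2 / N ≤ ε1 := by
    have ht : Tendsto (fun N : ℕ => (Fintype.card (Fin (M + 1)) : ℝ) ^ 2 / N) atTop (𝓝 0) :=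
      Tendsto.const_div_atTop (tendsto_natCast_atTop_atTop (R := ℝ)) _
    exact (ht.eventually_lt_const hε1p).mono fun _ h => h.le
  obtain ⟨N, hN1', hN2', hNp⟩ := (hN1.and (hN2.and (eventually_gt_atTop 0))).exists
  obtain ⟨S⟩ := exists_fam (ι := Fin (M + 1)) (h N) β (Dg n)
  have key : ∀ (S : Fam (Fin (M + 1)) N c β (Dg n)), ∀ x ∈ L,
      (Er S fun z => Gam x.1 (mu x.2.2 x.2.1) (Kr S z x.1) (Kr S z x.2.1))
        ≤ c * q ^ 2 * max x.1.1 (x.2.2 * x.2.1.2)
          + LC x.1 (mu x.2.2 x.2.1) * (ε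
            + (Er S fun z => Kr S z x.1 - Kr S z (q * x.1.1, x.1.2 / q))
            + (Er S fun z => Kr S z x.2.1 - Kr S z (q * x.2.1.1, x.2.1.2 / q))) := by
    intro S x hx
    obtain ⟨hm1, hm2, u1, u2, u3, u4⟩ := hn x hx
    obtain ⟨s1, s2, t1, t2, h1m⟩ := hL x hx
    let i0 : Fin (M + 1) := 0
    let Sm : Finset (Fin (M + 1)) := (univ : Finset (Fin x.2.2)).image
      (fun k => (⟨k.1 + 1, by have := hmM x hx; omega⟩ : Fin (M + 1)))
    have hcard : Sm.card = x.2.2 := by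
      rw [Finset.card_image_of_injective, Finset.card_univ, Fintype.card_fin]
      intro a b hab
      have := congrArg Fin.val hab
      simp only at this
      exact Fin.ext (by omega)
    have hi0 : i0 ∉ Sm := by
      intro hmem
      obtain ⟨k, -, hk⟩ := Finset.mem_image.1 hmem
      have := congrArg Fin.val hk
      simp [i0] at this
    have hne : Sm.Nonempty := by
      rw [← Finset.card_pos, hcard]; omega
    have hk := kernel_ineq S hNp hc hβ0 hW0 (Dg_bd n) (Dg_grid n) hβn hN1' hi0 hne hq hm1 hm2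
      u1 u2 u3 u4
    rw [hcard] at hk
    refine hk.trans ?_
    have hLC := LC_nonneg x.1 (mu x.2.2 x.2.1)
    have h5 : 4 * ((x.2.2 : ℝ) * ε1) + (Fintype.card (Fin (M + 1)) : ℝ) ^ 2 / N ≤ ε := by
      have h6 : (x.2.2 : ℝ) ≤ M := by exact_mod_cast hmM x hx
      have h7 : (4 * (M : ℝ) + 1) * ε1 = ε := by
        rw [hε1]; field_simp
      nlinarith
    refine add_le_add le_rfl (mul_le_mul_of_nonneg_left ?_ hLC)
    linarith
  refine ⟨S.toMixt hNp, fun x hx => ⟨key S x hx, ?_⟩⟩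
  have hk := key (S.swap (Dg_swap n)) x hx
  have e1 := Er_swap S (Dg_swap n) (fun z => Gam x.1 (mu x.2.2 x.2.1) (1 - Kr S z x.1.swap)
    (1 - Kr S z x.2.1.swap))
  have e2 := Er_swap S (Dg_swap n) (fun z => Kr S z (x.1.2 / q, q * x.1.1) - Kr S z x.1.swap)
  have e3 := Er_swap S (Dg_swap n) (fun z => Kr S z (x.2.1.2 / q, q * x.2.1.1)
    - Kr S z x.2.1.swap)
  change Er S (fun z => Gam x.1 (mu x.2.2 x.2.1) (1 - Kr S z x.1.swap)
    (1 - Kr S z x.2.1.swap)) ≤ c * q ^ 2 * max x.1.1 (x.2.2 * x.2.1.2)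
          + LC x.1 (mu x.2.2 x.2.1) * (ε
            + (Er S fun z => Kr S z (x.1.2 / q, q * x.1.1) - Kr S z x.1.swap)
            + (Er S fun z => Kr S z (x.2.1.2 / q, q * x.2.1.1) - Kr S z x.2.1.swap))
  rw [← e1, ← e2, ← e3]
  have c1 : ∀ z : (S.swap (Dg_swap n)).R × (Fin N → Bool), ∀ s : T,
      Kr (S.swap (Dg_swap n)) z s = 1 - Kr S (z.1, fun k => !(z.2 k)) s.swap := by
    intro z s
    exact Kr_swap S hNp (Dg_swap n) z.1 z.2 s
  simp only [c1] at hk
  refine hk.trans (le_of_eq ?_)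
  congr 2
  congr 1
  · congr 1
    unfold Er
    refine Finset.sum_congr rfl fun z _ => ?_
    simp only [Prod.swap]
    ring
  · unfold Er
    refine Finset.sum_congr rfl fun z _ => ?_
    simp only [Prod.swap]
    ring

end

end Pool.Agent.Lib.MP_2c6a66_lc.UX

/-! Kernels on a multiplicative grid. -/

namespace Pool.Agent.Lib.MP_2c6a66_lc.UX

open scoped NNReal Topology
open Finset Filter Pool.Agent.Lib.MP_2c6a66_lc.LB
open UT (HasUT)

noncomputable section

theorem gam_lip {x y P Q Q' : ℝ} (hy : 0 ≤ y) (hP : 0 ≤ P) (hP1 : P ≤ 1) :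
    gam x y P Q ≤ gam x y P Q' + (1 + y) * |Q - Q'| := by
  have e : gam x y P Q - gam x y P Q' = (Q - Q') * (P * y - (1 - P)) := by unfold gam; ring
  have h1 : |P * y - (1 - P)| ≤ 1 + y := by
    rw [abs_le]
    constructor
    · nlinarith [mul_nonneg hP hy]
    · nlinarith [mul_le_mul_of_nonneg_right hP1 hy]
  have h2 : (Q - Q') * (P * y - (1 - P)) ≤ (1 + y) * |Q - Q'| := by
    refine (le_abs_self _).trans ?_
    rw [abs_mul, mul_comm]
    exact mul_le_mul_of_nonneg_right h1 (abs_nonneg _)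
  linarith

theorem gam_scale {x y x' y' P Q r : ℝ} (hr : 1 ≤ r) (hx : x ≤ r * x') (hy : y ≤ r * y')
    (hP : 0 ≤ P) (hP1 : P ≤ 1) (hQ : 0 ≤ Q) (hQ1 : Q ≤ 1) :
    gam x y P Q ≤ r * gam x' y' P Q := by
  unfold gam
  have h1 : P ≤ r * P := by nlinarith
  have h2 : P * Q * y ≤ r * (P * Q * y') := by
    have := mul_le_mul_of_nonneg_left hy (mul_nonneg hP hQ)
    linarith
  have h3 : (1 - P) * x ≤ r * ((1 - P) * x') := by
    have := mul_le_mul_of_nonneg_left hx (sub_nonneg.2 hP1)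
    linarith
  have h4 : (1 - P) * (1 - Q) ≤ r * ((1 - P) * (1 - Q)) := by
    have := mul_nonneg (sub_nonneg.2 hP1) (sub_nonneg.2 hQ1)
    nlinarith
  linarith

/-- nodes -/
def nd (q : ℝ≥0) (G j : ℕ) (h : ℤ) : T := (q ^ ((G : ℤ) * j - h), q ^ ((G : ℤ) * j + h))

/-- the kernel on the nodes -/
def kp (A : Mixt) (q : ℝ≥0) (G : ℕ) (z : A.Z) (j : ℕ) (h : ℤ) : ℝ := A.K z (nd q G j h)

theorem kp_mono (A : Mixt) {q : ℝ≥0} (hq : 1 < q) (G : ℕ) (z : A.Z) (j : ℕ) :
    Monotone (kp A q G z j) := by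
  intro h h' hh'
  refine A.mono z _ _ ?_ ?_
  · exact zpow_le_zpow_right₀ hq.le (by omega)
  · exact zpow_le_zpow_right₀ hq.le (by omega)

theorem nd_swap (q : ℝ≥0) (G j : ℕ) (h : ℤ) : (nd q G j h).swap = nd q G j (-h) := by
  unfold nd
  simp only [Prod.swap, sub_neg_eq_add, ← sub_eq_add_neg]

theorem nd_dn {q : ℝ≥0} (hq : 1 < q) (G j : ℕ) (h : ℤ) :
    (q * (nd q G j h).1, (nd q G j h).2 / q) = nd q G j (h - 1) := by
  have hq0 : q ≠ 0 := (zero_lt_one.trans hq).ne'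
  unfold nd
  simp only
  ext1
  · simp only
    rw [show (G : ℤ) * j - (h - 1) = ((G : ℤ) * j - h) + 1 by ring, zpow_add_one₀ hq0, mul_comm]
  · simp only
    rw [show (G : ℤ) * j + (h - 1) = ((G : ℤ) * j + h) - 1 by ring, zpow_sub_one₀ hq0,
      div_eq_mul_inv]

theorem nd_up {q : ℝ≥0} (hq : 1 < q) (G j : ℕ) (h : ℤ) :
    ((nd q G j h).2 / q, q * (nd q G j h).1) = nd q G j (-h + 1) := by
  have h1 := nd_dn hq G j h
  have h2 := nd_swap q G j (h - 1)
  rw [← h1] at h2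
  simp only [Prod.swap] at h2
  rw [h2]
  congr 1
  ring

theorem dn_nonneg (A : Mixt) {q : ℝ≥0} (hq : 1 < q) (G : ℕ) (j : ℕ) (h h' : ℤ) (hh : h' ≤ h) :
    0 ≤ A.E fun z => kp A q G z j h - kp A q G z j h' :=
  Finset.sum_nonneg fun z _ => mul_nonneg (A.w0 z) (sub_nonneg.2 (kp_mono A hq G z j hh))

theorem Mixt.E_mono (A : Mixt) {F F' : A.Z → ℝ} (h : ∀ z, F z ≤ F' z) : A.E F ≤ A.E F' :=
  Finset.sum_le_sum fun z _ => mul_le_mul_of_nonneg_left (h z) (A.w0 z)

theorem Mixt.E_mul (A : Mixt) (a : ℝ) (F : A.Z → ℝ) : (A.E fun z => a * F z) = a * A.E F := by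
  unfold Mixt.E
  rw [Finset.mul_sum]
  exact Finset.sum_congr rfl fun z _ => by ring

/-- scaling down the inequality -/
theorem scale_ineq (A : Mixt) (P Q : A.Z → ℝ) (hP : ∀ z, 0 ≤ P z) (hP1 : ∀ z, P z ≤ 1)
    (hQ : ∀ z, 0 ≤ Q z) (hQ1 : ∀ z, Q z ≤ 1) {s t : T} {m : ℕ} {x y η c q V : ℝ}
    (hs : 0 < (s.1 : ℝ)) (hx : (s.2 : ℝ) = s.1 * x) (hy : (t.1 : ℝ) = t.2 * y)
    (hx0 : 0 ≤ x) (hy0 : 0 ≤ y)
    (hη0 : 0 < η) (hη1 : η < 1) (hm1 : (m : ℝ) * t.2 ≤ s.1) (hm2 : (1 - η) * s.1 ≤ m * t.2)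
    (hV : 0 ≤ V)
    (h : (A.E fun z => Gam s (mu m t) (P z) (Q z)) ≤ c * q ^ 2 * max s.1 (m * t.2)
      + LC s (mu m t) * V) :
    (1 - η) * (A.E fun z => gam x y (P z) (Q z)) ≤ c * q ^ 2 + (2 + x + y) * V := by
  have h1 : s.1 * ((1 - η) * (A.E fun z => gam x y (P z) (Q z)))
      ≤ A.E fun z => Gam s (mu m t) (P z) (Q z) := by
    rw [← Mixt.E_mul, ← Mixt.E_mul]
    refine A.E_mono fun z => ?_
    unfold Gam mu gam
    push_cast
    rw [hx, hy]
    have a1 := mul_nonneg (mul_nonneg (hP z) (hQ z)) hy0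
    have a2 := mul_nonneg (sub_nonneg.2 (hP1 z)) hx0
    have a3 := mul_nonneg (sub_nonneg.2 (hP1 z)) (sub_nonneg.2 (hQ1 z))
    have b1 : s.1 * (1 - η) * (P z * Q z * y) ≤ (m * t.2) * (P z * Q z * y) :=
      mul_le_mul_of_nonneg_right (by linarith) a1
    have b2 : s.1 * (1 - η) * ((1 - P z) * (1 - Q z)) ≤ (m * t.2) * ((1 - P z) * (1 - Q z)) :=
      mul_le_mul_of_nonneg_right (by linarith) a3
    have b3 : s.1 * (1 - η) * ((1 - P z) * x) ≤ s.1 * ((1 - P z) * x) := by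
      refine mul_le_mul_of_nonneg_right ?_ a2
      nlinarith
    have b4 : s.1 * (1 - η) * P z ≤ s.1 * P z := by
      refine mul_le_mul_of_nonneg_right ?_ (hP z)
      nlinarith
    nlinarith
  have h2 : LC s (mu m t) ≤ s.1 * (2 + x + y) := by
    unfold LC mu
    push_cast
    rw [hx, hy]
    have : (m : ℝ) * t.2 * y ≤ s.1 * y := mul_le_mul_of_nonneg_right hm1 hy0
    nlinarith
  have h3 : ((max s.1 (m * t.2) : ℝ≥0) : ℝ) = s.1 := by
    rw [NNReal.coe_max]
    push_cast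
    exact max_eq_left hm1
  rw [h3] at h
  have h4 := mul_le_mul_of_nonneg_right h2 hV
  have h5 : s.1 * ((1 - η) * (A.E fun z => gam x y (P z) (Q z)))
      ≤ s.1 * (c * q ^ 2 + (2 + x + y) * V) := by
    calc _ ≤ _ := h1
      _ ≤ _ := h
      _ ≤ c * q ^ 2 * s.1 + s.1 * (2 + x + y) * V := by linarith
      _ = _ := by ring
  exact le_of_mul_le_mul_left h5 hs

theorem stage2a {c : ℝ} (hc : 0 ≤ c) (h : ∀ n, HasUT n c) {q : ℝ≥0} (hq : 1 < q)
    (G A J : ℕ) {η : ℝ} (hη0 : 0 < η) (hη1 : η < 1)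
    (hG : 1 / η ≤ (q : ℝ) ^ ((G : ℤ) - 2 * A)) {ε : ℝ} (hε : 0 < ε) :
    ∃ M : Mixt, ∀ j j' : ℕ, j' < j → j < J → ∀ h h' : ℤ, |h| ≤ A → |h'| ≤ A →
      ((1 - η) * (M.E fun z => gam ((q : ℝ) ^ (2 * h)) ((q : ℝ) ^ (-(2 * h')))
        (kp M q G z j h) (kp M q G z j' h'))
        ≤ c * q ^ 2 + (2 + (q : ℝ) ^ (2 * h) + (q : ℝ) ^ (-(2 * h'))) * (ε
          + (M.E fun z => kp M q G z j h - kp M q G z j (h - 1))
          + (M.E fun z => kp M q G z j' h' - kp M q G z j' (h' - 1)))) ∧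
      ((1 - η) * (M.E fun z => gam ((q : ℝ) ^ (2 * h)) ((q : ℝ) ^ (-(2 * h')))
        (1 - kp M q G z j (-h)) (1 - kp M q G z j' (-h')))
        ≤ c * q ^ 2 + (2 + (q : ℝ) ^ (2 * h) + (q : ℝ) ^ (-(2 * h'))) * (ε
          + (M.E fun z => kp M q G z j (-h + 1) - kp M q G z j (-h))
          + (M.E fun z => kp M q G z j' (-h' + 1) - kp M q G z j' (-h')))) := by
  classical
  have hq0 : q ≠ 0 := (zero_lt_one.trans hq).ne'
  have hqr : (1 : ℝ) < q := by exact_mod_cast hq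
  have hqr0 : (q : ℝ) ≠ 0 := by linarith
  set fl : ℕ → ℕ → ℤ → ℤ → ℕ := fun j j' h h' =>
    ⌊((nd q G j h).1 / (nd q G j' h').2 : ℝ≥0)⌋₊ with hfl
  -- ratio bound
  have hratio : ∀ j j' : ℕ, j' < j → ∀ h h' : ℤ, |h| ≤ A → |h'| ≤ A →
      1 / η ≤ (((nd q G j h).1 / (nd q G j' h').2 : ℝ≥0) : ℝ) := by
    intro j j' hj h h' hh hh'
    refine hG.trans ?_
    unfold nd
    simp only
    rw [← zpow_sub₀ hq0]
    push_cast
    refine zpow_le_zpow_right₀ hqr.le ?_
    have h1 := (abs_le.1 hh).2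
    have h2 := (abs_le.1 hh').2
    have h3 : (G : ℤ) * (j' : ℤ) + G ≤ (G : ℤ) * j := by
      have : (j' : ℤ) + 1 ≤ j := by exact_mod_cast hj
      nlinarith [Int.natCast_nonneg G]
    linarith
  set L : Finset (T × T × ℕ) := (((range J ×ˢ range J).filter fun p => p.2 < p.1)
    ×ˢ (Icc (-(A : ℤ)) A ×ˢ Icc (-(A : ℤ)) A)).image
      (fun p => (nd q G p.1.1 p.2.1, nd q G p.1.2 p.2.2, fl p.1.1 p.1.2 p.2.1 p.2.2)) with hL
  have hpos : ∀ j h, 0 < (nd q G j h).1 ∧ 0 < (nd q G j h).2 := fun j h =>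
    ⟨zpow_pos (zero_lt_one.trans hq) _, zpow_pos (zero_lt_one.trans hq) _⟩
  have hL' : ∀ x ∈ L, 0 < x.1.1 ∧ 0 < x.1.2 ∧ 0 < x.2.1.1 ∧ 0 < x.2.1.2 ∧ 1 ≤ x.2.2 := by
    intro x hx
    obtain ⟨p, hp, rfl⟩ := Finset.mem_image.1 hx
    simp only [Finset.mem_product, Finset.mem_filter, Finset.mem_Icc, Finset.mem_range] at hp
    refine ⟨(hpos _ _).1, (hpos _ _).2, (hpos _ _).1, (hpos _ _).2, ?_⟩
    simp only [hfl]
    have h1 := hratio p.1.1 p.1.2 hp.1.2 p.2.1 p.2.2 (abs_le.2 hp.2.1) (abs_le.2 hp.2.2)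
    have h2 : (1 : ℝ) ≤ 1 / η := by rw [le_div_iff₀ hη0]; linarith
    refine Nat.le_floor ?_
    have := h2.trans h1
    rw [Nat.cast_one]
    exact_mod_cast this
  obtain ⟨M, hM⟩ := stage1 hc h L hL' hq hε
  refine ⟨M, fun j j' hj hJ h h' hh hh' => ?_⟩
  have hmem : (nd q G j h, nd q G j' h', fl j j' h h') ∈ L := by
    refine Finset.mem_image.2 ⟨((j, j'), (h, h')), ?_, rfl⟩
    simp only [Finset.mem_product, Finset.mem_filter, Finset.mem_Icc, Finset.mem_range]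
    exact ⟨⟨⟨hJ, hj.trans hJ⟩, hj⟩, abs_le.1 hh, abs_le.1 hh'⟩
  obtain ⟨e1, e2⟩ := hM _ hmem
  simp only at e1 e2
  have hs1 : (0 : ℝ) < (nd q G j h).1 := by exact_mod_cast (hpos j h).1
  have ht2 : (0 : ℝ) < (nd q G j' h').2 := by exact_mod_cast (hpos j' h').2
  have hx : ((nd q G j h).2 : ℝ) = (nd q G j h).1 * (q : ℝ) ^ (2 * h) := by
    unfold nd
    push_cast
    rw [← zpow_add₀ hqr0]
    congr 1
    ring
  have hy : ((nd q G j' h').1 : ℝ) = (nd q G j' h').2 * (q : ℝ) ^ (-(2 * h')) := by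
    unfold nd
    push_cast
    rw [← zpow_add₀ hqr0]
    congr 1
    ring
  have hr := hratio j j' hj h h' hh hh'
  have hfl1 : ((fl j j' h h' : ℕ) : ℝ) ≤ (((nd q G j h).1 / (nd q G j' h').2 : ℝ≥0) : ℝ) := by
    have := Nat.floor_le (zero_le (a := (nd q G j h).1 / (nd q G j' h').2))
    exact_mod_cast this
  have hfl2 : (((nd q G j h).1 / (nd q G j' h').2 : ℝ≥0) : ℝ) < (fl j j' h h' : ℕ) + 1 := by
    have := Nat.lt_floor_add_one ((nd q G j h).1 / (nd q G j' h').2)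
    exact_mod_cast this
  rw [NNReal.coe_div] at hr hfl1 hfl2
  have hm1 : ((fl j j' h h' : ℕ) : ℝ) * (nd q G j' h').2 ≤ (nd q G j h).1 := by
    rwa [le_div_iff₀ ht2] at hfl1
  have hm2 : (1 - η) * (nd q G j h).1 ≤ ((fl j j' h h' : ℕ) : ℝ) * (nd q G j' h').2 := by
    have a1 : ((nd q G j h).1 : ℝ) < ((fl j j' h h' : ℕ) + 1) * (nd q G j' h').2 := by
      rwa [div_lt_iff₀ ht2] at hfl2
    have a2 : ((nd q G j' h').2 : ℝ) ≤ η * (nd q G j h).1 := by
      rw [div_le_div_iff₀ hη0 ht2] at hr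
      linarith
    linarith
  have hK0 : ∀ z s, 0 ≤ M.K z s := M.K0
  have hK1 : ∀ z s, M.K z s ≤ 1 := M.K1
  have hx0 : (0 : ℝ) ≤ (q : ℝ) ^ (2 * h) := zpow_nonneg (by linarith) _
  have hy0 : (0 : ℝ) ≤ (q : ℝ) ^ (-(2 * h')) := zpow_nonneg (by linarith) _
  constructor
  · have n1 := dn_nonneg M hq G j h (h - 1) (by omega)
    have n2 := dn_nonneg M hq G j' h' (h' - 1) (by omega)
    refine scale_ineq M _ _ (fun z => hK0 _ _) (fun z => hK1 _ _) (fun z => hK0 _ _)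
      (fun z => hK1 _ _) hs1 hx hy hx0 hy0 hη0 hη1 hm1 hm2 (by linarith) ?_
    rw [nd_dn hq, nd_dn hq] at e1
    exact e1
  · have n1 := dn_nonneg M hq G j (-h + 1) (-h) (by omega)
    have n2 := dn_nonneg M hq G j' (-h' + 1) (-h') (by omega)
    refine scale_ineq M _ _ (fun z => sub_nonneg.2 (hK1 _ _))
      (fun z => by linarith [hK0 z (nd q G j (-h))]) (fun z => sub_nonneg.2 (hK1 _ _))
      (fun z => by linarith [hK0 z (nd q G j' (-h'))])
      hs1 hx hy hx0 hy0 hη0 hη1 hm1 hm2 (by linarith) ?_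
    rw [nd_up hq, nd_up hq, nd_swap, nd_swap] at e2
    exact e2

end

end Pool.Agent.Lib.MP_2c6a66_lc.UX

/-! Averaging over scales: scale free mixtures on a grid. -/

namespace Pool.Agent.Lib.MP_2c6a66_lc.UX

open scoped NNReal Topology
open Finset Filter Pool.Agent.Lib.MP_2c6a66_lc.LB
open UT (HasUT)

noncomputable section

theorem gam_avg (x y : ℝ) (P Q : ℕ → ℝ) (i b b' : ℕ) :
    gam x y (Mb P i b) (Mb Q i b')
      = (1 / 2 ^ i) * ∑ l ∈ range (2 ^ i), (1 / 2 ^ i) * ∑ l' ∈ range (2 ^ i),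
        gam x y (P (b * 2 ^ i + l)) (Q (b' * 2 ^ i + l')) := by
  have k0 : ∀ P Q : ℝ, gam x y P Q = (1 + x) + (-x) * P + (-1) * Q + (1 + y) * P * Q := by
    intro P Q; unfold gam; ring
  have hp : (0 : ℝ) < 2 ^ i := by positivity
  have inner : ∀ l, (1 / (2 : ℝ) ^ i) * ∑ l' ∈ range (2 ^ i),
        gam x y (P (b * 2 ^ i + l)) (Q (b' * 2 ^ i + l'))
        = (1 + x) + (-x) * P (b * 2 ^ i + l) + (-1) * Mb Q i b'
          + (1 + y) * P (b * 2 ^ i + l) * Mb Q i b' := by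
    intro l
    simp only [k0]
    unfold Mb
    rw [Finset.sum_add_distrib, Finset.sum_add_distrib, Finset.sum_const, Finset.card_range,
      nsmul_eq_mul, ← Finset.mul_sum, ← Finset.mul_sum]
    push_cast
    field_simp
  simp only [inner]
  rw [k0]
  have e : ∀ l, (1 + x) + (-x) * P (b * 2 ^ i + l) + (-1) * Mb Q i b'
          + (1 + y) * P (b * 2 ^ i + l) * Mb Q i b'
      = ((1 + x) + (-1) * Mb Q i b') + ((-x) + (1 + y) * Mb Q i b') * P (b * 2 ^ i + l) :=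
    fun l => by ring
  simp only [e]
  rw [Finset.sum_add_distrib, Finset.sum_const, Finset.card_range, nsmul_eq_mul,
    ← Finset.mul_sum]
  push_cast
  rw [show Mb P i b = (1 / 2 ^ i) * ∑ l ∈ range (2 ^ i), P (b * 2 ^ i + l) from rfl]
  field_simp
  ring

theorem Ew_avg {Z B : Type} [Fintype Z] (w : Z → ℝ) (s : Finset B) (a : ℝ) (F : Z → B → ℝ) :
    ∑ z, w z * (a * ∑ b ∈ s, F z b) = a * ∑ b ∈ s, ∑ z, w z * F z b := by
  simp only [Finset.mul_sum]
  rw [Finset.sum_comm]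
  exact Finset.sum_congr rfl fun b _ => Finset.sum_congr rfl fun z _ => by ring

theorem avg_le {B : Type} (s : Finset B) {a : ℝ} (ha : 0 ≤ a) (hs : a * s.card = 1)
    {F : B → ℝ} {x : ℝ} (h : ∀ b ∈ s, F b ≤ x) : a * ∑ b ∈ s, F b ≤ x := by
  have h1 := mul_le_mul_of_nonneg_left (Finset.sum_le_sum h) ha
  rw [Finset.sum_const, nsmul_eq_mul, ← mul_assoc, hs, one_mul] at h1
  exact h1

/-- The averaging lemma: from inequalities at all pairs of scales to an inequality for the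
averages, up to the total variation in the height and the difference of neighbouring blocks. -/
theorem avg_pair {Z : Type} [Fintype Z] (w : Z → ℝ) (hw : ∀ z, 0 ≤ w z)
    (κ : Z → ℕ → ℤ → ℝ) (k0 : ∀ z j h, 0 ≤ κ z j h) (k1 : ∀ z j h, κ z j h ≤ 1)
    {I L : ℕ} (hL : 0 < L) {i : ℕ} (hi : i < I) {ρ η ε c1 C d : ℝ}
    (P Q : Fin L → ℤ) (x y : ℝ) (x' y' : Fin L → ℝ)
    (hρ : 1 ≤ ρ) (hη : η < 1)
    (hx : ∀ a, x ≤ ρ * x' a) (hy : ∀ a, y ≤ ρ * y' a) (hy0 : 0 ≤ y)
    (V V' : ℕ → Fin L → ℝ) (hV : ∀ j, ∑ a, V j a ≤ 1) (hV' : ∀ j, ∑ a, V' j a ≤ 1) (hC : 0 ≤ C)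
    (H : ∀ a j j', j' < j → j < 2 ^ I → (1 - η) * (∑ z, w z * gam (x' a) (y' a)
      (κ z j (P a)) (κ z j' (Q a))) ≤ c1 + C * (ε + V j a + V' j' a))
    (hd : ∀ a, ∑ z, w z * ((1 / (2 ^ (I - 1 - i) : ℕ)) * ∑ b ∈ range (2 ^ (I - 1 - i)),
      |Mb (fun j => κ z j (Q a)) i (2 * b + 1) - Mb (fun j => κ z j (Q a)) i (2 * b)|) ≤ d) :
    ∑ z, w z * ((1 / (2 ^ (I - 1 - i) : ℕ)) * ∑ b ∈ range (2 ^ (I - 1 - i)),
      ((1 / L) * ∑ a, gam x y (Mb (fun j => κ z j (P a)) i (2 * b + 1))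
        (Mb (fun j => κ z j (Q a)) i (2 * b + 1))))
      ≤ ρ / (1 - η) * (c1 + C * (ε + 2 / L)) + (1 + y) * d := by
  have hL' : (0 : ℝ) < L := by exact_mod_cast hL
  have hnI : 2 * 2 ^ (I - 1 - i) * 2 ^ i = 2 ^ I := by
    rw [← pow_succ', ← pow_add]
    congr 1
    omega
  set n := 2 ^ (I - 1 - i) with hn
  have hn0 : 0 < n := by positivity
  have hn' : (0 : ℝ) < (n : ℕ) := by exact_mod_cast hn0
  have h1η : 0 < 1 - η := by linarith
  have hρη : 0 ≤ ρ / (1 - η) := div_nonneg (by linarith) h1η.le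
  set B := ρ / (1 - η) * (c1 + C * (ε + 2 / L)) with hB
  -- for each pair of scales
  have s1 : ∀ j j', j' < j → j < 2 ^ I → ∑ z, w z * ((1 / L) * ∑ a, gam x y
      (κ z j (P a)) (κ z j' (Q a))) ≤ B := by
    intro j j' hj hJ
    have t1 : ∀ a, ∑ z, w z * gam x y (κ z j (P a)) (κ z j' (Q a))
        ≤ ρ / (1 - η) * (c1 + C * (ε + V j a + V' j' a)) := by
      intro a
      have u1 : ∑ z, w z * gam x y (κ z j (P a)) (κ z j' (Q a))
          ≤ ∑ z, w z * (ρ * gam (x' a) (y' a) (κ z j (P a)) (κ z j' (Q a))) :=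
        Finset.sum_le_sum fun z _ => mul_le_mul_of_nonneg_left
          (gam_scale hρ (hx a) (hy a) (k0 _ _ _) (k1 _ _ _) (k0 _ _ _) (k1 _ _ _)) (hw z)
      have u2 : ∑ z, w z * (ρ * gam (x' a) (y' a) (κ z j (P a)) (κ z j' (Q a)))
          = ρ * ∑ z, w z * gam (x' a) (y' a) (κ z j (P a)) (κ z j' (Q a)) := by
        rw [Finset.mul_sum]
        exact Finset.sum_congr rfl fun z _ => by ring
      rw [u2] at u1
      refine u1.trans ?_
      have u3 := H a j j' hj hJ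
      have u4 : ∑ z, w z * gam (x' a) (y' a) (κ z j (P a)) (κ z j' (Q a))
          ≤ (c1 + C * (ε + V j a + V' j' a)) / (1 - η) := by
        rw [le_div_iff₀ h1η]
        linarith
      calc ρ * (∑ z, w z * gam (x' a) (y' a) (κ z j (P a)) (κ z j' (Q a)))
          ≤ ρ * ((c1 + C * (ε + V j a + V' j' a)) / (1 - η)) :=
            mul_le_mul_of_nonneg_left u4 (by linarith)
        _ = _ := by ring
    rw [Ew_avg]
    have t3 : (1 / (L : ℝ)) * ∑ a : Fin L, ∑ z, w z * gam x y (κ z j (P a)) (κ z j' (Q a))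
        ≤ (1 / (L : ℝ)) * ∑ a : Fin L, ρ / (1 - η) * (c1 + C * (ε + V j a + V' j' a)) :=
      mul_le_mul_of_nonneg_left (Finset.sum_le_sum fun a _ => t1 a) (by positivity)
    refine t3.trans ?_
    have t4 : (1 / (L : ℝ)) * ∑ a : Fin L, ρ / (1 - η) * (c1 + C * (ε + V j a + V' j' a))
        = ρ / (1 - η) * (c1 + C * (ε + (∑ a, V j a + ∑ a, V' j' a) / L)) := by
      rw [← Finset.mul_sum, Finset.sum_add_distrib, ← Finset.mul_sum, Finset.sum_add_distrib,
        Finset.sum_add_distrib, Finset.sum_const, Finset.sum_const, Finset.card_univ,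
        Fintype.card_fin, nsmul_eq_mul, nsmul_eq_mul]
      field_simp
      ring
    rw [t4, hB]
    refine mul_le_mul_of_nonneg_left ?_ hρη
    have t5 : (∑ a, V j a + ∑ a, V' j' a) / L ≤ 2 / L := by
      refine div_le_div_of_nonneg_right ?_ hL'.le
      linarith [hV j, hV' j']
    have := mul_le_mul_of_nonneg_left t5 hC
    linarith
  -- for each pair of blocks
  have hJ2 : (0 : ℝ) < 2 ^ i := by positivity
  have s2 : ∀ b ∈ range n, ∑ z, w z * ((1 / L) * ∑ a, gam x y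
      (Mb (fun j => κ z j (P a)) i (2 * b + 1)) (Mb (fun j => κ z j (Q a)) i (2 * b))) ≤ B := by
    intro b hb
    have hb' := Finset.mem_range.1 hb
    have e1 : ∑ z, w z * ((1 / L) * ∑ a, gam x y
      (Mb (fun j => κ z j (P a)) i (2 * b + 1)) (Mb (fun j => κ z j (Q a)) i (2 * b)))
      = (1 / 2 ^ i) * ∑ l ∈ range (2 ^ i), (1 / 2 ^ i) * ∑ l' ∈ range (2 ^ i),
        ∑ z, w z * ((1 / L) * ∑ a, gam x y (κ z ((2 * b + 1) * 2 ^ i + l) (P a))
          (κ z (2 * b * 2 ^ i + l') (Q a))) := by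
      have e2 : ∀ z, (1 / (L : ℝ)) * ∑ a, gam x y
          (Mb (fun j => κ z j (P a)) i (2 * b + 1)) (Mb (fun j => κ z j (Q a)) i (2 * b))
          = (1 / 2 ^ i) * ∑ l ∈ range (2 ^ i), (1 / 2 ^ i) * ∑ l' ∈ range (2 ^ i),
            ((1 / L) * ∑ a, gam x y (κ z ((2 * b + 1) * 2 ^ i + l) (P a))
          (κ z (2 * b * 2 ^ i + l') (Q a))) := by
        intro z
        simp only [gam_avg]
        simp only [Finset.mul_sum]
        rw [Finset.sum_comm]
        refine Finset.sum_congr rfl fun l _ => ?_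
        rw [Finset.sum_comm]
        refine Finset.sum_congr rfl fun l' _ => Finset.sum_congr rfl fun a _ => ?_
        ring
      simp only [e2]
      rw [Ew_avg]
      congr 1
      refine Finset.sum_congr rfl fun l _ => ?_
      rw [Ew_avg]
    rw [e1]
    have hcard : (1 / (2 : ℝ) ^ i) * ((range (2 ^ i)).card : ℝ) = 1 := by
      rw [Finset.card_range]; push_cast; field_simp
    refine avg_le _ (by positivity) hcard fun l hl => ?_
    refine avg_le _ (by positivity) hcard fun l' hl' => ?_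
    have hl1 := Finset.mem_range.1 hl
    have hl2 := Finset.mem_range.1 hl'
    refine s1 _ _ ?_ ?_
    · calc 2 * b * 2 ^ i + l' < 2 * b * 2 ^ i + 2 ^ i := by omega
        _ = (2 * b + 1) * 2 ^ i := by ring
        _ ≤ _ := Nat.le_add_right _ _
    · calc (2 * b + 1) * 2 ^ i + l < (2 * b + 1) * 2 ^ i + 2 ^ i := by omega
        _ = (b + 1) * (2 * 2 ^ i) := by ring
        _ ≤ n * (2 * 2 ^ i) := Nat.mul_le_mul_right _ hb'
        _ = 2 ^ I := by rw [← hnI]; ring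
  -- replacement of the second block
  have s3 : ∑ z, w z * ((1 / (n : ℕ)) * ∑ b ∈ range n,
      ((1 / L) * ∑ a, gam x y (Mb (fun j => κ z j (P a)) i (2 * b + 1))
        (Mb (fun j => κ z j (Q a)) i (2 * b + 1))))
      ≤ (1 / (n : ℕ)) * ∑ b ∈ range n, (∑ z, w z * ((1 / L) * ∑ a, gam x y
        (Mb (fun j => κ z j (P a)) i (2 * b + 1)) (Mb (fun j => κ z j (Q a)) i (2 * b))))
        + (1 + y) * ((1 / L) * ∑ a, ∑ z, w z * ((1 / (n : ℕ)) * ∑ b ∈ range n,
          |Mb (fun j => κ z j (Q a)) i (2 * b + 1) - Mb (fun j => κ z j (Q a)) i (2 * b)|)) := by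
    rw [← Ew_avg, ← Ew_avg, Finset.mul_sum, ← Finset.sum_add_distrib]
    refine Finset.sum_le_sum fun z _ => ?_
    have e3 : (1 + y) * (w z * ((1 / (L : ℝ)) * ∑ a, ((1 / ((n : ℕ) : ℝ)) * ∑ b ∈ range n,
          |Mb (fun j => κ z j (Q a)) i (2 * b + 1) - Mb (fun j => κ z j (Q a)) i (2 * b)|)))
        = w z * ((1 / ((n : ℕ) : ℝ)) * ∑ b ∈ range n, (1 / (L : ℝ)) * ∑ a : Fin L, (1 + y) *
          |Mb (fun j => κ z j (Q a)) i (2 * b + 1) - Mb (fun j => κ z j (Q a)) i (2 * b)|) := by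
      simp only [Finset.mul_sum]
      rw [Finset.sum_comm]
      refine Finset.sum_congr rfl fun b _ => Finset.sum_congr rfl fun a _ => ?_
      ring
    rw [e3, ← mul_add]
    refine mul_le_mul_of_nonneg_left ?_ (hw z)
    rw [← mul_add, ← Finset.sum_add_distrib]
    refine mul_le_mul_of_nonneg_left (Finset.sum_le_sum fun b _ => ?_) (by positivity)
    rw [← mul_add, ← Finset.sum_add_distrib]
    refine mul_le_mul_of_nonneg_left (Finset.sum_le_sum fun a _ => ?_) (by positivity)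
    exact gam_lip hy0 (Mb_nonneg (fun j => k0 z j _) _ _) (Mb_le (fun j => k1 z j _) _ _)
  refine s3.trans (add_le_add ?_ ?_)
  · refine avg_le _ (by positivity) ?_ s2
    rw [Finset.card_range]; field_simp
  · refine mul_le_mul_of_nonneg_left ?_ (by linarith)
    refine avg_le _ (by positivity) ?_ fun a _ => hd a
    rw [Finset.card_univ, Fintype.card_fin]; field_simp

end

end Pool.Agent.Lib.MP_2c6a66_lc.UX

/-! Scale free mixtures on a grid, from universally truthful mechanisms. -/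

namespace Pool.Agent.Lib.MP_2c6a66_lc.UX

open scoped NNReal Topology
open Finset Filter Pool.Agent.Lib.MP_2c6a66_lc.LB
open UT (HasUT)

noncomputable section

/-- a finite mixture of monotone functions on the integers -/
structure GM where
  Z : Type
  [fin : Fintype Z]
  w : Z → ℝ
  k : Z → ℤ → ℝ
  w0 : ∀ z, 0 ≤ w z
  w1 : ∑ z, w z = 1
  k0 : ∀ z g, 0 ≤ k z g
  k1 : ∀ z g, k z g ≤ 1
  mono : ∀ z, Monotone (k z)

attribute [instance] GM.fin

/-- choice of the small parameter -/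
theorem exists_delta (c X η : ℝ) (hη : 0 < η) : ∃ δ : ℝ, 0 < δ ∧ δ < 1 / 2 ∧ δ < η ∧
    (1 + δ) / (1 - δ) * (c * (1 + δ) + (2 + 4 * X) * (3 * δ)) + (1 + X) * δ ≤ c + η := by
  set F : ℝ → ℝ := fun δ => (1 + δ) / (1 - δ) * (c * (1 + δ) + (2 + 4 * X) * (3 * δ))
    + (1 + X) * δ with hF
  have hc : ContinuousAt F 0 := by
    rw [hF]
    refine ContinuousAt.add (ContinuousAt.mul (ContinuousAt.div (by fun_prop) (by fun_prop)
      (by norm_num)) (by fun_prop)) (by fun_prop)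
  have h0 : F 0 < c + η := by
    simp only [hF]
    norm_num
    exact hη
  have h1 := hc.eventually_lt_const h0
  have h2 : ∀ᶠ δ in 𝓝[>] (0 : ℝ), F δ < c + η := h1.filter_mono nhdsWithin_le_nhds
  have h3 : ∀ᶠ δ in 𝓝[>] (0 : ℝ), δ < min (1 / 2) η :=
    (eventually_lt_nhds (by positivity)).filter_mono nhdsWithin_le_nhds
  have h4 : ∀ᶠ δ in 𝓝[>] (0 : ℝ), 0 < δ := eventually_mem_nhdsWithin
  obtain ⟨δ, a1, a2, a3⟩ := (h2.and (h3.and h4)).exists
  exact ⟨δ, a3, a2.trans_le (min_le_left _ _), a2.trans_le (min_le_right _ _), a1.le⟩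

theorem exists_q (L : ℕ) {δ : ℝ} (hδ : 0 < δ) :
    ∃ q : ℝ≥0, 1 < q ∧ (q : ℝ) ^ (2 * L) < 1 + δ := by
  have hc : ContinuousAt (fun q : ℝ≥0 => (q : ℝ) ^ (2 * L)) 1 := by fun_prop
  have h1 : (fun q : ℝ≥0 => (q : ℝ) ^ (2 * L)) 1 < 1 + δ := by simp; exact hδ
  have h2 : ∀ᶠ q : ℝ≥0 in 𝓝[>] (1 : ℝ≥0), (fun q : ℝ≥0 => (q : ℝ) ^ (2 * L)) q < 1 + δ :=
    (hc.eventually_lt_const h1).filter_mono nhdsWithin_le_nhds
  have h3 : ∀ᶠ q : ℝ≥0 in 𝓝[>] (1 : ℝ≥0), q ∈ Set.Ioi (1 : ℝ≥0) := eventually_mem_nhdsWithin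
  obtain ⟨q, a1, a2⟩ := (h2.and h3).exists
  exact ⟨q, a2, a1⟩

theorem telescope (M : Mixt) {q : ℝ≥0} (G j L : ℕ) (h0 : ℤ) :
    ∑ a : Fin L, (M.E fun z => kp M q G z j (h0 + a + 1) - kp M q G z j (h0 + a)) ≤ 1 := by
  have e : ∀ a : ℕ, (M.E fun z => kp M q G z j (h0 + a + 1) - kp M q G z j (h0 + a))
      = (M.E fun z => kp M q G z j (h0 + (a + 1 : ℕ))) - M.E fun z => kp M q G z j (h0 + a) := by
    intro a
    unfold Mixt.E
    rw [← Finset.sum_sub_distrib]
    refine Finset.sum_congr rfl fun z _ => ?_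
    rw [mul_sub]
    push_cast
    rw [add_assoc]
  have e2 : ∑ a : Fin L, (M.E fun z => kp M q G z j (h0 + a + 1) - kp M q G z j (h0 + a))
      = ∑ a ∈ range L, ((fun a : ℕ => M.E fun z => kp M q G z j (h0 + a)) (a + 1)
        - (fun a : ℕ => M.E fun z => kp M q G z j (h0 + a)) a) := by
    rw [← Fin.sum_univ_eq_sum_range (fun a => (fun a : ℕ => M.E fun z =>
      kp M q G z j (h0 + a)) (a + 1) - (fun a : ℕ => M.E fun z => kp M q G z j (h0 + a)) a)]
    exact Finset.sum_congr rfl fun a _ => e a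
  have e3 := Finset.sum_range_sub (fun a : ℕ => M.E fun z => kp M q G z j (h0 + a)) L
  rw [e2, e3]
  have h1 : (M.E fun z => kp M q G z j (h0 + (L : ℕ))) ≤ 1 := by
    have := M.E_mono (F := fun z => kp M q G z j (h0 + (L : ℕ))) (F' := fun _ => 1)
      fun z => M.K1 _ _
    refine this.trans (le_of_eq ?_)
    unfold Mixt.E
    simp only [mul_one]
    exact M.w1
  have h2 : 0 ≤ M.E fun z => kp M q G z j (h0 + (0 : ℕ)) :=
    Finset.sum_nonneg fun z _ => mul_nonneg (M.w0 z) (M.K0 _ _)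
  linarith

/-- pigeonhole over the scales, for all heights at once -/
theorem exists_scale_heights {Z : Type} [Fintype Z] (w : Z → ℝ) (hw : ∀ z, 0 ≤ w z)
    (hw1 : ∑ z, w z = 1) (κ : Z → ℕ → ℤ → ℝ) (h0 : ∀ z j h, 0 ≤ κ z j h)
    (h1 : ∀ z j h, κ z j h ≤ 1) (A : ℕ) {I : ℕ} (hI : 0 < I) {d : ℝ}
    (hd : 4 * (2 * (A : ℝ) + 1) / I ≤ d) :
    ∃ i < I, ∀ h : ℤ, |h| ≤ A → ∑ z, w z * Dn (fun j => κ z j h) i (2 ^ (I - 1 - i)) ≤ d := by
  obtain ⟨i, hi, hD⟩ := exists_scale (Θ := Z × Fin (2 * A + 1)) (fun θ => w θ.1)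
    (fun θ => hw θ.1) (fun θ j => κ θ.1 j ((θ.2 : ℕ) - (A : ℤ))) (fun θ j => h0 _ _ _)
    (fun θ j => h1 _ _ _) hI
  have htot : ∑ θ : Z × Fin (2 * A + 1), w θ.1 = 2 * (A : ℝ) + 1 := by
    rw [Fintype.sum_prod_type]
    simp only [Finset.sum_const, Finset.card_univ, Fintype.card_fin, nsmul_eq_mul]
    rw [← Finset.mul_sum, hw1, mul_one]
    push_cast
    ring
  rw [htot] at hD
  refine ⟨i, hi, fun h hh => le_trans ?_ (hD.trans hd)⟩
  generalize 2 ^ (I - 1 - i) = n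
  rw [Fintype.sum_prod_type]
  refine Finset.sum_le_sum fun z _ => ?_
  have hh' := abs_le.1 hh
  have hlt : (h + A).toNat < 2 * A + 1 := by omega
  have e : ((((⟨(h + A).toNat, hlt⟩ : Fin (2 * A + 1)) : ℕ) : ℤ)) - (A : ℤ) = h := by
    simp only
    omega
  have h2 : w z * Dn (fun j => κ z j h) i n = (fun a : Fin (2 * A + 1) => w z
      * Dn (fun j => κ z j ((a : ℕ) - (A : ℤ))) i n) ⟨(h + A).toNat, hlt⟩ := by
    simp only
    simp only at e
    rw [e]
  rw [h2]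
  exact Finset.single_le_sum (f := fun a : Fin (2 * A + 1) => w z
      * Dn (fun j => κ z j ((a : ℕ) - (A : ℤ))) i n)
      (fun a _ => mul_nonneg (hw z) (Dn_nonneg _ _ _)) (mem_univ _)

theorem stage4 {c : ℝ} (hc : 0 ≤ c) (h : ∀ n, HasUT n c) {X : ℝ} (hX : 1 ≤ X) {η : ℝ}
    (hη : 0 < η) : ∃ ρ : ℝ, 1 < ρ ∧ ρ < 1 + η ∧ ∀ B : ℕ, ρ ^ B ≤ X → ∃ A : GM,
      ∀ g g' : ℤ, |g| ≤ B → |g'| ≤ B →
        (∑ z, A.w z * gam (ρ ^ g) (ρ ^ (-g')) (A.k z g) (A.k z g') ≤ c + η) ∧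
        (∑ z, A.w z * gam (ρ ^ (-g')) (ρ ^ g) (1 - A.k z g') (1 - A.k z g) ≤ c + η) := by
  classical
  obtain ⟨δ, hδ0, hδ1, hδη, hδF⟩ := exists_delta c X η hη
  obtain ⟨L, hL⟩ := exists_nat_gt (1 / δ)
  have hLr : (0 : ℝ) < L := lt_trans (by positivity) hL
  have hL0 : 0 < L := by exact_mod_cast hLr
  have hLδ : 1 / (L : ℝ) ≤ δ := by
    rw [div_le_iff₀ hLr]
    have := (div_lt_iff₀ hδ0).1 hL
    linarith
  obtain ⟨q, hq, hqL⟩ := exists_q L hδ0
  have hqr : (1 : ℝ) < q := by exact_mod_cast hq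
  have hqr0 : (q : ℝ) ≠ 0 := by linarith
  set ρ : ℝ := (q : ℝ) ^ (2 * L) with hρ
  have hρ1 : 1 < ρ := one_lt_pow₀ hqr (by omega)
  have hρ0 : 0 < ρ := by linarith
  refine ⟨ρ, hρ1, by linarith, fun B hB => ?_⟩
  set A := L * (B + 1) with hA
  -- powers
  have hρz : ∀ g : ℤ, ρ ^ g = (q : ℝ) ^ (2 * ((L : ℤ) * g)) := by
    intro g
    rw [hρ, ← zpow_natCast, ← zpow_mul]
    congr 1
    push_cast
    ring
  have hqA : ∀ h : ℤ, |h| ≤ A → (q : ℝ) ^ (2 * h) ≤ 2 * X := by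
    intro h hh
    have h1 : (q : ℝ) ^ (2 * h) ≤ ρ ^ ((B : ℤ) + 1) := by
      rw [hρz]
      refine zpow_le_zpow_right₀ hqr.le ?_
      have := (abs_le.1 hh).2
      rw [hA] at this
      push_cast at this
      linarith
    refine h1.trans ?_
    rw [zpow_add_one₀ hρ0.ne', zpow_natCast, mul_comm]
    exact mul_le_mul (by linarith) hB (by positivity) (by norm_num)
  have hρB : ∀ g : ℤ, |g| ≤ B → ρ ^ g ≤ X := by
    intro g hg
    refine le_trans ?_ hB
    rw [← zpow_natCast]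
    exact zpow_le_zpow_right₀ hρ1.le (abs_le.1 hg).2
  obtain ⟨K, hK⟩ := pow_unbounded_of_one_lt (1 / δ) hqr
  set G := K + 2 * A with hG
  have hG' : 1 / δ ≤ (q : ℝ) ^ ((G : ℤ) - 2 * A) := by
    have : ((G : ℤ) - 2 * A) = (K : ℤ) := by rw [hG]; push_cast; ring
    rw [this, zpow_natCast]
    exact hK.le
  obtain ⟨I, hI⟩ := exists_nat_gt (4 * (2 * (A : ℝ) + 1) / δ ^ 2)
  have hIr : (0 : ℝ) < I := lt_trans (by positivity) hI
  have hI0 : 0 < I := by exact_mod_cast hIr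
  have hIδ : 4 * (2 * (A : ℝ) + 1) / I ≤ δ ^ 2 := by
    rw [div_le_iff₀ hIr]
    have := (div_lt_iff₀ (by positivity)).1 hI
    linarith
  obtain ⟨M, hM⟩ := stage2a hc h hq G A (2 ^ I) hδ0 (by linarith) hG' hδ0
  -- choose the scale
  obtain ⟨i, hi, hDn⟩ := exists_scale_heights M.w M.w0 M.w1 (fun z j h => kp M q G z j h)
    (fun z j h => M.K0 _ _) (fun z j h => M.K1 _ _) A hI0 hIδ
  have hn0 : 0 < 2 ^ (I - 1 - i) := by positivity
  have habs : ∀ hgt : ℤ, |hgt| ≤ A → ∑ z, M.w z * ((1 / (2 ^ (I - 1 - i) : ℕ))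
      * ∑ b ∈ range (2 ^ (I - 1 - i)), |Mb (fun j => kp M q G z j hgt) i (2 * b + 1)
        - Mb (fun j => kp M q G z j hgt) i (2 * b)|) ≤ δ := fun hgt hh =>
    abs_moment M.w M.w0 M.w1 (fun z j => kp M q G z j hgt) i hn0 hδ0 (hDn hgt hh)
  have kp0 : ∀ z j h, 0 ≤ kp M q G z j h := fun z j h => M.K0 _ _
  have kp1 : ∀ z j h, kp M q G z j h ≤ 1 := fun z j h => M.K1 _ _
  -- heights
  have hht : ∀ g : ℤ, |g| ≤ B → ∀ a : Fin L, |(L : ℤ) * g + (a : ℕ)| ≤ A := by
    intro g hg a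
    have h1 := abs_le.1 hg
    have h2 : ((a : ℕ) : ℤ) < L := by exact_mod_cast a.2
    have h3 : (0 : ℤ) ≤ (a : ℕ) := by positivity
    have h4 : (L : ℤ) * g ≤ L * B := mul_le_mul_of_nonneg_left h1.2 (by positivity)
    have h5 : (L : ℤ) * (-B) ≤ L * g := mul_le_mul_of_nonneg_left h1.1 (by positivity)
    rw [hA]
    push_cast
    rw [abs_le]
    constructor
    · have : (0 : ℤ) ≤ L := by positivity
      linarith
    · linarith
  have hX0 : 0 ≤ X := by linarith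
  -- the final bound
  have hfin : ∀ y : ℝ, y ≤ X → 0 ≤ y → ρ / (1 - δ) * (c * q ^ 2 + (2 + 4 * X) * (δ + 2 / L))
      + (1 + y) * δ ≤ c + η := by
    intro y hy hy0
    refine le_trans ?_ hδF
    have hq2 : (q : ℝ) ^ 2 ≤ 1 + δ := by
      refine le_trans ?_ hqL.le
      exact pow_le_pow_right₀ hqr.le (by omega)
    have h1 : ρ / (1 - δ) ≤ (1 + δ) / (1 - δ) :=
      div_le_div_of_nonneg_right hqL.le (by linarith)
    have h2 : c * (q : ℝ) ^ 2 + (2 + 4 * X) * (δ + 2 / L)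
        ≤ c * (1 + δ) + (2 + 4 * X) * (3 * δ) := by
      have h3 : δ + 2 / (L : ℝ) ≤ 3 * δ := by
        have : 2 / (L : ℝ) = 2 * (1 / L) := by ring
        rw [this]; linarith
      have h4 := mul_le_mul_of_nonneg_left hq2 hc
      have h5 := mul_le_mul_of_nonneg_left h3 (show 0 ≤ 2 + 4 * X by linarith)
      linarith
    refine add_le_add (mul_le_mul h1 h2 ?_ ?_) ?_
    · have : 0 ≤ (2 + 4 * X) * (δ + 2 / L) := by positivity
      have : 0 ≤ c * (q : ℝ) ^ 2 := by positivity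
      linarith
    · exact div_nonneg (by linarith) (by linarith)
    · exact mul_le_mul_of_nonneg_right (by linarith) hδ0.le
  -- the mixture
  let n := 2 ^ (I - 1 - i)
  have hnr : (0 : ℝ) < (n : ℕ) := by exact_mod_cast hn0
  refine ⟨{ Z := M.Z × Fin n × Fin L
            w := fun z => M.w z.1 * (1 / n * (1 / L))
            k := fun z g => Mb (fun j => kp M q G z.1 j ((L : ℤ) * g + (z.2.2 : ℕ))) i
              (2 * z.2.1 + 1)
            w0 := fun z => mul_nonneg (M.w0 _) (by positivity)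
            w1 := ?_
            k0 := fun z g => Mb_nonneg (fun j => M.K0 _ _) _ _
            k1 := fun z g => Mb_le (fun j => M.K1 _ _) _ _
            mono := ?_ }, ?_⟩
  · rw [Fintype.sum_prod_type]
    simp only [Finset.sum_const, Finset.card_univ, Fintype.card_prod, Fintype.card_fin,
      nsmul_eq_mul]
    rw [← Finset.mul_sum, ← Finset.sum_mul, M.w1]
    push_cast
    field_simp
  · intro z g g' hgg
    refine Mb_mono (fun j => kp_mono M hq G z.1 j ?_) _ _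
    have := mul_le_mul_of_nonneg_left hgg (show (0 : ℤ) ≤ L by positivity)
    linarith
  · intro g g' hg hg'
    simp only
    -- rewriting sums over the mixture
    have hsum : ∀ F : M.Z → ℕ → Fin L → ℝ, ∑ z : M.Z × Fin n × Fin L,
        M.w z.1 * (1 / n * (1 / L)) * F z.1 z.2.1 z.2.2
        = ∑ z, M.w z * ((1 / (n : ℕ)) * ∑ b ∈ range n, ((1 / L) * ∑ a, F z b a)) := by
      intro F
      rw [Fintype.sum_prod_type]
      refine Finset.sum_congr rfl fun z _ => ?_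
      rw [Fintype.sum_prod_type, Finset.sum_range, Finset.mul_sum, Finset.mul_sum]
      refine Finset.sum_congr rfl fun b _ => ?_
      rw [Finset.mul_sum, Finset.mul_sum, Finset.mul_sum]
      refine Finset.sum_congr rfl fun a _ => ?_
      ring
    have ha2 : ∀ a : Fin L, (1 : ℝ) ≤ (q : ℝ) ^ (2 * ((a : ℕ) : ℤ))
        ∧ (q : ℝ) ^ (2 * ((a : ℕ) : ℤ)) ≤ ρ := by
      intro a
      constructor
      · exact one_le_zpow₀ hqr.le (by positivity)
      · have : ρ = (q : ℝ) ^ (2 * (L : ℤ)) := by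
          rw [hρ, ← zpow_natCast]; congr 1
        rw [this]
        refine zpow_le_zpow_right₀ hqr.le ?_
        have : ((a : ℕ) : ℤ) ≤ L := by exact_mod_cast a.2.le
        linarith
    constructor
    · rw [hsum (fun z b a => gam (ρ ^ g) (ρ ^ (-g'))
        (Mb (fun j => kp M q G z j ((L : ℤ) * g + (a : ℕ))) i (2 * b + 1))
        (Mb (fun j => kp M q G z j ((L : ℤ) * g' + (a : ℕ))) i (2 * b + 1)))]
      have hy0 : 0 ≤ ρ ^ (-g') := by positivity
      refine le_trans (avg_pair M.w M.w0 (fun z j h => kp M q G z j h) (fun z j h => M.K0 _ _)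
        (fun z j h => M.K1 _ _) hL0 hi (ρ := ρ) (η := δ) (ε := δ) (c1 := c * q ^ 2)
        (C := 2 + 4 * X) (d := δ)
        (fun a => (L : ℤ) * g + (a : ℕ)) (fun a => (L : ℤ) * g' + (a : ℕ))
        (ρ ^ g) (ρ ^ (-g')) (fun a => (q : ℝ) ^ (2 * ((L : ℤ) * g + (a : ℕ))))
        (fun a => (q : ℝ) ^ (-(2 * ((L : ℤ) * g' + (a : ℕ))))) hρ1.le (by linarith) ?_ ?_ hy0
        (fun j a => M.E fun z => kp M q G z j ((L : ℤ) * g + (a : ℕ))
          - kp M q G z j ((L : ℤ) * g + (a : ℕ) - 1))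
        (fun j a => M.E fun z => kp M q G z j ((L : ℤ) * g' + (a : ℕ))
          - kp M q G z j ((L : ℤ) * g' + (a : ℕ) - 1)) ?_ ?_ (by linarith) ?_ ?_)
        (hfin _ (hρB _ (by rwa [abs_neg])) hy0)
      · intro a
        rw [hρz, mul_add, zpow_add₀ hqr0]
        have h1 : (0 : ℝ) < (q : ℝ) ^ (2 * ((L : ℤ) * g)) := by positivity
        have h2 := (ha2 a).1
        calc (q : ℝ) ^ (2 * ((L : ℤ) * g)) ≤ 1 * ((q : ℝ) ^ (2 * ((L : ℤ) * g)) * 1) := by
              rw [one_mul, mul_one]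
          _ ≤ _ := mul_le_mul hρ1.le (mul_le_mul_of_nonneg_left h2 h1.le) (by positivity)
            hρ0.le
      · intro a
        rw [hρz]
        have h1 : (q : ℝ) ^ (2 * ((L : ℤ) * -g'))
            = (q : ℝ) ^ (2 * ((a : ℕ) : ℤ)) * (q : ℝ) ^ (-(2 * ((L : ℤ) * g' + (a : ℕ)))) := by
          rw [← zpow_add₀ hqr0]
          congr 1
          ring
        rw [h1]
        exact mul_le_mul_of_nonneg_right (ha2 a).2 (by positivity)
      · intro j
        have := telescope M (q := q) G j L ((L : ℤ) * g - 1)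
        refine le_trans (le_of_eq (Finset.sum_congr rfl fun a _ => ?_)) this
        congr 1
        funext z
        congr 2 <;> ring
      · intro j
        have := telescope M (q := q) G j L ((L : ℤ) * g' - 1)
        refine le_trans (le_of_eq (Finset.sum_congr rfl fun a _ => ?_)) this
        congr 1
        funext z
        congr 2 <;> ring
      · intro a j j' hj hJ
        have h1 := (hM j j' hj hJ ((L : ℤ) * g + (a : ℕ)) ((L : ℤ) * g' + (a : ℕ))
          (hht g hg a) (hht g' hg' a)).1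
        refine h1.trans (add_le_add le_rfl ?_)
        refine mul_le_mul_of_nonneg_right ?_ ?_
        · have := hqA _ (hht g hg a)
          have h2 := hqA (-((L : ℤ) * g' + (a : ℕ))) (by rw [abs_neg]; exact hht g' hg' a)
          rw [mul_neg] at h2
          linarith
        · have n1 := dn_nonneg M hq G j ((L : ℤ) * g + (a : ℕ)) ((L : ℤ) * g + (a : ℕ) - 1)
            (by omega)
          have n2 := dn_nonneg M hq G j' ((L : ℤ) * g' + (a : ℕ)) ((L : ℤ) * g' + (a : ℕ) - 1)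
            (by omega)
          linarith
      · intro a
        exact habs _ (hht g' hg' a)
    · have hone : ∀ (z : M.Z) (b : ℕ) (h : ℤ), 1 - Mb (fun j => kp M q G z j h) i b
          = Mb (fun j => 1 - kp M q G z j h) i b := fun z b h => (Mb_one_sub _ _ _).symm
      simp only [hone]
      rw [hsum (fun z b a => gam (ρ ^ (-g')) (ρ ^ g)
        (Mb (fun j => 1 - kp M q G z j ((L : ℤ) * g' + (a : ℕ))) i (2 * b + 1))
        (Mb (fun j => 1 - kp M q G z j ((L : ℤ) * g + (a : ℕ))) i (2 * b + 1)))]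
      have hy0 : 0 ≤ ρ ^ g := by positivity
      have hneg : ∀ h : ℤ, - -h = h := fun h => neg_neg h
      have key := avg_pair M.w M.w0 (fun z j h => 1 - kp M q G z j (-h))
        (fun z j h => sub_nonneg.2 (kp1 z j (-h))) (fun z j h => by
          have := kp0 z j (-h)
          linarith) hL0 hi
        (ρ := ρ) (η := δ) (ε := δ) (c1 := c * q ^ 2)
        (C := 2 + 4 * X) (d := δ)
        (fun a : Fin L => -((L : ℤ) * g' + (a : ℕ))) (fun a : Fin L => -((L : ℤ) * g + (a : ℕ)))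
        (ρ ^ (-g')) (ρ ^ g) (fun a => (q : ℝ) ^ (2 * -((L : ℤ) * g' + (a : ℕ))))
        (fun a => (q : ℝ) ^ (-(2 * -((L : ℤ) * g + (a : ℕ))))) hρ1.le (by linarith) ?_ ?_ hy0
        (fun j a => M.E fun z => kp M q G z j (- -((L : ℤ) * g' + (a : ℕ)) + 1)
          - kp M q G z j (- -((L : ℤ) * g' + (a : ℕ))))
        (fun j a => M.E fun z => kp M q G z j (- -((L : ℤ) * g + (a : ℕ)) + 1)
          - kp M q G z j (- -((L : ℤ) * g + (a : ℕ)))) ?_ ?_ (by linarith) ?_ ?_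
      · simp only [neg_neg] at key
        exact key.trans (hfin _ (hρB _ hg) hy0)
      · intro a
        rw [hρz]
        have h1 : (q : ℝ) ^ (2 * ((L : ℤ) * -g'))
            = (q : ℝ) ^ (2 * ((a : ℕ) : ℤ)) * (q : ℝ) ^ (2 * -((L : ℤ) * g' + (a : ℕ))) := by
          rw [← zpow_add₀ hqr0]
          congr 1
          ring
        rw [h1]
        exact mul_le_mul_of_nonneg_right (ha2 a).2 (by positivity)
      · intro a
        rw [hρz, show -(2 * -((L : ℤ) * g + (a : ℕ))) = 2 * ((L : ℤ) * g) + 2 * ((a : ℕ) : ℤ) by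
          ring, zpow_add₀ hqr0]
        have h1 : (0 : ℝ) < (q : ℝ) ^ (2 * ((L : ℤ) * g)) := by positivity
        have h2 := (ha2 a).1
        calc (q : ℝ) ^ (2 * ((L : ℤ) * g)) ≤ 1 * ((q : ℝ) ^ (2 * ((L : ℤ) * g)) * 1) := by
              rw [one_mul, mul_one]
          _ ≤ _ := mul_le_mul hρ1.le (mul_le_mul_of_nonneg_left h2 h1.le) (by positivity)
            hρ0.le
      · intro j
        simp only [neg_neg]
        exact telescope M (q := q) G j L ((L : ℤ) * g')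
      · intro j
        simp only [neg_neg]
        exact telescope M (q := q) G j L ((L : ℤ) * g)
      · intro a j j' hj hJ
        have h1 := (hM j j' hj hJ (-((L : ℤ) * g' + (a : ℕ))) (-((L : ℤ) * g + (a : ℕ)))
          (by rw [abs_neg]; exact hht g' hg' a) (by rw [abs_neg]; exact hht g hg a)).2
        refine h1.trans (add_le_add le_rfl ?_)
        refine mul_le_mul_of_nonneg_right ?_ ?_
        · have := hqA (-((L : ℤ) * g' + (a : ℕ))) (by rw [abs_neg]; exact hht g' hg' a)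
          have h2 := hqA ((L : ℤ) * g + (a : ℕ)) (hht g hg a)
          have h3 : -(2 * -((L : ℤ) * g + (a : ℕ))) = 2 * ((L : ℤ) * g + (a : ℕ)) := by ring
          rw [h3]
          linarith
        · have n1 := dn_nonneg M hq G j (- -((L : ℤ) * g' + (a : ℕ)) + 1)
            (- -((L : ℤ) * g' + (a : ℕ))) (by omega)
          have n2 := dn_nonneg M hq G j' (- -((L : ℤ) * g + (a : ℕ)) + 1)
            (- -((L : ℤ) * g + (a : ℕ))) (by omega)
          linarith
      · intro a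
        simp only [neg_neg]
        have := habs _ (hht g hg a)
        refine le_trans (le_of_eq ?_) this
        refine Finset.sum_congr rfl fun z _ => ?_
        congr 2
        refine Finset.sum_congr rfl fun b _ => ?_
        rw [Mb_one_sub, Mb_one_sub, abs_sub_comm]
        congr 1
        ring

end

end Pool.Agent.Lib.MP_2c6a66_lc.UX

/-! Extension of mixtures from a finite grid to the half line. -/

namespace Pool.Agent.Lib.MP_2c6a66_lc.UX

open scoped NNReal Topology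
open Finset Filter
open UT (HasUT)

noncomputable section

theorem CC_scale {x y x' y' a b r : ℝ} (hr : 1 ≤ r) (hx : x ≤ r * x') (hy : y ≤ r * y')
    (ha : 0 ≤ a) (ha1 : a ≤ 1) (hb : 0 ≤ b) (hb1 : b ≤ 1) (hx0 : 0 ≤ x') (hy0 : 0 ≤ y') :
    CC x y a b ≤ r * CC x' y' a b := by
  have ha' : 0 ≤ 1 - a := sub_nonneg.2 ha1
  have hb' : 0 ≤ 1 - b := sub_nonneg.2 hb1
  have hm : max x y ≤ r * max x' y' := by
    refine max_le (hx.trans ?_) (hy.trans ?_)
    · exact mul_le_mul_of_nonneg_left (le_max_left _ _) (by linarith)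
    · exact mul_le_mul_of_nonneg_left (le_max_right _ _) (by linarith)
  unfold CC
  have h1 : (1 + y) * (a * b) ≤ r * ((1 + y') * (a * b)) := by
    have := mul_le_mul_of_nonneg_right (show 1 + y ≤ r * (1 + y') by nlinarith) (mul_nonneg ha hb)
    linarith
  have h2 : a * (1 - b) ≤ r * (a * (1 - b)) := by
    have := mul_nonneg ha hb'
    nlinarith
  have h3 := mul_le_mul_of_nonneg_right hm (mul_nonneg ha' hb)
  have h4 : (1 + x) * ((1 - a) * (1 - b)) ≤ r * ((1 + x') * ((1 - a) * (1 - b))) := by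
    have := mul_le_mul_of_nonneg_right (show 1 + x ≤ r * (1 + x') by nlinarith)
      (mul_nonneg ha' hb')
    linarith
  nlinarith

theorem gam_ge_right {x y P Q : ℝ} (hx : 1 + y ≤ x) (hP1 : P ≤ 1)
    (hQ1 : Q ≤ 1) (hy : 0 ≤ y) : 1 + y * Q ≤ gam x y P Q := by
  unfold gam
  have h1 := mul_le_mul_of_nonneg_left hx (sub_nonneg.2 hP1)
  have h2 := mul_nonneg (sub_nonneg.2 hP1) (sub_nonneg.2 hQ1)
  have h3 := mul_nonneg hy h2
  nlinarith

theorem gam_ge_left {x y P Q : ℝ} (hP : 0 ≤ P) (hP1 : P ≤ 1) (hQ : 0 ≤ Q)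
    (hQ1 : Q ≤ 1) (hy : 0 ≤ y) : P + x * (1 - P) ≤ gam x y P Q := by
  unfold gam
  have h1 := mul_nonneg (mul_nonneg hP hQ) hy
  have h2 := mul_nonneg (sub_nonneg.2 hP1) (sub_nonneg.2 hQ1)
  nlinarith

/-- cutoff of a function on the integers -/
def cut (B : ℕ) (k : ℤ → ℝ) (g : ℤ) : ℝ := if (B : ℤ) < g then 1 else if g < -(B : ℤ) then 0 else k g

theorem cut_nonneg {B : ℕ} {k : ℤ → ℝ} (h : ∀ g, 0 ≤ k g) (g : ℤ) : 0 ≤ cut B k g := by
  unfold cut; split_ifs <;> simp [h]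

theorem cut_le {B : ℕ} {k : ℤ → ℝ} (h : ∀ g, k g ≤ 1) (g : ℤ) : cut B k g ≤ 1 := by
  unfold cut; split_ifs <;> simp [h]

theorem cut_mono {B : ℕ} {k : ℤ → ℝ} (h0 : ∀ g, 0 ≤ k g) (h1 : ∀ g, k g ≤ 1)
    (hm : Monotone k) : Monotone (cut B k) := by
  intro g g' hg
  unfold cut
  split_ifs
  · exact le_rfl
  · exfalso; omega
  · exfalso; omega
  · exact zero_le_one
  · exact le_rfl
  · exact h0 _
  · exact h1 _
  · exfalso; omega
  · exact hm hg

/-- from a finite grid to the whole grid -/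
theorem extend_grid (A : GM) {ρ : ℝ} (hρ : 1 < ρ) {B B' : ℕ} (hBB : B' ≤ B)
    (hB : 1 + ρ ^ (B' : ℤ) ≤ ρ ^ (B : ℤ)) {c : ℝ} (hc : 1 ≤ c)
    (h : ∀ g g' : ℤ, |g| ≤ B → |g'| ≤ B →
      (∑ z, A.w z * gam (ρ ^ g) (ρ ^ (-g')) (A.k z g) (A.k z g') ≤ c) ∧
      (∑ z, A.w z * gam (ρ ^ (-g')) (ρ ^ g) (1 - A.k z g') (1 - A.k z g) ≤ c)) (g g' : ℤ) :
    ∑ z, A.w z * CC (ρ ^ g) (ρ ^ (-g')) (cut B' (A.k z) g) (cut B' (A.k z) g')
      ≤ c + ρ ^ (-(B' : ℤ)) := by
  have hρ0 : 0 < ρ := by linarith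
  have hpos : ∀ g : ℤ, 0 < ρ ^ g := fun g => zpow_pos hρ0 g
  have hmono : ∀ g g' : ℤ, g ≤ g' → ρ ^ g ≤ ρ ^ g' := fun g g' h => zpow_le_zpow_right₀ hρ.le h
  have k0 := A.k0
  have k1 := A.k1
  have bound : ∀ (F G : A.Z → ℝ) (e : ℝ), (∀ z, F z ≤ G z + e) → ∑ z, A.w z * G z ≤ c →
      e ≤ ρ ^ (-(B' : ℤ)) → ∑ z, A.w z * F z ≤ c + ρ ^ (-(B' : ℤ)) := by
    intro F G e h1 h2 h3
    have h4 : ∑ z, A.w z * F z ≤ ∑ z, (A.w z * G z + A.w z * e) :=
      Finset.sum_le_sum fun z _ => by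
        have := mul_le_mul_of_nonneg_left (h1 z) (A.w0 z)
        linarith
    rw [Finset.sum_add_distrib, ← Finset.sum_mul, A.w1, one_mul] at h4
    linarith
  have bound1 : ∀ (F : A.Z → ℝ), (∀ z, F z ≤ 1 + ρ ^ (-(B' : ℤ))) →
      ∑ z, A.w z * F z ≤ c + ρ ^ (-(B' : ℤ)) := by
    intro F h1
    refine bound F (fun _ => 1) _ h1 ?_ le_rfl
    rw [← Finset.sum_mul, A.w1, one_mul]
    exact hc
  have hBabs : |(B : ℤ)| ≤ B := by rw [abs_of_nonneg (by positivity)]
  have hBabs' : |(-(B : ℤ))| ≤ B := by rw [abs_neg]; exact hBabs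
  have hBn : ρ ^ (-(B : ℤ)) ≤ ρ ^ (-(B' : ℤ)) := hmono _ _ (by omega)
  -- nine cases
  rcases lt_or_ge (B' : ℤ) g with hg | hg
  · have ea : ∀ z, cut B' (A.k z) g = 1 := fun z => by unfold cut; rw [if_pos hg]
    rcases lt_or_ge (B' : ℤ) g' with hg' | hg'
    · -- both large
      have eb : ∀ z, cut B' (A.k z) g' = 1 := fun z => by unfold cut; rw [if_pos hg']
      refine bound1 _ fun z => ?_
      rw [ea, eb]
      unfold CC
      have := hmono (-g') (-(B' : ℤ)) (by omega)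
      linarith
    · rcases lt_or_ge g' (-(B' : ℤ)) with hg2 | hg2
      · have eb : ∀ z, cut B' (A.k z) g' = 0 := fun z => by
          unfold cut; rw [if_neg (by omega), if_pos hg2]
        refine bound1 _ fun z => ?_
        rw [ea, eb]
        unfold CC
        have := hpos (-(B' : ℤ))
        linarith
      · have eb : ∀ z, cut B' (A.k z) g' = A.k z g' := fun z => by
          unfold cut; rw [if_neg (by omega), if_neg (by omega)]
        have hB2 : |g'| ≤ (B : ℤ) := abs_le.2 ⟨by omega, by omega⟩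
        refine bound _ _ 0 (fun z => ?_) (h B g' hBabs hB2).1 (hpos _).le
        rw [ea, eb, add_zero]
        refine le_trans (le_of_eq ?_) (gam_ge_right (y := ρ ^ (-g')) (Q := A.k z g') ?_ (k1 z _)
          (k1 z _) (hpos _).le)
        · unfold CC; ring
        · have := hmono (-g') B' (by omega)
          linarith
  · rcases lt_or_ge g (-(B' : ℤ)) with hg1 | hg1
    · have ea : ∀ z, cut B' (A.k z) g = 0 := fun z => by
        unfold cut; rw [if_neg (by omega), if_pos hg1]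
      have hx := hmono g (-(B' : ℤ)) (by omega)
      rcases lt_or_ge (B' : ℤ) g' with hg' | hg'
      · have eb : ∀ z, cut B' (A.k z) g' = 1 := fun z => by unfold cut; rw [if_pos hg']
        refine bound1 _ fun z => ?_
        rw [ea, eb]
        unfold CC
        have hy := hmono (-g') (-(B' : ℤ)) (by omega)
        have := max_le hx hy
        linarith
      · rcases lt_or_ge g' (-(B' : ℤ)) with hg2 | hg2
        · have eb : ∀ z, cut B' (A.k z) g' = 0 := fun z => by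
            unfold cut; rw [if_neg (by omega), if_pos hg2]
          refine bound1 _ fun z => ?_
          rw [ea, eb]
          unfold CC
          linarith
        · have eb : ∀ z, cut B' (A.k z) g' = A.k z g' := fun z => by
            unfold cut; rw [if_neg (by omega), if_neg (by omega)]
          have hB2 : |g'| ≤ (B : ℤ) := abs_le.2 ⟨by omega, by omega⟩
          refine bound _ _ (ρ ^ g) (fun z => ?_) (h (-B) g' hBabs' hB2).2 hx
          have h1 := gam_ge_left (x := ρ ^ (-g')) (y := ρ ^ (-(B : ℤ))) (P := 1 - A.k z g')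
            (Q := 1 - A.k z (-B)) (by linarith [k1 z g']) (by linarith [k0 z g'])
            (by linarith [k1 z (-B)]) (by linarith [k0 z (-B)]) (hpos _).le
          refine le_trans ?_ (add_le_add h1 le_rfl)
          rw [ea, eb, CC_le (hmono g (-g') (by omega))]
          unfold gam
          have := mul_nonneg (k0 z g') (hpos g).le
          nlinarith
    · have ea : ∀ z, cut B' (A.k z) g = A.k z g := fun z => by
        unfold cut; rw [if_neg (by omega), if_neg (by omega)]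
      have hB1 : |g| ≤ (B : ℤ) := abs_le.2 ⟨by omega, by omega⟩
      rcases lt_or_ge (B' : ℤ) g' with hg' | hg'
      · have eb : ∀ z, cut B' (A.k z) g' = 1 := fun z => by unfold cut; rw [if_pos hg']
        have hy := hmono (-g') (-(B' : ℤ)) (by omega)
        refine bound _ _ (ρ ^ (-g')) (fun z => ?_) (h g B hB1 hBabs).1 hy
        have h1 := gam_ge_left (x := ρ ^ g) (y := ρ ^ (-(B : ℤ))) (P := A.k z g)
          (Q := A.k z B) (k0 z g) (k1 z g) (k0 z B) (k1 z B) (hpos _).le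
        refine le_trans ?_ (add_le_add h1 le_rfl)
        rw [ea, eb, CC_ge (hmono (-g') g (by omega))]
        unfold gam
        have := mul_nonneg (sub_nonneg.2 (k1 z g)) (hpos (-g')).le
        nlinarith
      · rcases lt_or_ge g' (-(B' : ℤ)) with hg2 | hg2
        · have eb : ∀ z, cut B' (A.k z) g' = 0 := fun z => by
            unfold cut; rw [if_neg (by omega), if_pos hg2]
          refine bound _ _ 0 (fun z => ?_) (h g (-B) hB1 hBabs').2 (hpos _).le
          rw [ea, eb, add_zero]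
          refine le_trans (le_of_eq ?_) (gam_ge_right (y := ρ ^ g) (Q := 1 - A.k z g) ?_ ?_ ?_
            (hpos _).le)
          · unfold CC; ring
          · rw [neg_neg]
            have := hmono g B' (by omega)
            linarith
          · linarith [k0 z (-B)]
          · linarith [k0 z g]
        · have eb : ∀ z, cut B' (A.k z) g' = A.k z g' := fun z => by
            unfold cut; rw [if_neg (by omega), if_neg (by omega)]
          have hB2 : |g'| ≤ (B : ℤ) := abs_le.2 ⟨by omega, by omega⟩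
          simp only [ea, eb]
          have hp := hpos (-(B' : ℤ))
          rcases le_total (ρ ^ (-g')) (ρ ^ g) with hxy | hxy
          · simp only [CC_ge hxy]
            linarith [(h g g' hB1 hB2).1]
          · simp only [CC_le hxy]
            linarith [(h g g' hB1 hB2).2]

/-- **From universally truthful mechanisms to mixtures of functions of one variable.** -/
theorem to_mixture {c : ℝ} (h : ∀ n, HasUT n c) {c' : ℝ} (hc' : c < c') :
    ∃ A : RM, ∀ x y : ℝ, 0 < x → 0 < y →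
      ∑ z, A.w z * CC x y (A.k z x) (A.k z (1 / y)) ≤ c' := by
  have hc : 0 ≤ c := UT.c_nonneg (h 1)
  -- parameters
  obtain ⟨η, hη0, hη1, hηc⟩ : ∃ η : ℝ, 0 < η ∧ η < 1 ∧ (1 + η) * (c + η + η) ≤ c' := by
    have hcont : ContinuousAt (fun η : ℝ => (1 + η) * (c + η + η)) 0 := by fun_prop
    have h0 : (fun η : ℝ => (1 + η) * (c + η + η)) 0 < c' := by simpa using hc'
    have h1 := (hcont.eventually_lt_const h0).filter_mono (nhdsWithin_le_nhds (s := Set.Ioi 0))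
    have h2 : ∀ᶠ η in 𝓝[>] (0 : ℝ), η < 1 :=
      (eventually_lt_nhds zero_lt_one).filter_mono nhdsWithin_le_nhds
    have h3 : ∀ᶠ η in 𝓝[>] (0 : ℝ), η ∈ Set.Ioi (0 : ℝ) := eventually_mem_nhdsWithin
    obtain ⟨η, a1, a2, a3⟩ := (h1.and (h2.and h3)).exists
    exact ⟨η, a3, a2, a1.le⟩
  set Y := 1 / η with hY
  have hY0 : 0 < Y := by positivity
  set X := 2 * (1 + 2 * Y) with hX
  obtain ⟨ρ, hρ1, hρ2, hρ⟩ := stage4 hc h (X := X) (by rw [hX]; linarith) hη0
  have hρ0 : 0 < ρ := by linarith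
  have hρ22 : ρ < 2 := by linarith
  -- cut offs
  obtain ⟨m, hm⟩ := exists_mem_Ico_zpow hY0 hρ1
  have hm0 : 0 ≤ m := by
    by_contra hneg
    push Not at hneg
    have h1 : ρ ^ (m + 1) ≤ 1 := by
      rw [← zpow_zero ρ]
      exact zpow_le_zpow_right₀ hρ1.le (by omega)
    have h2 : 1 < Y := by rw [hY, lt_div_iff₀ hη0]; linarith
    linarith [hm.2]
  obtain ⟨B', hB'⟩ : ∃ B' : ℕ, (B' : ℤ) = m + 1 := ⟨(m + 1).toNat, by omega⟩
  have hB1 : Y ≤ ρ ^ (B' : ℤ) := by rw [hB']; exact hm.2.le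
  have hB2 : ρ ^ (B' : ℤ) ≤ 2 * Y := by
    rw [hB', zpow_add_one₀ hρ0.ne', mul_comm]
    exact mul_le_mul hρ22.le hm.1 (zpow_nonneg hρ0.le _) (by norm_num)
  have h12 : 0 < 1 + 2 * Y := by linarith
  obtain ⟨m2, hm2⟩ := exists_mem_Ico_zpow h12 hρ1
  have hm20 : (B' : ℤ) ≤ m2 := by
    by_contra hneg
    push Not at hneg
    have h1 : ρ ^ (m2 + 1) ≤ ρ ^ (B' : ℤ) := zpow_le_zpow_right₀ hρ1.le (by omega)
    linarith [hm2.2]
  obtain ⟨B, hB⟩ : ∃ B : ℕ, (B : ℤ) = m2 + 1 := ⟨(m2 + 1).toNat, by omega⟩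
  have hBB : B' ≤ B := by omega
  have hB3 : 1 + ρ ^ (B' : ℤ) ≤ ρ ^ (B : ℤ) := by
    rw [hB]
    linarith [hm2.2]
  have hB4 : ρ ^ B ≤ X := by
    rw [← zpow_natCast, hB, zpow_add_one₀ hρ0.ne', mul_comm, hX]
    exact mul_le_mul hρ22.le hm2.1 (zpow_nonneg hρ0.le _) (by norm_num)
  obtain ⟨A, hA⟩ := hρ B hB4
  -- the constant is at least one
  have hc1 : 1 ≤ c + η := by
    have h1 := (hA 0 0 (by simp) (by simp)).1
    refine le_trans ?_ h1
    have : ∑ z, A.w z * 1 ≤ ∑ z, A.w z * gam (ρ ^ (0 : ℤ)) (ρ ^ (-0 : ℤ)) (A.k z 0) (A.k z 0) := by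
      refine Finset.sum_le_sum fun z _ => mul_le_mul_of_nonneg_left ?_ (A.w0 z)
      simp only [neg_zero, zpow_zero]
      unfold gam
      have k0 := A.k0 z 0
      have k1 := A.k1 z 0
      nlinarith [mul_nonneg (sub_nonneg.2 k1) (sub_nonneg.2 k1), mul_nonneg k0 k0]
    rwa [← Finset.sum_mul, A.w1, one_mul] at this
  have hext := extend_grid A hρ1 hBB hB3 hc1 hA
  have hsmall : ρ ^ (-(B' : ℤ)) ≤ η := by
    rw [zpow_neg, inv_le_comm₀ (zpow_pos hρ0 _) hη0]
    rw [hY, one_div] at hB1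
    exact hB1
  refine ⟨{ Z := A.Z
            w := A.w
            k := fun z t => cut B' (A.k z) ⌊Real.logb ρ t⌋
            w0 := A.w0
            w1 := A.w1
            k0 := fun z x => cut_nonneg (A.k0 z) _
            k1 := fun z x => cut_le (A.k1 z) _
            mono := ?_ }, ?_⟩
  · intro z x y hx hxy
    exact cut_mono (A.k0 z) (A.k1 z) (A.mono z)
      (Int.floor_le_floor (Real.logb_le_logb_of_le hρ1 hx hxy))
  · intro x y hx hy
    simp only
    have hfl : ∀ t : ℝ, 0 < t → ρ ^ ⌊Real.logb ρ t⌋ ≤ t ∧ t < ρ ^ (⌊Real.logb ρ t⌋ + 1) := by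
      intro t ht
      have e : t = ρ ^ (Real.logb ρ t) := (Real.rpow_logb hρ0 hρ1.ne' ht).symm
      constructor
      · conv_rhs => rw [e]
        rw [← Real.rpow_intCast]
        exact Real.rpow_le_rpow_of_exponent_le hρ1.le (Int.floor_le _)
      · conv_lhs => rw [e]
        rw [← Real.rpow_intCast]
        refine Real.rpow_lt_rpow_of_exponent_lt hρ1 ?_
        push_cast
        exact Int.lt_floor_add_one _
    set g := ⌊Real.logb ρ x⌋ with hg
    set g' := ⌊Real.logb ρ (1 / y)⌋ with hg'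
    have hx1 := hfl x hx
    have hy1 := hfl (1 / y) (by positivity)
    have hxs : x ≤ ρ * ρ ^ g := by
      rw [mul_comm, ← zpow_add_one₀ hρ0.ne']
      exact hx1.2.le
    have hys : y ≤ ρ * ρ ^ (-g') := by
      have h1 : y ≤ ρ ^ (-g') := by
        rw [zpow_neg, ← one_div]
        rw [le_div_iff₀ (zpow_pos hρ0 _)]
        have := mul_le_mul_of_nonneg_left hy1.1 hy.le
        rwa [mul_one_div_cancel hy.ne'] at this
      have h2 : 0 < ρ ^ (-g') := zpow_pos hρ0 _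
      nlinarith
    have h1 : ∑ z, A.w z * CC x y (cut B' (A.k z) g) (cut B' (A.k z) g')
        ≤ ∑ z, A.w z * (ρ * CC (ρ ^ g) (ρ ^ (-g')) (cut B' (A.k z) g) (cut B' (A.k z) g')) := by
      refine Finset.sum_le_sum fun z _ => mul_le_mul_of_nonneg_left ?_ (A.w0 z)
      exact CC_scale hρ1.le hxs hys (cut_nonneg (A.k0 z) _) (cut_le (A.k1 z) _)
        (cut_nonneg (A.k0 z) _) (cut_le (A.k1 z) _) (zpow_nonneg hρ0.le _)
        (zpow_nonneg hρ0.le _)
    refine h1.trans ?_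
    have h2 : ∑ z, A.w z * (ρ * CC (ρ ^ g) (ρ ^ (-g')) (cut B' (A.k z) g) (cut B' (A.k z) g'))
        = ρ * ∑ z, A.w z * CC (ρ ^ g) (ρ ^ (-g')) (cut B' (A.k z) g) (cut B' (A.k z) g') := by
      rw [Finset.mul_sum]
      exact Finset.sum_congr rfl fun z _ => by ring
    rw [h2]
    have h3 := hext g g'
    have h4 : ∑ z, A.w z * CC (ρ ^ g) (ρ ^ (-g')) (cut B' (A.k z) g) (cut B' (A.k z) g')
        ≤ c + η + η := by linarith
    calc ρ * ∑ z, A.w z * CC (ρ ^ g) (ρ ^ (-g')) (cut B' (A.k z) g) (cut B' (A.k z) g')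
        ≤ ρ * (c + η + η) := mul_le_mul_of_nonneg_left h4 hρ0.le
      _ ≤ (1 + η) * (c + η + η) := mul_le_mul_of_nonneg_right hρ2.le (by linarith)
      _ ≤ c' := hηc

end

end Pool.Agent.Lib.MP_2c6a66_lc.UX
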