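import Pool.Agent.Lib.MP_2c6a66_lc.UX.Limit

/-! The limit theorem for interactions, uniformly over all cores. -/

namespace Pool.Agent.Lib.MP_2c6a66_lc.UX

open scoped NNReal Topology
open Finset Filter Pool.Agent.Lib.MP_2c6a66_lc.LB

noncomputable section

/-- the empty core -/
def emptyCore : Core Set.univ 0 0 where
  Z := Empty
  wt := fun z => z.elim
  wt_nonneg := fun z => z.elim
  wt_sum := by simp
  P1 := fun z => z.elim
  P2 := fun z => z.elim
  P1_01 := fun z => z.elim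
  P2_01 := fun z => z.elim
  V := fun z => z.elim
  Y := fun z => z.elim
  hV := fun z => z.elim
  hY := fun z => z.elim
  b1 := fun z => z.elim
  b2 := fun z => z.elim
  hb1 := fun z => z.elim
  hb2 := fun z => z.elim
  ea := fun z => z.elim
  eb := fun z => z.elim
  bad1 := fun s _ => by simp
  bad2 := fun s _ => by simp
  bad3 := fun s _ => by simp
  bad4 := fun s _ => by simp

/-- a core with weights, admissible at step `n` with error `d` -/
structure Pack (n : ℕ) (d : ℝ) where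
  D : Set T
  e : ℝ
  bm : ℝ≥0
  C : Core D e bm
  grid : HasGrid D (hh n) (NN n)
  he : 0 ≤ e
  he' : e ≤ d
  hb : bm < hh n
  φ : C.Z → ℝ
  h0 : ∀ z, 0 ≤ φ z
  h1 : ∀ z, φ z ≤ 1

/-- the default pack -/
def Pack.default (n : ℕ) {d : ℝ} (hd : 0 ≤ d) : Pack n d where
  D := Set.univ
  e := 0
  bm := 0
  C := emptyCore
  grid := fun _ _ _ _ => Set.mem_univ _
  he := le_rfl
  he' := hd
  hb := by have := hh_pos n; exact_mod_cast this
  φ := fun z => z.elim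
  h0 := fun z => z.elim
  h1 := fun z => z.elim

theorem unif1 (ψ : C(Fin 4 → unitInterval, ℝ)) {δ : ℕ → ℝ} (hδ : Tendsto δ atTop (𝓝 0))
    (hδ0 : ∀ n, 0 ≤ δ n) {ε : ℝ} (hε : 0 < ε) :
    ∀ᶠ n in atTop, ∀ p : Pack n (δ n), |LL (fun _ => F1 p.C p.φ (hh n)) n ψ| ≤ ε := by
  classical
  by_contra hcon
  rw [not_eventually] at hcon
  let p : ∀ n, Pack n (δ n) := fun n =>
    if h : ∃ p : Pack n (δ n), ¬ |LL (fun _ => F1 p.C p.φ (hh n)) n ψ| ≤ ε then h.choose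
    else Pack.default n (hδ0 n)
  have hp : ∀ n, (∃ p : Pack n (δ n), ¬ |LL (fun _ => F1 p.C p.φ (hh n)) n ψ| ≤ ε) →
      ¬ |LL (fun _ => F1 (p n).C (p n).φ (hh n)) n ψ| ≤ ε := by
    intro n h
    have e : p n = h.choose := dif_pos h
    rw [e]
    exact h.choose_spec
  have good : Good (fun n => (p n).C) := by
    refine ⟨fun n => (p n).grid, fun n => (p n).he, fun n => (p n).hb, ?_⟩
    have h2 : Tendsto (fun n => 2 * δ n) atTop (𝓝 0) := by
      have := hδ.const_mul 2; rwa [mul_zero] at this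
    refine squeeze_zero (fun n => bN_nonneg (p n).he) (fun n => ?_) h2
    unfold bN
    have := (p n).he'
    linarith
  have ht := tendsto_FF1 (S := fun n => (p n).C) (φ := fun n => (p n).φ) good
    (fun n => (p n).h0) (fun n => (p n).h1) ψ
  have hev : ∀ᶠ n in atTop, |LL (FF1 (fun n => (p n).C) (fun n => (p n).φ)) n ψ| < ε := by
    have := ht.abs
    rw [abs_zero] at this
    exact this.eventually_lt_const hε
  obtain ⟨n, hn1, hn2⟩ := (hcon.and_eventually hev).exists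
  push Not at hn1
  obtain ⟨p', hp'⟩ := hn1
  have h3 := hp n ⟨p', not_le.2 hp'⟩
  apply h3
  have e : LL (FF1 (fun n => (p n).C) (fun n => (p n).φ)) n ψ
      = LL (fun _ => F1 (p n).C (p n).φ (hh n)) n ψ := by
    unfold LL
    rw [FF1_hh]
  rw [e] at hn2
  exact hn2.le

/-! ### Test functions with prescribed weights -/

/-- compensated tent -/
def Tc (ω lo hi x : ℝ) : ℝ :=
  tent lo hi (-Real.log (max x (Real.exp (-(ω * (hi + 1))))) / ω)
    / max x (Real.exp (-(ω * (hi + 1))))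

theorem Tc_cont (ω lo hi : ℝ) : Continuous (Tc ω lo hi) := by
  have hpos : ∀ x : ℝ, max x (Real.exp (-(ω * (hi + 1)))) ≠ 0 := fun x =>
    (lt_of_lt_of_le (Real.exp_pos _) (le_max_right _ _)).ne'
  have hm : Continuous fun x : ℝ => max x (Real.exp (-(ω * (hi + 1)))) := by fun_prop
  have hl : Continuous fun x : ℝ => Real.log (max x (Real.exp (-(ω * (hi + 1))))) :=
    hm.log hpos
  unfold Tc tent
  refine Continuous.div ?_ hm hpos
  fun_prop

theorem Tc_exp {ω lo hi : ℝ} (hω : 0 < ω) (u : ℝ) :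
    Real.exp (-(ω * u)) * Tc ω lo hi (Real.exp (-(ω * u))) = tent lo hi u := by
  unfold Tc
  by_cases h : u ≤ hi + 1
  · have h1 : Real.exp (-(ω * (hi + 1))) ≤ Real.exp (-(ω * u)) :=
      Real.exp_le_exp.2 (neg_le_neg (mul_le_mul_of_nonneg_left h hω.le))
    rw [max_eq_left h1, Real.log_exp, neg_neg, mul_div_cancel_left₀ _ hω.ne',
      mul_div_cancel₀ _ (Real.exp_pos _).ne']
  · push Not at h
    have h1 : Real.exp (-(ω * u)) ≤ Real.exp (-(ω * (hi + 1))) :=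
      Real.exp_le_exp.2 (neg_le_neg (mul_le_mul_of_nonneg_left h.le hω.le))
    rw [max_eq_right h1, Real.log_exp, neg_neg, mul_div_cancel_left₀ _ hω.ne']
    have z : ∀ v, hi + 1 ≤ v → tent lo hi v = 0 := by
      intro v hv
      unfold tent
      exact max_eq_left ((min_le_right _ _).trans (by linarith))
    rw [z _ le_rfl, z _ h.le, zero_div, mul_zero]

/-- product test function with tent weights on the grid -/
def testc (lo hi : Fin 4 → ℝ) : C(Fin 4 → unitInterval, ℝ) :=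
  ⟨fun x => Tc (om 0) (lo 0) (hi 0) (x 0) * Tc (om 1) (lo 1) (hi 1) (x 1)
    * (Tc (om 2) (lo 2) (hi 2) (x 2) * Tc (om 3) (lo 3) (hi 3) (x 3)), by
    have h0 := Tc_cont (om 0) (lo 0) (hi 0)
    have h1 := Tc_cont (om 1) (lo 1) (hi 1)
    have h2 := Tc_cont (om 2) (lo 2) (hi 2)
    have h3 := Tc_cont (om 3) (lo 3) (hi 3)
    refine Continuous.mul (Continuous.mul ?_ ?_) (Continuous.mul ?_ ?_)
    · exact h0.comp (by fun_prop)
    · exact h1.comp (by fun_prop)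
    · exact h2.comp (by fun_prop)
    · exact h3.comp (by fun_prop)⟩

theorem testc_pt (lo hi : Fin 4 → ℝ) (n i j k l : ℕ) :
    rr (om 0) n ^ i * rr (om 1) n ^ j * (rr (om 2) n ^ k * rr (om 3) n ^ l)
      * testc lo hi (pt n i j k l)
    = tent (lo 0) (hi 0) (i * hh n) * tent (lo 1) (hi 1) (j * hh n)
      * (tent (lo 2) (hi 2) (k * hh n) * tent (lo 3) (hi 3) (l * hh n)) := by
  have e : testc lo hi (pt n i j k l)
      = Tc (om 0) (lo 0) (hi 0) (rr (om 0) n ^ i) * Tc (om 1) (lo 1) (hi 1) (rr (om 1) n ^ j)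
        * (Tc (om 2) (lo 2) (hi 2) (rr (om 2) n ^ k)
          * Tc (om 3) (lo 3) (hi 3) (rr (om 3) n ^ l)) := by
    simp [testc, pt, Rk]
  rw [e, rr_pow', rr_pow', rr_pow', rr_pow']
  have h0 := Tc_exp (lo := lo 0) (hi := hi 0) (om_pos 0) ((i : ℝ) * hh n)
  have h1 := Tc_exp (lo := lo 1) (hi := hi 1) (om_pos 1) ((j : ℝ) * hh n)
  have h2 := Tc_exp (lo := lo 2) (hi := hi 2) (om_pos 2) ((k : ℝ) * hh n)
  have h3 := Tc_exp (lo := lo 3) (hi := hi 3) (om_pos 3) ((l : ℝ) * hh n)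
  rw [← h0, ← h1, ← h2, ← h3]
  ring

/-! ### Boxes -/

/-- grid indices -/
abbrev Gd (n : ℕ) := Fin (NN n) × Fin (NN n)

/-- the type of a grid index -/
def vl (n : ℕ) (a : Gd n) : T := gj (hh n) a.1 a.2

/-- weight of a grid point, for the box of the job `s` -/
def wB (s : T) (q : ℝ≥0) (n : ℕ) (a : Gd n) : ℝ :=
  (hh n : ℝ) ^ 2 * (tent s.1 (q * s.1) ((a.1 : ℕ) * hh n)
    * tent (s.2 / q) s.2 ((a.2 : ℕ) * hh n))

theorem wB_nonneg (s : T) (q : ℝ≥0) (n : ℕ) (a : Gd n) : 0 ≤ wB s q n a := by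
  unfold wB
  exact mul_nonneg (sq_nonneg _) (mul_nonneg (tent_nonneg _ _ _) (tent_nonneg _ _ _))

theorem tent_pos' {lo hi u : ℝ} (h : tent lo hi u ≠ 0) : lo < u ∧ u < hi := tent_ne h

theorem wB_ne {s : T} {q : ℝ≥0} {n : ℕ} {a : Gd n} (h : wB s q n a ≠ 0) :
    ((s.1 : ℝ) < (vl n a).1 ∧ ((vl n a).1 : ℝ) < q * s.1)
      ∧ ((s.2 : ℝ) / q < (vl n a).2 ∧ ((vl n a).2 : ℝ) < s.2) := by
  have h1 : tent s.1 (q * s.1) ((a.1 : ℕ) * hh n) ≠ 0 := by
    intro h0; apply h; unfold wB; rw [h0]; ring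
  have h2 : tent (s.2 / q) s.2 ((a.2 : ℕ) * hh n) ≠ 0 := by
    intro h0; apply h; unfold wB; rw [h0]; ring
  have e1 : ((vl n a).1 : ℝ) = (a.1 : ℕ) * hh n := by simp [vl, gj]
  have e2 : ((vl n a).2 : ℝ) = (a.2 : ℕ) * hh n := by simp [vl, gj]
  rw [e1, e2]
  exact ⟨tent_ne h1, tent_ne h2⟩

theorem LL_box (s t : T) (q : ℝ≥0) (n : ℕ) (F : ℕ → ℕ → ℕ → ℕ → ℝ) :
    LL (fun _ => F) n (testc ![(s.1 : ℝ), (t.1 : ℝ), (s.2 : ℝ) / q, (t.2 : ℝ) / q]
      ![(q : ℝ) * s.1, (q : ℝ) * t.1, (s.2 : ℝ), (t.2 : ℝ)])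
      = ∑ a : Gd n, ∑ b : Gd n, wB s q n a * wB t q n b * F a.1 b.1 a.2 b.2 := by
  unfold LL S4
  have e : ∀ i j k l, rr (om 0) n ^ i * rr (om 1) n ^ j * (rr (om 2) n ^ k * rr (om 3) n ^ l)
      * (testc ![(s.1 : ℝ), (t.1 : ℝ), (s.2 : ℝ) / q, (t.2 : ℝ) / q]
      ![(q : ℝ) * s.1, (q : ℝ) * t.1, (s.2 : ℝ), (t.2 : ℝ)] (pt n i j k l) * F i j k l)
      = (tent s.1 (q * s.1) (i * hh n) * tent t.1 (q * t.1) (j * hh n)
      * (tent (s.2 / q) s.2 (k * hh n) * tent (t.2 / q) t.2 (l * hh n))) * F i j k l := by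
    intro i j k l
    rw [← mul_assoc, testc_pt]
    rfl
  simp only [e, Finset.sum_range, Fintype.sum_prod_type]
  have sw : ∀ G : Fin (NN n) → Fin (NN n) → Fin (NN n) → Fin (NN n) → ℝ,
      ∑ i, ∑ j, ∑ k, ∑ l, G i j k l = ∑ i, ∑ k, ∑ j, ∑ l, G i j k l := by
    intro G
    exact Finset.sum_congr rfl fun i _ => Finset.sum_comm
  rw [sw, Finset.mul_sum]
  refine Finset.sum_congr rfl fun i _ => ?_
  rw [Finset.mul_sum]
  refine Finset.sum_congr rfl fun k _ => ?_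
  rw [Finset.mul_sum]
  refine Finset.sum_congr rfl fun j _ => ?_
  rw [Finset.mul_sum]
  refine Finset.sum_congr rfl fun l _ => ?_
  unfold wB
  ring

/-- Lower bound for a one dimensional Riemann sum. -/
theorem riemann' {lo hi : ℝ} (hlo : 0 ≤ lo) (hlh : lo < hi) :
    ∃ lam > 0, ∀ᶠ n in atTop, lam ≤ hh n * ∑ k ∈ range (NN n), tent lo hi (k * hh n) := by
  set t1 := (2 * lo + hi) / 3 with ht1
  set t2 := (lo + 2 * hi) / 3 with ht2
  have h12 : t1 < t2 := by rw [ht1, ht2]; linarith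
  have hl1 : lo < t1 := by rw [ht1]; linarith
  have h2h : t2 < hi := by rw [ht2]; linarith
  have ht1p : 0 < t1 := lt_of_le_of_lt hlo hl1
  set η := (hi - lo) / 3 with hη
  have hηpos : 0 < η := by rw [hη]; linarith
  have hpt : ∀ n k : ℕ, t1 ≤ (k : ℝ) * hh n → (k : ℝ) * hh n ≤ t2 →
      η ≤ tent lo hi (k * hh n) := by
    intro n k h1 h2
    refine le_max_of_le_right (le_min ?_ ?_)
    · rw [hη]; rw [ht1] at h1; linarith
    · rw [hη]; rw [ht2] at h2; linarith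
  refine ⟨(t2 - t1) / 2 * η, by have : 0 < t2 - t1 := by linarith
                                positivity, ?_⟩
  have hev1 : ∀ᶠ n in atTop, ((hh n : ℝ≥0) : ℝ) < (t2 - t1) / 2 :=
    tendsto_hh.eventually_lt_const (by linarith)
  have hev2 : ∀ᶠ n : ℕ in atTop, t2 < (n : ℝ) :=
    (tendsto_natCast_atTop_atTop (R := ℝ)).eventually_gt_atTop t2
  filter_upwards [hev1, hev2] with n hn1 hn2
  have hp := hh_pos n
  set K := ⌈t1 / hh n⌉₊ with hK
  set M := ⌊(t2 - t1) / hh n⌋₊ with hM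
  have hKc : (K : ℝ) < t1 / hh n + 1 := Nat.ceil_lt_add_one (by positivity)
  have hKc' : t1 / hh n ≤ K := Nat.le_ceil _
  have hMc : (M : ℝ) ≤ (t2 - t1) / hh n := Nat.floor_le (by
    have : 0 < t2 - t1 := by linarith
    positivity)
  have hMc' : (t2 - t1) / hh n < M + 1 := Nat.lt_floor_add_one _
  have hmem : ∀ k ∈ Finset.Ico K (K + M), t1 ≤ (k : ℝ) * hh n ∧ (k : ℝ) * hh n ≤ t2 := by
    intro k hk
    obtain ⟨hk1, hk2⟩ := Finset.mem_Ico.1 hk
    have hk1' : (K : ℝ) ≤ k := by exact_mod_cast hk1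
    have hk2' : (k : ℝ) + 1 ≤ K + M := by exact_mod_cast hk2
    constructor
    · have : t1 / hh n ≤ k := hKc'.trans hk1'
      rwa [div_le_iff₀ hp] at this
    · have h1 : (k : ℝ) ≤ t1 / hh n + (t2 - t1) / hh n := by linarith
      have h2 := mul_le_mul_of_nonneg_right h1 hp.le
      rw [add_mul, div_mul_cancel₀ _ hp.ne', div_mul_cancel₀ _ hp.ne'] at h2
      linarith
  have hsub : Finset.Ico K (K + M) ⊆ range (NN n) := by
    intro k hk
    have h1 := (hmem k hk).2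
    rw [Finset.mem_range]
    have h2 : (k : ℝ) < (NN n : ℝ) := by
      rw [hh_coe, mul_one_div, div_le_iff₀ (by positivity)] at h1
      have : (NN n : ℝ) = ((n : ℝ) + 1) * ((n : ℝ) + 1) := by
        simp only [NN]; push_cast; ring
      rw [this]
      have h0 : (0 : ℝ) < (n : ℝ) + 1 := by positivity
      nlinarith
    exact_mod_cast h2
  have hsum : (M : ℝ) * η ≤ ∑ k ∈ range (NN n), tent lo hi (k * hh n) := by
    refine le_trans ?_ (Finset.sum_le_sum_of_subset_of_nonneg hsub fun k _ _ =>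
      tent_nonneg _ _ _)
    have := Finset.card_nsmul_le_sum (Finset.Ico K (K + M))
      (fun k : ℕ => tent lo hi (k * hh n)) η
      (fun k hk => hpt n k (hmem k hk).1 (hmem k hk).2)
    rwa [Nat.card_Ico, Nat.add_sub_cancel_left, nsmul_eq_mul] at this
  have h1 := mul_le_mul_of_nonneg_left hsum hp.le
  refine le_trans ?_ h1
  have h2 : (t2 - t1) / 2 ≤ hh n * (M : ℝ) := by
    have h3 := mul_lt_mul_of_pos_right hMc' hp
    rw [div_mul_cancel₀ _ hp.ne'] at h3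
    nlinarith
  calc (t2 - t1) / 2 * η ≤ (hh n * (M : ℝ)) * η := mul_le_mul_of_nonneg_right h2 hηpos.le
    _ = _ := by ring

/-- total mass of a box -/
def ms (s : T) (q : ℝ≥0) (n : ℕ) : ℝ := ∑ a, wB s q n a

theorem ms_pos {s : T} (h1 : 0 < s.1) (h2 : 0 < s.2) {q : ℝ≥0} (hq : 1 < q) :
    ∃ lam > 0, ∀ᶠ n in atTop, lam ≤ ms s q n := by
  have hqr : (1 : ℝ) < q := by exact_mod_cast hq
  have h1r : (0 : ℝ) < s.1 := by exact_mod_cast h1
  have h2r : (0 : ℝ) < s.2 := by exact_mod_cast h2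
  obtain ⟨l1, hl1, e1⟩ := riemann' (lo := s.1) (hi := q * s.1) h1r.le (by nlinarith)
  obtain ⟨l2, hl2, e2⟩ := riemann' (lo := s.2 / q) (hi := s.2) (by positivity)
    (by rw [div_lt_iff₀ (by linarith)]; nlinarith)
  refine ⟨l1 * l2, mul_pos hl1 hl2, ?_⟩
  filter_upwards [e1, e2] with n h1 h2
  have e : ms s q n = (hh n * ∑ k ∈ range (NN n), tent s.1 (q * s.1) (k * hh n))
      * (hh n * ∑ k ∈ range (NN n), tent (s.2 / q) s.2 (k * hh n)) := by
    unfold ms wB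
    rw [Fintype.sum_prod_type, Finset.sum_range, Finset.sum_range]
    have : (hh n * ∑ i : Fin (NN n), tent s.1 (q * s.1) ((i : ℕ) * hh n))
        * (hh n * ∑ i : Fin (NN n), tent (s.2 / q) s.2 ((i : ℕ) * hh n))
        = (hh n : ℝ) ^ 2 * ((∑ i : Fin (NN n), tent s.1 (q * s.1) ((i : ℕ) * hh n))
        * ∑ i : Fin (NN n), tent (s.2 / q) s.2 ((i : ℕ) * hh n)) := by ring
    rw [this, Finset.sum_mul_sum, Finset.mul_sum]
    refine Finset.sum_congr rfl fun i _ => ?_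
    rw [Finset.mul_sum]
  rw [e]
  exact mul_le_mul h1 h2 hl2.le (hl1.le.trans h1)

/-- normalised weight -/
def nu (s : T) (q : ℝ≥0) (n : ℕ) (a : Gd n) : ℝ := wB s q n a / ms s q n

theorem ms_nonneg (s : T) (q : ℝ≥0) (n : ℕ) : 0 ≤ ms s q n :=
  Finset.sum_nonneg fun a _ => wB_nonneg s q n a

theorem nu_nonneg (s : T) (q : ℝ≥0) (n : ℕ) (a : Gd n) : 0 ≤ nu s q n a :=
  div_nonneg (wB_nonneg _ _ _ _) (ms_nonneg _ _ _)

theorem nu_sum {s : T} {q : ℝ≥0} {n : ℕ} (h : ms s q n ≠ 0) : ∑ a, nu s q n a = 1 := by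
  unfold nu
  rw [← Finset.sum_div]
  exact div_self h

theorem nu_ne {s : T} {q : ℝ≥0} {n : ℕ} {a : Gd n} (h : nu s q n a ≠ 0) :
    ((s.1 : ℝ) < (vl n a).1 ∧ ((vl n a).1 : ℝ) < q * s.1)
      ∧ ((s.2 : ℝ) / q < (vl n a).2 ∧ ((vl n a).2 : ℝ) < s.2) :=
  wB_ne fun h0 => h (by unfold nu; rw [h0, zero_div])

/-- uniform version of the limit theorem, for normalised boxes -/
theorem unif2 {s t : T} (s1 : 0 < s.1) (s2 : 0 < s.2) (t1 : 0 < t.1) (t2 : 0 < t.2)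
    {q : ℝ≥0} (hq : 1 < q) {δ : ℕ → ℝ} (hδ : Tendsto δ atTop (𝓝 0)) (hδ0 : ∀ n, 0 ≤ δ n)
    {ε : ℝ} (hε : 0 < ε) :
    ∀ᶠ n in atTop, ∀ p : Pack n (δ n), |∑ a : Gd n, ∑ b : Gd n, nu s q n a * nu t q n b
      * F1 p.C p.φ (hh n) a.1 b.1 a.2 b.2| ≤ ε := by
  obtain ⟨ls, hls, es⟩ := ms_pos s1 s2 hq
  obtain ⟨lt, hlt, et⟩ := ms_pos t1 t2 hq
  have hu := unif1 (testc ![(s.1 : ℝ), (t.1 : ℝ), (s.2 : ℝ) / q, (t.2 : ℝ) / q]
      ![(q : ℝ) * s.1, (q : ℝ) * t.1, (s.2 : ℝ), (t.2 : ℝ)]) hδ hδ0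
      (ε := ε * (ls * lt)) (by positivity)
  filter_upwards [es, et, hu] with n h1 h2 h3 p
  have h4 := h3 p
  rw [LL_box] at h4
  have hs0 : 0 < ms s q n := lt_of_lt_of_le hls h1
  have ht0 : 0 < ms t q n := lt_of_lt_of_le hlt h2
  have e : ∑ a : Gd n, ∑ b : Gd n, nu s q n a * nu t q n b
      * F1 p.C p.φ (hh n) a.1 b.1 a.2 b.2
      = (∑ a : Gd n, ∑ b : Gd n, wB s q n a * wB t q n b
      * F1 p.C p.φ (hh n) a.1 b.1 a.2 b.2) / (ms s q n * ms t q n) := by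
    rw [Finset.sum_div]
    refine Finset.sum_congr rfl fun a _ => ?_
    rw [Finset.sum_div]
    refine Finset.sum_congr rfl fun b _ => ?_
    unfold nu
    field_simp
  rw [e, abs_div, abs_of_pos (mul_pos hs0 ht0), div_le_iff₀ (mul_pos hs0 ht0)]
  refine h4.trans (mul_le_mul_of_nonneg_left ?_ hε.le)
  exact mul_le_mul h1 h2 hlt.le hs0.le

end

end Pool.Agent.Lib.MP_2c6a66_lc.UX
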