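import Pool.Agent.Lib.MP_2c6a66_lc.UX.UpDefs

/-! Checks of the cells, case C. -/

namespace Pool.Agent.Lib.MP_2c6a66_lc.UX

theorem C_check : ∀ m < 40, ∀ n < 40, 39 ≤ m + n → ∀ p < 3, ∀ r < 3,
    okC m (40 + n) (cpair p).1 (cpair p).2 (cpair r).1 (cpair r).2 = true := by
  decide +kernel

end Pool.Agent.Lib.MP_2c6a66_lc.UX
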