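import Pool.Agent.Lib.MP_2c6a66_lc.UX.UpData
import Pool.Agent.Lib.MP_2c6a66_lc.UX.Digits

/-! Moments of the mixture for the numerical upper bound. -/

namespace Pool.Agent.Lib.MP_2c6a66_lc.UX

/-- values of a packed column -/
abbrev gq (N m : ℕ) : ℕ := dig 4503599627370496 N m

/-- first moments of the mixture -/
def Pc (m : ℕ) : ℕ := (colsL.map fun r => r.1 * (gq r.2.1 m + (10000 - gq r.2.1 (80 - m)))).sum

/-- second moments of the mixture -/
def Qc (m n : ℕ) : ℕ := (colsL.map fun r => r.1 * (gq r.2.1 m * gq r.2.1 n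
  + (10000 - gq r.2.1 (80 - m)) * (10000 - gq r.2.1 (80 - n)))).sum

/-- packed row of second moments -/
def rowN (m : ℕ) : ℕ := (colsL.map fun r => r.1 * (gq r.2.1 m * r.2.1 + gq r.2.2 m * r.2.2)).sum

/-- stored first moments -/
def Pv (m : ℕ) : ℕ := dig 1099511627776 Pp m

/-- stored second moments -/
def Qv (m n : ℕ) : ℕ := dig 4503599627370496 (Qp.getD m 0) n

/-- nodes, multiplied by 160 -/
def tn (m : ℕ) : ℕ := if 40 ≤ m then 160 + 3 * (m - 40) else 160 + 3 * (40 - m)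

theorem col_check : ∀ r ∈ colsL, (r.2.1 < 4503599627370496 ^ 81 ∧ r.2.2 < 4503599627370496 ^ 81) ∧ gq r.2.1 0 = 0 ∧
    gq r.2.1 80 = 10000 ∧ (∀ m < 80, gq r.2.1 m ≤ gq r.2.1 (m + 1)) ∧
    ∀ m < 81, gq r.2.1 m ≤ 10000 ∧ gq r.2.2 m = 10000 - gq r.2.1 (80 - m) := by
  decide +kernel

theorem wt_check : (colsL.map fun r => r.1).sum = 1000000 := by
  decide +kernel

theorem P_check : ∀ m < 81, Pc m = Pv m := by
  decide +kernel

theorem row_check : ∀ m < 81, rowN m = Qp.getD m 0 := by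
  decide +kernel

theorem Q_check (m : ℕ) (hm : m < 81) (n : ℕ) (hn : n < 81) : Qc m n = Qv m n := by
  have h := row_digit colsL (fun r hr => ⟨(col_check r hr).1, (col_check r hr).2.2.2.2⟩)
    wt_check (by norm_num) hm hn
  unfold Qc Qv
  rw [← row_check m hm]
  unfold rowN
  exact h

/-- left side, case A -/
def LA (X T q : ℕ) : ℕ := T * (160 + X) * 200000000000000 * 100000 + (T + 160) * 160 * q * 100000

/-- right side, case A -/
def RA (X T a b : ℕ) : ℕ :=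
  T * X * a * 10000 * 100000 + T * 160 * b * 10000 * 100000 + 157764 * T * 160 * 200000000000000

/-- left side, case B -/
def LB (X T q : ℕ) : ℕ := (160 + X) * 200000000000000 * 100000 + (160 + T) * q * 100000

/-- right side, case B -/
def RB (X a b : ℕ) : ℕ := X * a * 10000 * 100000 + 160 * b * 10000 * 100000 + 157764 * 160 * 200000000000000

/-- left side, case C -/
def LX (X T q : ℕ) : ℕ := T * (160 + X) * 200000000000000 * 100000 + X * (T + 160) * q * 100000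

/-- right side, case C -/
def RX (X T a b : ℕ) : ℕ :=
  T * 160 * a * 10000 * 100000 + X * T * b * 10000 * 100000 + 157764 * X * T * 200000000000000

/-- pairs of corners -/
def cpair (p : ℕ) : ℕ × ℕ := if p = 0 then (0, 0) else if p = 1 then (0, 1) else (1, 1)

/-- check of a cell, case A -/
def okA (m n p1 p2 r1 r2 : ℕ) : Bool := decide (
  LA (tn (m + p1)) (tn (n + r1)) (Qv (m + p2) (n + r2))
  + LA (tn (m + p2)) (tn (n + r1)) (Qv (m + p1) (n + r2))
  + LA (tn (m + p1)) (tn (n + r2)) (Qv (m + p2) (n + r1))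
  + LA (tn (m + p2)) (tn (n + r2)) (Qv (m + p1) (n + r1))
  ≤ RA (tn (m + p1)) (tn (n + r1)) (Pv (m + p2)) (Pv (n + r2))
  + RA (tn (m + p2)) (tn (n + r1)) (Pv (m + p1)) (Pv (n + r2))
  + RA (tn (m + p1)) (tn (n + r2)) (Pv (m + p2)) (Pv (n + r1))
  + RA (tn (m + p2)) (tn (n + r2)) (Pv (m + p1)) (Pv (n + r1)))

/-- check of a cell, case B -/
def okB (m n p1 p2 r1 r2 : ℕ) : Bool := decide (
  LB (tn (m + p1)) (tn (n + r1)) (Qv (m + p2) (n + r2))
  + LB (tn (m + p2)) (tn (n + r1)) (Qv (m + p1) (n + r2))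
  + LB (tn (m + p1)) (tn (n + r2)) (Qv (m + p2) (n + r1))
  + LB (tn (m + p2)) (tn (n + r2)) (Qv (m + p1) (n + r1))
  ≤ RB (tn (m + p1)) (Pv (m + p2)) (Pv (n + r2))
  + RB (tn (m + p2)) (Pv (m + p1)) (Pv (n + r2))
  + RB (tn (m + p1)) (Pv (m + p2)) (Pv (n + r1))
  + RB (tn (m + p2)) (Pv (m + p1)) (Pv (n + r1)))

/-- check of a cell, case C -/
def okC (m n p1 p2 r1 r2 : ℕ) : Bool := decide (
  LX (tn (m + p1)) (tn (n + r1)) (Qv (m + p2) (n + r2))
  + LX (tn (m + p2)) (tn (n + r1)) (Qv (m + p1) (n + r2))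
  + LX (tn (m + p1)) (tn (n + r2)) (Qv (m + p2) (n + r1))
  + LX (tn (m + p2)) (tn (n + r2)) (Qv (m + p1) (n + r1))
  ≤ RX (tn (m + p1)) (tn (n + r1)) (Pv (m + p2)) (Pv (n + r2))
  + RX (tn (m + p2)) (tn (n + r1)) (Pv (m + p1)) (Pv (n + r2))
  + RX (tn (m + p1)) (tn (n + r2)) (Pv (m + p2)) (Pv (n + r1))
  + RX (tn (m + p2)) (tn (n + r2)) (Pv (m + p1)) (Pv (n + r1)))

end Pool.Agent.Lib.MP_2c6a66_lc.UX
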