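import Pool.Agent.Lib.MP_2c6a66_lc.UX.Upper2
import Pool.Agent.Lib.MP_2c6a66_lc.UX.Lerp
import Pool.Agent.Lib.MP_2c6a66_lc.UX.UpCheckA
import Pool.Agent.Lib.MP_2c6a66_lc.UX.UpCheckB
import Pool.Agent.Lib.MP_2c6a66_lc.UX.UpCheckC

/-! Numerical upper bound for the value of mixtures. -/

namespace Pool.Agent.Lib.MP_2c6a66_lc.UX

open Finset MeasureTheory

attribute [local irreducible] colsL Pp Qp

noncomputable section

/-- values at the nodes, multiplied by 10000 -/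
def gv (l : ℕ) (i : ℤ) : ℕ :=
  if i < -40 then 0 else if 40 < i then 10000 else gq l (i + 40).toNat

theorem gv_mono {l : ℕ} (_h0 : gq l 0 = 0) (h50 : gq l 80 = 10000)
    (h : ∀ m < 80, gq l m ≤ gq l (m + 1)) : Monotone (gv l) := by
  refine monotone_int_of_le_succ fun i => ?_
  unfold gv
  rcases lt_trichotomy i (-41) with h1 | h1 | h1
  · rw [if_pos (by omega)]; exact Nat.zero_le _
  · rw [if_pos (by omega)]; exact Nat.zero_le _
  · rcases lt_or_ge i 40 with h2 | h2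
    · rw [if_neg (by omega), if_neg (by omega), if_neg (by omega), if_neg (by omega)]
      have e : (i + 1 + 40).toNat = (i + 40).toNat + 1 := by omega
      rw [e]
      exact h _ (by omega)
    · rcases h2.eq_or_lt with h3 | h3
      · subst h3
        rw [if_neg (by omega), if_neg (by omega), if_neg (by omega), if_pos (by omega)]
        rw [show ((40 : ℤ) + 40).toNat = 80 from rfl, h50]
      · rw [if_neg (by omega), if_pos (by omega), if_neg (by omega), if_pos (by omega)]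

theorem gv_le {l : ℕ} (h0 : gq l 0 = 0) (h50 : gq l 80 = 10000)
    (h : ∀ m < 80, gq l m ≤ gq l (m + 1)) (i : ℤ) : gv l i ≤ 10000 := by
  have h1 : gv l 41 = 10000 := by
    unfold gv
    rw [if_neg (by omega), if_pos (by omega)]
  rcases le_or_gt i 41 with h2 | h2
  · exact (gv_mono h0 h50 h h2).trans h1.le
  · unfold gv
    rw [if_neg (by omega), if_pos (by omega)]

/-- the index set of the mixture -/
abbrev ZZ := Fin colsL.length × Bool

/-- values at the nodes -/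
def gR (z : ZZ) (i : ℤ) : ℝ :=
  if z.2 then 1 - (gv (colsL[z.1.1]).2.1 (-i) : ℝ) / 10000 else (gv (colsL[z.1.1]).2.1 i : ℝ) / 10000

/-- weights -/
def wR (z : ZZ) : ℝ := ((colsL[z.1.1]).1 : ℝ) / 2000000

/-- the functions of the mixture -/
def kR (z : ZZ) (t : ℝ) : ℝ := lp (gR z) (sg (3 / 160) t)

theorem colz (z : ZZ) : gq (colsL[z.1.1]).2.1 0 = 0 ∧ gq (colsL[z.1.1]).2.1 80 = 10000 ∧
    ∀ m < 80, gq (colsL[z.1.1]).2.1 m ≤ gq (colsL[z.1.1]).2.1 (m + 1) := by
  obtain ⟨-, h1, h2, h3, -⟩ := col_check _ (List.getElem_mem z.1.2)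
  exact ⟨h1, h2, h3⟩

theorem gR_mono (z : ZZ) : Monotone (gR z) := by
  obtain ⟨h0, h50, h⟩ := colz z
  have hm := gv_mono h0 h50 h
  intro i j hij
  unfold gR
  split_ifs
  · have : (gv (colsL[z.1.1]).2.1 (-j) : ℝ) ≤ gv (colsL[z.1.1]).2.1 (-i) := by
      exact_mod_cast hm (neg_le_neg hij)
    linarith
  · have : (gv (colsL[z.1.1]).2.1 i : ℝ) ≤ gv (colsL[z.1.1]).2.1 j := by exact_mod_cast hm hij
    linarith

theorem gR_nonneg (z : ZZ) (i : ℤ) : 0 ≤ gR z i := by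
  obtain ⟨h0, h50, h⟩ := colz z
  unfold gR
  split_ifs
  · have : (gv (colsL[z.1.1]).2.1 (-i) : ℝ) ≤ 10000 := by exact_mod_cast gv_le h0 h50 h (-i)
    linarith
  · positivity

theorem gR_le (z : ZZ) (i : ℤ) : gR z i ≤ 1 := by
  obtain ⟨h0, h50, h⟩ := colz z
  unfold gR
  split_ifs
  · have : (0 : ℝ) ≤ gv (colsL[z.1.1]).2.1 (-i) := by positivity
    linarith
  · have : (gv (colsL[z.1.1]).2.1 i : ℝ) ≤ 10000 := by exact_mod_cast gv_le h0 h50 h i
    linarith

theorem gR_low (z : ZZ) {i : ℤ} (hi : i ≤ -40) : gR z i = 0 := by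
  obtain ⟨h0, h50, h⟩ := colz z
  unfold gR gv
  rcases hi.eq_or_lt with h1 | h1
  · subst h1
    split_ifs <;> first | omega | skip
    · rw [show (-(-40 : ℤ) + 40).toNat = 80 from rfl, h50]; norm_num
    · rw [show ((-40 : ℤ) + 40).toNat = 0 from rfl, h0]; norm_num
  · split_ifs <;> first | omega | norm_num

theorem gR_high (z : ZZ) {i : ℤ} (hi : 40 ≤ i) : gR z i = 1 := by
  obtain ⟨h0, h50, h⟩ := colz z
  unfold gR gv
  rcases hi.eq_or_lt with h1 | h1
  · subst h1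
    split_ifs <;> first | omega | skip
    · rw [show (-(40 : ℤ) + 40).toNat = 0 from rfl, h0]; norm_num
    · rw [show ((40 : ℤ) + 40).toNat = 80 from rfl, h50]; norm_num
  · split_ifs <;> first | omega | norm_num

theorem wR_nonneg (z : ZZ) : 0 ≤ wR z := by unfold wR; positivity

/-- sums over the index set -/
theorem sum_ZZ (F : ℕ × ℕ × ℕ → ℝ) (G : ℕ × ℕ × ℕ → ℝ) :
    ∑ z : ZZ, (if z.2 then F (colsL[z.1.1]) else G (colsL[z.1.1]))
      = (colsL.map fun r => F r + G r).sum := by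
  rw [Fintype.sum_prod_type, ← Fin.sum_univ_fun_getElem]
  refine Finset.sum_congr rfl fun i _ => ?_
  rw [Fintype.sum_bool]
  simp

theorem wR_sum : ∑ z : ZZ, wR z = 1 := by
  have h := sum_ZZ (fun r => (r.1 : ℝ) / 2000000) (fun r => (r.1 : ℝ) / 2000000)
  have e : ∑ z : ZZ, wR z = ∑ z : ZZ, (if z.2 then ((colsL[z.1.1]).1 : ℝ) / 2000000
      else ((colsL[z.1.1]).1 : ℝ) / 2000000) := by
    refine Finset.sum_congr rfl fun z _ => ?_
    rw [ite_self]; rfl
  rw [e]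
  rw [h]
  have h2 : (colsL.map fun r => (r.1 : ℝ) / 2000000 + (r.1 : ℝ) / 2000000)
      = colsL.map fun r => ((r.1 : ℕ) : ℝ) * (1 / 1000000) :=
    List.map_congr_left fun r _ => by ring
  rw [h2, List.sum_map_mul_right]
  have h3 : (colsL.map fun r => ((r.1 : ℕ) : ℝ)).sum = (((colsL.map fun r => r.1).sum : ℕ) : ℝ) := by
    rw [Nat.cast_list_sum, List.map_map]; rfl
  rw [h3, wt_check]
  norm_num

/-- first moments -/
def m1 (i : ℤ) : ℝ := ∑ z : ZZ, wR z * gR z i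

/-- second moments -/
def m2 (i j : ℤ) : ℝ := ∑ z : ZZ, wR z * (gR z i * gR z j)

theorem gv_node (l : ℕ) {m : ℕ} (hm : m ≤ 80) : gv l ((m : ℤ) - 40) = gq l m := by
  unfold gv
  rw [if_neg (by omega), if_neg (by omega)]
  congr 1
  omega

theorem gv_node' (l : ℕ) {m : ℕ} (hm : m ≤ 80) :
    gv l (-((m : ℤ) - 40)) = gq l (80 - m) := by
  unfold gv
  rw [if_neg (by omega), if_neg (by omega)]
  congr 1
  omega

theorem getD_le {r : ℕ × ℕ × ℕ} (hr : r ∈ colsL) {m : ℕ} (hm : m ≤ 80) :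
    gq r.2.1 m ≤ 10000 := by
  obtain ⟨-, h0, h50, h, -⟩ := col_check r hr
  have := gv_le h0 h50 h ((m : ℤ) - 40)
  rwa [gv_node _ hm] at this

theorem m1_eq {m : ℕ} (hm : m ≤ 80) : m1 ((m : ℤ) - 40) = (Pv m : ℝ) / 20000000000 := by
  have h := sum_ZZ (fun r => (r.1 : ℝ) / 2000000 * (1 - (gq r.2.1 (80 - m) : ℝ) / 10000))
    (fun r => (r.1 : ℝ) / 2000000 * ((gq r.2.1 m : ℝ) / 10000))
  have e : m1 ((m : ℤ) - 40) = ∑ z : ZZ, (if z.2 then ((colsL[z.1.1]).1 : ℝ) / 2000000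
      * (1 - (gq (colsL[z.1.1]).2.1 (80 - m) : ℝ) / 10000)
      else ((colsL[z.1.1]).1 : ℝ) / 2000000 * ((gq (colsL[z.1.1]).2.1 m : ℝ) / 10000)) := by
    unfold m1
    refine Finset.sum_congr rfl fun z _ => ?_
    unfold wR gR
    rw [gv_node _ hm, gv_node' _ hm]
    split_ifs <;> rfl
  rw [e]
  rw [h, ← P_check m (by omega), Pc, Nat.cast_list_sum, List.map_map, div_eq_mul_inv,
    ← List.sum_map_mul_right]
  refine congrArg List.sum ?_
  refine List.map_congr_left fun r hr => ?_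
  have h1 := getD_le hr (show 80 - m ≤ 80 by omega)
  simp only [Function.comp]
  push_cast [Nat.cast_sub h1]
  ring

theorem m2_eq {m n : ℕ} (hm : m ≤ 80) (hn : n ≤ 80) :
    m2 ((m : ℤ) - 40) ((n : ℤ) - 40) = (Qv m n : ℝ) / 200000000000000 := by
  have h := sum_ZZ (fun r => (r.1 : ℝ) / 2000000 * ((1 - (gq r.2.1 (80 - m) : ℝ) / 10000)
      * (1 - (gq r.2.1 (80 - n) : ℝ) / 10000)))
    (fun r => (r.1 : ℝ) / 2000000 * ((gq r.2.1 m : ℝ) / 10000 * ((gq r.2.1 n : ℝ) / 10000)))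
  have e : m2 ((m : ℤ) - 40) ((n : ℤ) - 40) = ∑ z : ZZ, (if z.2 then ((colsL[z.1.1]).1 : ℝ) / 2000000
      * ((1 - (gq (colsL[z.1.1]).2.1 (80 - m) : ℝ) / 10000)
      * (1 - (gq (colsL[z.1.1]).2.1 (80 - n) : ℝ) / 10000))
      else ((colsL[z.1.1]).1 : ℝ) / 2000000 * ((gq (colsL[z.1.1]).2.1 m : ℝ) / 10000
        * ((gq (colsL[z.1.1]).2.1 n : ℝ) / 10000))) := by
    unfold m2
    refine Finset.sum_congr rfl fun z _ => ?_
    unfold wR gR
    rw [gv_node _ hm, gv_node' _ hm, gv_node _ hn, gv_node' _ hn]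
    split_ifs <;> rfl
  rw [e]
  rw [h, ← Q_check m (by omega) n (by omega), Qc, Nat.cast_list_sum, List.map_map,
    div_eq_mul_inv, ← List.sum_map_mul_right]
  refine congrArg List.sum ?_
  refine List.map_congr_left fun r hr => ?_
  have h1 := getD_le hr (show 80 - m ≤ 80 by omega)
  have h2 := getD_le hr (show 80 - n ≤ 80 by omega)
  simp only [Function.comp]
  push_cast [Nat.cast_sub h1, Nat.cast_sub h2]
  ring

/-- the mirror image -/
def mir (z : ZZ) : ZZ := (z.1, !z.2)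

theorem mir_mir (z : ZZ) : mir (mir z) = z := by
  unfold mir; simp

theorem wR_mir (z : ZZ) : wR (mir z) = wR z := rfl

theorem gR_mir (z : ZZ) (i : ℤ) : gR (mir z) i = 1 - gR z (-i) := by
  obtain ⟨l, b⟩ := z
  cases b
  · simp [gR, mir]
  · simp [gR, mir]

theorem kR_mir (z : ZZ) {t : ℝ} (ht : 0 < t) : kR (mir z) t = 1 - kR z (1 / t) := by
  unfold kR
  rw [sg_inv ht]
  set s := sg (3 / 160) t
  have h1 : ((⌊s⌋ : ℤ) : ℝ) ≤ s := Int.floor_le s
  have h2 : s ≤ ((⌊s⌋ : ℤ) : ℝ) + 1 := (Int.lt_floor_add_one s).le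
  rw [lp_cell (gR (mir z)) h1 h2]
  have h3 : ((-⌊s⌋ - 1 : ℤ) : ℝ) ≤ -s := by push_cast; linarith
  have h4 : -s ≤ ((-⌊s⌋ - 1 : ℤ) : ℝ) + 1 := by push_cast; linarith
  rw [lp_cell (gR z) h3 h4, gR_mir, gR_mir]
  rw [show -(⌊s⌋ + 1) = -⌊s⌋ - 1 by ring, show -⌊s⌋ - 1 + 1 = -⌊s⌋ by ring]
  push_cast
  ring

theorem kR_nonneg (z : ZZ) (t : ℝ) : 0 ≤ kR z t := lp_nonneg (gR_nonneg z) _

theorem kR_le (z : ZZ) (t : ℝ) : kR z t ≤ 1 := lp_le (gR_le z) _

theorem kR_mono (z : ZZ) (x y : ℝ) (hx : 0 < x) (hxy : x ≤ y) : kR z x ≤ kR z y :=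
  lp_mono (gR_mono z) (sg_mono (by norm_num) hx hxy)

theorem sg_of_ge {t : ℝ} (h : 1 ≤ t) : sg (3 / 160) t = (t - 1) / (3 / 160) := by
  unfold sg; rw [if_pos h]

theorem sg_of_lt {t : ℝ} (h : t < 1) : sg (3 / 160) t = -((1 / t - 1) / (3 / 160)) := by
  unfold sg; rw [if_neg (not_le.2 h)]

theorem sg_low {t : ℝ} (h0 : 0 < t) (h : t ≤ 4 / 7) : sg (3 / 160) t ≤ -40 := by
  have h1 : sg (3 / 160) (4 / 7) = -40 := by rw [sg_of_lt (by norm_num)]; norm_num
  rw [← h1]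
  exact sg_mono (by norm_num) h0 h

theorem sg_high {t : ℝ} (h : 7 / 4 ≤ t) : 40 ≤ sg (3 / 160) t := by
  have h1 : sg (3 / 160) (7 / 4) = 40 := by rw [sg_of_ge (by norm_num)]; norm_num
  rw [← h1]
  exact sg_mono (by norm_num) (by norm_num) h

theorem kR_low (z : ZZ) {t : ℝ} (h0 : 0 < t) (h : t ≤ 4 / 7) : kR z t = 0 := by
  have h1 := sg_low h0 h
  unfold kR
  refine le_antisymm ?_ (lp_nonneg (gR_nonneg z) _)
  refine (lp_mono (gR_mono z) h1).trans (le_of_eq ?_)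
  have h2 : ((-40 : ℤ) : ℝ) ≤ -40 := by push_cast; exact le_rfl
  rw [lp_cell (gR z) h2 (by push_cast; norm_num), gR_low z le_rfl]
  push_cast
  ring

theorem kR_high (z : ZZ) {t : ℝ} (h : 7 / 4 ≤ t) : kR z t = 1 := by
  have h1 := sg_high h
  unfold kR
  refine le_antisymm (lp_le (gR_le z) _) ?_
  refine le_trans (le_of_eq ?_) (lp_mono (gR_mono z) h1)
  have h2 : ((40 : ℤ) : ℝ) ≤ 40 := by push_cast; exact le_rfl
  rw [lp_cell (gR z) h2 (by push_cast; norm_num), gR_high z le_rfl]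
  push_cast
  ring

/-- the cost -/
def FF (x y : ℝ) : ℝ := ∑ z : ZZ, wR z * CC x y (kR z x) (kR z (1 / y))

theorem FF_symm {x y : ℝ} (hx : 0 < x) (hy : 0 < y) (hxy : x ≤ y) : FF x y = FF y x := by
  unfold FF
  refine Finset.sum_nbij' mir mir (fun _ _ => mem_univ _) (fun _ _ => mem_univ _)
    (fun z _ => mir_mir z) (fun z _ => mir_mir z) fun z _ => ?_
  rw [wR_mir, kR_mir z hy, kR_mir z (by positivity : 0 < 1 / x), one_div_one_div, CC_le hxy,
    CC_ge hxy]

/-- first moment at a point -/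
def M1 (t : ℝ) : ℝ := ∑ z : ZZ, wR z * kR z t

/-- second moment at two points -/
def M2 (t u : ℝ) : ℝ := ∑ z : ZZ, wR z * (kR z t * kR z u)

theorem FF_ge {x y : ℝ} (hxy : y ≤ x) :
    FF x y = (1 + x) - x * M1 x - M1 (1 / y) + (1 + y) * M2 x (1 / y) := by
  unfold FF M1 M2
  have h : ∀ z : ZZ, wR z * CC x y (kR z x) (kR z (1 / y))
      = (1 + x) * wR z - x * (wR z * kR z x) - wR z * kR z (1 / y)
        + (1 + y) * (wR z * (kR z x * kR z (1 / y))) := by
    intro z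
    rw [CC_ge hxy]
    unfold gam
    ring
  rw [Finset.sum_congr rfl fun z _ => h z, Finset.sum_add_distrib, Finset.sum_sub_distrib,
    Finset.sum_sub_distrib, ← Finset.mul_sum, ← Finset.mul_sum, ← Finset.mul_sum, wR_sum, mul_one]

/-- first moment in a cell -/
theorem M1_cell {t : ℝ} {m : ℕ} (hm : m ≤ 79) (h1 : (m : ℝ) - 40 ≤ sg (3 / 160) t)
    (h2 : sg (3 / 160) t ≤ (m : ℝ) - 39) :
    M1 t = l2 (fun p => (Pv (m + p) : ℝ) / 20000000000) (sg (3 / 160) t - ((m : ℝ) - 40)) := by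
  unfold M1 l2
  have h1' : (((m : ℤ) - 40 : ℤ) : ℝ) ≤ sg (3 / 160) t := by push_cast; exact h1
  have h2' : sg (3 / 160) t ≤ (((m : ℤ) - 40 : ℤ) : ℝ) + 1 := by push_cast; linarith
  have h : ∀ z : ZZ, wR z * kR z t = (1 - (sg (3 / 160) t - ((m : ℝ) - 40)))
      * (wR z * gR z ((m : ℤ) - 40))
      + (sg (3 / 160) t - ((m : ℝ) - 40)) * (wR z * gR z (((m + 1 : ℕ) : ℤ) - 40)) := by
    intro z
    unfold kR
    rw [lp_cell (gR z) h1' h2']
    rw [show ((m : ℤ) - 40 + 1) = (((m + 1 : ℕ) : ℤ) - 40) by push_cast; ring]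
    push_cast
    ring
  rw [Finset.sum_congr rfl fun z _ => h z, Finset.sum_add_distrib, ← Finset.mul_sum,
    ← Finset.mul_sum]
  have e1 := m1_eq (show m ≤ 80 by omega)
  have e2 := m1_eq (show m + 1 ≤ 80 by omega)
  unfold m1 at e1 e2
  rw [e1, e2]
  simp only [add_zero]

/-- second moment in a cell -/
theorem M2_cell {t u : ℝ} {m n : ℕ} (hm : m ≤ 79) (hn : n ≤ 79)
    (h1 : (m : ℝ) - 40 ≤ sg (3 / 160) t) (h2 : sg (3 / 160) t ≤ (m : ℝ) - 39)
    (g1 : (n : ℝ) - 40 ≤ sg (3 / 160) u) (g2 : sg (3 / 160) u ≤ (n : ℝ) - 39) :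
    M2 t u = l4 (fun p r => (Qv (m + p) (n + r) : ℝ) / 200000000000000)
      (sg (3 / 160) t - ((m : ℝ) - 40)) (sg (3 / 160) u - ((n : ℝ) - 40)) := by
  unfold M2 l4
  have h1' : (((m : ℤ) - 40 : ℤ) : ℝ) ≤ sg (3 / 160) t := by push_cast; exact h1
  have h2' : sg (3 / 160) t ≤ (((m : ℤ) - 40 : ℤ) : ℝ) + 1 := by push_cast; linarith
  have g1' : (((n : ℤ) - 40 : ℤ) : ℝ) ≤ sg (3 / 160) u := by push_cast; exact g1
  have g2' : sg (3 / 160) u ≤ (((n : ℤ) - 40 : ℤ) : ℝ) + 1 := by push_cast; linarith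
  set φ := sg (3 / 160) t - ((m : ℝ) - 40) with hφ
  set ψ := sg (3 / 160) u - ((n : ℝ) - 40) with hψ
  have h : ∀ z : ZZ, wR z * (kR z t * kR z u)
      = (1 - φ) * (1 - ψ) * (wR z * (gR z ((m : ℤ) - 40) * gR z ((n : ℤ) - 40)))
      + (1 - φ) * ψ * (wR z * (gR z ((m : ℤ) - 40) * gR z (((n + 1 : ℕ) : ℤ) - 40)))
      + φ * (1 - ψ) * (wR z * (gR z (((m + 1 : ℕ) : ℤ) - 40) * gR z ((n : ℤ) - 40)))
      + φ * ψ * (wR z * (gR z (((m + 1 : ℕ) : ℤ) - 40) * gR z (((n + 1 : ℕ) : ℤ) - 40))) := by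
    intro z
    unfold kR
    rw [lp_cell (gR z) h1' h2', lp_cell (gR z) g1' g2']
    rw [show ((m : ℤ) - 40 + 1) = (((m + 1 : ℕ) : ℤ) - 40) by push_cast; ring,
      show ((n : ℤ) - 40 + 1) = (((n + 1 : ℕ) : ℤ) - 40) by push_cast; ring]
    rw [show sg (3 / 160) t - (((m : ℤ) - 40 : ℤ) : ℝ) = φ by rw [hφ]; push_cast; ring,
      show sg (3 / 160) u - (((n : ℤ) - 40 : ℤ) : ℝ) = ψ by rw [hψ]; push_cast; ring]
    ring
  rw [Finset.sum_congr rfl fun z _ => h z, Finset.sum_add_distrib, Finset.sum_add_distrib,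
    Finset.sum_add_distrib, ← Finset.mul_sum, ← Finset.mul_sum, ← Finset.mul_sum, ← Finset.mul_sum]
  have e1 := m2_eq (show m ≤ 80 by omega) (show n ≤ 80 by omega)
  have e2 := m2_eq (show m ≤ 80 by omega) (show n + 1 ≤ 80 by omega)
  have e3 := m2_eq (show m + 1 ≤ 80 by omega) (show n ≤ 80 by omega)
  have e4 := m2_eq (show m + 1 ≤ 80 by omega) (show n + 1 ≤ 80 by omega)
  unfold m2 at e1 e2 e3 e4
  rw [e1, e2, e3, e4]
  simp only [add_zero]
  ring

/-- choice of a cell -/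
theorem cell_exists {s : ℝ} (h1 : -40 ≤ s) (h2 : s ≤ 40) : ∃ m : ℕ, m ≤ 79 ∧ (m : ℝ) - 40 ≤ s ∧
    s ≤ (m : ℝ) - 39 ∧ (0 ≤ s → 40 ≤ m) ∧ (s < 0 → m ≤ 39) ∧ (s < (m : ℝ) - 39 ∨ m = 79) := by
  rcases h2.eq_or_lt with h | h
  · refine ⟨79, le_rfl, ?_, ?_, fun _ => by norm_num, fun h3 => ?_, Or.inr rfl⟩
    · rw [h]; norm_num
    · rw [h]; norm_num
    · linarith
  · have a0 : 0 ≤ s + 40 := by linarith
    have f1 := Nat.floor_le a0
    have f2 := Nat.lt_floor_add_one (s + 40)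
    refine ⟨⌊s + 40⌋₊, ?_, by linarith, by linarith, fun h3 => ?_, fun h3 => ?_,
      Or.inl (by linarith)⟩
    · have : (⌊s + 40⌋₊ : ℝ) < 80 := by linarith
      have : ⌊s + 40⌋₊ < 80 := by exact_mod_cast this
      omega
    · exact Nat.le_floor (by push_cast; linarith)
    · have : (⌊s + 40⌋₊ : ℝ) < 40 := by linarith
      have : ⌊s + 40⌋₊ < 40 := by exact_mod_cast this
      omega

theorem tn_ge {m : ℕ} (hm : 40 ≤ m) (φ : ℝ) :
    l2 (fun p => (tn (m + p) : ℝ) / 160) φ = 1 + 3 / 160 * ((m : ℝ) - 40 + φ) := by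
  have h0 : tn (m + 0) = 160 + 3 * (m - 40) := by
    unfold tn; rw [if_pos (by omega)]; simp
  have h1 : tn (m + 1) = 160 + 3 * (m - 40) + 3 := by
    unfold tn; rw [if_pos (by omega)]; omega
  unfold l2
  simp only [h0, h1]
  push_cast [Nat.cast_sub hm]
  ring

theorem tn_lt {m : ℕ} (hm : m ≤ 39) (φ : ℝ) :
    l2 (fun p => (tn (m + p) : ℝ) / 160) φ = 1 - 3 / 160 * ((m : ℝ) - 40 + φ) := by
  have h0 : tn (m + 0) = 160 + 3 * (40 - m) := by
    unfold tn; rw [if_neg (by omega)]; simp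
  have h1 : tn (m + 1) = 160 + 3 * (39 - m) := by
    unfold tn
    split_ifs
    · omega
    · omega
  unfold l2
  simp only [h0, h1]
  push_cast [Nat.cast_sub hm, Nat.cast_sub (show m ≤ 40 by omega)]
  ring

/-- the corner condition -/
theorem corners {f : ℕ → ℕ → ℕ → ℕ → ℝ} (h : ∀ p < 3, ∀ r < 3,
      f (cpair p).1 (cpair p).2 (cpair r).1 (cpair r).2
      + f (cpair p).2 (cpair p).1 (cpair r).1 (cpair r).2
      + f (cpair p).1 (cpair p).2 (cpair r).2 (cpair r).1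
      + f (cpair p).2 (cpair p).1 (cpair r).2 (cpair r).1 ≤ 0) :
    ∀ p1 < 2, ∀ p2 < 2, ∀ r1 < 2, ∀ r2 < 2,
      f p1 p2 r1 r2 + f p2 p1 r1 r2 + f p1 p2 r2 r1 + f p2 p1 r2 r1 ≤ 0 := by
  have a00 := h 0 (by norm_num) 0 (by norm_num)
  have a01 := h 0 (by norm_num) 1 (by norm_num)
  have a02 := h 0 (by norm_num) 2 (by norm_num)
  have a10 := h 1 (by norm_num) 0 (by norm_num)
  have a11 := h 1 (by norm_num) 1 (by norm_num)
  have a12 := h 1 (by norm_num) 2 (by norm_num)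
  have a20 := h 2 (by norm_num) 0 (by norm_num)
  have a21 := h 2 (by norm_num) 1 (by norm_num)
  have a22 := h 2 (by norm_num) 2 (by norm_num)
  simp [cpair] at a00 a01 a02 a10 a11 a12 a20 a21 a22
  intro p1 hp1 p2 hp2 r1 hr1 r2 hr2
  interval_cases p1 <;> interval_cases p2 <;> interval_cases r1 <;> interval_cases r2 <;> linarith

/-- the cost in a cell of the first kind -/
theorem cellA {m n : ℕ} (hm : 40 ≤ m) (hm' : m ≤ 79) (hn : 40 ≤ n) (hn' : n ≤ 79) {φ ψ : ℝ}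
    (p0 : 0 ≤ φ) (p1 : φ ≤ 1) (r0 : 0 ≤ ψ) (r1 : ψ ≤ 1) :
    wsum (fun p1 p2 r1 r2 => (tn (n + r1) : ℝ) / 160 * (1 + (tn (m + p1) : ℝ) / 160)
      - (tn (n + r1) : ℝ) / 160 * ((tn (m + p1) : ℝ) / 160) * ((Pv (m + p2) : ℝ) / 20000000000)
      - (tn (n + r1) : ℝ) / 160 * ((Pv (n + r2) : ℝ) / 20000000000)
      + ((tn (n + r1) : ℝ) / 160 + 1) * ((Qv (m + p2) (n + r2) : ℝ) / 200000000000000)
      - 157764 / 100000 * ((tn (n + r1) : ℝ) / 160)) φ ψ ≤ 0 := by
  refine wsum_nonpos p0 p1 r0 r1 (corners fun p hp r hr => ?_)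
  have h := A_check (m - 40) (by omega) (n - 40) (by omega) p hp r hr
  rw [show 40 + (m - 40) = m by omega, show 40 + (n - 40) = n by omega] at h
  unfold okA LA RA at h
  have h' := of_decide_eq_true h
  have h2 := (Nat.cast_le (α := ℝ)).2 h'
  push_cast at h2
  linarith

/-- the cost in a cell of the second kind -/
theorem cellB {m n : ℕ} (hm : 40 ≤ m) (hm' : m ≤ 79) (hn : n ≤ 39) (hmn : 79 ≤ m + n) {φ ψ : ℝ}
    (p0 : 0 ≤ φ) (p1 : φ ≤ 1) (r0 : 0 ≤ ψ) (r1 : ψ ≤ 1) :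
    wsum (fun p1 p2 r1 r2 => (1 + (tn (m + p1) : ℝ) / 160)
      - (tn (m + p1) : ℝ) / 160 * ((Pv (m + p2) : ℝ) / 20000000000)
      - (Pv (n + r2) : ℝ) / 20000000000
      + (1 + (tn (n + r1) : ℝ) / 160) * ((Qv (m + p2) (n + r2) : ℝ) / 200000000000000)
      - 157764 / 100000) φ ψ ≤ 0 := by
  refine wsum_nonpos p0 p1 r0 r1 (corners fun p hp r hr => ?_)
  have h := B_check (m - 40) (by omega) n (by omega) (by omega) p hp r hr
  rw [show 40 + (m - 40) = m by omega] at h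
  unfold okB LB RB at h
  have h' := of_decide_eq_true h
  have h2 := (Nat.cast_le (α := ℝ)).2 h'
  push_cast at h2
  linarith

/-- the cost in a cell of the third kind -/
theorem cellC {m n : ℕ} (hm : m ≤ 39) (hn : 40 ≤ n) (hn' : n ≤ 79) (hmn : 79 ≤ m + n) {φ ψ : ℝ}
    (p0 : 0 ≤ φ) (p1 : φ ≤ 1) (r0 : 0 ≤ ψ) (r1 : ψ ≤ 1) :
    wsum (fun p1 p2 r1 r2 => (tn (n + r1) : ℝ) / 160 * (1 + (tn (m + p1) : ℝ) / 160)
      - (tn (n + r1) : ℝ) / 160 * ((Pv (m + p2) : ℝ) / 20000000000)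
      - (tn (m + p1) : ℝ) / 160 * ((tn (n + r1) : ℝ) / 160) * ((Pv (n + r2) : ℝ) / 20000000000)
      + (tn (m + p1) : ℝ) / 160 * ((tn (n + r1) : ℝ) / 160 + 1)
        * ((Qv (m + p2) (n + r2) : ℝ) / 200000000000000)
      - 157764 / 100000 * ((tn (m + p1) : ℝ) / 160 * ((tn (n + r1) : ℝ) / 160))) φ ψ ≤ 0 := by
  refine wsum_nonpos p0 p1 r0 r1 (corners fun p hp r hr => ?_)
  have h := C_check m (by omega) (n - 40) (by omega) (by omega) p hp r hr
  rw [show 40 + (n - 40) = n by omega] at h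
  unfold okC LX RX at h
  have h' := of_decide_eq_true h
  have h2 := (Nat.cast_le (α := ℝ)).2 h'
  push_cast at h2
  linarith

/-- the central region -/
theorem FF_mid {x y : ℝ} (hx : 4 / 7 ≤ x) (hx' : x ≤ 7 / 4) (hy : 4 / 7 ≤ y) (hy' : y ≤ 7 / 4)
    (hxy : y ≤ x) : FF x y ≤ 157764 / 100000 := by
  have hx0 : 0 < x := by linarith
  have hy0 : 0 < y := by linarith
  set s := sg (3 / 160) x with hs
  set u := sg (3 / 160) (1 / y) with hu
  have hsu : 0 ≤ s + u := by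
    rw [hs, hu, sg_inv hy0]
    have := sg_mono (h := 3 / 160) (by norm_num) hy0 hxy
    linarith
  have s1 : -40 ≤ s := by
    have h1 : sg (3 / 160) (4 / 7) = -40 := by rw [sg_of_lt (by norm_num)]; norm_num
    rw [← h1]
    exact sg_mono (by norm_num) (by norm_num) hx
  have s2 : s ≤ 40 := by
    have h1 : sg (3 / 160) (7 / 4) = 40 := by rw [sg_of_ge (by norm_num)]; norm_num
    rw [← h1]
    exact sg_mono (by norm_num) hx0 hx'
  have u1 : -40 ≤ u := by
    have h1 : sg (3 / 160) (7 / 4) = 40 := by rw [sg_of_ge (by norm_num)]; norm_num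
    rw [hu, sg_inv hy0, neg_le_neg_iff, ← h1]
    exact sg_mono (by norm_num) hy0 hy'
  have u2 : u ≤ 40 := by
    have h1 : sg (3 / 160) (4 / 7) = -40 := by rw [sg_of_lt (by norm_num)]; norm_num
    have := sg_mono (h := 3 / 160) (by norm_num) (by norm_num) hy
    rw [hu, sg_inv hy0]
    linarith
  obtain ⟨m, hm, m1, m2, m3, m4, m5⟩ := cell_exists s1 s2
  obtain ⟨n, hn, n1, n2, n3, n4, n5⟩ := cell_exists u1 u2
  have hmn : 79 ≤ m + n := by
    rcases m5 with h | h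
    · rcases n5 with h' | h'
      · have : (78 : ℝ) < m + n := by linarith
        have : 78 < m + n := by exact_mod_cast this
        omega
      · omega
    · omega
  have p0 : 0 ≤ s - ((m : ℝ) - 40) := by linarith
  have p1 : s - ((m : ℝ) - 40) ≤ 1 := by linarith
  have r0 : 0 ≤ u - ((n : ℝ) - 40) := by linarith
  have r1 : u - ((n : ℝ) - 40) ≤ 1 := by linarith
  rw [FF_ge hxy, M1_cell hm m1 m2, M1_cell hn n1 n2, M2_cell hm hn m1 m2 n1 n2]
  rw [← hs, ← hu]
  rcases lt_or_ge s 0 with c1 | c1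
  · have hm24 := m4 c1
    have c2 : 0 ≤ u := by linarith
    have hn25 := n3 c2
    have hX : 1 / x = l2 (fun p => (tn (m + p) : ℝ) / 160) (s - ((m : ℝ) - 40)) := by
      rw [tn_lt hm24]
      have hx1 : x < 1 := by
        by_contra h
        rw [hs, sg_of_ge (not_lt.1 h)] at c1
        have : 0 ≤ (x - 1) / (3 / 160) := div_nonneg (by linarith [not_lt.1 h]) (by norm_num)
        linarith
      rw [hs, sg_of_lt hx1]
      ring
    have hT : 1 / y = l2 (fun p => (tn (n + p) : ℝ) / 160) (u - ((n : ℝ) - 40)) := by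
      rw [tn_ge hn25]
      have hy1 : 1 ≤ 1 / y := by
        rw [le_div_iff₀ hy0]
        by_contra h
        have h1 : 1 / y < 1 := by rw [div_lt_one hy0]; linarith
        have h2 : 1 < 1 / (1 / y) := by rw [one_div_one_div]; linarith
        rw [hu, sg_of_lt h1] at c2
        have h3 : 0 < (1 / (1 / y) - 1) / (3 / 160) := div_pos (by linarith) (by norm_num)
        linarith
      rw [hu, sg_of_ge hy1]
      ring
    have key := cellC hm24 hn25 hn hmn p0 p1 r0 r1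
    rw [caseC (fun p => (tn (m + p) : ℝ) / 160) (fun r => (tn (n + r) : ℝ) / 160)
      (fun p => (Pv (m + p) : ℝ) / 20000000000) (fun r => (Pv (n + r) : ℝ) / 20000000000)
      (fun p r => (Qv (m + p) (n + r) : ℝ) / 200000000000000)] at key
    rw [← hX, ← hT] at key
    have hxy0 : 0 < x * y := mul_pos hx0 hy0
    have := mul_nonpos_of_nonneg_of_nonpos hxy0.le key
    have e : ∀ a b q : ℝ, x * y * (1 / y * (1 + 1 / x) - 1 / y * a - 1 / x * (1 / y) * b
        + 1 / x * (1 / y + 1) * q - 157764 / 100000 * (1 / x * (1 / y)))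
        = (1 + x) - x * a - b + (1 + y) * q - 157764 / 100000 := by
      intro a b q
      field_simp
      ring
    rw [e] at this
    linarith
  · have hm25 := m3 c1
    have hx1 : 1 ≤ x := by
      by_contra h
      have h1 : x < 1 := not_le.1 h
      have h2 : 1 < 1 / x := by rw [lt_div_iff₀ hx0]; linarith
      rw [hs, sg_of_lt h1] at c1
      have h3 : 0 < (1 / x - 1) / (3 / 160) := div_pos (by linarith) (by norm_num)
      linarith
    have hX : x = l2 (fun p => (tn (m + p) : ℝ) / 160) (s - ((m : ℝ) - 40)) := by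
      rw [tn_ge hm25, hs, sg_of_ge hx1]
      ring
    rcases lt_or_ge u 0 with c2 | c2
    · have hn24 := n4 c2
      have hT : y = l2 (fun p => (tn (n + p) : ℝ) / 160) (u - ((n : ℝ) - 40)) := by
        rw [tn_lt hn24]
        have hy1 : 1 / y < 1 := by
          by_contra h
          rw [hu, sg_of_ge (not_lt.1 h)] at c2
          have : 0 ≤ (1 / y - 1) / (3 / 160) := div_nonneg (by linarith [not_lt.1 h]) (by norm_num)
          linarith
        rw [hu, sg_of_lt hy1, one_div_one_div]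
        ring
      have key := cellB hm25 hm hn24 hmn p0 p1 r0 r1
      rw [caseB (fun p => (tn (m + p) : ℝ) / 160) (fun r => (tn (n + r) : ℝ) / 160)
        (fun p => (Pv (m + p) : ℝ) / 20000000000) (fun r => (Pv (n + r) : ℝ) / 20000000000)
        (fun p r => (Qv (m + p) (n + r) : ℝ) / 200000000000000)] at key
      rw [← hX, ← hT] at key
      linarith
    · have hn25 := n3 c2
      have hT : 1 / y = l2 (fun p => (tn (n + p) : ℝ) / 160) (u - ((n : ℝ) - 40)) := by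
        rw [tn_ge hn25]
        have hy1 : 1 ≤ 1 / y := by
          rw [le_div_iff₀ hy0]
          by_contra h
          have h1 : 1 / y < 1 := by rw [div_lt_one hy0]; linarith
          have h2 : 1 < 1 / (1 / y) := by rw [one_div_one_div]; linarith
          rw [hu, sg_of_lt h1] at c2
          have h3 : 0 < (1 / (1 / y) - 1) / (3 / 160) := div_pos (by linarith) (by norm_num)
          linarith
        rw [hu, sg_of_ge hy1]
        ring
      have key := cellA hm25 hm hn25 hn p0 p1 r0 r1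
      rw [caseA (fun p => (tn (m + p) : ℝ) / 160) (fun r => (tn (n + r) : ℝ) / 160)
        (fun p => (Pv (m + p) : ℝ) / 20000000000) (fun r => (Pv (n + r) : ℝ) / 20000000000)
        (fun p r => (Qv (m + p) (n + r) : ℝ) / 200000000000000)] at key
      rw [← hX, ← hT] at key
      have := mul_nonpos_of_nonneg_of_nonpos hy0.le key
      have e : ∀ a b q : ℝ, y * (1 / y * (1 + x) - 1 / y * x * a - 1 / y * b
          + (1 / y + 1) * q - 157764 / 100000 * (1 / y))
          = (1 + x) - x * a - b + (1 + y) * q - 157764 / 100000 := by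
        intro a b q
        field_simp
      rw [e] at this
      linarith

/-- the lower triangle -/
theorem FF_tri {x y : ℝ} (hy : 0 < y) (hxy : y ≤ x) : FF x y ≤ 157764 / 100000 := by
  have hx : 0 < x := hy.trans_le hxy
  rcases lt_or_ge x (4 / 7) with h1 | h1
  · have h2 : 7 / 4 ≤ 1 / y := by
      rw [le_div_iff₀ hy]; linarith
    have : FF x y = x := by
      unfold FF
      have e : ∀ z : ZZ, wR z * CC x y (kR z x) (kR z (1 / y)) = wR z * x := by
        intro z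
        rw [kR_low z hx h1.le, kR_high z h2, CC_ge hxy]
        unfold gam; ring
      rw [Finset.sum_congr rfl fun z _ => e z, ← Finset.sum_mul, wR_sum, one_mul]
    rw [this]; linarith
  rcases lt_or_ge (7 / 4) y with h2 | h2
  · have h3 : 1 / y ≤ 4 / 7 := by
      rw [div_le_iff₀ hy]; linarith
    have : FF x y = 1 := by
      unfold FF
      have e : ∀ z : ZZ, wR z * CC x y (kR z x) (kR z (1 / y)) = wR z := by
        intro z
        rw [kR_high z (by linarith : 7 / 4 ≤ x), kR_low z (by positivity) h3, CC_ge hxy]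
        unfold gam; ring
      rw [Finset.sum_congr rfl fun z _ => e z, wR_sum]
    rw [this]; norm_num
  · have hm1 : 4 / 7 ≤ min x (7 / 4) := le_min h1 (by norm_num)
    have hm2 : max y (4 / 7) ≤ 7 / 4 := max_le h2 (by norm_num)
    have hm3 : max y (4 / 7) ≤ min x (7 / 4) :=
      max_le (le_min hxy h2) (le_min h1 (by norm_num))
    refine le_trans ?_ (FF_mid hm1 (min_le_right _ _) (le_max_right _ _) hm2 hm3)
    unfold FF
    refine Finset.sum_le_sum fun z _ => mul_le_mul_of_nonneg_left ?_ (wR_nonneg z)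
    have ex : kR z (min x (7 / 4)) = kR z x ∧ (1 - kR z x) * x = (1 - kR z x) * min x (7 / 4) := by
      rcases le_total x (7 / 4) with h | h
      · rw [min_eq_left h]; exact ⟨rfl, rfl⟩
      · rw [min_eq_right h, kR_high z h, kR_high z le_rfl]; exact ⟨rfl, by ring⟩
    have ey : kR z (1 / max y (4 / 7)) = kR z (1 / y) := by
      rcases le_total (4 / 7) y with h | h
      · rw [max_eq_left h]
      · rw [max_eq_right h, kR_high z (by norm_num), kR_high z (by
          rw [le_div_iff₀ hy]; linarith)]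
    rw [ex.1, ey, CC_ge hxy, CC_ge hm3]
    have h4 : 0 ≤ kR z x * kR z (1 / y) := mul_nonneg (kR_nonneg _ _) (kR_nonneg _ _)
    have h5 := mul_le_mul_of_nonneg_right (le_max_left y (4 / 7)) h4
    have h6 := ex.2
    unfold gam
    nlinarith

theorem FF_le {x y : ℝ} (hx : 0 < x) (hy : 0 < y) : FF x y ≤ 157764 / 100000 := by
  rcases le_total y x with h | h
  · exact FF_tri hy h
  · rw [FF_symm hx hy h]; exact FF_tri hx h

/-- **Numerical upper bound.** -/
theorem mix_upper : MixG (157764 / 100000) :=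
  RM.toMixG ⟨ZZ, wR, kR, wR_nonneg, wR_sum, kR_nonneg, kR_le, kR_mono⟩ fun _ _ hx hy =>
    FF_le hx hy

end

end Pool.Agent.Lib.MP_2c6a66_lc.UX
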