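import Pool.Agent.Lib.MP_2c6a66_lc.UT.Ind
import Pool.Agent.Lib.MP_2c6a66_lc.UX.Defs

/-! Universally truthful mechanisms from mixtures of functions of one variable. -/

namespace Pool.Agent.Lib.MP_2c6a66_lc.UX

open scoped NNReal Topology ENNReal
open Finset Filter MeasureTheory
open UT (Prof mks DT HasUT ind ind_01 ind_nonneg ind_le sum0 sum1)

noncomputable section

/-! ### A single job -/

open Classical in
/-- machine 0 gets the job -/
def al (κ : ℝ → ℝ) (u a b : ℝ) : Prop := a = 0 ∨ (b ≠ 0 ∧ u < κ (b / a))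

theorem al_down0 {κ : ℝ → ℝ} (hκ : ∀ x y, 0 < x → x ≤ y → κ x ≤ κ y) {u a a' b : ℝ}
    (hb : 0 ≤ b) (ha' : 0 ≤ a') (haa : a' ≤ a) (h : al κ u a b) : al κ u a' b := by
  rcases eq_or_lt_of_le ha' with h0 | h0
  · exact Or.inl h0.symm
  · rcases h with h | ⟨h1, h2⟩
    · exfalso; linarith
    · refine Or.inr ⟨h1, h2.trans_le (hκ _ _ ?_ ?_)⟩
      · have : 0 < b := lt_of_le_of_ne hb (Ne.symm h1)
        have : 0 < a := by linarith
        positivity
      · exact div_le_div_of_nonneg_left hb h0 haa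

theorem al_down1 {κ : ℝ → ℝ} (hκ : ∀ x y, 0 < x → x ≤ y → κ x ≤ κ y) {u a b b' : ℝ}
    (ha : 0 ≤ a) (hb' : 0 ≤ b') (hbb : b' ≤ b) (h : ¬ al κ u a b) : ¬ al κ u a b' := by
  intro h'
  apply h
  rcases h' with h' | ⟨h1, h2⟩
  · exact Or.inl h'
  · have hb0 : 0 < b' := lt_of_le_of_ne hb' (Ne.symm h1)
    rcases eq_or_lt_of_le ha with h0 | h0
    · exact Or.inl h0.symm
    · refine Or.inr ⟨by linarith, h2.trans_le (hκ _ _ (by positivity) ?_)⟩
      exact div_le_div_of_nonneg_right hbb h0.le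

open Classical in
/-- threshold payments are truthful -/
theorem thr (D : Set ℝ) (_hD : ∀ x ∈ D, 0 ≤ x) (hdown : ∀ x ∈ D, ∀ y, 0 ≤ y → y ≤ x → y ∈ D)
    {t r : ℝ} (ht : 0 ≤ t) (hr : 0 ≤ r) :
    (if r ∈ D then sSup D - t else 0) ≤ if t ∈ D then sSup D - t else 0 := by
  by_cases h1 : r ∈ D <;> by_cases h2 : t ∈ D
  · rw [if_pos h1, if_pos h2]
  · rw [if_pos h1, if_neg h2]
    have : sSup D ≤ t := csSup_le ⟨r, h1⟩ fun x hx => by
      by_contra hc
      push Not at hc
      exact h2 (hdown x hx t ht hc.le)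
    linarith
  · rw [if_neg h1, if_pos h2]
    have : t ≤ sSup D := le_csSup ⟨r, fun x hx => by
      by_contra hc
      push Not at hc
      exact h1 (hdown x hx r hr hc.le)⟩ h2
    linarith
  · rw [if_neg h1, if_neg h2]

/-! ### The mechanism -/

variable {n : ℕ}

open Classical in
/-- allocation -/
def XX (κ : ℝ → ℝ) (u : Fin n → ℝ) (b : Prof n) (k : Fin n) : Fin 2 :=
  if al κ (u k) (b 0 k) (b 1 k) then 0 else 1

open Classical in
/-- payments -/
def PP (κ : ℝ → ℝ) (u : Fin n → ℝ) (b : Prof n) (i : Fin 2) : ℝ :=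
  if i = 0 then ∑ k, (if al κ (u k) (b 0 k) (b 1 k)
    then sSup {a | 0 ≤ a ∧ al κ (u k) a (b 1 k)} else 0)
  else ∑ k, (if ¬ al κ (u k) (b 0 k) (b 1 k)
    then sSup {t | 0 ≤ t ∧ ¬ al κ (u k) (b 0 k) t} else 0)

theorem XX_dt {κ : ℝ → ℝ} (hκ : ∀ x y, 0 < x → x ≤ y → κ x ≤ κ y) (u : Fin n → ℝ) :
    DT (XX κ u) (PP κ u) := by
  classical
  intro b hb i r hr
  have hX0 : ∀ (b' : Prof n) k, XX κ u b' k = 0 ↔ al κ (u k) (b' 0 k) (b' 1 k) := by
    intro b' k
    unfold XX
    split_ifs with h <;> simp [h]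
  have hX1 : ∀ (b' : Prof n) k, XX κ u b' k = 1 ↔ ¬ al κ (u k) (b' 0 k) (b' 1 k) := by
    intro b' k
    unfold XX
    split_ifs with h <;> simp [h]
  have hi : i = 0 ∨ i = 1 := by omega
  rcases hi with rfl | rfl
  · have e : ∀ b' : Prof n, PP κ u b' 0 - ∑ k with XX κ u b' k = 0, b 0 k
        = ∑ k, (if al κ (u k) (b' 0 k) (b' 1 k)
          then sSup {a | 0 ≤ a ∧ al κ (u k) a (b' 1 k)} - b 0 k else 0) := by
      intro b'
      unfold PP
      rw [if_pos rfl, Finset.sum_filter, ← Finset.sum_sub_distrib]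
      refine Finset.sum_congr rfl fun k _ => ?_
      simp only [hX0]
      split_ifs <;> simp
    rw [e, e]
    refine Finset.sum_le_sum fun k _ => ?_
    have e1 : Function.update b 0 r 0 k = r k := by rw [Function.update_self]
    have e2 : Function.update b 0 r 1 k = b 1 k := by rw [Function.update_of_ne (by decide)]
    rw [e1, e2]
    have key := thr {a | 0 ≤ a ∧ al κ (u k) a (b 1 k)} (fun x hx => hx.1)
      (fun x hx y hy hyx => ⟨hy, al_down0 hκ (hb 1 k) hy hyx hx.2⟩) (hb 0 k) (hr k)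
    simpa [hb 0 k, hr k] using key
  · have e : ∀ b' : Prof n, PP κ u b' 1 - ∑ k with XX κ u b' k = 1, b 1 k
        = ∑ k, (if ¬ al κ (u k) (b' 0 k) (b' 1 k)
          then sSup {t | 0 ≤ t ∧ ¬ al κ (u k) (b' 0 k) t} - b 1 k else 0) := by
      intro b'
      unfold PP
      rw [if_neg (by decide), Finset.sum_filter, ← Finset.sum_sub_distrib]
      refine Finset.sum_congr rfl fun k _ => ?_
      simp only [hX1]
      split_ifs <;> simp
    rw [e, e]
    refine Finset.sum_le_sum fun k _ => ?_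
    have e1 : Function.update b 1 r 1 k = r k := by rw [Function.update_self]
    have e2 : Function.update b 1 r 0 k = b 0 k := by rw [Function.update_of_ne (by decide)]
    rw [e1, e2]
    have key := thr {t | 0 ≤ t ∧ ¬ al κ (u k) (b 0 k) t} (fun x hx => hx.1)
      (fun x hx y hy hyx => ⟨hy, al_down1 hκ (hb 0 k) hy hyx hx.2⟩) (hb 1 k) (hr k)
    simpa [hb 1 k, hr k] using key

/-! ### Thresholds -/

/-- uniform distribution on the unit interval -/
def nu01 : Measure ℝ := volume.restrict (Set.Ico (0 : ℝ) 1)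

instance : IsProbabilityMeasure nu01 := ⟨by
  unfold nu01
  rw [Measure.restrict_apply MeasurableSet.univ, Set.univ_inter, Real.volume_Ico]
  simp⟩

/-- indicator of an inequality -/
def iv (u p : ℝ) : ℝ := if u < p then 1 else 0

theorem iv_01 (u p : ℝ) : iv u p = 0 ∨ iv u p = 1 := by
  unfold iv; split_ifs <;> simp

theorem int_iv {p : ℝ} (h0 : 0 ≤ p) (h1 : p ≤ 1) : ∫ u, iv u p ∂nu01 = p := by
  have e : (fun u => iv u p) = Set.indicator (Set.Iio p) (fun _ => (1 : ℝ)) := by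
    funext u
    unfold iv Set.indicator
    simp
  rw [e, integral_indicator measurableSet_Iio, setIntegral_const, smul_eq_mul, mul_one]
  unfold nu01
  rw [Measure.real, Measure.restrict_apply measurableSet_Iio]
  have : Set.Iio p ∩ Set.Ico 0 1 = Set.Ico 0 p := by
    ext x
    simp only [Set.mem_inter_iff, Set.mem_Iio, Set.mem_Ico]
    constructor
    · rintro ⟨a, b, -⟩; exact ⟨b, a⟩
    · rintro ⟨a, b⟩; exact ⟨b, a, by linarith⟩
  rw [this, Real.volume_Ico, sub_zero, ENNReal.toReal_ofReal h0]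

theorem pi_one (k : Fin n) {p : ℝ} (h0 : 0 ≤ p) (h1 : p ≤ 1) :
    ∫ u : Fin n → ℝ, iv (u k) p ∂(Measure.pi fun _ => nu01) = p := by
  classical
  have e : (fun u : Fin n → ℝ => iv (u k) p)
      = fun u => ∏ i, (fun i x => if i = k then iv x p else 1) i (u i) := by
    funext u
    simp only
    rw [Finset.prod_ite_eq' univ k (fun i => iv (u i) p)]
    simp
  rw [e]
  have h := integral_fintype_prod_eq_prod (ι := Fin n) (E := fun _ => ℝ)
    (fun (i : Fin n) (x : ℝ) => if i = k then iv x p else 1) (μ := fun _ => nu01)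
  rw [h]
  have : ∀ i : Fin n, ∫ x, (if i = k then iv x p else 1) ∂nu01 = if i = k then p else 1 := by
    intro i
    split_ifs
    · exact int_iv h0 h1
    · simp
  simp only [this]
  simp

theorem pi_two {k l : Fin n} (hkl : k ≠ l) {p q : ℝ} (h0 : 0 ≤ p) (h1 : p ≤ 1) (h2 : 0 ≤ q)
    (h3 : q ≤ 1) :
    ∫ u : Fin n → ℝ, iv (u k) p * iv (u l) q ∂(Measure.pi fun _ => nu01) = p * q := by
  classical
  have e : (fun u : Fin n → ℝ => iv (u k) p * iv (u l) q)
      = fun u => ∏ i, (fun i x => (if i = k then iv x p else 1) * (if i = l then iv x q else 1))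
        i (u i) := by
    funext u
    simp only
    rw [Finset.prod_mul_distrib, Finset.prod_ite_eq' univ k (fun i => iv (u i) p),
      Finset.prod_ite_eq' univ l (fun i => iv (u i) q)]
    simp
  rw [e]
  have h := integral_fintype_prod_eq_prod (ι := Fin n) (E := fun _ => ℝ)
    (fun (i : Fin n) (x : ℝ) => (if i = k then iv x p else 1) * (if i = l then iv x q else 1))
    (μ := fun _ => nu01)
  rw [h]
  have : ∀ i : Fin n, ∫ x, ((if i = k then iv x p else 1) * (if i = l then iv x q else 1)) ∂nu01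
      = (if i = k then p else 1) * (if i = l then q else 1) := by
    intro i
    by_cases hk : i = k
    · have hl : i ≠ l := by rw [hk]; exact hkl
      simp only [hk, if_true, if_neg hkl, mul_one]
      exact int_iv h0 h1
    · by_cases hl : i = l
      · simp only [hl, if_true, if_neg (Ne.symm hkl), one_mul]
        exact int_iv h2 h3
      · simp [hk, hl]
  simp only [this]
  rw [Finset.prod_mul_distrib]
  simp

/-! ### Expectations -/

variable {Ω : Type} [MeasurableSpace Ω]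

/-- the sample space -/
def Pm (μ : Measure Ω) (n : ℕ) : Measure (Ω × (Fin n → ℝ)) := μ.prod (Measure.pi fun _ => nu01)

instance (μ : Measure Ω) [IsProbabilityMeasure μ] : IsProbabilityMeasure (Pm μ n) := by
  unfold Pm; infer_instance

theorem meas_iv {p : Ω → ℝ} (hp : Measurable p) (k : Fin n) :
    Measurable fun z : Ω × (Fin n → ℝ) => iv (z.2 k) (p z.1) := by
  unfold iv
  refine Measurable.ite (measurableSet_lt ?_ ?_) measurable_const measurable_const
  · exact (measurable_pi_apply k).comp measurable_snd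
  · exact hp.comp measurable_fst

theorem bdd_integrable {α : Type} [MeasurableSpace α] (μ : Measure α) [IsFiniteMeasure μ]
    {f : α → ℝ} (hf : Measurable f) {C : ℝ} (h : ∀ x, |f x| ≤ C) : Integrable f μ :=
  Integrable.of_bound hf.aestronglyMeasurable C (Eventually.of_forall fun x => by
    rw [Real.norm_eq_abs]; exact h x)

theorem abs_iv (u p : ℝ) : |iv u p| ≤ 1 := by
  rcases iv_01 u p with h | h <;> rw [h] <;> norm_num

theorem E_one (μ : Measure Ω) [IsProbabilityMeasure μ] {p : Ω → ℝ} (hp : Measurable p)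
    (h0 : ∀ ω, 0 ≤ p ω) (h1 : ∀ ω, p ω ≤ 1) (k : Fin n) :
    ∫ z, iv (z.2 k) (p z.1) ∂(Pm μ n) = ∫ ω, p ω ∂μ := by
  unfold Pm
  rw [integral_prod]
  · refine integral_congr_ae (Eventually.of_forall fun ω => ?_)
    exact pi_one k (h0 ω) (h1 ω)
  · exact bdd_integrable (Pm μ n) (meas_iv hp k) (C := 1) fun z => abs_iv _ _

theorem E_two (μ : Measure Ω) [IsProbabilityMeasure μ] {p q : Ω → ℝ} (hp : Measurable p)
    (hq : Measurable q) (h0 : ∀ ω, 0 ≤ p ω) (h1 : ∀ ω, p ω ≤ 1) (h2 : ∀ ω, 0 ≤ q ω)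
    (h3 : ∀ ω, q ω ≤ 1) {k l : Fin n} (hkl : k ≠ l) :
    ∫ z, iv (z.2 k) (p z.1) * iv (z.2 l) (q z.1) ∂(Pm μ n) = ∫ ω, p ω * q ω ∂μ := by
  unfold Pm
  rw [integral_prod]
  · refine integral_congr_ae (Eventually.of_forall fun ω => ?_)
    exact pi_two hkl (h0 ω) (h1 ω) (h2 ω) (h3 ω)
  · refine bdd_integrable (Pm μ n) ((meas_iv hp k).mul (meas_iv hq l)) (C := 1) fun z => ?_
    rw [abs_mul]
    exact mul_le_one₀ (abs_iv _ _) (abs_nonneg _) (abs_iv _ _)

theorem CC_lin (x y a b : ℝ) : CC x y a b = (1 + x) + (-x) * a + (max x y - (1 + x)) * b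
    + (y + 1 + x - max x y) * (a * b) := by
  unfold CC; ring

theorem int_lin {α : Type} [MeasurableSpace α] (μ : Measure α) [IsProbabilityMeasure μ]
    {f g h : α → ℝ} (hf : Integrable f μ) (hg : Integrable g μ) (hh : Integrable h μ)
    (A B C D : ℝ) : ∫ a, (A + B * f a + C * g a + D * h a) ∂μ
      = A + B * ∫ a, f a ∂μ + C * ∫ a, g a ∂μ + D * ∫ a, h a ∂μ := by
  have a1 : Integrable (fun a => A + B * f a) μ := (integrable_const _).add (hf.const_mul _)
  have a2 : Integrable (fun a => A + B * f a + C * g a) μ := a1.add (hg.const_mul _)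
  rw [integral_add a2 (hh.const_mul _), integral_add a1 (hg.const_mul _),
    integral_add (integrable_const _) (hf.const_mul _), integral_const_mul, integral_const_mul,
    integral_const_mul, integral_const]
  simp

theorem E_CC (μ : Measure Ω) [IsProbabilityMeasure μ] {p q : Ω → ℝ} (hp : Measurable p)
    (hq : Measurable q) (h0 : ∀ ω, 0 ≤ p ω) (h1 : ∀ ω, p ω ≤ 1) (h2 : ∀ ω, 0 ≤ q ω)
    (h3 : ∀ ω, q ω ≤ 1) {k l : Fin n} (hkl : k ≠ l) (x y : ℝ) :
    ∫ z, CC x y (iv (z.2 k) (p z.1)) (iv (z.2 l) (q z.1)) ∂(Pm μ n)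
      = ∫ ω, CC x y (p ω) (q ω) ∂μ := by
  have i1 : Integrable (fun z : Ω × (Fin n → ℝ) => iv (z.2 k) (p z.1)) (Pm μ n) :=
    bdd_integrable _ (meas_iv hp k) (C := 1) fun z => abs_iv _ _
  have i2 : Integrable (fun z : Ω × (Fin n → ℝ) => iv (z.2 l) (q z.1)) (Pm μ n) :=
    bdd_integrable _ (meas_iv hq l) (C := 1) fun z => abs_iv _ _
  have i3 : Integrable (fun z : Ω × (Fin n → ℝ) => iv (z.2 k) (p z.1) * iv (z.2 l) (q z.1))
      (Pm μ n) :=
    bdd_integrable _ ((meas_iv hp k).mul (meas_iv hq l)) (C := 1) fun z => by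
      rw [abs_mul]
      exact mul_le_one₀ (abs_iv _ _) (abs_nonneg _) (abs_iv _ _)
  have habs : ∀ {r : ℝ}, 0 ≤ r → r ≤ 1 → |r| ≤ 1 := fun h h' => by rwa [abs_of_nonneg h]
  have j1 : Integrable p μ := bdd_integrable _ hp (C := 1) fun ω => habs (h0 ω) (h1 ω)
  have j2 : Integrable q μ := bdd_integrable _ hq (C := 1) fun ω => habs (h2 ω) (h3 ω)
  have j3 : Integrable (fun ω => p ω * q ω) μ :=
    bdd_integrable _ (hp.mul hq) (C := 1) fun ω => by
      rw [abs_mul]
      exact mul_le_one₀ (habs (h0 ω) (h1 ω)) (abs_nonneg _) (habs (h2 ω) (h3 ω))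
  simp only [CC_lin]
  rw [int_lin (Pm μ n) i1 i2 i3, int_lin μ j1 j2 j3, E_one μ hp h0 h1, E_one μ hq h2 h3,
    E_two μ hp hq h0 h1 h2 h3 hkl]

/-! ### The cost -/

theorem max_convex {ι : Type} (s : Finset ι) (w u v : ι → ℝ) (hw : ∀ i, 0 ≤ w i) :
    max (∑ i ∈ s, w i * u i) (∑ i ∈ s, w i * v i) ≤ ∑ i ∈ s, w i * max (u i) (v i) :=
  max_le (Finset.sum_le_sum fun i _ => mul_le_mul_of_nonneg_left (le_max_left _ _) (hw i))
    (Finset.sum_le_sum fun i _ => mul_le_mul_of_nonneg_left (le_max_right _ _) (hw i))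

/-- the purely combinatorial convexity bound -/
theorem pair_bound {n : ℕ} (α β : Option (Fin n) → ℝ) (F0 F1 G0 G1 : Option (Fin n) → ℝ)
    (hα : ∀ i, 0 ≤ α i) (hβ : ∀ i, 0 ≤ β i) {M : ℝ} (hA : ∑ i, α i = M) (hB : ∑ i, β i = M)
    {L0 L1 : ℝ} (hL0 : L0 = ∑ i, α i * F0 i + ∑ j, β j * G0 j)
    (hL1 : L1 = ∑ i, α i * F1 i + ∑ j, β j * G1 j) (hM : 0 ≤ M) :
    M * max L0 L1 ≤ ∑ i, ∑ j, α i * β j * max (F0 i + G0 j) (F1 i + G1 j) := by
  have e : ∀ F G : Option (Fin n) → ℝ, M * (∑ i, α i * F i + ∑ j, β j * G j)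
      = ∑ p : Option (Fin n) × Option (Fin n), (α p.1 * β p.2) * (F p.1 + G p.2) := by
    intro F G
    rw [Fintype.sum_prod_type]
    have e1 : ∀ i, ∑ j, α i * β j * (F i + G j) = M * (α i * F i) + α i * ∑ j, β j * G j := by
      intro i
      have : ∀ j, α i * β j * (F i + G j) = (α i * F i) * β j + α i * (β j * G j) :=
        fun j => by ring
      simp only [this]
      rw [Finset.sum_add_distrib, ← Finset.mul_sum, hB, ← Finset.mul_sum]
      ring
    simp only [e1]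
    rw [Finset.sum_add_distrib, ← Finset.mul_sum, ← Finset.sum_mul, hA]
    ring
  rw [mul_max_of_nonneg _ _ hM, hL0, hL1, e, e, ← Fintype.sum_prod_type']
  exact max_convex univ (fun p : Option (Fin n) × Option (Fin n) => α p.1 * β p.2) _ _
    fun p => mul_nonneg (hα _) (hβ _)

theorem CC_left {x y a b : ℝ} (hx : 0 ≤ x) (hy : 0 ≤ y) (ha : 0 ≤ a) (ha1 : a ≤ 1) (hb : 0 ≤ b)
    (hb1 : b ≤ 1) : a + x * (1 - a) ≤ CC x y a b := by
  unfold CC
  have h1 := mul_nonneg hy (mul_nonneg ha hb)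
  have h2 := mul_le_mul_of_nonneg_right (le_max_left x y) (mul_nonneg (sub_nonneg.2 ha1) hb)
  have h3 := mul_nonneg (sub_nonneg.2 ha1) (sub_nonneg.2 hb1)
  nlinarith

theorem CC_right {x y a b : ℝ} (hx : 0 ≤ x) (hy : 0 ≤ y) (ha : 0 ≤ a) (ha1 : a ≤ 1)
    (hb : 0 ≤ b) (hb1 : b ≤ 1) : y * b + (1 - b) ≤ CC x y a b := by
  unfold CC
  have h1 := mul_nonneg ha hb
  have h2 := mul_le_mul_of_nonneg_right (le_max_right x y) (mul_nonneg (sub_nonneg.2 ha1) hb)
  have h3 := mul_nonneg hx (mul_nonneg (sub_nonneg.2 ha1) (sub_nonneg.2 hb1))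
  nlinarith

/-- for indicators the pair cost is a makespan -/
theorem CC_01 {x y a b : ℝ} (hx : 0 ≤ x) (hy : 0 ≤ y) (ha : a = 0 ∨ a = 1) (hb : b = 0 ∨ b = 1) :
    max (a + y * b) (x * (1 - a) + (1 - b)) = CC x y a b := by
  unfold CC
  rcases ha with rfl | rfl <;> rcases hb with rfl | rfl <;> norm_num
  · rw [max_eq_right (by linarith)]; ring
  · rw [max_comm]
  · linarith

end

end Pool.Agent.Lib.MP_2c6a66_lc.UX
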