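import Pool.Agent.Lib.MP_2c6a66_lc.UX.Upper

/-! Universally truthful mechanisms from mixtures of functions of one variable: the cost. -/

namespace Pool.Agent.Lib.MP_2c6a66_lc.UX

open scoped NNReal Topology ENNReal
open Finset Filter MeasureTheory
open UT (Prof mks DT HasUT ind ind_01 ind_nonneg ind_le sum0 sum1)

noncomputable section

variable {n : ℕ} {Ω : Type} [MeasurableSpace Ω]

theorem int_fin {α : Type} [MeasurableSpace α] (μ : Measure α) [IsFiniteMeasure μ]
    {X : α → (Fin n → Fin 2)} (hX : Measurable X) (Φ : (Fin n → Fin 2) → ℝ) :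
    Integrable (fun a => Φ (X a)) μ :=
  (Integrable.of_finite (μ := μ.map X) (f := Φ)).comp_measurable hX

theorem XX_meas {k : Ω → ℝ → ℝ} (hmeas : ∀ x, Measurable fun ω => k ω x) (b : Prof n) :
    Measurable fun z : Ω × (Fin n → ℝ) => XX (k z.1) z.2 b := by
  classical
  refine measurable_pi_lambda _ fun j => ?_
  unfold XX
  refine Measurable.ite ?_ measurable_const measurable_const
  have : {z : Ω × (Fin n → ℝ) | al (k z.1) (z.2 j) (b 0 j) (b 1 j)}
      = {_z | b 0 j = 0} ∪ ({_z | b 1 j ≠ 0} ∩ {z | z.2 j < k z.1 (b 1 j / b 0 j)}) := by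
    ext z; rfl
  rw [this]
  refine (MeasurableSet.const _).union ((MeasurableSet.const _).inter (measurableSet_lt ?_ ?_))
  · exact (measurable_pi_apply j).comp measurable_snd
  · exact (hmeas _).comp measurable_fst

theorem mks_ind (b : Prof n) (σ : Fin n → Fin 2) :
    mks b σ = max (∑ k, ind (σ k) * b 0 k) (∑ k, (1 - ind (σ k)) * b 1 k) := by
  unfold mks
  rw [sum0, sum1]

theorem E_left (μ : Measure Ω) [IsProbabilityMeasure μ] {p : Ω → ℝ} (hp : Measurable p)
    (h0 : ∀ ω, 0 ≤ p ω) (h1 : ∀ ω, p ω ≤ 1) (k : Fin n) {x : ℝ} (hx : 0 < x) :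
    ∫ z, max (iv (z.2 k) (p z.1)) (x * (1 - iv (z.2 k) (p z.1))) ∂(Pm μ n)
      = ∫ ω, (p ω + x * (1 - p ω)) ∂μ := by
  have e : ∀ a : ℝ, (a = 0 ∨ a = 1) → max a (x * (1 - a)) = x + (1 - x) * a := by
    rintro a (rfl | rfl)
    · rw [max_eq_right (by linarith)]; ring
    · rw [max_eq_left (by linarith)]; ring
  have e1 : ∀ z : Ω × (Fin n → ℝ), max (iv (z.2 k) (p z.1)) (x * (1 - iv (z.2 k) (p z.1)))
      = x + (1 - x) * iv (z.2 k) (p z.1) := fun z => e _ (iv_01 _ _)
  have e2 : ∀ ω, p ω + x * (1 - p ω) = x + (1 - x) * p ω := fun ω => by ring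
  simp only [e1, e2]
  have i1 : Integrable (fun z : Ω × (Fin n → ℝ) => iv (z.2 k) (p z.1)) (Pm μ n) :=
    bdd_integrable _ (meas_iv hp k) (C := 1) fun z => abs_iv _ _
  have j1 : Integrable p μ := bdd_integrable _ hp (C := 1) fun ω => by
    rw [abs_of_nonneg (h0 ω)]; exact h1 ω
  rw [integral_add (integrable_const _) (i1.const_mul _),
    integral_add (integrable_const _) (j1.const_mul _), integral_const_mul, integral_const_mul,
    E_one μ hp h0 h1, integral_const, integral_const]
  simp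

theorem E_right (μ : Measure Ω) [IsProbabilityMeasure μ] {p : Ω → ℝ} (hp : Measurable p)
    (h0 : ∀ ω, 0 ≤ p ω) (h1 : ∀ ω, p ω ≤ 1) (k : Fin n) {y : ℝ} (hy : 0 < y) :
    ∫ z, max (y * iv (z.2 k) (p z.1)) (1 - iv (z.2 k) (p z.1)) ∂(Pm μ n)
      = ∫ ω, (y * p ω + (1 - p ω)) ∂μ := by
  have e : ∀ a : ℝ, (a = 0 ∨ a = 1) → max (y * a) (1 - a) = 1 + (y - 1) * a := by
    rintro a (rfl | rfl)
    · rw [max_eq_right (by linarith)]; ring
    · rw [max_eq_left (by linarith)]; ring
  have e1 : ∀ z : Ω × (Fin n → ℝ), max (y * iv (z.2 k) (p z.1)) (1 - iv (z.2 k) (p z.1))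
      = 1 + (y - 1) * iv (z.2 k) (p z.1) := fun z => e _ (iv_01 _ _)
  have e2 : ∀ ω, y * p ω + (1 - p ω) = 1 + (y - 1) * p ω := fun ω => by ring
  simp only [e1, e2]
  have i1 : Integrable (fun z : Ω × (Fin n → ℝ) => iv (z.2 k) (p z.1)) (Pm μ n) :=
    bdd_integrable _ (meas_iv hp k) (C := 1) fun z => abs_iv _ _
  have j1 : Integrable p μ := bdd_integrable _ hp (C := 1) fun ω => by
    rw [abs_of_nonneg (h0 ω)]; exact h1 ω
  rw [integral_add (integrable_const _) (i1.const_mul _),
    integral_add (integrable_const _) (j1.const_mul _), integral_const_mul, integral_const_mul,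
    E_one μ hp h0 h1, integral_const, integral_const]
  simp

theorem CC_meas {p q : Ω → ℝ} (hp : Measurable p) (hq : Measurable q) (x y : ℝ) :
    Measurable fun ω => CC x y (p ω) (q ω) := by
  unfold CC; fun_prop

theorem CC_abs {x y a b : ℝ} (hx : 0 ≤ x) (hy : 0 ≤ y) (ha : 0 ≤ a) (ha1 : a ≤ 1) (hb : 0 ≤ b)
    (hb1 : b ≤ 1) : |CC x y a b| ≤ 4 * (1 + x + y) := by
  unfold CC
  have h1 := mul_nonneg ha hb
  have h2 := mul_nonneg ha (sub_nonneg.2 hb1)
  have h3 := mul_nonneg (sub_nonneg.2 ha1) hb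
  have h4 := mul_nonneg (sub_nonneg.2 ha1) (sub_nonneg.2 hb1)
  have hm0 : 0 ≤ max x y := le_max_of_le_left hx
  have hm1 : max x y ≤ x + y := max_le (by linarith) (by linarith)
  have g1 : a * b ≤ 1 := mul_le_one₀ ha1 hb hb1
  have g2 : a * (1 - b) ≤ 1 := by nlinarith
  have g3 : (1 - a) * b ≤ 1 := by nlinarith
  have g4 : (1 - a) * (1 - b) ≤ 1 := by nlinarith
  rw [abs_of_nonneg (by positivity)]
  have k1 := mul_le_mul_of_nonneg_left g1 (show 0 ≤ 1 + y by linarith)
  have k3 := mul_le_mul_of_nonneg_left g3 hm0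
  have k4 := mul_le_mul_of_nonneg_left g4 (show 0 ≤ 1 + x by linarith)
  linarith

/-- **Mixtures give universally truthful mechanisms with the same ratio.** -/
theorem of_mixture {c : ℝ} (h : MixG c) (n : ℕ) : HasUT n c := by
  classical
  obtain ⟨Ω, _, μ, _, k, hmono, h01, hmeas, hcost⟩ := h
  have k0 : ∀ ω x, 0 ≤ k ω x := fun ω x => (h01 ω x).1
  have k1 : ∀ ω x, k ω x ≤ 1 := fun ω x => (h01 ω x).2
  refine ⟨Ω × (Fin n → ℝ), inferInstance, Pm μ n, inferInstance, fun z => XX (k z.1) z.2,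
    fun z => PP (k z.1) z.2, fun z => XX_dt (hmono z.1) z.2, fun b _ => XX_meas hmeas b,
    fun b hb τ => ?_⟩
  -- integrability in the mixture
  have hCCint : ∀ x y x' y' : ℝ, 0 ≤ x → 0 ≤ y → Integrable (fun ω => CC x y (k ω x') (k ω y')) μ :=
    fun x y x' y' hx hy => bdd_integrable μ (CC_meas (hmeas x') (hmeas y') x y)
      (C := 4 * (1 + x + y)) fun ω => CC_abs hx hy (k0 _ _) (k1 _ _) (k0 _ _) (k1 _ _)
  have hlin : ∀ (A B x : ℝ), Integrable (fun ω => A * k ω x + B * (1 - k ω x)) μ := by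
    intro A B x
    have j1 : Integrable (fun ω => k ω x) μ := bdd_integrable _ (hmeas x) (C := 1) fun ω => by
      rw [abs_of_nonneg (k0 ω x)]; exact k1 ω x
    exact (j1.const_mul _).add (((integrable_const _).sub j1).const_mul _)
  have hleft : ∀ x : ℝ, 0 < x → ∫ ω, (k ω x + x * (1 - k ω x)) ∂μ ≤ c := by
    intro x hx
    refine le_trans (integral_mono ?_ (hCCint x 1 x (1 / 1) hx.le zero_le_one) fun ω =>
      CC_left hx.le zero_le_one (k0 _ _) (k1 _ _) (k0 _ _) (k1 _ _)) (hcost x 1 hx zero_lt_one)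
    have := hlin 1 x x
    simpa only [one_mul] using this
  have hright : ∀ y : ℝ, 0 < y → ∫ ω, (y * k ω (1 / y) + (1 - k ω (1 / y))) ∂μ ≤ c := by
    intro y hy
    refine le_trans (integral_mono ?_ (hCCint 1 y 1 (1 / y) zero_le_one hy.le) fun ω =>
      CC_right zero_le_one hy.le (k0 _ _) (k1 _ _) (k0 _ _) (k1 _ _))
      (hcost 1 y zero_lt_one hy)
    have := hlin y 1 (1 / y)
    simpa only [one_mul] using this
  have hc : 0 ≤ c := by
    refine le_trans (integral_nonneg fun ω => ?_) (hleft 1 zero_lt_one)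
    have := k0 ω 1
    have := k1 ω 1
    simp only [Pi.zero_apply]
    linarith
  set M := mks b τ with hM
  set X : Ω × (Fin n → ℝ) → Fin n → Fin 2 := fun z => XX (k z.1) z.2 b with hX
  have hXm : Measurable X := XX_meas hmeas b
  -- facts about the allocation
  have f0 : ∀ z j, b 0 j = 0 → ind (X z j) = 1 := by
    intro z j hj
    have : X z j = 0 := by
      have hal : al (k z.1) (z.2 j) (b 0 j) (b 1 j) := Or.inl hj
      simp only [hX]; unfold XX; rw [if_pos hal]
    rw [this]; simp [ind]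
  have f1 : ∀ z j, b 0 j ≠ 0 → b 1 j = 0 → ind (X z j) = 0 := by
    intro z j hj hj1
    have : X z j = 1 := by
      simp only [hX]; unfold XX
      rw [if_neg]
      rintro (h | ⟨h, -⟩)
      · exact hj h
      · exact h hj1
    rw [this]; simp [ind]
  have f2 : ∀ z j, b 0 j ≠ 0 → b 1 j ≠ 0 → ind (X z j) = iv (z.2 j) (k z.1 (b 1 j / b 0 j)) := by
    intro z j hj hj1
    have : al (k z.1) (z.2 j) (b 0 j) (b 1 j) ↔ z.2 j < k z.1 (b 1 j / b 0 j) := by
      constructor
      · rintro (h | ⟨-, h⟩)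
        · exact absurd h hj
        · exact h
      · intro h; exact Or.inr ⟨hj1, h⟩
    simp only [hX]
    unfold XX iv ind
    by_cases h : z.2 j < k z.1 (b 1 j / b 0 j)
    · rw [if_pos (this.2 h), if_pos h]; simp
    · rw [if_neg (fun h' => h (this.1 h')), if_neg h]; simp
  have hMe : M = max (∑ j, ind (τ j) * b 0 j) (∑ j, (1 - ind (τ j)) * b 1 j) := mks_ind b τ
  set A := ∑ j, ind (τ j) * b 0 j with hA
  set B := ∑ j, (1 - ind (τ j)) * b 1 j with hB
  have hAM : A ≤ M := by rw [hMe]; exact le_max_left _ _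
  have hBM : B ≤ M := by rw [hMe]; exact le_max_right _ _
  have hA0 : 0 ≤ A := Finset.sum_nonneg fun j _ => mul_nonneg (ind_nonneg _) (hb 0 j)
  have hM0 : 0 ≤ M := hA0.trans hAM
  -- the data of the pair bound
  let α : Option (Fin n) → ℝ := fun i => i.elim (M - A) fun j => ind (τ j) * b 0 j
  let β : Option (Fin n) → ℝ := fun i => i.elim (M - B) fun j => (1 - ind (τ j)) * b 1 j
  let F0 : (Fin n → Fin 2) → Option (Fin n) → ℝ := fun σ i => i.elim 0 fun j => ind (σ j)
  let F1 : (Fin n → Fin 2) → Option (Fin n) → ℝ := fun σ i => i.elim 0 fun j =>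
    (b 1 j / b 0 j) * (1 - ind (σ j))
  let G0 : (Fin n → Fin 2) → Option (Fin n) → ℝ := fun σ i => i.elim 0 fun j =>
    (b 0 j / b 1 j) * ind (σ j)
  let G1 : (Fin n → Fin 2) → Option (Fin n) → ℝ := fun σ i => i.elim 0 fun j => 1 - ind (σ j)
  have hα : ∀ i, 0 ≤ α i := by
    intro i
    cases i with
    | none => exact sub_nonneg.2 hAM
    | some j => exact mul_nonneg (ind_nonneg _) (hb 0 j)
  have hβ : ∀ i, 0 ≤ β i := by
    intro i
    cases i with
    | none => exact sub_nonneg.2 hBM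
    | some j => exact mul_nonneg (by linarith [ind_le (τ j)]) (hb 1 j)
  have hαs : ∑ i, α i = M := by
    rw [Fintype.sum_option]
    change M - A + A = M
    ring
  have hβs : ∑ i, β i = M := by
    rw [Fintype.sum_option]
    change M - B + B = M
    ring
  have hL0 : ∀ z, ∑ j, ind (X z j) * b 0 j = ∑ i, α i * F0 (X z) i + ∑ i, β i * G0 (X z) i := by
    intro z
    rw [Fintype.sum_option, Fintype.sum_option]
    change _ = (M - A) * 0 + ∑ j, (ind (τ j) * b 0 j) * ind (X z j)
      + ((M - B) * 0 + ∑ j, ((1 - ind (τ j)) * b 1 j) * ((b 0 j / b 1 j) * ind (X z j)))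
    rw [mul_zero, mul_zero, zero_add, zero_add, ← Finset.sum_add_distrib]
    refine Finset.sum_congr rfl fun j _ => ?_
    by_cases h1 : b 1 j = 0
    · by_cases h0 : b 0 j = 0
      · simp [h0]
      · rw [f1 z j h0 h1]; ring
    · have : b 1 j * (b 0 j / b 1 j) = b 0 j := by field_simp
      linear_combination (-(1 - ind (τ j)) * ind (X z j)) * this
  have hL1 : ∀ z, ∑ j, (1 - ind (X z j)) * b 1 j
      = ∑ i, α i * F1 (X z) i + ∑ i, β i * G1 (X z) i := by
    intro z
    rw [Fintype.sum_option, Fintype.sum_option]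
    change _ = (M - A) * 0 + ∑ j, (ind (τ j) * b 0 j) * ((b 1 j / b 0 j) * (1 - ind (X z j)))
      + ((M - B) * 0 + ∑ j, ((1 - ind (τ j)) * b 1 j) * (1 - ind (X z j)))
    rw [mul_zero, mul_zero, zero_add, zero_add, ← Finset.sum_add_distrib]
    refine Finset.sum_congr rfl fun j _ => ?_
    by_cases h0 : b 0 j = 0
    · rw [f0 z j h0]; ring
    · have : b 0 j * (b 1 j / b 0 j) = b 1 j := by field_simp
      linear_combination (-(ind (τ j)) * (1 - ind (X z j))) * this
  have hpb : ∀ z, M * mks b (X z) ≤ ∑ i, ∑ j, α i * β j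
      * max (F0 (X z) i + G0 (X z) j) (F1 (X z) i + G1 (X z) j) := by
    intro z
    rw [mks_ind]
    exact pair_bound α β _ _ _ _ hα hβ hαs hβs (hL0 z) (hL1 z) hM0
  -- structure of the terms
  have hF : ∀ i, α i ≠ 0 → (∀ z, F0 (X z) i = 0 ∧ F1 (X z) i = 0) ∨ ∃ j x, τ j = 0 ∧ 0 < x ∧
      ∀ z, F0 (X z) i = iv (z.2 j) (k z.1 x) ∧ F1 (X z) i = x * (1 - iv (z.2 j) (k z.1 x)) := by
    intro i hi
    cases i with
    | none => left; intro z; exact ⟨rfl, rfl⟩
    | some j =>
      have hi' : ind (τ j) * b 0 j ≠ 0 := hi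
      have hτ : τ j = 0 := by
        by_contra hne
        apply hi'
        simp [ind, hne]
      have h0 : b 0 j ≠ 0 := fun h => hi' (by rw [h, mul_zero])
      by_cases h1 : b 1 j = 0
      · left
        intro z
        change ind (X z j) = 0 ∧ (b 1 j / b 0 j) * (1 - ind (X z j)) = 0
        rw [f1 z j h0 h1, h1]
        simp
      · right
        refine ⟨j, b 1 j / b 0 j, hτ, ?_, fun z => ?_⟩
        · have := lt_of_le_of_ne (hb 0 j) (Ne.symm h0)
          have := lt_of_le_of_ne (hb 1 j) (Ne.symm h1)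
          positivity
        · change ind (X z j) = _ ∧ (b 1 j / b 0 j) * (1 - ind (X z j)) = _
          rw [f2 z j h0 h1]
          exact ⟨rfl, rfl⟩
  have hG : ∀ i, β i ≠ 0 → (∀ z, G0 (X z) i = 0 ∧ G1 (X z) i = 0) ∨ ∃ j y, τ j = 1 ∧ 0 < y ∧
      ∀ z, G0 (X z) i = y * iv (z.2 j) (k z.1 (1 / y))
        ∧ G1 (X z) i = 1 - iv (z.2 j) (k z.1 (1 / y)) := by
    intro i hi
    cases i with
    | none => left; intro z; exact ⟨rfl, rfl⟩
    | some j =>
      have hi' : (1 - ind (τ j)) * b 1 j ≠ 0 := hi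
      have hτ : τ j = 1 := by
        by_contra hne
        apply hi'
        have : τ j = 0 := by omega
        simp [ind, this]
      have h1 : b 1 j ≠ 0 := fun h => hi' (by rw [h, mul_zero])
      by_cases h0 : b 0 j = 0
      · left
        intro z
        change (b 0 j / b 1 j) * ind (X z j) = 0 ∧ 1 - ind (X z j) = 0
        rw [f0 z j h0, h0]
        simp
      · right
        refine ⟨j, b 0 j / b 1 j, hτ, ?_, fun z => ?_⟩
        · have := lt_of_le_of_ne (hb 0 j) (Ne.symm h0)
          have := lt_of_le_of_ne (hb 1 j) (Ne.symm h1)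
          positivity
        · change (b 0 j / b 1 j) * ind (X z j) = _ ∧ 1 - ind (X z j) = _
          rw [f2 z j h0 h1, one_div_div]
          exact ⟨rfl, rfl⟩
  -- expectation of the terms
  have hE : ∀ i j, α i ≠ 0 → β j ≠ 0 → ∫ z, max (F0 (X z) i + G0 (X z) j)
      (F1 (X z) i + G1 (X z) j) ∂(Pm μ n) ≤ c := by
    intro i j hi hj
    rcases hF i hi with hf | ⟨a, x, hτa, hx, hf⟩
    · rcases hG j hj with hg | ⟨l, y, hτl, hy, hg⟩
      · have : ∀ z, max (F0 (X z) i + G0 (X z) j) (F1 (X z) i + G1 (X z) j) = 0 := by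
          intro z; rw [(hf z).1, (hf z).2, (hg z).1, (hg z).2]; simp
        simp only [this, integral_zero]
        exact hc
      · have : ∀ z, max (F0 (X z) i + G0 (X z) j) (F1 (X z) i + G1 (X z) j)
            = max (y * iv (z.2 l) (k z.1 (1 / y))) (1 - iv (z.2 l) (k z.1 (1 / y))) := by
          intro z; rw [(hf z).1, (hf z).2, (hg z).1, (hg z).2, zero_add, zero_add]
        simp only [this]
        rw [E_right μ (hmeas (1 / y)) (fun ω => k0 ω _) (fun ω => k1 ω _) l hy]
        exact hright y hy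
    · rcases hG j hj with hg | ⟨l, y, hτl, hy, hg⟩
      · have : ∀ z, max (F0 (X z) i + G0 (X z) j) (F1 (X z) i + G1 (X z) j)
            = max (iv (z.2 a) (k z.1 x)) (x * (1 - iv (z.2 a) (k z.1 x))) := by
          intro z; rw [(hf z).1, (hf z).2, (hg z).1, (hg z).2, add_zero, add_zero]
        simp only [this]
        rw [E_left μ (hmeas x) (fun ω => k0 ω _) (fun ω => k1 ω _) a hx]
        exact hleft x hx
      · have hal : a ≠ l := by
          intro h
          rw [h, hτl] at hτa
          exact absurd hτa (by decide)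
        have : ∀ z, max (F0 (X z) i + G0 (X z) j) (F1 (X z) i + G1 (X z) j)
            = CC x y (iv (z.2 a) (k z.1 x)) (iv (z.2 l) (k z.1 (1 / y))) := by
          intro z
          rw [(hf z).1, (hf z).2, (hg z).1, (hg z).2]
          exact CC_01 hx.le hy.le (iv_01 _ _) (iv_01 _ _)
        simp only [this]
        rw [E_CC μ (hmeas x) (hmeas (1 / y)) (fun ω => k0 ω _) (fun ω => k1 ω _)
          (fun ω => k0 ω _) (fun ω => k1 ω _) hal]
        exact hcost x y hx hy
  -- conclusion
  have hint : ∀ i j, Integrable (fun z => α i * β j * max (F0 (X z) i + G0 (X z) j)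
      (F1 (X z) i + G1 (X z) j)) (Pm μ n) := fun i j =>
    int_fin (Pm μ n) hXm (fun σ => α i * β j * max (F0 σ i + G0 σ j) (F1 σ i + G1 σ j))
  have hmain : M * ∫ z, mks b (X z) ∂(Pm μ n) ≤ M * (c * M) := by
    rw [← integral_const_mul]
    calc ∫ z, M * mks b (X z) ∂(Pm μ n)
        ≤ ∫ z, ∑ i, ∑ j, α i * β j
          * max (F0 (X z) i + G0 (X z) j) (F1 (X z) i + G1 (X z) j) ∂(Pm μ n) := by
          refine integral_mono (int_fin (Pm μ n) hXm (fun σ => M * mks b σ)) ?_ hpb
          exact integrable_finsetSum _ fun i _ => integrable_finsetSum _ fun j _ => hint i j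
      _ = ∑ i, ∑ j, α i * β j * ∫ z, max (F0 (X z) i + G0 (X z) j)
          (F1 (X z) i + G1 (X z) j) ∂(Pm μ n) := by
          rw [integral_finsetSum _ fun i _ => integrable_finsetSum _ fun j _ => hint i j]
          refine Finset.sum_congr rfl fun i _ => ?_
          rw [integral_finsetSum _ fun j _ => hint i j]
          refine Finset.sum_congr rfl fun j _ => ?_
          rw [integral_const_mul]
      _ ≤ ∑ i, ∑ j, α i * β j * c := by
          refine Finset.sum_le_sum fun i _ => Finset.sum_le_sum fun j _ => ?_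
          by_cases hi : α i = 0
          · rw [hi]; simp
          · by_cases hj : β j = 0
            · rw [hj]; simp
            · exact mul_le_mul_of_nonneg_left (hE i j hi hj) (mul_nonneg (hα i) (hβ j))
      _ = M * (c * M) := by
          have : ∀ i, ∑ j, α i * β j * c = α i * (M * c) := by
            intro i
            rw [← Finset.sum_mul, ← Finset.mul_sum, hβs]
            ring
          simp only [this]
          rw [← Finset.sum_mul, hαs]
          ring
  rcases eq_or_lt_of_le hM0 with h0 | h0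
  · -- everything vanishes
    have hzero : ∀ z, mks b (X z) = 0 := by
      intro z
      have hA' : A = 0 := le_antisymm (by rw [h0]; exact hAM) hA0
      have hB0 : 0 ≤ B := Finset.sum_nonneg fun j _ =>
        mul_nonneg (by linarith [ind_le (τ j)]) (hb 1 j)
      have hB' : B = 0 := le_antisymm (by rw [h0]; exact hBM) hB0
      have ha : ∀ j, ind (τ j) * b 0 j = 0 := fun j =>
        (Finset.sum_eq_zero_iff_of_nonneg fun j _ => mul_nonneg (ind_nonneg _) (hb 0 j)).1 hA' j
          (mem_univ j)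
      have hbb : ∀ j, (1 - ind (τ j)) * b 1 j = 0 := fun j =>
        (Finset.sum_eq_zero_iff_of_nonneg fun j _ =>
          mul_nonneg (by linarith [ind_le (τ j)]) (hb 1 j)).1 hB' j (mem_univ j)
      have key : ∀ j, ind (X z j) * b 0 j = 0 ∧ (1 - ind (X z j)) * b 1 j = 0 := by
        intro j
        by_cases h00 : b 0 j = 0
        · rw [f0 z j h00, h00]; simp
        · have h11 : b 1 j = 0 := by
            have h2 := ha j
            have h3 := hbb j
            rcases mul_eq_zero.1 h2 with h4 | h4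
            · rw [h4] at h3; simpa using h3
            · exact absurd h4 h00
          rw [f1 z j h00 h11, h11]; simp
      rw [mks_ind]
      simp only [fun j => (key j).1, fun j => (key j).2]
      simp
    change ∫ z, mks b (X z) ∂(Pm μ n) ≤ c * M
    simp only [hzero, integral_zero]
    rw [← h0, mul_zero]
  · exact le_of_mul_le_mul_left hmain h0

/-- finite mixtures are mixtures -/
theorem RM.toMixG (A : RM) {c : ℝ} (h : ∀ x y : ℝ, 0 < x → 0 < y →
    ∑ z, A.w z * CC x y (A.k z x) (A.k z (1 / y)) ≤ c) : MixG c := by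
  classical
  letI : MeasurableSpace A.Z := ⊤
  haveI : MeasurableSingletonClass A.Z := ⟨fun _ => trivial⟩
  let μ : Measure A.Z := ∑ z, ENNReal.ofReal (A.w z) • Measure.dirac z
  have hμ : IsProbabilityMeasure μ := ⟨by
    simp only [μ, Measure.coe_finsetSum, Finset.sum_apply, Measure.smul_apply, smul_eq_mul,
      measure_univ, mul_one]
    rw [← ENNReal.ofReal_sum_of_nonneg fun z _ => A.w0 z, A.w1, ENNReal.ofReal_one]⟩
  refine ⟨A.Z, ⊤, μ, hμ, A.k, A.mono, fun z x => ⟨A.k0 z x, A.k1 z x⟩, fun x => ?_,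
    fun x y hx hy => ?_⟩
  · exact fun s _ => trivial
  · refine le_trans (le_of_eq ?_) (h x y hx hy)
    have hint : ∀ z ∈ (univ : Finset A.Z), Integrable
        (fun ω => CC x y (A.k ω x) (A.k ω (1 / y))) (ENNReal.ofReal (A.w z) • Measure.dirac z) :=
      fun z _ => (Integrable.of_finite).smul_measure ENNReal.ofReal_ne_top
    rw [integral_finsetSum_measure hint]
    refine Finset.sum_congr rfl fun z _ => ?_
    rw [integral_smul_measure, integral_dirac, ENNReal.toReal_ofReal (A.w0 z), smul_eq_mul]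

end

end Pool.Agent.Lib.MP_2c6a66_lc.UX
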