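import Pool.Agent.Lib.MP_2c6a66_lc.UX.Attain
import Pool.Agent.Lib.MP_2c6a66_lc.UX.Stage5
import Pool.Agent.Lib.MP_2c6a66_lc.UX.LowNum
import Pool.Agent.Lib.MP_2c6a66_lc.UX.UpNum

/-! The exact characterisation. -/

namespace Pool.Agent.Lib.MP_2c6a66_lc.UX

open UT (HasUT)

/-- **The exact characterisation.** -/
theorem hasUT_iff (c : ℝ) : (∀ n, HasUT n c) ↔ MixG c := by
  constructor
  · intro h
    refine MixG_closed fun c' hc' => ?_
    obtain ⟨A, hA⟩ := to_mixture h hc'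
    exact A.toMixG hA
  · exact of_mixture

end Pool.Agent.Lib.MP_2c6a66_lc.UX

/-! The value of the game over mixtures. -/

namespace Pool.Agent.Lib.MP_2c6a66_lc.UX

open Finset MeasureTheory

/-- the mixtures in plain form -/
def PlainMix (c : ℝ) : Prop :=
  ∃ (Ω : Type) (_ : MeasurableSpace Ω) (μ : Measure Ω) (_ : IsProbabilityMeasure μ)
    (k : Ω → ℝ → ℝ),
    (∀ ω x, 0 < x → 0 ≤ k ω x ∧ k ω x ≤ 1) ∧
    (∀ ω x y, 0 < x → x ≤ y → k ω x ≤ k ω y) ∧
    (∀ x, 0 < x → Measurable fun ω => k ω x) ∧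
    (∀ x y, 0 < x → 0 < y →
      ∫ ω, ((1 + y) * (k ω x * k ω (1 / y)) + k ω x * (1 - k ω (1 / y))
        + max x y * ((1 - k ω x) * k ω (1 / y))
        + (1 + x) * ((1 - k ω x) * (1 - k ω (1 / y)))) ∂μ ≤ c)

theorem plainMix_iff (c : ℝ) : PlainMix c ↔ MixG c := by
  constructor
  · rintro ⟨Ω, i, μ, j, k, h1, h2, h3, h4⟩
    refine ⟨Ω, i, μ, j, fun ω x => if 0 < x then k ω x else 0, fun ω x y hx hxy => ?_,
      fun ω x => ?_, fun x => ?_, fun x y hx hy => ?_⟩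
    · simp only [if_pos hx, if_pos (hx.trans_le hxy)]
      exact h2 ω x y hx hxy
    · by_cases hx : 0 < x
      · simp only [if_pos hx]; exact h1 ω x hx
      · simp only [if_neg hx]; exact ⟨le_rfl, zero_le_one⟩
    · by_cases hx : 0 < x
      · simp only [if_pos hx]; exact h3 x hx
      · simp only [if_neg hx]; exact measurable_const
    · have hy' : 0 < 1 / y := by positivity
      simp only [if_pos hx, if_pos hy', CC]
      exact h4 x y hx hy
  · rintro ⟨Ω, i, μ, j, k, h1, h2, h3, h4⟩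
    exact ⟨Ω, i, μ, j, k, fun ω x _ => h2 ω x, h1, fun x _ => h3 x, fun x y hx hy => h4 x y hx hy⟩

theorem exists_value : ∃ R : ℝ, 157747 / 100000 ≤ R ∧ R ≤ 157764 / 100000 ∧
    ∀ c, MixG c ↔ R ≤ c := by
  have hb : BddBelow {c : ℝ | MixG c} := ⟨157747 / 100000, fun c hc => mix_lower hc⟩
  have hn : {c : ℝ | MixG c}.Nonempty := ⟨_, mix_upper⟩
  refine ⟨sInf {c : ℝ | MixG c}, le_csInf hn fun c hc => mix_lower hc, csInf_le hb mix_upper,
    fun c => ⟨fun h => csInf_le hb h, fun h => MixG_closed fun c' hc' => ?_⟩⟩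
  obtain ⟨d, hd, hdc⟩ := exists_lt_of_csInf_lt hn (h.trans_lt hc')
  exact MixG_mono hd hdc.le

end Pool.Agent.Lib.MP_2c6a66_lc.UX
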